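import Pool.Agent.MEY.Basic

/-!
# MEY: CNT, the number of blocked heights
-/

set_option autoImplicit false

open Complex Filter Topology Set MeasureTheory
open Pool.Agent.Multibrot (rt push)
open Pool.Agent.Limb (F)
open Pool.Agent.PLim (Cyc fp fpp Rho LocFix)
open Pool.Agent.MEX

namespace Pool.Agent.MEY

namespace CNT_

/-- The first point of a horizontal line outside an `LI` set. -/
lemma exists_first {W : Set ℂ} (hW : LI W) {y x₀ : ℝ} (hx : (x₀ : ℂ) + y * I ∉ W) :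
    ∃ A : ℝ, (∀ x : ℝ, x < A → (x : ℂ) + y * I ∈ W) ∧ (A : ℂ) + y * I ∉ W := by
  set T : Set ℝ := {x : ℝ | (x : ℂ) + y * I ∉ W} with hT
  have hne : T.Nonempty := ⟨x₀, hx⟩
  have hbd : BddBelow T := by
    obtain ⟨R, hR⟩ := hW.inf
    refine ⟨R, fun x hx => ?_⟩
    by_contra hlt
    push Not at hlt
    exact hx (hR _ (by simpa using hlt))
  have hcl : IsClosed T := by
    have : T = (fun x : ℝ => (x : ℂ) + y * I) ⁻¹' Wᶜ := rfl
    rw [this]
    exact hW.op.isClosed_compl.preimage (by fun_prop)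
  refine ⟨sInf T, fun x hx => ?_, hcl.csInf_mem hne hbd⟩
  by_contra h
  exact absurd (csInf_le hbd (show x ∈ T from h)) (not_le.2 hx)

/-- A natural map does not take zeros of the numerator as values. -/
lemma eval_ne {k : ℕ} {b : ℕ → ℂ} {r : Dat} {P : Polynomial ℂ} {U : Set ℂ} {g : ℂ → ℂ}
    (hP : Num k b r P) (hg : NM k b r U g) {ζ : ℂ} (hζ : ζ ∈ U) : P.eval (g ζ) ≠ 0 := by
  rw [← hP.eq (g ζ) (hg.avoid ζ hζ)]
  refine mul_ne_zero (hg.AA_ne hζ) (Finset.prod_ne_zero_iff.2 fun e he => ?_)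
  exact pow_ne_zero _ (sub_ne_zero.2 fun h => hg.avoid ζ hζ (h ▸ he))

/-- The sum over the roots. -/
lemma sum_roots (P : Polynomial ℂ) :
    ∑ w ∈ P.roots.toFinset, (P.rootMultiplicity w + 2) ≤ 3 * P.natDegree := by
  classical
  rw [Finset.sum_add_distrib, Finset.sum_const, smul_eq_mul]
  have h1 : ∑ w ∈ P.roots.toFinset, P.rootMultiplicity w = P.roots.card := by
    rw [← Multiset.toFinset_sum_count_eq]
    exact Finset.sum_congr rfl fun w _ => (Polynomial.count_roots P).symm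
  have h2 : P.roots.toFinset.card ≤ P.roots.card := Multiset.toFinset_card_le _
  have h3 : P.roots.card ≤ P.natDegree := Polynomial.card_roots' P
  rw [h1]
  omega

end CNT_

open CNT_ in
theorem p_CNT (h1 : T_POL) (h3 : T_ENL) (h4 : T_LQZ) (h5 : T_LQI) (h6 : T_ECT) : T_CNT := by
  classical
  intro n k c b r μ V χ S hB hV hS
  obtain ⟨P, hP⟩ := h1 n k c b r μ hB
  have hA : ∀ p : ℕ × ℝ, ∃ A : ℝ, p ∈ S →
      (∀ x : ℝ, x < A → (x : ℂ) + p.2 * I ∈ V p.1) ∧ (A : ℂ) + p.2 * I ∉ V p.1 := by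
    intro p
    by_cases hp : p ∈ S
    · obtain ⟨-, -, -, x, hx⟩ := hS p hp
      obtain ⟨A, hA⟩ := exists_first (hV.cht p.1).li hx
      exact ⟨A, fun _ => hA⟩
    · exact ⟨0, fun h => absurd h hp⟩
  choose A hA using hA
  -- the rays which end at `w`
  set Sw : ℂ → Finset (ℕ × ℝ) := fun w => S.filter fun p =>
    Tendsto (fun x : ℝ => χ p.1 (x + p.2 * I)) (𝓝[<] (A p)) (𝓝 w) with hSw
  set Si : Finset (ℕ × ℝ) := S.filter fun p =>
    Tendsto (fun x : ℝ => χ p.1 (x + p.2 * I)) (𝓝[<] (A p)) (cocompact ℂ) with hSi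
  have hsub : S ⊆ P.roots.toFinset.biUnion Sw ∪ Si := by
    intro p hp
    rcases h3 n k c b r μ V χ P p.1 p.2 (A p) hB hV hP (hA p hp).1 (hA p hp).2 with
      ⟨w, hw, ht⟩ | ht
    · refine Finset.mem_union_left _ (Finset.mem_biUnion.2 ⟨w, ?_, ?_⟩)
      · rw [Multiset.mem_toFinset, Polynomial.mem_roots hP.ne]
        exact hw
      · exact Finset.mem_filter.2 ⟨hp, ht⟩
    · exact Finset.mem_union_right _ (Finset.mem_filter.2 ⟨hp, ht⟩)
  -- the count at a root
  have hw : ∀ w ∈ P.roots.toFinset, (Sw w).card ≤ P.rootMultiplicity w + 2 := by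
    intro w hw
    have hw' : P.IsRoot w := by
      rw [Multiset.mem_toFinset, Polynomial.mem_roots hP.ne] at hw
      exact hw
    obtain ⟨ρ, Q, hρ, hb, hQd, hQw, hQ0, hQe, hQc⟩ := h4 n k c b r μ P w hB hP hw'
    refine h6 n k c b r μ V χ (Metric.ball w ρ \ {w}) Q _ (Sw w) A hB hV
      (Metric.isOpen_ball.sdiff isClosed_singleton) (fun x hx => hb x hx.1)
      (hQd.mono sdiff_subset) (fun x hx => hQ0 x hx.1 (by simpa using hx.2))
      (fun x hx => hQe x hx.1) (fun a T hT => hQc a T fun x hx => ⟨(hT x hx).1.1, (hT x hx).2⟩)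
      ?_
    intro p hp
    obtain ⟨hpS, hpt⟩ := Finset.mem_filter.1 hp
    obtain ⟨hp1, hp2, hp3, -⟩ := hS p hpS
    refine ⟨hp1, hp2, hp3, (hA p hpS).1, ?_, ?_⟩
    · have e1 : ∀ᶠ x : ℝ in 𝓝[<] (A p), χ p.1 (x + p.2 * I) ∈ Metric.ball w ρ :=
        hpt (Metric.ball_mem_nhds w hρ)
      have e2 : ∀ᶠ x : ℝ in 𝓝[<] (A p), x < A p := self_mem_nhdsWithin
      filter_upwards [e1, e2] with x hx1 hx2
      refine ⟨hx1, ?_⟩
      rw [mem_singleton_iff]
      intro he
      have := eval_ne hP (hV.cht p.1).nm ((hA p hpS).1 x hx2)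
      rw [he] at this
      exact this hw'
    · have hQcont : Tendsto Q (𝓝 w) (𝓝 0) := by
        have h := ((hQd w (Metric.mem_ball_self hρ)).differentiableAt
          (Metric.ball_mem_nhds w hρ)).continuousAt.tendsto
        rwa [hQw] at h
      exact hQcont.comp hpt
  -- the count at infinity
  have hi : Si.card + P.natDegree + 2 ≤ 2 * r.E.card := by
    obtain ⟨ρ, Q, hρ, hb, hQd, hQt, hQ0, hQe, hQc⟩ := h5 n k c b r μ P hB hP
    have hO : IsOpen {x : ℂ | ρ < ‖x‖} := isOpen_lt continuous_const continuous_norm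
    have h7 : Si.card ≤ 2 * r.E.card - P.natDegree - 2 := by
      refine h6 n k c b r μ V χ {x : ℂ | ρ < ‖x‖} Q _ Si A hB hV hO (fun x hx => hb x hx) hQd
        (fun x hx => hQ0 x hx) (fun x hx => hQe x hx) (fun a T hT => ?_) ?_
      · have := hQc a T fun x hx => ⟨(hT x hx).1, (hT x hx).2⟩
        omega
      · intro p hp
        obtain ⟨hpS, hpt⟩ := Finset.mem_filter.1 hp
        obtain ⟨hp1, hp2, hp3, -⟩ := hS p hpS
        refine ⟨hp1, hp2, hp3, (hA p hpS).1, ?_, hQt.comp hpt⟩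
        have h8 : Tendsto (fun x : ℝ => ‖χ p.1 (x + p.2 * I)‖) (𝓝[<] (A p)) atTop :=
          tendsto_norm_cocompact_atTop.comp hpt
        exact h8.eventually_gt_atTop ρ
    have := hP.deg
    omega
  have h9 : S.card ≤ ∑ w ∈ P.roots.toFinset, (P.rootMultiplicity w + 2) + Si.card :=
    calc S.card ≤ (P.roots.toFinset.biUnion Sw ∪ Si).card := Finset.card_le_card hsub
      _ ≤ (P.roots.toFinset.biUnion Sw).card + Si.card := Finset.card_union_le _ _
      _ ≤ ∑ w ∈ P.roots.toFinset, (Sw w).card + Si.card :=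
        Nat.add_le_add_right Finset.card_biUnion_le _
      _ ≤ _ := Nat.add_le_add_right (Finset.sum_le_sum hw) _
  have h10 := sum_roots P
  have h11 := hP.deg
  omega

end Pool.Agent.MEY
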