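import Pool.Agent.MEY.Basic

/-!
# MEY: charts at the poles exist
-/

set_option autoImplicit false

open Complex Filter Topology Set MeasureTheory
open Pool.Agent.PLim (Cyc)
open Pool.Agent.MEX

open Pool.Agent.MEX

namespace Pool.Agent.MEY

namespace CYE_

/-- The uniformising coordinate at a pole. -/
lemma exists_coord {n k : ℕ} {c : ℂ} {b : ℕ → ℂ} {r : Dat} {μ : ℂ} (hb : Bad n k c b r μ) (j : ℕ) :
    ∃ (ρ : ℝ) (u s e : ℂ → ℂ), 0 < ρ ∧
      (∀ x ∈ Metric.ball (b j) ρ, x ∈ r.E → x = b j) ∧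
      (∀ x ∈ Metric.ball (b j) ρ, s x ≠ 0 ∧ s x ^ 2 = qq r (b j) x) ∧
      (∀ x ∈ Metric.ball (b j) ρ, e x ≠ 0 ∧ u x = (x - b j) * e x ∧
        HasDerivAt u (e x * s x) x) ∧ u (b j) = 0 ∧ e (b j) * s (b j) = 1 := by
  set B : ℂ := b j with hB
  -- a neighbourhood of `B`
  have hev : ∀ᶠ x in 𝓝 B, (x ∈ r.E → x = B) ∧
      qq r (b j) x ∈ slitPlane := by
    refine Filter.Eventually.and ?_ ?_
    · exact E_eventually r B
    · have hc : ContinuousAt (qq r (b j)) B := (hb.qq_diff (fun _ => rfl)).continuousAt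
      refine hc.eventually_mem (isOpen_slitPlane.mem_nhds ?_)
      rw [hB, qq_self]
      exact one_mem_slitPlane
  obtain ⟨ρ, hρ, hball⟩ := Metric.eventually_nhds_iff_ball.1 hev
  set s : ℂ → ℂ := fun x => exp (log (qq r (b j) x) / 2) with hs
  have hsd : ∀ x ∈ Metric.ball B ρ, DifferentiableAt ℂ s x := by
    intro x hx
    have h1 := hb.qq_diff (hball x hx).1
    exact ((h1.clog (hball x hx).2).div_const 2).cexp
  have hsq : ∀ x ∈ Metric.ball B ρ, s x ^ 2 = qq r (b j) x := by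
    intro x hx
    rw [hs]
    simp only
    rw [← exp_nat_mul]
    push_cast
    rw [mul_div_cancel₀ _ (two_ne_zero)]
    exact exp_log (slitPlane_ne_zero (hball x hx).2)
  have hsB : s B = 1 := by
    simp [hs, hB, qq_self]
  have hBmem : B ∈ Metric.ball B ρ := Metric.mem_ball_self hρ
  -- the primitive
  have hds : DifferentiableOn ℂ (dslope s B) (Metric.ball B ρ) := by
    rw [Complex.differentiableOn_dslope (Metric.isOpen_ball.mem_nhds hBmem)]
    exact fun x hx => (hsd x hx).differentiableWithinAt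
  obtain ⟨E, hEB, hE⟩ := hds.isExactOn_ball.with_val_at B 0
  set u : ℂ → ℂ := fun x => (x - B) * exp (E x) with hu
  refine ⟨ρ, u, s, fun x => exp (E x), hρ, fun x hx => (hball x hx).1,
    fun x hx => ⟨exp_ne_zero _, hsq x hx⟩, fun x hx => ⟨exp_ne_zero _, rfl, ?_⟩, ?_, ?_⟩
  · have h1 : HasDerivAt u (1 * exp (E x) + (x - B) * (exp (E x) * dslope s B x)) x :=
      ((hasDerivAt_id x).sub_const B).mul (hE x hx).cexp
    have h2 : (x - B) * dslope s B x = s x - 1 := by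
      have := sub_smul_dslope s B x
      rw [smul_eq_mul, hsB] at this
      exact this
    have h3 : 1 * exp (E x) + (x - B) * (exp (E x) * dslope s B x) = exp (E x) * s x := by
      linear_combination exp (E x) * h2
    rw [h3] at h1
    exact h1
  · simp [hu]
  · show exp (E B) * s B = 1
    rw [hEB, hsB, exp_zero, one_mul]

end CYE_

open CYE_ in
theorem p_CYE : T_CYE := by
  intro n k c b r μ j0 hBad
  have hk : 0 < k := hBad.cyc.hp
  set j : ℕ := j0 with hjdef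
  have hbj : b j0 = b j := rfl
  obtain ⟨ρ, u, s, e, hρ, hav, hs, hu, huB, hes⟩ := exists_coord hBad j
  set B : ℂ := b j with hB
  have hBmem : B ∈ Metric.ball B ρ := Metric.mem_ball_self hρ
  have hudiff : DifferentiableOn ℂ u (Metric.ball B ρ) := fun x hx =>
    (hu x hx).2.2.differentiableAt.differentiableWithinAt
  have huan : AnalyticAt ℂ u B := hudiff.analyticAt (Metric.isOpen_ball.mem_nhds hBmem)
  have hstr : HasStrictDerivAt u 1 B := by
    have h1 := huan.hasStrictDerivAt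
    rw [(hu B hBmem).2.2.deriv, hes] at h1
    exact h1
  have hF := hstr.hasStrictFDerivAt_equiv one_ne_zero
  set Φ := hF.toOpenPartialHomeomorph u with hΦ
  have hΦc : ∀ x, Φ x = u x := fun x => rfl
  have hBs : B ∈ Φ.source := hF.mem_toOpenPartialHomeomorph_source
  have h0t : (0 : ℂ) ∈ Φ.target := by
    have := hF.image_mem_toOpenPartialHomeomorph_target
    rwa [huB] at this
  have hX0 : Φ.symm 0 = B := by
    have := Φ.left_inv hBs
    rwa [hΦc, huB] at this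
  have hev : ∀ᶠ w in 𝓝 (0 : ℂ), w ∈ Φ.target ∧ Φ.symm w ∈ Metric.ball B ρ := by
    refine Filter.Eventually.and (Φ.open_target.mem_nhds h0t) ?_
    have hc : ContinuousAt Φ.symm 0 := Φ.symm.continuousAt h0t
    refine hc.eventually_mem (Metric.isOpen_ball.mem_nhds ?_)
    rw [hX0]
    exact hBmem
  obtain ⟨ρ₀, hρ₀, hball⟩ := Metric.eventually_nhds_iff_ball.1 hev
  have huX : ∀ w ∈ Metric.ball (0 : ℂ) ρ₀, u (Φ.symm w) = w := fun w hw =>
    Φ.right_inv (hball w hw).1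
  have hXd : ∀ w ∈ Metric.ball (0 : ℂ) ρ₀,
      HasDerivAt Φ.symm (e (Φ.symm w) * s (Φ.symm w))⁻¹ w := by
    intro w hw
    obtain ⟨h1, h2⟩ := hball w hw
    exact Φ.hasDerivAt_symm h1 (mul_ne_zero (hu _ h2).1 (hs _ h2).1) (hu _ h2).2.2
  have hexp : ∀ ζ : ℂ, ζ.re < Real.log ρ₀ → exp ζ ∈ Metric.ball (0 : ℂ) ρ₀ := by
    intro ζ hζ
    rw [mem_ball_zero_iff, norm_exp]
    exact (Real.lt_log_iff_exp_lt hρ₀).1 hζ
  have hXne : ∀ w ∈ Metric.ball (0 : ℂ) ρ₀, w ≠ 0 → Φ.symm w ≠ B := by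
    intro w hw h0 he
    apply h0
    rw [← huX w hw, he, huB]
  have hder : ∀ ζ : ℂ, ζ.re < Real.log ρ₀ →
      HasDerivAt (fun ζ => Φ.symm (exp ζ))
        ((Φ.symm (exp ζ) - B) / s (Φ.symm (exp ζ))) ζ := by
    intro ζ hζ
    have hw := hexp ζ hζ
    have h1 := (hXd _ hw).comp ζ (Complex.hasDerivAt_exp ζ)
    have h2 := huX _ hw
    have h3 := hu _ (hball _ hw).2
    have h4 := (hs _ (hball _ hw).2).1
    rw [h3.2.1] at h2
    have h5 : (e (Φ.symm (exp ζ)) * s (Φ.symm (exp ζ)))⁻¹ * exp ζ =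
        (Φ.symm (exp ζ) - B) / s (Φ.symm (exp ζ)) := by
      have h6 := h3.1
      nth_rewrite 3 [← h2]
      field_simp
    rw [h5] at h1
    exact h1
  refine ⟨Real.log ρ₀, fun ζ => Φ.symm (exp ζ), ⟨?_, ?_, ?_⟩, ⟨?_, ?_, ?_, hBad.hol⟩, ?_⟩
  · exact isOpen_lt continuous_re continuous_const
  · intro ζ hζ t ht
    show (ζ - (t : ℂ)).re < _
    rw [sub_re, ofReal_re]
    have : ζ.re < Real.log ρ₀ := hζ
    linarith
  · exact ⟨_, fun ζ hζ => hζ⟩
  · exact fun ζ hζ => (hder ζ hζ).differentiableAt.differentiableWithinAt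
  · intro ζ hζ hi
    have hw := hexp ζ hζ
    have h1 := hXne _ hw (exp_ne_zero _)
    exact h1 (hav _ (hball _ hw).2 hi)
  · intro ζ hζ
    have hw := hexp ζ hζ
    have h1 := hXne _ hw (exp_ne_zero _)
    have h2 := hs _ (hball _ hw).2
    rw [(hder ζ hζ).deriv, AA_eq_qq h1, ← h2.2]
    have h3 : Φ.symm (exp ζ) - B ≠ 0 := sub_ne_zero.2 h1
    have h4 := h2.1
    show ((Φ.symm (exp ζ) - B) / s (Φ.symm (exp ζ))) ^ 2 *
      (s (Φ.symm (exp ζ)) ^ 2 / (Φ.symm (exp ζ) - B) ^ 2) = 1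
    field_simp
  · have h1 : HasDerivAt Φ.symm 1 0 := by
      have := hXd 0 (Metric.mem_ball_self hρ₀)
      rw [hX0, hes, inv_one] at this
      exact this
    have h2 := hasDerivAt_iff_tendsto_slope.1 h1
    have h3 := h2.comp tendsto_exp_comap_re_atBot_nhdsNE
    refine h3.congr fun ζ => ?_
    show slope Φ.symm 0 (exp ζ) = (Φ.symm (exp ζ) - b j0) * exp (-ζ)
    rw [slope_def_field, hX0, hbj, sub_zero, exp_neg, div_eq_mul_inv]

end Pool.Agent.MEY
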