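import Pool.Agent.MEY.Basic
import Pool.Agent.PLim.TRL

/-!
# MEY: measurability and periodicity of the mass defect
-/

set_option autoImplicit false

open Complex Filter Topology Set MeasureTheory
open Pool.Agent.Multibrot (rt push)
open Pool.Agent.Limb (F)
open Pool.Agent.PLim (Cyc fp fpp Rho LocFix)
open Pool.Agent.MEX

namespace Pool.Agent.MEY

namespace DDM_

lemma PP_meas (n : ℕ) (c : ℂ) {g : ℂ → ENNReal} (hg : Measurable g) : Measurable (PP n c g) := by
  unfold PP
  refine Finset.measurable_fun_sum _ fun j _ => ?_
  have h := Pool.Agent.PLim.TRL_rtm n c j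
  refine Measurable.mul ?_ (hg.comp h)
  exact (((h.pow_const (n - 1)).const_mul (n : ℂ)).pow_const 2).inv.enorm

lemma PP_iter_meas (n : ℕ) (c : ℂ) {g : ℂ → ENNReal} (hg : Measurable g) (m : ℕ) :
    Measurable ((PP n c)^[m] g) := by
  induction m with
  | zero => simpa using hg
  | succ m ih =>
    rw [Function.iterate_succ_apply']
    exact PP_meas n c ih

end DDM_

open DDM_ in
theorem p_DDM : T_DDM := by
  intro n k c b r μ V χ J hB hM
  have hc := hM.cht J
  have hph : Measurable (phe k b r) := phe_measurable hB.hol
  have hg : Measurable (fun x : ℂ => (PP n c)^[k] (phe k b r) x / phe k b r x - 1) :=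
    ((PP_iter_meas n c hph k).div hph).sub measurable_const
  refine ⟨?_, ?_⟩
  · have hV : MeasurableSet (V J) := hc.li.op.measurableSet
    have h1 : Measurable ((V J).domRestrict (χ J)) :=
      (continuousOn_iff_continuous_domRestrict.1 hc.nm.diff.continuousOn).measurable
    unfold Dfc
    refine measurable_of_restrict_of_restrict_compl hV ?_ ?_
    · have h2 : (V J).domRestrict ((V J).indicator
          (fun ζ => (PP n c)^[k] (phe k b r) (χ J ζ) / phe k b r (χ J ζ) - 1)) =
          (fun x : ℂ => (PP n c)^[k] (phe k b r) x / phe k b r x - 1) ∘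
            ((V J).domRestrict (χ J)) := by
        funext x
        simp [domRestrict, x.2]
      rw [h2]
      exact hg.comp h1
    · have h2 : (V J)ᶜ.domRestrict ((V J).indicator
          (fun ζ => (PP n c)^[k] (phe k b r) (χ J ζ) / phe k b r (χ J ζ) - 1)) = fun _ => 0 := by
        funext x
        have hx : (x : ℂ) ∉ V J := x.2
        simp [domRestrict, hx]
      rw [h2]
      exact measurable_const
  · intro ζ
    unfold Dfc
    by_cases h : ζ ∈ V J
    · rw [indicator_of_mem ((hM.vper J ζ).2 h), indicator_of_mem h, hM.cper J ζ h]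
    · rw [indicator_of_notMem (fun h' => h ((hM.vper J ζ).1 h')), indicator_of_notMem h]

end Pool.Agent.MEY
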