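import Pool.Agent.MEY.Basic

/-!
# MEY, DEM: the mass defect of several steps
-/

set_option autoImplicit false

open Complex Filter Topology Set MeasureTheory
open Pool.Agent.Multibrot (rt push)
open Pool.Agent.Limb (F)
open Pool.Agent.PLim (Cyc fp fpp Rho LocFix)
open Pool.Agent.MEX

namespace Pool.Agent.MEY

namespace DEM_

lemma PP_mono (n : ℕ) (c : ℂ) {g₁ g₂ : ℂ → ENNReal} (h : g₁ ≤ g₂) : PP n c g₁ ≤ PP n c g₂ :=
  fun _ => Finset.sum_le_sum fun _ _ => mul_le_mul_right (h _) _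

lemma PP_add (n : ℕ) (c : ℂ) (g₁ g₂ : ℂ → ENNReal) :
    PP n c (g₁ + g₂) = PP n c g₁ + PP n c g₂ := by
  funext y
  simp only [PP, Pi.add_apply, mul_add, Finset.sum_add_distrib]

lemma iter_mono (n : ℕ) (c : ℂ) (m : ℕ) : ∀ {g₁ g₂ : ℂ → ENNReal}, g₁ ≤ g₂ →
    (PP n c)^[m] g₁ ≤ (PP n c)^[m] g₂ := by
  induction m with
  | zero => intro g₁ g₂ h; simpa using h
  | succ m ih =>
    intro g₁ g₂ h
    rw [Function.iterate_succ_apply, Function.iterate_succ_apply]
    exact ih (PP_mono n c h)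

lemma iter_add (n : ℕ) (c : ℂ) (m : ℕ) : ∀ g₁ g₂ : ℂ → ENNReal,
    (PP n c)^[m] (g₁ + g₂) = (PP n c)^[m] g₁ + (PP n c)^[m] g₂ := by
  induction m with
  | zero => intro g₁ g₂; rfl
  | succ m ih =>
    intro g₁ g₂
    rw [Function.iterate_succ_apply, Function.iterate_succ_apply, Function.iterate_succ_apply,
      PP_add, ih]

lemma iter_sub (n : ℕ) (c : ℂ) (m : ℕ) (g₁ g₂ : ℂ → ENNReal) (y : ℂ) :
    (PP n c)^[m] g₁ y - (PP n c)^[m] g₂ y ≤ (PP n c)^[m] (g₁ - g₂) y := by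
  rw [tsub_le_iff_left]
  have h : g₁ ≤ g₂ + (g₁ - g₂) := fun x => le_add_tsub
  have h2 := iter_mono n c m h y
  rwa [iter_add, Pi.add_apply] at h2

lemma iter_int (hP : T_PPM) {n : ℕ} (c : ℂ) (hn : 2 ≤ n) (m : ℕ) : ∀ g : ℂ → ENNReal,
    Measurable g → Measurable ((PP n c)^[m] g) ∧ ∫⁻ y, (PP n c)^[m] g y ≤ ∫⁻ x, g x := by
  induction m with
  | zero => intro g hg; exact ⟨hg, le_refl _⟩
  | succ m ih =>
    intro g hg
    obtain ⟨h1, h2⟩ := hP n c g hn hg
    obtain ⟨h3, h4⟩ := ih _ h1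
    rw [Function.iterate_succ_apply]
    exact ⟨h3, h4.trans h2⟩

end DEM_

/-- DEM: the mass defect of several steps. -/
theorem p_DEM (h2 : T_PPM) : T_DEM := by
  intro n k c b r μ m hB
  have hμ := hB.m0
  have hm : Measurable (phe k b r) := phe_measurable hB.hol
  induction m with
  | zero => simp
  | succ m ih =>
    have hP1 := (h2 n c _ hB.hn hm).1
    obtain ⟨h3, _⟩ := DEM_.iter_int h2 c hB.hn m _ hm
    have h4 := (DEM_.iter_int h2 c hB.hn m (PP n c (phe k b r) - phe k b r) (hP1.sub hm)).2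
    have h5 : ∀ y, (PP n c)^[m + 1] (phe k b r) y - phe k b r y ≤
        (PP n c)^[m] (PP n c (phe k b r) - phe k b r) y +
          ((PP n c)^[m] (phe k b r) y - phe k b r y) := by
      intro y
      refine (tsub_le_tsub_add_tsub (b := (PP n c)^[m] (phe k b r) y)).trans ?_
      gcongr
      rw [Function.iterate_succ_apply]
      exact DEM_.iter_sub n c m _ _ y
    calc ∫⁻ y, ((PP n c)^[m + 1] (phe k b r) y - phe k b r y)
        ≤ ∫⁻ y, ((PP n c)^[m] (PP n c (phe k b r) - phe k b r) y +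
          ((PP n c)^[m] (phe k b r) y - phe k b r y)) := lintegral_mono h5
      _ = (∫⁻ y, (PP n c)^[m] (PP n c (phe k b r) - phe k b r) y) +
          ∫⁻ y, ((PP n c)^[m] (phe k b r) y - phe k b r y) :=
          lintegral_add_right _ (h3.sub hm)
      _ ≤ ENNReal.ofReal (2 * Real.pi * r.m) + ENNReal.ofReal (2 * Real.pi * m * r.m) :=
          add_le_add (h4.trans hB.mass) ih
      _ = ENNReal.ofReal (2 * Real.pi * (m + 1 : ℕ) * r.m) := by
          rw [← ENNReal.ofReal_add (by positivity) (by positivity)]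
          congr 1
          push_cast
          ring

end Pool.Agent.MEY
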