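import Pool.Agent.MEY.Basic

/-!
# MEY: the number of rays which end in a given region
-/

set_option autoImplicit false

open Complex Filter Topology Set MeasureTheory
open Pool.Agent.Multibrot (rt push)
open Pool.Agent.Limb (F)
open Pool.Agent.PLim (Cyc fp fpp Rho LocFix)
open Pool.Agent.MEX

namespace Pool.Agent.MEY

namespace ECT_

/-- a common small step -/
lemma exists_step (S : Finset (ℕ × ℝ)) (P : ℕ × ℝ → ℝ → Prop)
    (h : ∀ p ∈ S, ∃ s : ℝ, 0 < s ∧ ∀ t : ℝ, 0 < t → t < s → P p t) :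
    ∃ s : ℝ, 0 < s ∧ ∀ p ∈ S, ∀ t : ℝ, 0 < t → t < s → P p t := by
  classical
  induction S using Finset.induction_on with
  | empty => exact ⟨1, one_pos, by simp⟩
  | insert q S hq ih =>
    obtain ⟨s₁, h1, h2⟩ := ih fun p hp => h p (Finset.mem_insert_of_mem hp)
    obtain ⟨s₂, h3, h4⟩ := h q (Finset.mem_insert_self _ _)
    refine ⟨min s₁ s₂, lt_min h1 h3, fun p hp t ht ht2 => ?_⟩
    rcases Finset.mem_insert.1 hp with rfl | hp
    · exact h4 t ht (lt_of_lt_of_le ht2 (min_le_right _ _))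
    · exact h2 p hp t ht (lt_of_lt_of_le ht2 (min_le_left _ _))

end ECT_

open ECT_ in
theorem p_ECT (h1 : T_EQE) (h2 : T_SAM) : T_ECT := by
  classical
  intro n k c b r μ V χ O Q N S A hB hM hO hOb hQ hQ0 hQ2 hN hS
  obtain ⟨s₀, hs₀, hs1⟩ := exists_step S
    (fun p t => χ p.1 (((A p - t : ℝ) : ℂ) + p.2 * I) ∈ O) (by
      intro p hp
      have h3 := (hS p hp).2.2.2.2.1
      rw [eventually_nhdsWithin_iff, Metric.eventually_nhds_iff] at h3
      obtain ⟨ε, hε, h4⟩ := h3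
      refine ⟨ε, hε, fun t ht ht2 => ?_⟩
      refine h4 (y := A p - t) ?_ (by simpa using ht)
      rw [Real.dist_eq, sub_sub_cancel_left, abs_neg, abs_of_pos ht]
      exact ht2)
  have key : ∀ p ∈ S, Q (χ p.1 (((A p - s₀ / 2 : ℝ) : ℂ) + p.2 * I)) = ((s₀ / 2 : ℝ) : ℂ) ^ 2 ∧
      deriv Q (χ p.1 (((A p - s₀ / 2 : ℝ) : ℂ) + p.2 * I)) *
        deriv (χ p.1) (((A p - s₀ / 2 : ℝ) : ℂ) + p.2 * I) = -(s₀ : ℂ) := by
    intro p hp
    obtain ⟨hk, hp0, hp1, hV, -, ht⟩ := hS p hp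
    have hc := hM.cht p.1
    have h3 := h1 k b r O (V p.1) Q (χ p.1) p.2 (A p) (A p - s₀) hO hOb hQ hQ0 hQ2 hc.li.op hc.nm
      (by linarith) (by
        intro x hx
        refine ⟨hV x hx.2, ?_⟩
        have h4 := hs1 p hp (A p - x) (by linarith [hx.2]) (by linarith [hx.1])
        simpa using h4) ht (A p - s₀ / 2) ⟨by linarith, by linarith⟩
    obtain ⟨h4, h5⟩ := h3
    refine ⟨?_, ?_⟩
    · rw [h4]
      push_cast
      ring
    · rw [h5]
      push_cast
      ring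
  have hinj : Set.InjOn (fun p : ℕ × ℝ => χ p.1 (((A p - s₀ / 2 : ℝ) : ℂ) + p.2 * I)) S := by
    intro p hp q hq hpq
    simp only at hpq
    have hp' : p ∈ S := hp
    have hq' : q ∈ S := hq
    obtain ⟨-, h3⟩ := key p hp'
    obtain ⟨-, h4⟩ := key q hq'
    have hs₀' : (s₀ : ℂ) ≠ 0 := by exact_mod_cast hs₀.ne'
    have hd0 : deriv Q (χ p.1 (((A p - s₀ / 2 : ℝ) : ℂ) + p.2 * I)) ≠ 0 := by
      intro h5
      rw [h5, zero_mul] at h3
      exact hs₀' (neg_eq_zero.1 h3.symm)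
    have hd : deriv (χ p.1) (((A p - s₀ / 2 : ℝ) : ℂ) + p.2 * I) =
        deriv (χ q.1) (((A q - s₀ / 2 : ℝ) : ℂ) + q.2 * I) := by
      rw [← hpq] at h4
      exact mul_left_cancel₀ hd0 (h3.trans h4.symm)
    obtain ⟨hpk, hp0, hp1, hpV, -, -⟩ := hS p hp'
    obtain ⟨hqk, hq0, hq1, hqV, -, -⟩ := hS q hq'
    obtain ⟨h5, m, h6⟩ := h2 n k c b r μ V χ p.1 q.1 _ _ hB hM (hpV (A p - s₀ / 2) (by linarith))
      (hqV (A q - s₀ / 2) (by linarith)) hpq hd
    have h7 := cyc_inj hB.cyc h5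
    have h8 : p.1 = q.1 := by
      rwa [Nat.mod_eq_of_lt hpk, Nat.mod_eq_of_lt hqk] at h7
    have h9 : p.2 - q.2 = m * (2 * Real.pi) := by
      have := congrArg Complex.im h6
      simpa using this
    have h10 : p.2 = q.2 := by
      have hpi := Real.pi_pos
      have hm : m = 0 := by
        have ha : (m : ℝ) < 1 := by
          by_contra hcon
          push Not at hcon
          nlinarith
        have hb : (-1 : ℝ) < m := by
          by_contra hcon
          push Not at hcon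
          nlinarith
        have ha' : m < 1 := by exact_mod_cast ha
        have hb' : -1 < m := by exact_mod_cast hb
        omega
      rw [hm] at h9
      simp at h9
      linarith
    exact Prod.ext h8 h10
  have hcard := Finset.card_image_of_injOn hinj
  rw [← hcard]
  refine hN (((s₀ / 2 : ℝ) : ℂ) ^ 2) _ fun x hx => ?_
  obtain ⟨p, hp, rfl⟩ := Finset.mem_image.1 hx
  exact ⟨hs1 p hp (s₀ / 2) (by linarith) (by linarith), (key p hp).1⟩

end Pool.Agent.MEY
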