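import Pool.Agent.MEY.Basic

/-!
# ENL: a horizontal ray which leaves the domain of the chart ends at a zero or at infinity
-/

set_option autoImplicit false

open Complex Filter Topology Set MeasureTheory
open Pool.Agent.Multibrot (rt push)
open Pool.Agent.Limb (F)
open Pool.Agent.PLim (Cyc fp fpp Rho LocFix)
open Pool.Agent.MEX

namespace Pool.Agent.MEY

namespace ENL_

/-! ### gluing -/

theorem nm_union {k : ℕ} {b : ℕ → ℂ} {r : Dat} {U U' : Set ℂ} {g : ℂ → ℂ} (hU : IsOpen U)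
    (hU' : IsOpen U') (h : NM k b r U g) (h' : NM k b r U' g) : NM k b r (U ∪ U') g := by
  refine ⟨?_, ?_, ?_, h.hol⟩
  · intro ζ hζ
    rcases hζ with hζ | hζ
    · exact ((h.diff ζ hζ).differentiableAt (hU.mem_nhds hζ)).differentiableWithinAt
    · exact ((h'.diff ζ hζ).differentiableAt (hU'.mem_nhds hζ)).differentiableWithinAt
  · rintro ζ (hζ | hζ)
    · exact h.avoid ζ hζ
    · exact h'.avoid ζ hζ
  · rintro ζ (hζ | hζ)
    · exact h.nat ζ hζ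
    · exact h'.nat ζ hζ

/-- the rectangle -/
def Rc (x₁ x₂ y e : ℝ) : Set ℂ := {ζ : ℂ | x₁ < ζ.re ∧ ζ.re < x₂ ∧ y - e < ζ.im ∧ ζ.im < y + e}

theorem rc_open (x₁ x₂ y e : ℝ) : IsOpen (Rc x₁ x₂ y e) := by
  have h1 : IsOpen {ζ : ℂ | x₁ < ζ.re} := isOpen_lt continuous_const continuous_re
  have h2 : IsOpen {ζ : ℂ | ζ.re < x₂} := isOpen_lt continuous_re continuous_const
  have h3 : IsOpen {ζ : ℂ | y - e < ζ.im} := isOpen_lt continuous_const continuous_im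
  have h4 : IsOpen {ζ : ℂ | ζ.im < y + e} := isOpen_lt continuous_im continuous_const
  have h5 := h1.inter (h2.inter (h3.inter h4))
  exact h5

theorem rc_convex (x₁ x₂ y e : ℝ) : Convex ℝ (Rc x₁ x₂ y e) := by
  have h5 := (convex_halfSpace_re_gt x₁).inter ((convex_halfSpace_re_lt x₂).inter
    ((convex_halfSpace_im_gt (y - e)).inter (convex_halfSpace_im_lt (y + e))))
  exact h5

/-- the intersection of a left invariant set with the rectangle is connected -/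
theorem pre_rect {W : Set ℂ} (hl : ∀ ζ ∈ W, ∀ s : ℝ, 0 ≤ s → ζ - s ∈ W) {x₁ x x₂ y e : ℝ}
    (h1 : x₁ < x) (h2 : x < x₂) (he : 0 < e)
    (hW : ∀ ζ : ℂ, ζ.re ≤ x → y - e < ζ.im → ζ.im < y + e → ζ ∈ W) :
    IsPreconnected (W ∩ Rc x₁ x₂ y e) := by
  set q : ℂ := ((((x₁ + x) / 2 : ℝ) : ℂ) + y * I) with hq
  have hL : Rc x₁ x y e ⊆ W ∩ Rc x₁ x₂ y e := by
    rintro ζ ⟨a1, a2, a3, a4⟩
    exact ⟨hW ζ a2.le a3 a4, a1, a2.trans h2, a3, a4⟩
  have hqL : q ∈ Rc x₁ x y e := by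
    refine ⟨?_, ?_, ?_, ?_⟩ <;> simp [hq] <;> linarith
  refine isPreconnected_of_forall q fun ζ hζ => ?_
  obtain ⟨hζW, a1, a2, a3, a4⟩ := hζ
  set T : ℝ := max 0 (ζ.re - (x₁ + x) / 2) with hT
  have hT0 : 0 ≤ T := le_max_left _ _
  have hT1 : ζ.re - (x₁ + x) / 2 ≤ T := le_max_right _ _
  have hT2 : x₁ < ζ.re - T := by
    rcases le_total 0 (ζ.re - (x₁ + x) / 2) with h | h
    · rw [hT, max_eq_right h]
      linarith
    · rw [hT, max_eq_left h]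
      linarith
  set S : Set ℂ := (fun s : ℝ => ζ - s) '' Icc 0 T with hS
  have hSc : IsPreconnected S := by
    refine isPreconnected_Icc.image _ ?_
    fun_prop
  have hSW : S ⊆ W ∩ Rc x₁ x₂ y e := by
    rintro _ ⟨s, hs, rfl⟩
    refine ⟨hl ζ hζW s hs.1, ?_, ?_, ?_, ?_⟩
    · simp only [sub_re, ofReal_re]
      linarith [hs.2]
    · simp only [sub_re, ofReal_re]
      linarith [hs.1]
    · simp only [sub_im, ofReal_im, sub_zero]
      exact a3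
    · simp only [sub_im, ofReal_im, sub_zero]
      exact a4
  refine ⟨S ∪ Rc x₁ x y e, union_subset hSW hL, Or.inr hqL, Or.inl ⟨0, ⟨le_rfl, hT0⟩, by simp⟩, ?_⟩
  refine IsPreconnected.union (ζ - (T : ℂ)) ⟨T, ⟨hT0, le_rfl⟩, rfl⟩ ?_ hSc
    (rc_convex x₁ x y e).isPreconnected
  refine ⟨?_, ?_, ?_, ?_⟩
  · simp only [sub_re, ofReal_re]
    linarith
  · simp only [sub_re, ofReal_re]
    linarith
  · simp only [sub_im, ofReal_im, sub_zero]
    exact a3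
  · simp only [sub_im, ofReal_im, sub_zero]
    exact a4

/-! ### the ray does not return to a compact set of regular points -/

theorem key1 (h1 : T_LOCN) (h2 : T_UNQ) {n k : ℕ} {c : ℂ} {b : ℕ → ℂ} {r : Dat} {μ : ℂ} {V : ℕ → Set ℂ}
    {χ : ℕ → ℂ → ℂ} {j : ℕ} {y A : ℝ} (hB : Bad n k c b r μ) (hM : MaxC k b r V χ)
    (hray : ∀ x : ℝ, x < A → (x : ℂ) + y * I ∈ V j) (hend : (A : ℂ) + y * I ∉ V j)
    (x₀ : ℂ) (hx₀ : x₀ ∉ r.E) (hA₀ : AA k b r x₀ ≠ 0) :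
    ∃ ε : ℝ, 0 < ε ∧ ∀ᶠ x : ℝ in 𝓝[<] A, χ j (x + y * I) ∉ Metric.ball x₀ ε := by
  obtain ⟨ρ, ε, hρ, hε, hloc⟩ := h1 k b r x₀ hB.hol hx₀ hA₀
  refine ⟨ε, hε, ?_⟩
  have hev : ∀ᶠ x : ℝ in 𝓝[<] A, A - ρ / 4 < x ∧ x < A := by
    have : Ioo (A - ρ / 4) A ∈ 𝓝[<] A := Ioo_mem_nhdsLT (by linarith)
    exact this
  filter_upwards [hev] with x hx hxb
  obtain ⟨hx1, hx2⟩ := hx
  set z₀ : ℂ := (x : ℂ) + y * I with hz₀
  have hz₀V : z₀ ∈ V j := hray x hx2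
  have hli := (hM.cht j).li
  have hnm := (hM.cht j).nm
  obtain ⟨g, hg, hg0, hg1⟩ := hloc _ hxb (deriv (χ j) z₀) (hnm.nat z₀ hz₀V)
  -- the translated natural map
  have hG₁ := hg.comp_add Metric.isOpen_ball (-z₀)
  set g₁ : ℂ → ℂ := fun w => g (-z₀ + w) with hg₁
  have hg₁0 : g₁ z₀ = χ j z₀ := by
    show g (-z₀ + z₀) = χ j z₀
    rw [neg_add_cancel, hg0]
  have hg₁1 : deriv g₁ z₀ = deriv (χ j) z₀ := by
    rw [hg₁, deriv_comp_add', neg_add_cancel, hg1]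
  -- the height of the rectangle
  obtain ⟨e₀, he₀, hball⟩ := Metric.isOpen_iff.1 hli.op z₀ hz₀V
  set e : ℝ := min e₀ (ρ / 4) with he
  have hepos : 0 < e := lt_min he₀ (by linarith)
  have he1 : e ≤ e₀ := min_le_left _ _
  have he2 : e ≤ ρ / 4 := min_le_right _ _
  have hstrip : ∀ ζ : ℂ, ζ.re ≤ x → y - e < ζ.im → ζ.im < y + e → ζ ∈ V j := by
    intro ζ ha hb hc
    have h3 : (x : ℂ) + ζ.im * I ∈ V j := by
      apply hball
      rw [Metric.mem_ball, dist_eq_norm]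
      have h4 : (x : ℂ) + ζ.im * I - z₀ = ((ζ.im - y : ℝ) : ℂ) * I := by
        rw [hz₀]
        push_cast
        ring
      rw [h4, norm_mul, norm_I, mul_one, norm_real, Real.norm_eq_abs, abs_lt]
      constructor <;> linarith
    have h5 := hli.left _ h3 (x - ζ.re) (by linarith)
    have h6 : (x : ℂ) + ζ.im * I - ((x - ζ.re : ℝ) : ℂ) = ζ := by
      apply Complex.ext <;> simp
    rwa [h6] at h5
  set Q : Set ℂ := Rc (x - ρ / 4) (A + ρ / 4) y e with hQ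
  have hQball : ∀ ζ ∈ Q, -z₀ + ζ ∈ Metric.ball (0 : ℂ) ρ := by
    rintro ζ ⟨a1, a2, a3, a4⟩
    rw [mem_ball_zero_iff]
    refine (Complex.norm_le_abs_re_add_abs_im _).trans_lt ?_
    have e1 : (-z₀ + ζ).re = ζ.re - x := by
      rw [hz₀]
      simp
      ring
    have e2 : (-z₀ + ζ).im = ζ.im - y := by
      rw [hz₀]
      simp
      ring
    rw [e1, e2]
    have e3 : |ζ.re - x| < ρ / 2 := by
      rw [abs_lt]
      constructor <;> linarith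
    have e4 : |ζ.im - y| < ρ / 4 := by
      rw [abs_lt]
      constructor <;> linarith
    linarith
  have hG₁Q : NM k b r Q g₁ := hG₁.mono hQball
  have hQo : IsOpen Q := rc_open _ _ _ _
  have hz₀Q : z₀ ∈ Q := by
    refine ⟨?_, ?_, ?_, ?_⟩ <;> simp [hz₀] <;> linarith
  have hEq : EqOn (χ j) g₁ (V j ∩ Q) :=
    h2 k b r (V j ∩ Q) (χ j) g₁ z₀ (hli.op.inter hQo)
      (pre_rect hli.left (by linarith) (by linarith) hepos hstrip)
      (hnm.mono inter_subset_left) (hG₁Q.mono inter_subset_right) ⟨hz₀V, hz₀Q⟩ hg₁0.symm hg₁1.symm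
  -- the glued chart
  classical
  set G : ℂ → ℂ := fun ζ => if ζ ∈ V j then χ j ζ else g₁ ζ with hG
  have hGV : EqOn G (χ j) (V j) := fun ζ hζ => if_pos hζ
  have hGQ : EqOn G g₁ Q := by
    intro ζ hζ
    by_cases hv : ζ ∈ V j
    · rw [hGV hv]
      exact hEq ⟨hv, hζ⟩
    · exact if_neg hv
  have hGnm : NM k b r (V j ∪ Q) G :=
    nm_union hli.op hQo (hnm.congr hli.op hGV) (hG₁Q.congr hQo hGQ)
  have hGli : LI (V j ∪ Q) := by
    refine ⟨hli.op.union hQo, ?_, ?_⟩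
    · rintro ζ (hζ | ⟨a1, a2, a3, a4⟩) s hs
      · exact Or.inl (hli.left ζ hζ s hs)
      · by_cases hre : x - ρ / 4 < ζ.re - s
        · right
          refine ⟨?_, ?_, ?_, ?_⟩ <;> simp <;> linarith
        · left
          push Not at hre
          apply hstrip <;> simp <;> linarith
    · obtain ⟨R, hR⟩ := hli.inf
      exact ⟨R, fun ζ hζ => Or.inl (hR ζ hζ)⟩
  have hGch : Cht k b r j (V j ∪ Q) G := by
    refine ⟨hGli, hGnm, ?_⟩
    refine (hM.cht j).asy.congr' ?_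
    filter_upwards [hli.mem_lf] with ζ hζ
    rw [hGV hζ]
  have hsub := (hM.mx j _ G hGch).1
  apply hend
  apply hsub
  right
  refine ⟨?_, ?_, ?_, ?_⟩ <;> simp <;> linarith

theorem key2 {f : ℝ → ℂ} {A : ℝ} {E : Set ℂ}
    (h : ∀ x₀ ∉ E, ∃ ε : ℝ, 0 < ε ∧ ∀ᶠ x : ℝ in 𝓝[<] A, f x ∉ Metric.ball x₀ ε) {K : Set ℂ}
    (hK : IsCompact K) (hd : ∀ x ∈ K, x ∉ E) : ∀ᶠ x : ℝ in 𝓝[<] A, f x ∉ K := by
  refine hK.induction_on (p := fun s => ∀ᶠ x : ℝ in 𝓝[<] A, f x ∉ s) ?_ ?_ ?_ ?_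
  · simp
  · intro s t hst ht
    filter_upwards [ht] with x hx hxs
    exact hx (hst hxs)
  · intro s t hs ht
    filter_upwards [hs, ht] with x hx1 hx2
    rintro (h | h)
    · exact hx1 h
    · exact hx2 h
  · intro x hx
    obtain ⟨ε, hε, hev⟩ := h x (hd x hx)
    exact ⟨Metric.ball x ε, mem_nhdsWithin_of_mem_nhds (Metric.ball_mem_nhds x hε), hev⟩

theorem key3 {f : ℝ → ℂ} {A : ℝ} (hf : ContinuousOn f (Iio A)) {w : ℂ} {δ : ℝ}
    (h1 : ∀ᶠ x : ℝ in 𝓝[<] A, f x ∉ Metric.sphere w δ)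
    (h2 : ∃ᶠ x : ℝ in 𝓝[<] A, f x ∈ Metric.ball w δ) :
    ∀ᶠ x : ℝ in 𝓝[<] A, f x ∈ Metric.ball w δ := by
  obtain ⟨x₁, hx₁, h3⟩ := (mem_nhdsLT_iff_exists_Ioo_subset' (show A - 1 < A by linarith)).1 h1
  have h4 : ∀ᶠ x : ℝ in 𝓝[<] A, x ∈ Ioo x₁ A := Ioo_mem_nhdsLT hx₁
  obtain ⟨x₂, h5, h6⟩ := (h2.and_eventually h4).exists
  have h7 : ∀ᶠ x : ℝ in 𝓝[<] A, x ∈ Ioo x₂ A := Ioo_mem_nhdsLT h6.2
  filter_upwards [h7] with x hx
  by_contra hcon
  rw [Metric.mem_ball] at h5 hcon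
  push Not at hcon
  have hc : ContinuousOn (fun t => dist (f t) w) (Icc x₂ x) := by
    have e1 : Continuous fun z : ℂ => dist z w := by fun_prop
    have e2 : ContinuousOn f (Icc x₂ x) := hf.mono fun t ht => lt_of_le_of_lt ht.2 hx.2
    exact e1.comp_continuousOn e2
  obtain ⟨t, ht, hteq⟩ := intermediate_value_Icc hx.1.le hc ⟨h5.le, hcon⟩
  exact h3 ⟨lt_of_lt_of_le h6.1 ht.1, lt_of_le_of_lt ht.2 hx.2⟩ hteq

theorem concl {f : ℝ → ℂ} {A : ℝ} {E : Set ℂ} (hE : E.Finite) (hf : ContinuousOn f (Iio A))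
    (h : ∀ x₀ ∉ E, ∃ ε : ℝ, 0 < ε ∧ ∀ᶠ x : ℝ in 𝓝[<] A, f x ∉ Metric.ball x₀ ε) :
    (∃ w ∈ E, Tendsto f (𝓝[<] A) (𝓝 w)) ∨ Tendsto f (𝓝[<] A) (cocompact ℂ) := by
  by_cases hco : Tendsto f (𝓝[<] A) (cocompact ℂ)
  · exact Or.inr hco
  left
  rw [tendsto_def] at hco
  push Not at hco
  obtain ⟨s, hs, hns⟩ := hco
  obtain ⟨K, hK, hKs⟩ := mem_cocompact.1 hs
  have hfr : ∃ᶠ x : ℝ in 𝓝[<] A, f x ∈ K := by
    intro hcon
    apply hns
    filter_upwards [hcon] with x hx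
    exact hKs hx
  obtain ⟨R, hR⟩ := (hK.isBounded.union hE.isBounded).subset_ball (0 : ℂ)
  have hev : ∀ᶠ x : ℝ in 𝓝[<] A, f x ∈ Metric.ball (0 : ℂ) R := by
    refine key3 hf (key2 h (isCompact_sphere _ _) ?_) ?_
    · intro x hx hxE
      have h1 := hR (Or.inr hxE)
      rw [Metric.mem_ball] at h1
      rw [Metric.mem_sphere] at hx
      linarith
    · exact hfr.mono fun x hx => hR (Or.inl hx)
  have hle : map f (𝓝[<] A) ≤ 𝓟 (Metric.closedBall (0 : ℂ) R) := by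
    rw [le_principal_iff]
    filter_upwards [hev] with x hx
    exact Metric.ball_subset_closedBall hx
  obtain ⟨w, -, hw⟩ := (isCompact_closedBall (0 : ℂ) R).exists_clusterPt hle
  have hwf : ∀ s ∈ 𝓝 w, ∃ᶠ x : ℝ in 𝓝[<] A, f x ∈ s := by
    intro s hs
    exact (mapClusterPt_iff_frequently.1 hw) s hs
  have hwE : w ∈ E := by
    by_contra hcon
    obtain ⟨ε, hε, h1⟩ := h w hcon
    obtain ⟨x, hx1, hx2⟩ := ((hwf _ (Metric.ball_mem_nhds w hε)).and_eventually h1).exists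
    exact hx2 hx1
  refine ⟨w, hwE, ?_⟩
  have hcl : (E \ {w})ᶜ ∈ 𝓝 w := by
    refine (hE.subset sdiff_subset).isClosed.isOpen_compl.mem_nhds ?_
    simp
  obtain ⟨δ₀, hδ₀, hδs⟩ := Metric.mem_nhds_iff.1 hcl
  rw [Metric.tendsto_nhds]
  intro η hη
  set δ : ℝ := min η (δ₀ / 2) with hδ
  have hδpos : 0 < δ := lt_min hη (by linarith)
  have h1 : δ ≤ η := min_le_left _ _
  have h2 : δ ≤ δ₀ / 2 := min_le_right _ _
  have h3 : ∀ᶠ x : ℝ in 𝓝[<] A, f x ∈ Metric.ball w δ := by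
    refine key3 hf (key2 h (isCompact_sphere _ _) ?_) (hwf _ (Metric.ball_mem_nhds w hδpos))
    intro x hx hxE
    rw [Metric.mem_sphere] at hx
    have h4 : x ∈ Metric.ball w δ₀ := by
      rw [Metric.mem_ball]
      linarith
    refine hδs h4 ⟨hxE, ?_⟩
    rintro rfl
    rw [dist_self] at hx
    linarith
  filter_upwards [h3] with x hx
  rw [Metric.mem_ball] at hx
  linarith

/-! ### the ray does not end at a pole -/

theorem speed {k : ℕ} {b : ℕ → ℂ} {r : Dat} {P : Polynomial ℂ}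
    (hP : Num k b r P) {w : ℂ} (hw : w ∈ r.E) :
    ∃ C : ℝ, 0 ≤ C ∧ ∀ᶠ x : ℂ in 𝓝 w, x ∉ r.E → ∀ v : ℂ, v ^ 2 * AA k b r x = 1 →
      ‖v‖ ≤ C * ‖x - w‖ := by
  classical
  set Rx : ℂ → ℂ := fun x => ∏ e ∈ r.E.erase w, (x - e) ^ 2 with hRx
  have hRc : Continuous Rx := by
    refine continuous_finsetProd _ fun j _ => ?_
    fun_prop
  have hPc : Continuous fun x : ℂ => P.eval x := P.continuous
  have hP0 : 0 < ‖P.eval w‖ := norm_pos_iff.2 (hP.pole w hw)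
  set p₀ : ℝ := ‖P.eval w‖ / 2 with hp₀
  have hp₀pos : 0 < p₀ := by positivity
  set M : ℝ := ‖Rx w‖ + 1 with hM
  have hMpos : 0 < M := by positivity
  refine ⟨√(M / p₀), Real.sqrt_nonneg _, ?_⟩
  have e1 : ∀ᶠ x : ℂ in 𝓝 w, p₀ < ‖P.eval x‖ := by
    have : Tendsto (fun x : ℂ => ‖P.eval x‖) (𝓝 w) (𝓝 ‖P.eval w‖) :=
      (hPc.norm).tendsto _
    exact this.eventually (lt_mem_nhds (by rw [hp₀]; linarith))
  have e2 : ∀ᶠ x : ℂ in 𝓝 w, ‖Rx x‖ < M := by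
    have : Tendsto (fun x : ℂ => ‖Rx x‖) (𝓝 w) (𝓝 ‖Rx w‖) :=
      (hRc.norm).tendsto _
    exact this.eventually (gt_mem_nhds (by rw [hM]; linarith))
  filter_upwards [e1, e2] with x hx1 hx2 hxb v hv
  have h1 := hP.eq x hxb
  rw [← Finset.mul_prod_erase r.E (fun e => (x - e) ^ 2) hw] at h1
  have h1' : AA k b r x * ((x - w) ^ 2 * Rx x) = P.eval x := h1
  have h2 : v ^ 2 * P.eval x = (x - w) ^ 2 * Rx x := by
    rw [← h1', ← mul_assoc, hv, one_mul]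
  have h3 : ‖v‖ ^ 2 * ‖P.eval x‖ = ‖x - w‖ ^ 2 * ‖Rx x‖ := by
    rw [← norm_pow, ← norm_mul, h2, norm_mul, norm_pow]
  have h4 : ‖v‖ ^ 2 * p₀ ≤ ‖x - w‖ ^ 2 * M := by
    calc ‖v‖ ^ 2 * p₀ ≤ ‖v‖ ^ 2 * ‖P.eval x‖ :=
          mul_le_mul_of_nonneg_left hx1.le (by positivity)
      _ = ‖x - w‖ ^ 2 * ‖Rx x‖ := h3
      _ ≤ ‖x - w‖ ^ 2 * M := mul_le_mul_of_nonneg_left hx2.le (by positivity)
  have h5 : ‖v‖ ^ 2 ≤ (√(M / p₀) * ‖x - w‖) ^ 2 := by
    rw [mul_pow, Real.sq_sqrt (by positivity), div_mul_eq_mul_div, le_div_iff₀ hp₀pos]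
    linarith
  exact (pow_le_pow_iff_left₀ (norm_nonneg _) (by positivity) two_ne_zero).1 h5

theorem no_pole {f f' : ℝ → ℂ} {A C : ℝ} {w : ℂ}
    (hd : ∀ x < A, HasDerivAt f (f' x) x) (hne : ∀ x < A, f x ≠ w)
    (hb : ∀ᶠ x : ℝ in 𝓝[<] A, ‖f' x‖ ≤ C * ‖f x - w‖) (ht : Tendsto f (𝓝[<] A) (𝓝 w)) :
    False := by
  obtain ⟨x₁, hx₁, h3⟩ := (mem_nhdsLT_iff_exists_Ioo_subset' (show A - 1 < A by linarith)).1 hb
  have hx₁' : x₁ < A := hx₁
  set u : ℝ → ℝ := fun x => ‖f x - w‖ ^ 2 * Real.exp (2 * C * x) with hu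
  have hu' : ∀ x < A, HasDerivAt u (2 * inner ℝ (f x - w) (f' x) * Real.exp (2 * C * x) +
      ‖f x - w‖ ^ 2 * (Real.exp (2 * C * x) * (2 * C))) x := by
    intro x hx
    have e1 : HasDerivAt (fun x => f x - w) (f' x) x := (hd x hx).sub_const w
    have e2 := e1.norm_sq
    have e3 : HasDerivAt (fun x : ℝ => Real.exp (2 * C * x)) (Real.exp (2 * C * x) * (2 * C)) x := by
      have := (hasDerivAt_id x).const_mul (2 * C)
      simp only [mul_one] at this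
      exact this.exp
    exact e2.mul e3
  have hmono : MonotoneOn u (Ioo x₁ A) := by
    refine monotoneOn_of_deriv_nonneg (convex_Ioo _ _) ?_ ?_ ?_
    · intro x hx
      exact (hu' x hx.2).continuousAt.continuousWithinAt
    · rw [interior_Ioo]
      intro x hx
      exact (hu' x hx.2).differentiableAt.differentiableWithinAt
    · rw [interior_Ioo]
      intro x hx
      rw [(hu' x hx.2).deriv]
      have h4 : ‖f' x‖ ≤ C * ‖f x - w‖ := h3 hx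
      have h5 : |inner ℝ (f x - w) (f' x)| ≤ ‖f x - w‖ * ‖f' x‖ := abs_real_inner_le_norm _ _
      have h6 := (abs_le.1 h5).1
      have h7 : ‖f x - w‖ * ‖f' x‖ ≤ ‖f x - w‖ * (C * ‖f x - w‖) :=
        mul_le_mul_of_nonneg_left h4 (norm_nonneg _)
      have h8 : 0 ≤ 2 * inner ℝ (f x - w) (f' x) + ‖f x - w‖ ^ 2 * (2 * C) := by nlinarith
      have h9 := mul_nonneg h8 (Real.exp_pos (2 * C * x)).le
      linarith
  set x₂ : ℝ := (x₁ + A) / 2 with hx₂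
  have hx₂1 : x₁ < x₂ := by rw [hx₂]; linarith
  have hx₂2 : x₂ < A := by rw [hx₂]; linarith
  have hpos : 0 < u x₂ := by
    have : 0 < ‖f x₂ - w‖ := norm_pos_iff.2 (sub_ne_zero.2 (hne x₂ hx₂2))
    positivity
  have hlim : Tendsto u (𝓝[<] A) (𝓝 0) := by
    have e1 : Tendsto (fun x => ‖f x - w‖ ^ 2) (𝓝[<] A) (𝓝 0) := by
      have := ((ht.sub_const w).norm).pow 2
      simpa using this
    have e2 : Tendsto (fun x : ℝ => Real.exp (2 * C * x)) (𝓝[<] A) (𝓝 (Real.exp (2 * C * A))) := by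
      have : Continuous fun x : ℝ => Real.exp (2 * C * x) := by fun_prop
      exact (this.tendsto A).mono_left nhdsWithin_le_nhds
    have := e1.mul e2
    rwa [zero_mul] at this
  have hge : u x₂ ≤ 0 := by
    refine ge_of_tendsto hlim ?_
    filter_upwards [Ioo_mem_nhdsLT hx₂2] with x hx
    exact hmono ⟨hx₂1, hx₂2⟩ ⟨hx₂1.trans hx.1, hx.2⟩ hx.1.le
  linarith

end ENL_

open ENL_

theorem p_ENL (h1 : T_LOCN) (h2 : T_UNQ) : T_ENL := by
  intro n k c b r μ V χ P j y A hB hM hP hray hend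
  have hli := (hM.cht j).li
  have hnm := (hM.cht j).nm
  set f : ℝ → ℂ := fun x : ℝ => χ j (x + y * I) with hf
  set f' : ℝ → ℂ := fun x : ℝ => deriv (χ j) (x + y * I) with hf'
  have hd : ∀ x < A, HasDerivAt f (f' x) x := by
    intro x hx
    have e1 : HasDerivAt (χ j) (deriv (χ j) (x + y * I)) (x + y * I) :=
      ((hnm.diff _ (hray x hx)).differentiableAt (hli.op.mem_nhds (hray x hx))).hasDerivAt
    have e2 : HasDerivAt (fun x : ℝ => (x : ℂ) + y * I) 1 x :=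
      (Complex.ofRealCLM.hasDerivAt (x := x)).add_const (y * I)
    have e3 := e1.comp x e2
    rw [mul_one] at e3
    exact e3
  have hfc : ContinuousOn f (Iio A) := fun x hx => (hd x hx).continuousAt.continuousWithinAt
  set E : Set ℂ := {w | P.IsRoot w} ∪ (↑r.E : Set ℂ) with hE
  have hEf : E.Finite :=
    (Polynomial.finite_setOfPred_isRoot hP.ne).union r.E.finite_toSet
  have hkey : ∀ x₀ ∉ E, ∃ ε : ℝ, 0 < ε ∧ ∀ᶠ x : ℝ in 𝓝[<] A, f x ∉ Metric.ball x₀ ε := by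
    intro x₀ hx₀
    have hb : x₀ ∉ r.E := fun h => hx₀ (Or.inr (Finset.mem_coe.2 h))
    refine key1 h1 h2 hB hM hray hend x₀ hb ?_
    intro h0
    have h3 := hP.eq x₀ hb
    rw [h0, zero_mul] at h3
    exact hx₀ (Or.inl h3.symm)
  rcases concl hEf hfc hkey with ⟨w, hw | hw, hlim⟩ | hco
  · exact Or.inl ⟨w, hw, hlim⟩
  · exfalso
    have hw' : w ∈ r.E := Finset.mem_coe.1 hw
    obtain ⟨C, hC, hsp⟩ := speed (b := b) (k := k) hP hw'
    refine no_pole (C := C) hd (fun x hx he => hnm.avoid _ (hray x hx) (he.symm ▸ hw' : f x ∈ r.E)) ?_ hlim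
    have e1 := hlim.eventually hsp
    have e2 : ∀ᶠ x : ℝ in 𝓝[<] A, x < A := self_mem_nhdsWithin
    filter_upwards [e1, e2] with x hx1 hx2
    exact hx1 (hnm.avoid _ (hray x hx2)) _ (hnm.nat _ (hray x hx2))
  · exact Or.inr hco

end Pool.Agent.MEY
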