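import Pool.Agent.MEY.Basic

/-!
# MEY: the square of the natural coordinate along a ray which ends
-/

set_option autoImplicit false

open Complex Filter Topology Set MeasureTheory
open Pool.Agent.Multibrot (rt push)
open Pool.Agent.Limb (F)
open Pool.Agent.PLim (Cyc fp fpp Rho LocFix)
open Pool.Agent.MEX

namespace Pool.Agent.MEY

namespace EQE_

/-- derivative along the horizontal line -/
lemma line_deriv {f : ℂ → ℂ} {y x : ℝ} {f' : ℂ} (h : HasDerivAt f f' (x + y * I)) :
    HasDerivAt (fun x : ℝ => f (x + y * I)) f' x := by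
  have h1 : HasDerivAt (fun x : ℝ => ((x : ℂ) + y * I)) 1 x :=
    (Complex.ofRealCLM.hasDerivAt (x := x)).add_const (y * I)
  have h2 := h.comp x h1
  rw [mul_one] at h2
  exact h2

end EQE_

open EQE_ in
theorem p_EQE : T_EQE := by
  intro k b r O V Q g y A A' hO hOb hQd hQ0 hQ hV hg hA hx hlim
  -- the function u
  set W : Set ℂ := V ∩ g ⁻¹' O with hW
  have hWo : IsOpen W := hg.diff.continuousOn.isOpen_inter_preimage hV hO
  set u : ℂ → ℂ := fun z => deriv Q (g z) * deriv g z / 2 with hu
  set q : ℂ → ℂ := fun z => Q (g z) with hq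
  have hgd : ∀ z ∈ W, HasDerivAt g (deriv g z) z := fun z hz =>
    ((hg.diff z hz.1).differentiableAt (hV.mem_nhds hz.1)).hasDerivAt
  have hqd : ∀ z ∈ W, HasDerivAt q (2 * u z) z := by
    intro z hz
    have h1 : HasDerivAt Q (deriv Q (g z)) (g z) :=
      ((hQd _ hz.2).differentiableAt (hO.mem_nhds hz.2)).hasDerivAt
    have h2 := h1.comp z (hgd z hz)
    have h3 : 2 * u z = deriv Q (g z) * deriv g z := by
      simp only [hu]
      ring
    rw [h3]
    exact h2
  have huq : ∀ z ∈ W, u z ^ 2 = q z := by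
    intro z hz
    have h1 := hQ _ hz.2
    have h2 := hg.nat z hz.1
    simp only [hu, hq]
    rw [div_pow, mul_pow, h1]
    linear_combination Q (g z) * h2
  have hq0 : ∀ z ∈ W, q z ≠ 0 := fun z hz => hQ0 _ hz.2
  have hu0 : ∀ z ∈ W, u z ≠ 0 := by
    intro z hz h0
    apply hq0 z hz
    rw [← huq z hz, h0]
    ring
  have hud : ∀ z ∈ W, DifferentiableAt ℂ u z := by
    intro z hz
    have h1 : DifferentiableAt ℂ (deriv Q) (g z) :=
      ((hQd.deriv hO) _ hz.2).differentiableAt (hO.mem_nhds hz.2)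
    have h2 : DifferentiableAt ℂ (deriv g) z :=
      ((hg.diff.deriv hV) z hz.1).differentiableAt (hV.mem_nhds hz.1)
    exact ((h1.comp z (hgd z hz).differentiableAt).mul h2).div_const 2
  have hud1 : ∀ z ∈ W, HasDerivAt u 1 z := by
    intro z hz
    have h1 := (hud z hz).hasDerivAt
    have h2 : HasDerivAt (fun z => u z ^ 2) ((2 : ℕ) * u z ^ (2 - 1) * deriv u z) z := h1.pow 2
    have h3 : HasDerivAt (fun z => u z ^ 2) (2 * u z) z := by
      refine (hqd z hz).congr_of_eventuallyEq ?_
      filter_upwards [hWo.mem_nhds hz] with w hw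
      exact huq w hw
    have h4 := h2.unique h3
    have h5 : deriv u z = 1 := by
      have h6 : (2 * u z) * (deriv u z - 1) = 0 := by
        norm_num at h4
        linear_combination h4
      rcases mul_eq_zero.1 h6 with h7 | h7
      · exact absurd h7 (mul_ne_zero two_ne_zero (hu0 z hz))
      · exact sub_eq_zero.1 h7
    rwa [h5] at h1
  have hxW : ∀ x ∈ Ioo A' A, (x : ℂ) + y * I ∈ W := fun x h => ⟨(hx x h).1, (hx x h).2⟩
  -- u (x + i y) - x is constant on the interval
  have hconst : ∀ x ∈ Ioo A' A, ∀ x' ∈ Ioo A' A,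
      u (x + y * I) - x = u (x' + y * I) - x' := by
    have hd : ∀ x ∈ Ioo A' A, HasDerivAt (fun x : ℝ => u (x + y * I) - x) 0 x := by
      intro x h
      have h1 := line_deriv (hud1 _ (hxW x h))
      have h2 : HasDerivAt (fun x : ℝ => (x : ℂ)) 1 x := Complex.ofRealCLM.hasDerivAt (x := x)
      have h3 := h1.sub h2
      rw [sub_self] at h3
      exact h3
    intro x hx1 x' hx2
    exact isOpen_Ioo.is_const_of_deriv_eq_zero (f := fun x : ℝ => u (x + y * I) - x)
      isPreconnected_Ioo (fun z hz => (hd z hz).differentiableAt.differentiableWithinAt)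
      (fun z hz => (hd z hz).deriv) hx1 hx2
  set x₀ : ℝ := (A' + A) / 2 with hx₀
  have hx₀m : x₀ ∈ Ioo A' A := ⟨by rw [hx₀]; linarith, by rw [hx₀]; linarith⟩
  set C : ℂ := x₀ - u (x₀ + y * I) with hC
  have huC : ∀ x ∈ Ioo A' A, u (x + y * I) = x - C := by
    intro x h
    have := hconst x h x₀ hx₀m
    rw [hC]
    linear_combination this
  have hqC : ∀ x ∈ Ioo A' A, Q (g (x + y * I)) = (x - C) ^ 2 := by
    intro x h
    rw [← huC x h]
    exact (huq _ (hxW x h)).symm
  have hCA : C = A := by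
    have h1 : Tendsto (fun x : ℝ => ((x : ℂ) - C) ^ 2) (𝓝[<] A) (𝓝 ((A - C) ^ 2)) := by
      have : Continuous (fun x : ℝ => ((x : ℂ) - C) ^ 2) := by fun_prop
      exact (this.tendsto A).mono_left nhdsWithin_le_nhds
    have h2 : Tendsto (fun x : ℝ => ((x : ℂ) - C) ^ 2) (𝓝[<] A) (𝓝 0) := by
      refine hlim.congr' ?_
      filter_upwards [Ioo_mem_nhdsLT hA] with x hx'
      exact hqC x hx'
    have h3 := tendsto_nhds_unique h1 h2
    have h4 : (A : ℂ) - C = 0 := by
      rcases pow_eq_zero_iff (two_ne_zero) |>.1 h3 with h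
      exact h
    exact (sub_eq_zero.1 h4).symm
  intro x h
  refine ⟨by rw [hqC x h, hCA], ?_⟩
  have h1 := huC x h
  rw [hCA] at h1
  simp only [hu] at h1
  linear_combination 2 * h1

end Pool.Agent.MEY
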