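import Pool.Agent.MEY.Basic

/-!
# MEY: the multiplier extension theorem (target EXT)
-/

set_option autoImplicit false

open Complex Filter Topology Set MeasureTheory
open Pool.Agent.PLim (Cyc fp fpp Rho LocFix)
open Pool.Agent.MEX

namespace Pool.Agent.MEY

theorem p_EXT (h1 : T_MAX) (h2 : T_PICK) (h3 : T_ITE) (h4 : T_ELE) : T_EXT := by
  intro N
  rcases lt_or_ge N 6 with hN | hN
  · exact ⟨1, one_pos, fun n k c b r μ δ hB hr => by have := hB.hN; omega⟩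
  obtain ⟨C, hC, hI⟩ := h3
  have hN' : (6 : ℝ) ≤ N := by exact_mod_cast hN
  have hN3 : (1 : ℝ) ≤ (N : ℝ) ^ 3 := one_le_pow₀ (by linarith)
  have hpi := Real.pi_gt_three
  have hA : 1 ≤ 4 * Real.pi * (N + 2) := by nlinarith
  have hK : 1 ≤ 5000 * (N : ℝ) ^ 3 * C := by nlinarith
  obtain ⟨κ, hκ, hE⟩ := h4 (4 * Real.pi * (N + 2)) (5000 * (N : ℝ) ^ 3 * C) hA hK
  refine ⟨κ, hκ, ?_⟩
  intro n k c b r μ δ hB hrN hμ hδ hδ2 hF
  by_contra hlt
  have hlt' : r.m < κ * LL δ := not_le.1 hlt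
  have hpos : 0 < r.m := hB.m0
  obtain ⟨e1, e2⟩ := hE δ r.m hδ hδ2 hpos hlt'
  obtain ⟨V, χ, hM⟩ := h1 n k c b r μ hB
  obtain ⟨J, D, h, θ, hBas, hsub, y, hy⟩ := h2 n k c b r μ V χ hB hM
  rw [hrN] at hBas
  set d : ℝ := 4 * Real.pi * (N + 2) * r.m with hd
  have hd0 : 0 < d := by rw [hd]; positivity
  set t : ℝ := δ / (5000 * (N : ℝ) ^ 3) with ht
  have hNp : 0 < 5000 * (N : ℝ) ^ 3 := by positivity
  have ht0 : 0 < t := by rw [ht]; positivity
  have hS : Small C d t := by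
    refine ⟨hC, hd0, e1, ht0, ?_, ?_⟩
    · rw [ht, div_le_iff₀ hNp]
      nlinarith
    · rw [ht, le_div_iff₀ hNp]
      calc C * √d * (1 + Real.log (1 / d)) * (5000 * (N : ℝ) ^ 3)
          = 5000 * (N : ℝ) ^ 3 * C * √d * (1 + Real.log (1 / d)) := by ring
        _ ≤ δ := e2
  have hμt : μ.re ≤ t := by
    have h5 := hS.sqrt
    have h6 : √d ≤ 1 := by
      rw [Real.sqrt_le_one]
      linarith [hS.hd1]
    have h7 : √d * √d = d := Real.mul_self_sqrt hd0.le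
    have h8 : 0 ≤ √d := Real.sqrt_nonneg d
    have h9 : d ≤ √d := by nlinarith
    have h10 : √d ≤ C * √d := by nlinarith
    have h11 : r.m ≤ d := by
      rw [hd]
      nlinarith
    linarith
  refine hI n k c b r μ V χ J D d t δ h θ y hBas hS hμt hδ (by rw [hrN]; exact hF) ?_ hsub hy
  rw [hrN, ht]
  exact le_of_eq (by field_simp)

end Pool.Agent.MEY
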