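import Pool.Agent.MEY.Basic

/-!
# MEY-GAP: `N` points on the circle leave a gap
-/

set_option autoImplicit false

open Pool.Agent.MEX

namespace Pool.Agent.MEY

/-- the width of the arcs -/
lemma om_lt {N : ℕ} (hN : 1 ≤ N) : 2 * N * om N < 2 * Real.pi := by
  have hN' : (0 : ℝ) < N := by exact_mod_cast hN
  have hpi := Real.pi_pos
  unfold om
  have h : 2 * (N : ℝ) * ((Real.pi / N + Real.pi / (N + 1)) / 2) =
      Real.pi + Real.pi * (N / (N + 1)) := by
    field_simp
  rw [h]
  have h2 : (N : ℝ) / (N + 1) < 1 := by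
    rw [div_lt_one (by linarith)]
    linarith
  nlinarith

lemma om_pos {N : ℕ} (hN : 1 ≤ N) : 0 < om N := by
  have hN' : (0 : ℝ) < N := by exact_mod_cast hN
  have hpi := Real.pi_pos
  unfold om
  positivity

/-- GAP -/
theorem p_GAP : T_GAP := by
  intro N B hN hper hcard
  by_contra hcon
  push Not at hcon
  have hom := om_lt hN
  have hom0 := om_pos hN
  have hN' : (1 : ℝ) ≤ N := by exact_mod_cast hN
  -- the next point
  have hnext : ∀ y : ℝ, ∃ z : ℝ, z ∈ B ∧ y < z ∧ z < y + 2 * om N := by
    intro y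
    obtain ⟨z, hz, hzy⟩ := hcon (y + om N)
    rw [abs_lt] at hzy
    exact ⟨z, hz, by linarith [hzy.1], by linarith [hzy.2]⟩
  choose nx hB hlt hlt1 using hnext
  set s : ℕ → ℝ := fun n => nx^[n + 1] 0 with hs
  have hs0 : s 0 = nx 0 := rfl
  have hsucc : ∀ n, s (n + 1) = nx (s n) := by
    intro n
    simp only [hs]
    rw [Function.iterate_succ_apply']
  have hmem : ∀ n, s n ∈ B := by
    intro n
    cases n with
    | zero => rw [hs0]; exact hB 0
    | succ n => rw [hsucc]; exact hB _
  have hmono : StrictMono s := strictMono_nat_of_lt_succ (fun n => by rw [hsucc]; exact hlt _)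
  have hup : ∀ n : ℕ, s n ≤ s 0 + n * (2 * om N) := by
    intro n
    induction n with
    | zero => simp
    | succ n ih =>
      rw [hsucc]
      have := hlt1 (s n)
      push_cast
      linarith
  have h0pos : 0 < s 0 := hlt 0
  have h0lt : s 0 < 2 * Real.pi := by
    have := hlt1 0
    rw [hs0]
    nlinarith
  -- reduction to the fundamental interval
  set φ : ℕ → ℝ := fun n => if s n < 2 * Real.pi then s n else s n - 2 * Real.pi with hφ
  have hbd : ∀ n ∈ Finset.range (N + 1), 0 < s n ∧ s n < s 0 + 2 * Real.pi ∧ s 0 ≤ s n := by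
    intro n hn
    rw [Finset.mem_range] at hn
    have h1 := hup n
    have h2 : (n : ℝ) ≤ N := by
      have : n ≤ N := by omega
      exact_mod_cast this
    have h3 : s 0 ≤ s n := hmono.monotone (Nat.zero_le n)
    have h4 : (n : ℝ) * (2 * om N) ≤ N * (2 * om N) :=
      mul_le_mul_of_nonneg_right h2 (by linarith)
    exact ⟨by linarith, by linarith, h3⟩
  have hinj : Set.InjOn φ (Finset.range (N + 1) : Finset ℕ) := by
    intro n hn m hm hnm
    have h1 := hbd n (Finset.mem_coe.1 hn)
    have h2 := hbd m (Finset.mem_coe.1 hm)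
    apply hmono.injective
    simp only [hφ] at hnm
    split_ifs at hnm <;> linarith [h1.1, h1.2.1, h1.2.2, h2.1, h2.2.1, h2.2.2]
  have hc := hcard ((Finset.range (N + 1)).image φ) (by
    intro y hy
    obtain ⟨n, hn, rfl⟩ := Finset.mem_image.1 hy
    have h1 := hbd n hn
    simp only [hφ]
    split_ifs with h
    · exact ⟨hmem n, h1.1.le, h⟩
    · rw [not_lt] at h
      refine ⟨?_, by linarith, by linarith [h1.2.1]⟩
      rw [← hper]
      have e : s n - 2 * Real.pi + 2 * Real.pi = s n := by ring
      rw [e]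
      exact hmem n)
  rw [Finset.card_image_of_injOn hinj, Finset.card_range] at hc
  omega

end Pool.Agent.MEY
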