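import Pool.Agent.MEY.Basic

/-!
# MEY: the largest half plane in the domain of a chart
-/

set_option autoImplicit false

open Complex Filter Topology Set MeasureTheory
open Pool.Agent.Multibrot (rt push)
open Pool.Agent.Limb (F)
open Pool.Agent.PLim (Cyc fp fpp Rho LocFix)
open Pool.Agent.MEX

namespace Pool.Agent.MEY

namespace HJ_

lemma per_nat {V : Set ℂ} (hv : ∀ ζ : ℂ, ζ + 2 * Real.pi * I ∈ V ↔ ζ ∈ V) (m : ℕ) (ζ : ℂ) :
    ζ + m * (2 * Real.pi * I) ∈ V ↔ ζ ∈ V := by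
  induction m with
  | zero => simp
  | succ m ih =>
    rw [← ih, ← hv (ζ + m * (2 * Real.pi * I))]
    have : ζ + ((m + 1 : ℕ) : ℂ) * (2 * Real.pi * I)
        = ζ + m * (2 * Real.pi * I) + 2 * Real.pi * I := by
      push_cast
      ring
    rw [this]

lemma per_int {V : Set ℂ} (hv : ∀ ζ : ℂ, ζ + 2 * Real.pi * I ∈ V ↔ ζ ∈ V) (m : ℤ) (ζ : ℂ) :
    ζ + m * (2 * Real.pi * I) ∈ V ↔ ζ ∈ V := by
  rcases Int.eq_nat_or_neg m with ⟨n, rfl | rfl⟩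
  · simpa using per_nat hv n ζ
  · have h := per_nat hv n (ζ + ((-(n : ℤ) : ℤ) : ℂ) * (2 * Real.pi * I))
    rw [← h]
    have : ζ + ((-(n : ℤ) : ℤ) : ℂ) * (2 * Real.pi * I) + n * (2 * Real.pi * I) = ζ := by
      push_cast
      ring
    rw [this]

/-- every point of the complement has a translate in the strip `0 ≤ Im ≤ 2 π` -/
lemma translate {V : Set ℂ} (hv : ∀ ζ : ℂ, ζ + 2 * Real.pi * I ∈ V ↔ ζ ∈ V) {ζ : ℂ}
    (hζ : ζ ∉ V) : ∃ ξ : ℂ, ξ ∉ V ∧ ξ.re = ζ.re ∧ 0 ≤ ξ.im ∧ ξ.im ≤ 2 * Real.pi := by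
  have hpi : (0 : ℝ) < 2 * Real.pi := by positivity
  set m : ℤ := ⌊ζ.im / (2 * Real.pi)⌋ with hm
  have h1 : (m : ℝ) * (2 * Real.pi) ≤ ζ.im := by
    have := Int.floor_le (ζ.im / (2 * Real.pi))
    rw [← hm, le_div_iff₀ hpi] at this
    exact this
  have h2 : ζ.im < ((m : ℝ) + 1) * (2 * Real.pi) := by
    have := Int.lt_floor_add_one (ζ.im / (2 * Real.pi))
    rw [← hm, div_lt_iff₀ hpi] at this
    exact this
  refine ⟨ζ + ((-m : ℤ) : ℂ) * (2 * Real.pi * I), ?_, ?_, ?_, ?_⟩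
  · intro h
    exact hζ ((per_int hv (-m) ζ).1 h)
  · simp
  · simp
    linarith
  · simp
    linarith

end HJ_

open HJ_ in
theorem p_HJ (h1 : T_NOE) : T_HJ := by
  intro n k c b r μ V χ j hB hM
  have hc := hM.cht j
  obtain ⟨R, hR⟩ := hc.li.inf
  have hne : ∃ ζ₀ : ℂ, ζ₀ ∉ V j := by
    by_contra hcon
    push Not at hcon
    have hu : V j = univ := eq_univ_of_forall hcon
    exact h1 n k c b r μ (χ j) hB (hu ▸ hc.nm)
  obtain ⟨ζ₀, hζ₀⟩ := hne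
  obtain ⟨ξ₀, hξ₀, -, hi0, hi1⟩ := translate (hM.vper j) hζ₀
  set K : Set ℂ := (V j)ᶜ ∩ (Icc R ξ₀.re ×ℂ Icc 0 (2 * Real.pi)) with hK
  have hKc : IsCompact K :=
    (isCompact_Icc.reProdIm isCompact_Icc).inter_left hc.li.op.isClosed_compl
  have hKn : K.Nonempty := by
    refine ⟨ξ₀, hξ₀, ?_⟩
    rw [mem_reProdIm]
    refine ⟨⟨?_, le_rfl⟩, ⟨hi0, hi1⟩⟩
    by_contra hcon
    exact hξ₀ (hR _ (not_le.1 hcon))
  obtain ⟨p, hp, hpm⟩ := hKc.exists_isMinOn hKn continuous_re.continuousOn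
  refine ⟨p.re, fun ζ hζ => ?_, p.im, ?_⟩
  · by_contra hcon
    obtain ⟨ξ, hξ, hre, h0, h1⟩ := translate (hM.vper j) hcon
    have hRξ : R ≤ ξ.re := by
      by_contra hcon'
      exact hξ (hR _ (not_le.1 hcon'))
    have hp2 : p.re ≤ ξ₀.re := by
      have := hp.2
      rw [mem_reProdIm] at this
      exact this.1.2
    have hξK : ξ ∈ K := by
      refine ⟨hξ, ?_⟩
      rw [mem_reProdIm]
      exact ⟨⟨hRξ, by rw [hre]; linarith⟩, ⟨h0, h1⟩⟩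
    have := isMinOn_iff.1 hpm ξ hξK
    rw [hre] at this
    linarith
  · have : (p.re : ℂ) + p.im * I = p := re_add_im p
    rw [this]
    exact hp.1

end Pool.Agent.MEY
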