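import Pool.Agent.MEY.Basic

/-!
# MEY-ITE: the contradiction
-/

set_option autoImplicit false

open Complex

open Pool.Agent.MEX

namespace Pool.Agent.MEY

/-- ITE (from ROU, RTA, TNP): contradiction. -/
theorem p_ITE (h1 : T_ROU) (h2 : T_RTA) (h3 : T_TNP) : T_ITE := by
  obtain ⟨C, hC, hrou⟩ := h1
  refine ⟨C, hC, ?_⟩
  intro n k c b r μ V χ J D d t δ h θ y hB hS hμt hδ hfar htδ hsub hnot
  have hN6 : 6 ≤ r.N := hB.bad.hN
  have hN : (6 : ℝ) ≤ r.N := by exact_mod_cast hN6
  have ht0 := hS.ht
  have hpi := Real.pi_gt_three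
  obtain ⟨hlip, hper, h0, hhalf, -⟩ := h3 r.N θ hN6
  have hre : ((h : ℂ) + y * I).re = h := by simp
  have him : ((h : ℂ) + y * I).im = y := by simp
  -- `t` is small
  have hN2 : (r.N : ℝ) ≤ (r.N : ℝ) ^ 3 := by nlinarith [sq_nonneg (r.N : ℝ)]
  have ht1 : 5000 * r.N * t ≤ δ := by
    refine le_trans ?_ htδ
    have : (r.N : ℝ) * t ≤ (r.N : ℝ) ^ 3 * t := mul_le_mul_of_nonneg_right hN2 ht0.le
    linarith
  rcases lt_or_ge μ.re (-(Real.pi * δ / r.N)) with hneg | hge
  · -- the cycle is strongly attracting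
    have hR : Rnd n k c b r μ V χ J D d h (tnt r.N θ) :=
      { toBas := hB, lip := hlip, aper := hper, a0 := h0, a1 := hhalf, sub := hsub }
    apply hnot
    apply hrou n k c b r μ V χ J D d t _ _ hR hS _
    rw [hre, him]
    have h4 := h0 (y + μ.im)
    have h5 : 410 * t < Real.pi * δ / r.N := by
      rw [lt_div_iff₀ (by linarith)]
      nlinarith
    linarith
  -- the imaginary part is far from the rational angles
  have hfar' : FarN r.N (δ / 2) μ.im := by
    intro q hq1 hqN m
    have h4 := hfar q hq1 hqN m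
    have h5 : ‖(q : ℂ) * μ - 2 * Real.pi * I * m‖ ≤ q * |μ.re| + |q * μ.im - 2 * Real.pi * m| := by
      refine (Complex.norm_le_abs_re_add_abs_im _).trans (le_of_eq ?_)
      have e1 : ((q : ℂ) * μ - 2 * Real.pi * I * m).re = q * μ.re := by simp
      have e2 : ((q : ℂ) * μ - 2 * Real.pi * I * m).im = q * μ.im - 2 * Real.pi * m := by simp
      rw [e1, e2, abs_mul, abs_of_nonneg (Nat.cast_nonneg q)]
    have hq : (q : ℝ) ≤ r.N := by exact_mod_cast hqN
    have hq0 : (0 : ℝ) ≤ q := Nat.cast_nonneg q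
    have h6 : |μ.re| ≤ Real.pi * δ / r.N := by
      rw [abs_le]
      refine ⟨hge, hμt.trans ?_⟩
      rw [le_div_iff₀ (by linarith)]
      nlinarith
    have h7 : q * |μ.re| ≤ Real.pi * δ := by
      calc q * |μ.re| ≤ r.N * (Real.pi * δ / r.N) := by gcongr
        _ = Real.pi * δ := by field_simp
    have h8 : Real.pi * δ ≤ |q * μ.im - 2 * Real.pi * m| := by linarith
    have h9 : (q : ℝ) * μ.im / (2 * Real.pi) - m = (q * μ.im - 2 * Real.pi * m) / (2 * Real.pi) := by
      field_simp
    rw [h9, abs_div, abs_of_pos (by positivity : (0 : ℝ) < 2 * Real.pi), le_div_iff₀ (by positivity)]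
    linarith
  have hP : ∀ i : ℕ, ∀ ζ : ℂ,
      0 < et (h - 411 * t * i) (fun x => tnt r.N θ (x + i * μ.im)) ζ → ζ ∈ V J := by
    intro i
    induction i with
    | zero =>
      intro ζ hζ
      apply hsub
      simpa [et] using hζ
    | succ i ih =>
      intro ζ hζ
      have hR : Rnd n k c b r μ V χ J D d (h - 411 * t * i)
          (fun x => tnt r.N θ (x + i * μ.im)) :=
        { toBas := hB
          lip := fun x x' => by
            have := hlip (x + i * μ.im) (x' + i * μ.im)
            refine this.trans (le_of_eq ?_)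
            congr 1
            ring
          aper := fun x => by
            have e : x + 2 * Real.pi + i * μ.im = x + i * μ.im + 2 * Real.pi := by ring
            show tnt r.N θ (x + 2 * Real.pi + i * μ.im) = tnt r.N θ (x + i * μ.im)
            rw [e, hper]
          a0 := fun x => h0 _
          a1 := fun x => hhalf _
          sub := ih }
      apply hrou n k c b r μ V χ J D d t _ _ hR hS ζ
      simp only [et] at hζ
      push_cast at hζ
      have e : ζ.im + μ.im + i * μ.im = ζ.im + (i + 1) * μ.im := by ring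
      show 410 * t + μ.re < h - 411 * t * i + tnt r.N θ (ζ.im + μ.im + i * μ.im) - ζ.re
      rw [e]
      linarith
  obtain ⟨i, hi, hti⟩ := h2 r.N μ.im (δ / 2) (by omega) (by positivity) hfar' θ y
  apply hnot
  apply hP i
  simp only [et]
  rw [hre, him]
  have hNpos : (0 : ℝ) < r.N := by linarith
  have h4 : t * i ≤ δ / (5000 * (r.N : ℝ) ^ 3) * (2 * r.N / (δ / 2)) := by
    apply mul_le_mul _ hi (Nat.cast_nonneg _) (by positivity)
    rw [le_div_iff₀ (by positivity)]
    linarith
  have h5 : δ / (5000 * (r.N : ℝ) ^ 3) * (2 * r.N / (δ / 2)) = 4 / 5000 / (r.N : ℝ) ^ 2 := by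
    field_simp
    norm_num
  rw [h5] at h4
  have h6 : 411 * (4 / 5000 / (r.N : ℝ) ^ 2) < Real.pi / (2 * r.N * (r.N + 1)) := by
    rw [← mul_div_assoc, div_lt_div_iff₀ (by positivity) (by positivity)]
    nlinarith
  linarith

end Pool.Agent.MEY
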