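import Pool.Agent.MEY.Basic

/-!
# MEY: the depth of the sheets grows slowly
-/

set_option autoImplicit false

open Complex Filter Topology Set MeasureTheory
open Pool.Agent.Multibrot (rt push)
open Pool.Agent.Limb (F)
open Pool.Agent.PLim (Cyc fp fpp Rho LocFix)
open Pool.Agent.MEX

namespace Pool.Agent.MEY

namespace LOB_

/-- integrals of the mass defect over small balls -/
lemma ball_int (h6 : T_PER) {D : ℂ → ENNReal} {d : ℝ} (Dm : Measurable D)
    (Dper : ∀ ζ, D (ζ + 2 * Real.pi * I) = D ζ)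
    (Dint : ∫⁻ ζ in {ζ : ℂ | 0 ≤ ζ.im ∧ ζ.im < 2 * Real.pi}, D ζ ≤ ENNReal.ofReal d)
    (a : ℂ) {s : ℝ} (hs : s ≤ 1) : ∫⁻ z in Metric.ball a s, D z ≤ ENNReal.ofReal d := by
  have h := h6 D Dm Dper (a.im - s)
  refine le_trans ?_ (h.le.trans Dint)
  refine lintegral_mono_set fun z hz => ?_
  rw [Metric.mem_ball, dist_eq_norm] at hz
  have h1 := abs_le.1 ((abs_im_le_norm (z - a)).trans hz.le)
  rw [sub_im] at h1
  have h2 := Real.pi_gt_three
  refine ⟨by linarith [h1.1], ?_⟩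
  have h3 : z.im - a.im < s := lt_of_le_of_lt ((le_abs_self _).trans
    (by simpa using abs_im_le_norm (z - a))) hz
  linarith

lemma defect_le {X : ℂ} {D : ENNReal} (h : ENNReal.ofReal (‖1 - X‖ + ‖X‖) ≤ 1 + D) :
    ENNReal.ofReal (‖X‖ - X.re) ≤ D := by
  have h0 : 0 ≤ ‖X‖ - X.re := sub_nonneg.2 (re_le_norm X)
  have h1 : 1 - X.re ≤ ‖1 - X‖ := by simpa using re_le_norm (1 - X)
  have h2 : ENNReal.ofReal (1 + (‖X‖ - X.re)) ≤ 1 + D :=
    (ENNReal.ofReal_le_ofReal (by linarith)).trans h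
  rw [ENNReal.ofReal_add zero_le_one h0, ENNReal.ofReal_one] at h2
  exact (ENNReal.add_le_add_iff_left ENNReal.one_ne_top).1 h2

/-- Control along a curve. -/
lemma transport (h7 : T_BOO) {CH : ℝ} (hCH : 1 ≤ CH)
    (h5 : ∀ (a : ℂ) (s d : ℝ) (X : ℂ → ℂ), 0 < s →
      DifferentiableOn ℂ X (Metric.ball a s) →
      ∫⁻ z in Metric.ball a s, ENNReal.ofReal (‖X z‖ - (X z).re) ≤ ENNReal.ofReal d →
      0 ≤ d → d ≤ s ^ 2 → ‖X a‖ ≤ 2 → ‖deriv X a‖ ≤ CH * √d / s ^ 2)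
    {X : ℂ → ℂ} {γ γ' : ℝ → ℂ} {T s L d ε : ℝ} (hT : 0 ≤ T) (hs : 0 < s) (hd : 0 ≤ d)
    (hds : d ≤ s ^ 2) (hL : 0 ≤ L)
    (hγ : ∀ u ∈ Icc 0 T, HasDerivAt γ (γ' u) u) (hγL : ∀ u ∈ Icc 0 T, ‖γ' u‖ ≤ L)
    (hX : ∀ u ∈ Icc 0 T, DifferentiableOn ℂ X (Metric.ball (γ u) s))
    (hI : ∀ u ∈ Icc 0 T, ∫⁻ z in Metric.ball (γ u) s, ENNReal.ofReal (‖X z‖ - (X z).re) ≤
      ENNReal.ofReal d) (h0 : ‖X (γ 0) - 1‖ ≤ ε)
    (h1 : ε + T * (L * (CH * √d / s ^ 2)) < 1) :
    ‖X (γ T) - 1‖ ≤ ε + T * (L * (CH * √d / s ^ 2)) := by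
  have hK : 0 ≤ L * (CH * √d / s ^ 2) := by positivity
  have hint : ∀ u : ℝ, ∫ _x in (0 : ℝ)..u, L * (CH * √d / s ^ 2) =
      u * (L * (CH * √d / s ^ 2)) := by
    intro u
    rw [intervalIntegral.integral_const, sub_zero, smul_eq_mul]
  have h2 := h7 (fun u => X (γ u)) (fun u => deriv X (γ u) * γ' u)
    (fun _ => L * (CH * √d / s ^ 2)) T ε hT (by
      intro u hu
      have h3 : HasDerivAt X (deriv X (γ u)) (γ u) :=
        ((hX u hu _ (Metric.mem_ball_self hs)).differentiableAt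
          (Metric.isOpen_ball.mem_nhds (Metric.mem_ball_self hs))).hasDerivAt
      have h4 := HasDerivAt.scomp u h3 (hγ u hu)
      rw [smul_eq_mul, mul_comm] at h4
      exact h4) continuousOn_const (fun _ _ => hK) h0 (by
      intro u hu h3
      have h4 := h5 (γ u) s d X hs (hX u hu) (hI u hu) hd hds h3
      rw [norm_mul, mul_comm]
      exact mul_le_mul (hγL u hu) h4 (norm_nonneg _) hL) (by rw [hint]; exact h1) T ⟨hT, le_rfl⟩
  rw [hint] at h2
  exact h2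

/-- two functions with the same `n`-th power -/
lemma root_const {n : ℕ} (hn : 2 ≤ n) {q : ℂ} {t : ℝ} (ht : 0 < t) {A B : ℂ → ℂ}
    (hA : DifferentiableOn ℂ A (Metric.ball q t)) (hB : DifferentiableOn ℂ B (Metric.ball q t))
    (hB0 : ∀ ζ ∈ Metric.ball q t, B ζ ≠ 0) (hAB : ∀ ζ ∈ Metric.ball q t, A ζ ^ n = B ζ ^ n) :
    ∃ ω : ℂ, ω ^ n = 1 ∧ ∀ ζ ∈ Metric.ball q t, A ζ = ω * B ζ := by
  set f : ℂ → ℂ := fun ζ => A ζ / B ζ with hf
  have hfd : DifferentiableOn ℂ f (Metric.ball q t) := hA.div hB hB0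
  have hfn : ∀ ζ ∈ Metric.ball q t, f ζ ^ n = 1 := by
    intro ζ hζ
    rw [hf]
    simp only [div_pow]
    rw [hAB ζ hζ]
    exact div_self (pow_ne_zero n (hB0 ζ hζ))
  have hd : Set.EqOn (deriv f) 0 (Metric.ball q t) := by
    intro ζ hζ
    have h1 : HasDerivAt f (deriv f ζ) ζ :=
      ((hfd ζ hζ).differentiableAt (Metric.isOpen_ball.mem_nhds hζ)).hasDerivAt
    have h2 := h1.pow n
    have h3 : (fun ζ => f ζ ^ n) =ᶠ[𝓝 ζ] fun _ => (1 : ℂ) := by
      filter_upwards [Metric.isOpen_ball.mem_nhds hζ] with x hx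
      exact hfn x hx
    have h4 : HasDerivAt (fun ζ => f ζ ^ n) 0 ζ := (hasDerivAt_const ζ (1 : ℂ)).congr_of_eventuallyEq h3
    have h5 := h2.unique h4
    have h6 : f ζ ≠ 0 := by
      intro h7
      have h8 := hfn ζ hζ
      rw [h7, zero_pow (by omega)] at h8
      exact zero_ne_one h8
    have h7 : (n : ℂ) ≠ 0 := by
      have : n ≠ 0 := by omega
      exact_mod_cast this
    have h8 : (n : ℂ) * f ζ ^ (n - 1) ≠ 0 := mul_ne_zero h7 (pow_ne_zero _ h6)
    exact (mul_eq_zero.1 h5).resolve_left h8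
  refine ⟨f q, hfn q (Metric.mem_ball_self ht), fun ζ hζ => ?_⟩
  have h1 := Metric.isOpen_ball.is_const_of_deriv_eq_zero (convex_ball q t).isPreconnected hfd hd
    hζ (Metric.mem_ball_self ht)
  rw [← h1, hf]
  simp only
  rw [div_mul_cancel₀ _ (hB0 ζ hζ)]

/-- the slit disc -/
def SD (p : ℂ) (t σ : ℝ) : Set ℂ :=
  Metric.ball p (5 * t) \ {ζ : ℂ | ζ.re = p.re ∧ σ * (ζ.im - p.im) ≤ 0}

lemma SD_open (p : ℂ) (t σ : ℝ) : IsOpen (SD p t σ) := by
  refine Metric.isOpen_ball.sdiff ?_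
  exact (isClosed_eq Complex.continuous_re continuous_const).inter
    (isClosed_le (continuous_const.mul (Complex.continuous_im.sub continuous_const))
      continuous_const)

/-- the half circle -/
noncomputable def gam (p : ℂ) (t σ u : ℝ) : ℂ :=
  p + ((3 * t * (-Real.cos u) : ℝ) : ℂ) + ((3 * t * (σ * Real.sin u) : ℝ) : ℂ) * I

lemma gam_re (p : ℂ) (t σ u : ℝ) : (gam p t σ u).re = p.re + 3 * t * (-Real.cos u) := by
  simp only [gam, add_re, ofReal_re, mul_re, ofReal_im, I_re, I_im, mul_zero, mul_one,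
    sub_zero, add_zero]

lemma gam_im (p : ℂ) (t σ u : ℝ) : (gam p t σ u).im = p.im + 3 * t * (σ * Real.sin u) := by
  simp only [gam, add_im, ofReal_re, mul_im, ofReal_im, I_re, I_im, mul_zero, mul_one,
    add_zero]

lemma gam_deriv (p : ℂ) (t σ u : ℝ) : HasDerivAt (gam p t σ)
    (((3 * t * Real.sin u : ℝ) : ℂ) + ((3 * t * (σ * Real.cos u) : ℝ) : ℂ) * I) u := by
  unfold gam
  have h1 : HasDerivAt (fun u : ℝ => 3 * t * (-Real.cos u)) (3 * t * Real.sin u) u := by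
    have := ((Real.hasDerivAt_cos u).neg).const_mul (3 * t)
    simpa using this
  have h2 : HasDerivAt (fun u : ℝ => 3 * t * (σ * Real.sin u)) (3 * t * (σ * Real.cos u)) u :=
    ((Real.hasDerivAt_sin u).const_mul σ).const_mul (3 * t)
  exact (h1.ofReal_comp.const_add p).add (h2.ofReal_comp.mul_const I)

lemma gam_norm {t σ : ℝ} (ht : 0 < t) (hσ : σ ^ 2 = 1) (u : ℝ) :
    ‖((3 * t * Real.sin u : ℝ) : ℂ) + ((3 * t * (σ * Real.cos u) : ℝ) : ℂ) * I‖ ≤ 3 * t := by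
  rw [Complex.norm_add_mul_I]
  have h1 : (3 * t * Real.sin u) ^ 2 + (3 * t * (σ * Real.cos u)) ^ 2 = (3 * t) ^ 2 := by
    have := Real.sin_sq_add_cos_sq u
    calc (3 * t * Real.sin u) ^ 2 + (3 * t * (σ * Real.cos u)) ^ 2
        = (3 * t) ^ 2 * (Real.sin u ^ 2 + σ ^ 2 * Real.cos u ^ 2) := by ring
      _ = (3 * t) ^ 2 := by rw [hσ, one_mul, this, mul_one]
  rw [h1, Real.sqrt_sq (by positivity)]

lemma gam_ball {p : ℂ} {t σ u : ℝ} (ht : 0 < t) (hσ : σ ^ 2 = 1) (hu : u ∈ Icc 0 Real.pi) :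
    Metric.ball (gam p t σ u) (2 * t) ⊆ SD p t σ := by
  intro z hz
  rw [Metric.mem_ball, dist_eq_norm] at hz
  have hs : 0 ≤ Real.sin u := Real.sin_nonneg_of_mem_Icc hu
  have hcs := Real.sin_sq_add_cos_sq u
  have hn : ‖gam p t σ u - p‖ ≤ 3 * t := by
    have h1 : gam p t σ u - p = ((3 * t * (-Real.cos u) : ℝ) : ℂ) +
        ((3 * t * (σ * Real.sin u) : ℝ) : ℂ) * I := by
      unfold gam
      ring
    rw [h1, Complex.norm_add_mul_I]
    have h2 : (3 * t * (-Real.cos u)) ^ 2 + (3 * t * (σ * Real.sin u)) ^ 2 = (3 * t) ^ 2 := by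
      calc (3 * t * (-Real.cos u)) ^ 2 + (3 * t * (σ * Real.sin u)) ^ 2
          = (3 * t) ^ 2 * (σ ^ 2 * Real.sin u ^ 2 + Real.cos u ^ 2) := by ring
        _ = (3 * t) ^ 2 := by rw [hσ, one_mul, hcs, mul_one]
    rw [h2, Real.sqrt_sq (by positivity)]
  refine ⟨?_, ?_⟩
  · rw [Metric.mem_ball, dist_eq_norm]
    have h1 : z - p = (z - gam p t σ u) + (gam p t σ u - p) := by ring
    rw [h1]
    linarith [norm_add_le (z - gam p t σ u) (gam p t σ u - p)]
  · rintro ⟨h1, h2⟩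
    have h3 : ‖z - gam p t σ u‖ ^ 2 = (z.re - (gam p t σ u).re) ^ 2 +
        (z.im - (gam p t σ u).im) ^ 2 := by
      rw [← normSq_eq_norm_sq, normSq_apply]
      simp
      ring
    have h4 : ‖z - gam p t σ u‖ ^ 2 < (2 * t) ^ 2 :=
      pow_lt_pow_left₀ hz (norm_nonneg _) (by norm_num)
    rw [h3, gam_re, gam_im, h1] at h4
    have h5 : 0 ≤ 3 * t * Real.sin u * (-(σ * (z.im - p.im))) :=
      mul_nonneg (by positivity) (by linarith)
    have h6 : (p.re - (p.re + 3 * t * (-Real.cos u))) ^ 2 +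
        (z.im - (p.im + 3 * t * (σ * Real.sin u))) ^ 2 =
        (3 * t) ^ 2 * (Real.cos u ^ 2 + σ ^ 2 * Real.sin u ^ 2) + (z.im - p.im) ^ 2 +
        2 * (3 * t * Real.sin u * (-(σ * (z.im - p.im)))) := by ring
    rw [h6, hσ, one_mul, add_comm (Real.cos u ^ 2), hcs, mul_one] at h4
    nlinarith [sq_nonneg (z.im - p.im)]

end LOB_

open LOB_ in
theorem p_LOB (h1 : T_CTR) (_h2 : T_NUB) (h3 : T_INJ) (h4 : T_ROO) (h5 : T_HAR) (h6 : T_PER)
    (h7 : T_BOO) : T_LOB := by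
  obtain ⟨CC, hCC, h1⟩ := h1
  obtain ⟨CI, hCI, h3⟩ := h3
  obtain ⟨CH, hCH, h5⟩ := h5
  refine ⟨10 * (CC + CI + 4 * CH), by linarith, ?_⟩
  intro n k c b r μ V χ J D d t h a m lam lam' G G' p hR hSm hG hG' hll hcons hGp hp1 hp2
  have hn : 2 ≤ n := hR.bad.hn
  have ht : 0 < t := hSm.ht
  have ht1 : t ≤ 1 / 2000 := hSm.ht1
  have hd : 0 < d := hSm.hd
  have hs2 : √2 ≤ 3 / 2 := by
    rw [Real.sqrt_le_left (by norm_num)]
    norm_num
  have hSC : Small CC d t := hSm.mono hCC (by linarith)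
  have hSI : Small CI d t := hSm.mono hCI (by linarith)
  have hsq : 10 * (CC + CI + 4 * CH) * √d ≤ t := hSm.sqrt
  have hsd : 0 ≤ √d := Real.sqrt_nonneg d
  have hdt : d ≤ t ^ 2 / 100 := by
    have h8 := hSm.sq
    have h9 : (100 : ℝ) ≤ (10 * (CC + CI + 4 * CH)) ^ 2 := by nlinarith
    have h10 := mul_le_mul_of_nonneg_right h9 hd.le
    linarith
  have hK : (CC + 4 * CH) * √d / t ≤ 1 / 10 := by
    rw [div_le_iff₀ ht]
    nlinarith
  -- the disc
  have hball : ∀ ζ ∈ Metric.ball p (5 * t), lam + 2 * t < et h a ζ := fun ζ hζ =>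
    et_ball hR.lip hζ (by nlinarith)
  have hball' : ∀ ζ ∈ Metric.ball p (5 * t), lam < et h a ζ := fun ζ hζ => by
    linarith [hball ζ hζ]
  have hinj : InjOn G (Metric.ball p (5 * t)) :=
    h3 n k c b r μ V χ J D d t h a m lam G p (5 * t) hR hSI hG (by linarith) hball
  have hgd : DifferentiableOn ℂ (fun ζ => G ζ - c) (Metric.ball p (5 * t)) :=
    (hG.diff.mono hball').sub_const c
  have hginj : InjOn (fun ζ => G ζ - c) (Metric.ball p (5 * t)) := by
    intro x hx y hy hxy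
    exact hinj hx hy (by simpa using hxy)
  obtain ⟨R₁, R₂, hR1, hR2, hRn, hReq, hRne⟩ := h4 n p (5 * t) (fun ζ => G ζ - c) hn (by linarith)
    hgd hginj (by simp [hGp])
  -- the point `q0`
  set q0 : ℂ := p - ((3 * t : ℝ) : ℂ) with hq0
  have hetq : et h a q0 = et h a p + 3 * t := et_sub h a p (3 * t)
  have hq0re : q0.re = p.re - 3 * t := by simp [hq0]
  have hq0b : ∀ ζ ∈ Metric.ball q0 t, ζ ∈ Metric.ball p (5 * t) ∧ ζ.re < p.re ∧
      lam' < et h a ζ := by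
    intro ζ hζ
    have hζ' := hζ
    rw [Metric.mem_ball, dist_eq_norm] at hζ'
    refine ⟨?_, ?_, ?_⟩
    · rw [Metric.mem_ball, dist_eq_norm]
      have h8 : ζ - p = (ζ - q0) + (q0 - p) := by ring
      have h9 : ‖q0 - p‖ = 3 * t := by
        rw [hq0, sub_sub_cancel_left, norm_neg, Complex.norm_real, Real.norm_eq_abs,
          abs_of_pos (by positivity)]
      rw [h8]
      linarith [norm_add_le (ζ - q0) (q0 - p)]
    · have h8 := (abs_le.1 ((abs_re_le_norm (ζ - q0)).trans hζ'.le)).2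
      rw [sub_re, hq0re] at h8
      linarith
    · refine et_ball hR.lip hζ ?_
      rw [hetq]
      nlinarith
  have hgne : ∀ ζ ∈ Metric.ball q0 t, G ζ - c ≠ 0 := by
    intro ζ hζ h8
    obtain ⟨h9, h10, -⟩ := hq0b ζ hζ
    have h11 : ζ = p := hinj h9 (Metric.mem_ball_self (by linarith)) (by
      rw [hGp]
      exact sub_eq_zero.1 h8)
    rw [h11] at h10
    exact lt_irrefl _ h10
  have hSD1 : ∀ ζ ∈ Metric.ball p (5 * t), ζ.re < p.re → ζ ∈ Metric.ball p (5 * t) \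
      {ζ : ℂ | ζ.re = p.re ∧ ζ.im ≤ p.im} := fun ζ hζ h8 => ⟨hζ, fun h9 => h8.ne h9.1⟩
  obtain ⟨ω, hω, hGω⟩ := root_const hn ht (A := G') (B := R₁)
    (hG'.diff.mono fun ζ hζ => (hq0b ζ hζ).2.2)
    (hR1.mono fun ζ hζ => hSD1 ζ (hq0b ζ hζ).1 (hq0b ζ hζ).2.1)
    (by
      intro ζ hζ h8
      have h9 := (hRn ζ (hq0b ζ hζ).1).1
      rw [h8, zero_pow (by omega)] at h9
      exact hgne ζ hζ h9.symm)
    (by
      intro ζ hζ
      rw [(hRn ζ (hq0b ζ hζ).1).1]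
      have h9 := hcons ζ (hq0b ζ hζ).2.2
      unfold F at h9
      rw [← h9]
      ring)
  have hω0 : ω ≠ 0 := by
    intro h8
    rw [h8, zero_pow (by omega)] at hω
    exact zero_ne_one hω
  -- the control of the roots
  have hctr : ‖Lam k b r G' q0 - 1‖ ≤ CC * √d / t := by
    have h8 := (h1 n k c b r μ V χ J D d t h a (m + 1) lam' G' hR hSC hG').1 q0 (by
      rw [hetq]
      linarith)
    refine h8.trans ?_
    refine div_le_div_of_nonneg_left (mul_nonneg (by linarith) hsd) ht ?_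
    rw [hetq]
    linarith
  have main : ∀ (σ : ℝ) (R : ℂ → ℂ), σ ^ 2 = 1 → DifferentiableOn ℂ R (SD p t σ) →
      (∀ ζ ∈ Metric.ball p (5 * t), R ζ ^ n = G ζ - c) →
      (∀ ζ ∈ Metric.ball q0 t, R ζ = G' ζ) →
      (∀ ζ ∈ SD p t σ, (F n c)^[m + 1] (R ζ) = χ J ζ) ∧
      DifferentiableOn ℂ R (Metric.ball (p + ((3 * t : ℝ) : ℂ)) (t / 2)) ∧
      ∀ ζ ∈ Metric.ball (p + ((3 * t : ℝ) : ℂ)) (t / 2), ‖Lam k b r R ζ - 1‖ ≤ 1 / 10 := by
    intro σ R hσ hRd hRp hRG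
    have hUb : SD p t σ ⊆ Metric.ball p (5 * t) := fun ζ hζ => hζ.1
    have hsht : ∀ ζ ∈ SD p t σ, (F n c)^[m + 1] (R ζ) = χ J ζ := by
      intro ζ hζ
      rw [Function.iterate_succ_apply]
      have h8 : F n c (R ζ) = G ζ := by
        unfold F
        rw [hRp ζ (hUb hζ)]
        ring
      rw [h8]
      exact hG.sht ζ (hball' ζ (hUb hζ))
    have hVJ : SD p t σ ⊆ V J := fun ζ hζ => hR.sub ζ (by
      have := hball' ζ (hUb hζ)
      have := hG.hl
      linarith)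
    have havoid : ∀ ζ ∈ SD p t σ, R ζ ∉ r.E := fun ζ hζ =>
      sheet_avoidE hR.bad (hsht ζ hζ) ((hR.mx.cht J).nm.avoid ζ (hVJ hζ))
    have hLd : DifferentiableOn ℂ (Lam k b r R) (SD p t σ) := Lam_diff hR.bad.hol (SD_open p t σ) hRd havoid
    have hInt : ∀ (x : ℂ) (s : ℝ), s ≤ 1 → Metric.ball x s ⊆ SD p t σ →
        ∫⁻ z in Metric.ball x s, ENNReal.ofReal (‖Lam k b r R z‖ - (Lam k b r R z).re) ≤
          ENNReal.ofReal d := by
      intro x s hs hxs
      refine le_trans ?_ (ball_int h6 hR.Dm hR.Dper hR.Dint x hs)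
      refine setLIntegral_mono_ae hR.Dm.aemeasurable ?_
      have h8 := hR.wt (m + 1) (Metric.ball x s) R hG'.hk Metric.isOpen_ball (hxs.trans hVJ)
        (hRd.mono hxs) (fun ζ hζ => hsht ζ (hxs hζ))
      filter_upwards [h8] with z hz hz2
      exact defect_le (hz hz2)
    have hz0 : Metric.ball (p + ((3 * t : ℝ) : ℂ)) (3 / 2 * t) ⊆ SD p t σ := by
      intro z hz
      rw [Metric.mem_ball, dist_eq_norm] at hz
      refine ⟨?_, ?_⟩
      · rw [Metric.mem_ball, dist_eq_norm]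
        have h8 : z - p = (z - (p + ((3 * t : ℝ) : ℂ))) + ((3 * t : ℝ) : ℂ) := by ring
        have h9 : ‖((3 * t : ℝ) : ℂ)‖ = 3 * t := by
          rw [Complex.norm_real, Real.norm_eq_abs, abs_of_pos (by positivity)]
        rw [h8]
        linarith [norm_add_le (z - (p + ((3 * t : ℝ) : ℂ))) ((3 * t : ℝ) : ℂ)]
      · rintro ⟨h8, -⟩
        have h9 := (abs_le.1 ((abs_re_le_norm (z - (p + ((3 * t : ℝ) : ℂ)))).trans hz.le)).1
        rw [sub_re, add_re, ofReal_re, h8] at h9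
        linarith
    -- first curve
    have hX0 : ‖Lam k b r R (gam p t σ 0) - 1‖ ≤ CC * √d / t := by
      have h8 : gam p t σ 0 = q0 := by
        rw [hq0]
        unfold gam
        simp
        ring
      rw [h8]
      have h9 : R =ᶠ[𝓝 q0] G' := by
        filter_upwards [Metric.isOpen_ball.mem_nhds (Metric.mem_ball_self ht)] with x hx
        exact hRG x hx
      have h10 : Lam k b r R q0 = Lam k b r G' q0 := by
        unfold Lam
        rw [h9.deriv_eq, h9.eq_of_nhds]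
      rw [h10]
      exact hctr
    have hpi : Real.pi ≤ 4 := Real.pi_le_four
    have hb1 : CC * √d / t + Real.pi * (3 * t * (CH * √d / (2 * t) ^ 2)) ≤
        CC * √d / t + 3 * CH * √d / t := by
      have h8 : Real.pi * (3 * t * (CH * √d / (2 * t) ^ 2)) = (Real.pi * (3 / 4)) * (CH * √d / t) := by
        field_simp
        ring
      have h9 : 0 ≤ CH * √d / t := by positivity
      rw [h8]
      have h10 : Real.pi * (3 / 4) * (CH * √d / t) ≤ 3 * (CH * √d / t) :=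
        mul_le_mul_of_nonneg_right (by linarith) h9
      have h11 : 3 * (CH * √d / t) = 3 * CH * √d / t := by ring
      linarith
    have hCHd : 0 ≤ CH * √d / t := by positivity
    have hKe : (CC + 4 * CH) * √d / t = CC * √d / t + 3 * CH * √d / t + CH * √d / t := by ring
    have hX1 := transport h7 hCH h5 (X := Lam k b r R) (γ := gam p t σ) (T := Real.pi)
      (s := 2 * t) (L := 3 * t) (d := d) (ε := CC * √d / t) Real.pi_pos.le (by positivity) hd.le
      (by nlinarith) (by positivity) (fun u _ => gam_deriv p t σ u)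
      (fun u _ => gam_norm ht hσ u) (fun u hu => hLd.mono (gam_ball ht hσ hu))
      (fun u hu => hInt _ _ (by linarith) (gam_ball ht hσ hu)) hX0
      (by
        refine lt_of_le_of_lt hb1 ?_
        linarith)
    have h8 : gam p t σ Real.pi = p + ((3 * t : ℝ) : ℂ) := by
      unfold gam
      simp
    rw [h8] at hX1
    have hX1' := hX1.trans hb1
    refine ⟨hsht, hRd.mono ((Metric.ball_subset_ball (by linarith)).trans hz0), ?_⟩
    intro ζ hζ
    rw [Metric.mem_ball, dist_eq_norm] at hζ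
    set z1 : ℂ := p + ((3 * t : ℝ) : ℂ) with hz1
    have hseg : ∀ u ∈ Icc (0 : ℝ) 1, Metric.ball (z1 + (u : ℂ) * (ζ - z1)) t ⊆ SD p t σ := by
      intro u hu
      refine Subset.trans ?_ hz0
      refine Metric.ball_subset_ball' ?_
      rw [dist_eq_norm, add_sub_cancel_left, norm_mul, Complex.norm_real, Real.norm_eq_abs,
        abs_of_nonneg hu.1]
      have h9 : u * ‖ζ - z1‖ ≤ 1 * ‖ζ - z1‖ := mul_le_mul_of_nonneg_right hu.2 (norm_nonneg _)
      linarith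
    have hX2 := transport h7 hCH h5 (X := Lam k b r R)
      (γ := fun u : ℝ => z1 + (u : ℂ) * (ζ - z1)) (γ' := fun _ => ζ - z1) (T := 1)
      (s := t) (L := t / 2) (d := d) (ε := CC * √d / t + 3 * CH * √d / t) zero_le_one ht hd.le
      (by nlinarith) (by positivity) (fun u _ => by
        have h9 : HasDerivAt (fun u : ℝ => (u : ℂ)) 1 u := (hasDerivAt_id u).ofReal_comp
        have h10 := (h9.mul_const (ζ - z1)).const_add z1
        simpa using h10)
      (fun u _ => hζ.le) (fun u hu => hLd.mono (hseg u hu))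
      (fun u hu => hInt _ _ (by linarith) (hseg u hu)) (by simpa using hX1')
      (by
        have h9 : 1 * (t / 2 * (CH * √d / t ^ 2)) = 1 / 2 * (CH * √d / t) := by
          field_simp
        rw [h9]
        linarith)
    have h9 : 1 * (t / 2 * (CH * √d / t ^ 2)) = 1 / 2 * (CH * √d / t) := by
      field_simp
    rw [h9] at hX2
    have h10 : z1 + ((1 : ℝ) : ℂ) * (ζ - z1) = ζ := by
      push_cast
      ring
    simp only [h10] at hX2
    linarith
  have m1 := main 1 (fun ζ => ω * R₁ ζ) (by norm_num) (by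
    refine DifferentiableOn.const_mul (hR1.mono ?_) ω
    intro ζ hζ
    refine ⟨hζ.1, fun h8 => hζ.2 ⟨h8.1, ?_⟩⟩
    linarith [h8.2]) (by
    intro ζ hζ
    simp only [mul_pow]
    rw [hω, one_mul]
    exact (hRn ζ hζ).1) (fun ζ hζ => (hGω ζ hζ).symm)
  have m2 := main (-1) (fun ζ => ω * R₂ ζ) (by norm_num) (by
    refine DifferentiableOn.const_mul (hR2.mono ?_) ω
    intro ζ hζ
    refine ⟨hζ.1, fun h8 => hζ.2 ⟨h8.1, ?_⟩⟩
    linarith [h8.2]) (by
    intro ζ hζ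
    simp only [mul_pow]
    rw [hω, one_mul]
    exact (hRn ζ hζ).2) (fun ζ hζ => by
      rw [← hReq ζ (hq0b ζ hζ).1 (hq0b ζ hζ).2.1]
      exact (hGω ζ hζ).symm)
  obtain ⟨m11, m12, m13⟩ := m1
  obtain ⟨m21, m22, m23⟩ := m2
  have hWre : ∀ ζ ∈ Metric.ball (p + ((3 * t : ℝ) : ℂ)) (t / 2), ζ ∈ Metric.ball p (5 * t) ∧
      p.re < ζ.re := by
    intro z hz
    rw [Metric.mem_ball, dist_eq_norm] at hz
    refine ⟨?_, ?_⟩
    · rw [Metric.mem_ball, dist_eq_norm]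
      have h8 : z - p = (z - (p + ((3 * t : ℝ) : ℂ))) + ((3 * t : ℝ) : ℂ) := by ring
      have h9 : ‖((3 * t : ℝ) : ℂ)‖ = 3 * t := by
        rw [Complex.norm_real, Real.norm_eq_abs, abs_of_pos (by positivity)]
      rw [h8]
      linarith [norm_add_le (z - (p + ((3 * t : ℝ) : ℂ))) ((3 * t : ℝ) : ℂ)]
    · have h9 := (abs_le.1 ((abs_re_le_norm (z - (p + ((3 * t : ℝ) : ℂ)))).trans hz.le)).1
      rw [sub_re, add_re, ofReal_re] at h9
      linarith
  have hWU : ∀ σ : ℝ, ∀ ζ ∈ Metric.ball (p + ((3 * t : ℝ) : ℂ)) (t / 2), ζ ∈ SD p t σ :=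
    fun σ ζ hζ => ⟨(hWre ζ hζ).1, fun h8 => (hWre ζ hζ).2.ne h8.1.symm⟩
  have hae := hR.wt2 (m + 1) (Metric.ball (p + ((3 * t : ℝ) : ℂ)) (t / 2)) (fun ζ => ω * R₁ ζ)
    (fun ζ => ω * R₂ ζ) hG'.hk Metric.isOpen_ball
    (fun ζ hζ => hR.sub ζ (by
      have := hball' ζ (hWre ζ hζ).1
      have := hG.hl
      linarith)) m12 m22 (fun ζ hζ => m11 ζ (hWU 1 ζ hζ)) (fun ζ hζ => m21 ζ (hWU (-1) ζ hζ))
    (fun ζ hζ h8 => hRne ζ (hWre ζ hζ).1 (hWre ζ hζ).2 (mul_left_cancel₀ hω0 h8))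
  have hfin : ∫⁻ _z in Metric.ball (p + ((3 * t : ℝ) : ℂ)) (t / 2), (ENNReal.ofReal (1 / 2)) ≤
      ENNReal.ofReal d := by
    refine le_trans ?_ (ball_int h6 hR.Dm hR.Dper hR.Dint (p + ((3 * t : ℝ) : ℂ))
      (s := t / 2) (by linarith))
    refine setLIntegral_mono_ae hR.Dm.aemeasurable ?_
    filter_upwards [hae] with z hz hz2
    have h8 := hz hz2
    have h9 := m13 z hz2
    have h10 := m23 z hz2
    have h11 : 9 / 10 ≤ ‖Lam k b r (fun ζ => ω * R₁ ζ) z‖ := by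
      have := norm_sub_norm_le 1 (1 - Lam k b r (fun ζ => ω * R₁ ζ) z)
      rw [sub_sub_cancel, norm_one, norm_sub_rev] at this
      linarith
    have h12 : 9 / 10 ≤ ‖Lam k b r (fun ζ => ω * R₂ ζ) z‖ := by
      have := norm_sub_norm_le 1 (1 - Lam k b r (fun ζ => ω * R₂ ζ) z)
      rw [sub_sub_cancel, norm_one, norm_sub_rev] at this
      linarith
    have h13 : ENNReal.ofReal (1 + 1 / 2) ≤ 1 + D z :=
      (ENNReal.ofReal_le_ofReal (by linarith)).trans h8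
    rw [ENNReal.ofReal_add zero_le_one (by norm_num), ENNReal.ofReal_one] at h13
    exact (ENNReal.add_le_add_iff_left ENNReal.one_ne_top).1 h13
  rw [setLIntegral_const, Complex.volume_ball] at hfin
  have h8 : ENNReal.ofReal (1 / 2) * (ENNReal.ofReal (t / 2) ^ 2 * NNReal.pi) =
      ENNReal.ofReal (1 / 2 * ((t / 2) ^ 2 * Real.pi)) := by
    rw [ENNReal.ofReal_mul (by norm_num), ENNReal.ofReal_mul (by positivity),
      ENNReal.ofReal_pow (by positivity)]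
    congr 2
    rw [← NNReal.coe_real_pi, ENNReal.ofReal_coe_nnreal]
  rw [h8, ENNReal.ofReal_le_ofReal_iff hd.le] at hfin
  have := Real.pi_gt_three
  nlinarith

end Pool.Agent.MEY
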