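import Pool.Agent.MEY.Basic

/-!
# MEY: local existence of natural maps (LOCN)
-/

set_option autoImplicit false

open Complex Filter Topology Set MeasureTheory
open Pool.Agent.MEX

open Pool.Agent.MEX

namespace Pool.Agent.MEY

namespace LOCN_

lemma avoid_open {k : ℕ} {b : ℕ → ℂ} (hper : ∀ j, b (j + k) = b j) (hk : 0 < k) :
    IsOpen {x : ℂ | ∀ j, x ≠ b j} := by
  have h1 : {x : ℂ | ∀ j, x ≠ b j} = (b '' (Finset.range k : Set ℕ))ᶜ := by
    ext x
    rw [mem_ofPred_eq, mem_compl_iff]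
    constructor
    · rintro h ⟨j, _, hj⟩
      exact h j hj.symm
    · intro h j hj
      have hmod : ∀ q i : ℕ, b (i + k * q) = b i := by
        intro q
        induction q with
        | zero => simp
        | succ q ih =>
          intro i
          rw [Nat.mul_succ, ← Nat.add_assoc, hper, ih]
      refine h ⟨j % k, ?_, ?_⟩
      · rw [Finset.mem_coe, Finset.mem_range]
        exact Nat.mod_lt _ hk
      · rw [hj]
        conv_rhs => rw [← Nat.mod_add_div j k]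
        exact (hmod _ _).symm
  rw [h1]
  exact ((Finset.finite_toSet _).image _).isClosed.isOpen_compl

/-- a local square root with a primitive -/
lemma root {O : Set ℂ} {φ : ℂ → ℂ} {x₀ : ℂ} (hO : IsOpen O) (hx : x₀ ∈ O)
    (hφ : DifferentiableOn ℂ φ O) (h0 : φ x₀ ≠ 0) :
    ∃ (e : ℝ) (s H : ℂ → ℂ), 0 < e ∧ Metric.ball x₀ e ⊆ O ∧
      (∀ x ∈ Metric.ball x₀ e, s x ^ 2 = φ x ∧ s x ≠ 0 ∧ HasDerivAt H (s x) x) := by
  have hd : ∀ x ∈ O, DifferentiableAt ℂ φ x := fun x hx =>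
    (hφ x hx).differentiableAt (hO.mem_nhds hx)
  have hcont : ContinuousAt (fun x => φ x / φ x₀) x₀ :=
    (hd x₀ hx).continuousAt.div_const _
  have h1 : ∀ᶠ x in 𝓝 x₀, φ x / φ x₀ ∈ slitPlane := by
    refine hcont.eventually_mem (isOpen_slitPlane.mem_nhds ?_)
    rw [div_self h0]
    exact one_mem_slitPlane
  obtain ⟨e, he, hball⟩ := Metric.eventually_nhds_iff_ball.1 (h1.and (hO.mem_nhds hx))
  obtain ⟨c, hc⟩ := IsAlgClosed.exists_pow_nat_eq (φ x₀) (n := 2) (by norm_num)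
  set s : ℂ → ℂ := fun x => c * (φ x / φ x₀) ^ ((2 : ℕ) : ℂ)⁻¹ with hs
  have hs2 : ∀ x, s x ^ 2 = φ x := by
    intro x
    rw [hs]
    simp only
    rw [mul_pow, Complex.cpow_nat_inv_pow _ two_ne_zero, hc]
    field_simp
  have hsd : DifferentiableOn ℂ s (Metric.ball x₀ e) := by
    intro x hx
    have h2 : DifferentiableAt ℂ (fun x => φ x / φ x₀) x := (hd x (hball x hx).2).div_const _
    exact ((h2.cpow (differentiableAt_const _) (hball x hx).1).const_mul c).differentiableWithinAt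
  obtain ⟨H, hH⟩ := hsd.isExactOn_ball
  refine ⟨e, s, H, he, fun x hx => (hball x hx).2, fun x hx => ⟨hs2 x, ?_, hH x hx⟩⟩
  intro h2
  have h3 := hs2 x
  rw [h2] at h3
  have h4 := slitPlane_ne_zero (hball x hx).1
  rw [← h3] at h4
  simp at h4

lemma sq_one_cases {σ : ℂ} (h : σ ^ 2 = 1) : σ = 1 ∨ σ = -1 := by
  have h1 : (σ - 1) * (σ + 1) = 0 := by linear_combination h
  rcases mul_eq_zero.1 h1 with h2 | h2
  · exact Or.inl (sub_eq_zero.1 h2)
  · exact Or.inr (eq_neg_of_add_eq_zero_left h2)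

end LOCN_

open LOCN_ in
/-- LOCN -/
theorem p_LOCN : T_LOCN := by
  intro k b r x₀ hper hx₀ h0
  have hO := E_isOpen r
  have hφ : DifferentiableOn ℂ (AA k b r) {x : ℂ | x ∉ r.E} := fun x hx =>
    (AA_differentiableAt hper hx).differentiableWithinAt
  obtain ⟨e, s, H, he, hball, hsH⟩ := root hO hx₀ hφ h0
  have hxe : x₀ ∈ Metric.ball x₀ e := Metric.mem_ball_self he
  have hHd : DifferentiableOn ℂ H (Metric.ball x₀ e) := fun x hx =>
    (hsH x hx).2.2.differentiableAt.differentiableWithinAt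
  have hHa : AnalyticAt ℂ H x₀ := hHd.analyticAt (Metric.ball_mem_nhds x₀ he)
  have hst : HasStrictDerivAt H (s x₀) x₀ := by
    have h1 := hHa.hasStrictDerivAt
    rwa [(hsH x₀ hxe).2.2.deriv] at h1
  have hfd := hst.hasStrictFDerivAt_equiv (hsH x₀ hxe).2.1
  set E : OpenPartialHomeomorph ℂ ℂ := hfd.toOpenPartialHomeomorph H with hE
  have hEx : x₀ ∈ E.source := hfd.mem_toOpenPartialHomeomorph_source
  set R : OpenPartialHomeomorph ℂ ℂ := E.restrOpen (Metric.ball x₀ e) Metric.isOpen_ball with hR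
  have hRc : (R : ℂ → ℂ) = H := rfl
  have hRs : R.source = E.source ∩ Metric.ball x₀ e := rfl
  have hRx : x₀ ∈ R.source := by
    rw [hRs]
    exact ⟨hEx, hxe⟩
  have hRt : H x₀ ∈ R.target := by
    have := R.map_source hRx
    rwa [hRc] at this
  obtain ⟨δ, hδ, hδt⟩ := Metric.isOpen_iff.1 R.open_target _ hRt
  have hHc : ContinuousAt H x₀ := (hsH x₀ hxe).2.2.continuousAt
  have h2a : ∀ᶠ x in 𝓝 x₀, x ∈ R.source := R.open_source.mem_nhds hRx
  have h2 : ∀ᶠ x in 𝓝 x₀, x ∈ R.source ∧ dist (H x) (H x₀) < δ / 2 :=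
    h2a.and (Metric.tendsto_nhds.1 hHc _ (by positivity))
  obtain ⟨ε, hε, hεb⟩ := Metric.eventually_nhds_iff_ball.1 h2
  refine ⟨δ / 2, ε, by positivity, hε, fun x hx v hv => ?_⟩
  obtain ⟨hxR, hxd⟩ := hεb x hx
  have hxe' : x ∈ Metric.ball x₀ e := by
    rw [hRs] at hxR
    exact hxR.2
  have hσ : (v * s x) ^ 2 = 1 := by
    rw [mul_pow, (hsH x hxe').1, hv]
  have hσn : ‖v * s x‖ = 1 := by
    rcases sq_one_cases hσ with h3 | h3 <;> rw [h3] <;> simp
  set σ : ℂ := v * s x with hσd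
  have htar : ∀ ζ ∈ Metric.ball (0 : ℂ) (δ / 2), H x + σ * ζ ∈ R.target := by
    intro ζ hζ
    refine hδt ?_
    rw [Metric.mem_ball, dist_eq_norm] at hζ ⊢
    rw [dist_eq_norm] at hxd
    rw [sub_zero] at hζ
    have h4 : H x + σ * ζ - H x₀ = (H x - H x₀) + σ * ζ := by ring
    rw [h4]
    refine (norm_add_le _ _).trans_lt ?_
    rw [norm_mul, hσn, one_mul]
    linarith
  have hin : ∀ ζ ∈ Metric.ball (0 : ℂ) (δ / 2), R.symm (H x + σ * ζ) ∈ Metric.ball x₀ e := by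
    intro ζ hζ
    have h5 := R.map_target (htar ζ hζ)
    rw [hRs] at h5
    exact h5.2
  have hder : ∀ ζ ∈ Metric.ball (0 : ℂ) (δ / 2),
      HasDerivAt (fun ζ => R.symm (H x + σ * ζ)) ((s (R.symm (H x + σ * ζ)))⁻¹ * σ) ζ := by
    intro ζ hζ
    obtain ⟨-, h6, h7⟩ := hsH _ (hin ζ hζ)
    have h8 : HasDerivAt R.symm (s (R.symm (H x + σ * ζ)))⁻¹ (H x + σ * ζ) :=
      R.hasDerivAt_symm (htar ζ hζ) h6 h7
    have h9 : HasDerivAt (fun ζ : ℂ => H x + σ * ζ) σ ζ := by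
      simpa using ((hasDerivAt_id ζ).const_mul σ).const_add (H x)
    exact h8.comp ζ h9
  have h0b : (0 : ℂ) ∈ Metric.ball (0 : ℂ) (δ / 2) := Metric.mem_ball_self (by positivity)
  have hg0 : R.symm (H x + σ * 0) = x := by
    rw [mul_zero, add_zero]
    exact R.left_inv hxR
  refine ⟨fun ζ => R.symm (H x + σ * ζ), ⟨fun ζ hζ =>
    (hder ζ hζ).differentiableAt.differentiableWithinAt, fun ζ hζ => hball (hin ζ hζ),
    fun ζ hζ => ?_, hper⟩, hg0, ?_⟩
  · rw [(hder ζ hζ).deriv]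
    obtain ⟨h6, h7, -⟩ := hsH _ (hin ζ hζ)
    show ((s (R.symm (H x + σ * ζ)))⁻¹ * σ) ^ 2 * AA k b r (R.symm (H x + σ * ζ)) = 1
    rw [← h6, mul_pow, hσ, mul_one, inv_pow, inv_mul_cancel₀ (pow_ne_zero 2 h7)]
  · rw [(hder 0 h0b).deriv, hg0, hσd]
    have h7 := (hsH x hxe').2.1
    field_simp

end Pool.Agent.MEY
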