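import Pool.Agent.MEY.LQZ

/-!
# MEY: LQI, the square of the natural coordinate at infinity
-/

set_option autoImplicit false

open Complex Filter Topology Set MeasureTheory
open Pool.Agent.Multibrot (rt push)
open Pool.Agent.Limb (F)
open Pool.Agent.PLim (Cyc fp fpp Rho LocFix)
open Pool.Agent.MEX

namespace Pool.Agent.MEY

namespace LQI_

lemma eval_rev (P : Polynomial ℂ) {x : ℂ} (hx : x ≠ 0) :
    P.eval x = x ^ P.natDegree * P.reverse.eval x⁻¹ := by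
  let _ : Invertible x := invertibleOfNonzero hx
  have h := Polynomial.eval₂_reverse_mul_pow (RingHom.id ℂ) x P
  rw [invOf_eq_inv] at h
  have h1 : P.reverse.eval x⁻¹ * x ^ P.natDegree = P.eval x := h
  rw [← h1, mul_comm]

lemma prod_rev (E : Finset ℂ) {x : ℂ} (hx : x ≠ 0) :
    ∏ e ∈ E, (x - e) ^ 2 = x ^ (2 * E.card) * ∏ e ∈ E, (1 - e * x⁻¹) ^ 2 := by
  have h : ∀ e : ℂ, (x - e) ^ 2 = x ^ 2 * (1 - e * x⁻¹) ^ 2 := by
    intro e
    field_simp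
  rw [Finset.prod_congr rfl fun e _ => h e, Finset.prod_mul_distrib, Finset.prod_const,
    ← pow_mul]

end LQI_

open LQI_

theorem p_LQI : T_LQI := by
  intro n k c b r μ P hB hP
  have hk : 0 < k := hB.cyc.hp
  have hdeg := hP.deg
  set N : ℕ := 2 * r.E.card - P.natDegree - 2 with hN
  have hN1 : 1 ≤ N := by omega
  -- a disc without poles
  obtain ⟨R, hR, hRb⟩ : ∃ R : ℝ, 0 < R ∧ ∀ u ∈ Metric.ball (0 : ℂ) R, ∀ e ∈ r.E, 1 - e * u ≠ 0 := by
    have h1 : ∀ᶠ u in 𝓝 (0 : ℂ), ∀ e ∈ r.E, 1 - e * u ≠ 0 := by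
      rw [Filter.eventually_all_finset]
      intro e _
      have h2 : ContinuousAt (fun u : ℂ => 1 - e * u) 0 := by fun_prop
      exact h2.eventually_ne (by simp)
    obtain ⟨R, hR, hRU⟩ := Metric.mem_nhds_iff.1 h1
    exact ⟨R, hR, fun x hx e he => hRU hx e he⟩
  set q : ℂ → ℂ := fun u => P.reverse.eval u / ∏ e ∈ r.E, (1 - e * u) ^ 2 with hq
  have hprod : ∀ u ∈ Metric.ball (0 : ℂ) R, ∏ e ∈ r.E, (1 - e * u) ^ 2 ≠ 0 := by
    intro x hx
    exact Finset.prod_ne_zero_iff.2 fun e he => pow_ne_zero _ (hRb x hx e he)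
  have hqd : DifferentiableOn ℂ q (Metric.ball 0 R) := by
    intro u hu
    have h1 : DifferentiableAt ℂ (fun u => P.reverse.eval u) u := P.reverse.differentiableAt
    have h2 : DifferentiableAt ℂ (fun u => ∏ e ∈ r.E, (1 - e * u) ^ 2) u := by
      fun_prop
    exact (h1.div h2 (hprod _ hu)).differentiableWithinAt
  have hq0 : q 0 ≠ 0 := by
    rw [hq]
    simp only
    refine div_ne_zero ?_ (hprod 0 (Metric.mem_ball_self hR))
    rw [← Polynomial.coeff_zero_eq_eval_zero, Polynomial.coeff_zero_reverse]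
    exact Polynomial.leadingCoeff_ne_zero.2 hP.ne
  obtain ⟨ρ, a, v, hρ, hρR, hane, hv2, hder, hcnt⟩ := LQZ_.common hN1 hR hqd hq0
  have hx0 : ∀ x : ℂ, ρ⁻¹ < ‖x‖ → x ≠ 0 := by
    rintro x hx rfl
    rw [norm_zero] at hx
    exact absurd hx (not_lt.2 (inv_pos.2 hρ).le)
  have hmem : ∀ x : ℂ, ρ⁻¹ < ‖x‖ → x⁻¹ ∈ Metric.ball (0 : ℂ) ρ := by
    intro x hx
    rw [mem_ball_zero_iff, norm_inv]
    exact inv_lt_of_inv_lt₀ hρ hx
  have hsub : Metric.ball (0 : ℂ) ρ ⊆ Metric.ball 0 R := Metric.ball_subset_ball hρR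
  have hxb : ∀ x : ℂ, ρ⁻¹ < ‖x‖ → x ∉ r.E := by
    intro x hx hj
    have h1 := hRb _ (hsub (hmem x hx)) x hj
    rw [mul_inv_cancel₀ (hx0 x hx)] at h1
    exact h1 (sub_self 1)
  set Qt : ℂ → ℂ := fun u => u ^ N * a u ^ 2 with hQt
  set Q : ℂ → ℂ := fun x => Qt x⁻¹ with hQ
  have hQd : ∀ x : ℂ, ρ⁻¹ < ‖x‖ → HasDerivAt Q
      (2 * x⁻¹ ^ (N - 1) * a x⁻¹ * v x⁻¹ * (-(x ^ 2)⁻¹)) x := by
    intro x hx
    have h1 := hder x⁻¹ (hmem x hx)
    have h2 : HasDerivAt (fun x : ℂ => x⁻¹) (-(x ^ 2)⁻¹) x := hasDerivAt_inv (hx0 x hx)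
    exact h1.comp x h2
  have hAA : ∀ x : ℂ, ρ⁻¹ < ‖x‖ → AA k b r x = x⁻¹ ^ (N + 2) * v x⁻¹ ^ 2 := by
    intro x hx
    have h0 := hx0 x hx
    have h1 := hP.eq x (hxb x hx)
    rw [prod_rev r.E h0, eval_rev P h0] at h1
    have h2 : ∏ e ∈ r.E, (1 - e * x⁻¹) ^ 2 ≠ 0 := hprod _ (hsub (hmem x hx))
    rw [hv2 _ (hmem x hx), hq]
    simp only
    rw [← mul_div_assoc, eq_div_iff h2]
    have h3 : x ^ (2 * r.E.card) = x ^ P.natDegree * x ^ (N + 2) := by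
      rw [← pow_add]
      congr 1
      omega
    rw [h3] at h1
    have h4 : x ^ P.natDegree ≠ 0 := pow_ne_zero _ h0
    have h5 : x ^ (N + 2) * (AA k b r x * ∏ e ∈ r.E, (1 - e * x⁻¹) ^ 2) =
        P.reverse.eval x⁻¹ := by
      refine mul_left_cancel₀ h4 ?_
      rw [← h1]
      ring
    rw [← h5, inv_pow, ← mul_assoc, inv_mul_cancel₀ (pow_ne_zero _ h0), one_mul]
  refine ⟨ρ⁻¹, Q, inv_pos.2 hρ, hxb, fun x hx =>
    (hQd x hx).differentiableAt.differentiableWithinAt, ?_, ?_, ?_, ?_⟩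
  · have h1 : ContinuousAt Qt 0 := (hder 0 (Metric.mem_ball_self hρ)).continuousAt
    have h2 : Qt 0 = 0 := by
      have : N ≠ 0 := by omega
      simp [hQt, this]
    rw [ContinuousAt, h2] at h1
    refine h1.comp ?_
    rw [← Metric.cobounded_eq_cocompact]
    exact tendsto_inv₀_cobounded
  · intro x hx
    exact mul_ne_zero (pow_ne_zero _ (inv_ne_zero (hx0 x hx)))
      (pow_ne_zero _ (hane _ (hmem x hx)))
  · intro x hx
    rw [(hQd x hx).deriv, hAA x hx, hQ, hQt]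
    simp only
    have h0 := hx0 x hx
    have h3 : (x ^ 2)⁻¹ = x⁻¹ ^ 2 := (inv_pow x 2).symm
    rw [h3]
    obtain ⟨M, hM⟩ : ∃ M, N = M + 1 := ⟨N - 1, by omega⟩
    rw [hM, Nat.add_sub_cancel]
    ring
  · intro z S hS
    have h1 := hcnt z (S.image fun x => x⁻¹) (by
      intro u hu
      obtain ⟨x, hx, rfl⟩ := Finset.mem_image.1 hu
      exact ⟨hmem x (hS x hx).1, (hS x hx).2⟩)
    rw [Finset.card_image_of_injective _ inv_injective] at h1
    omega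

end Pool.Agent.MEY
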