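import Pool.Agent.MEY.Basic

/-!
# MEY, target MAX: the maximal charts
-/

set_option autoImplicit false

open Complex Filter Topology Set MeasureTheory
open Pool.Agent.Multibrot (rt push)
open Pool.Agent.Limb (F)
open Pool.Agent.PLim (Cyc fp fpp Rho LocFix)
open Pool.Agent.MEX

namespace Pool.Agent.MEY

namespace MAX_

/-- A chart with values near `β`. -/
def Chb (k : ℕ) (b : ℕ → ℂ) (r : Dat) (β : ℂ) (W : Set ℂ) (g : ℂ → ℂ) : Prop :=
  LI W ∧ NM k b r W g ∧ Tendsto (fun ζ => (g ζ - β) * exp (-ζ)) lf (𝓝 1)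

lemma chb_iff {k : ℕ} {b : ℕ → ℂ} {r : Dat} {j : ℕ} {W : Set ℂ} {g : ℂ → ℂ} :
    Chb k b r (b j) W g ↔ Cht k b r j W g :=
  ⟨fun h => ⟨h.1, h.2.1, h.2.2⟩, fun h => ⟨h.li, h.nm, h.asy⟩⟩

/-- The union of the domains. -/
def VV (k : ℕ) (b : ℕ → ℂ) (r : Dat) (β : ℂ) : Set ℂ := {ζ | ∃ W g, Chb k b r β W g ∧ ζ ∈ W}

open Classical in
/-- The glued chart. -/
noncomputable def XX (k : ℕ) (b : ℕ → ℂ) (r : Dat) (β : ℂ) (ζ : ℂ) : ℂ :=
  if h : ∃ p : Set ℂ × (ℂ → ℂ), Chb k b r β p.1 p.2 ∧ ζ ∈ p.1 then h.choose.2 ζ else 0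

lemma tr_lf {a : ℂ} (ha : a.re = 0) : Tendsto (fun w : ℂ => a + w) lf lf := by
  unfold lf
  rw [tendsto_comap_iff]
  have : (Complex.re ∘ fun w : ℂ => a + w) = Complex.re := by
    funext w
    simp [ha]
  rw [this]
  exact tendsto_comap

lemma cht_tr {k : ℕ} {b : ℕ → ℂ} {r : Dat} {j : ℕ} {W : Set ℂ} {g : ℂ → ℂ} (h : Cht k b r j W g) {a : ℂ}
    (ha : a.re = 0) (he : exp a = 1) :
    Cht k b r j {w : ℂ | a + w ∈ W} (fun w => g (a + w)) where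
  li :=
    { op := h.li.op.preimage (continuous_const.add continuous_id)
      left := fun ζ hζ s hs => by
        show a + (ζ - s) ∈ W
        rw [← add_sub_assoc]
        exact h.li.left (a + ζ) hζ s hs
      inf := by
        obtain ⟨R, hR⟩ := h.li.inf
        refine ⟨R, fun ζ hζ => hR (a + ζ) ?_⟩
        rw [add_re, ha, zero_add]
        exact hζ }
  nm := h.nm.comp_add h.li.op a
  asy := by
    have h1 := h.asy.comp (tr_lf ha)
    refine h1.congr fun w => ?_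
    show (g (a + w) - b j) * exp (-(a + w)) = (g (a + w) - b j) * exp (-w)
    have h2 : exp (-(a + w)) = exp (-w) := by
      rw [neg_add, exp_add, exp_neg a, he, inv_one, one_mul]
    rw [h2]

end MAX_

open MAX_

theorem p_MAX (h1 : T_CYE) (h2 : T_CYU) : T_MAX := by
  intro n k c b r μ hb
  have key : ∀ (j : ℕ) (W : Set ℂ) (g : ℂ → ℂ), Cht k b r j W g →
      ∀ ζ ∈ W, XX k b r (b j) ζ = g ζ := by
    intro j W g hg ζ hζ
    have hex : ∃ p : Set ℂ × (ℂ → ℂ), Chb k b r (b j) p.1 p.2 ∧ ζ ∈ p.1 :=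
      ⟨(W, g), chb_iff.2 hg, hζ⟩
    have hX : XX k b r (b j) ζ = hex.choose.2 ζ := by
      unfold XX
      rw [dif_pos hex]
    rw [hX]
    exact h2 n k c b r μ j hex.choose.1 W hex.choose.2 g hb (chb_iff.1 hex.choose_spec.1) hg
      ⟨hex.choose_spec.2, hζ⟩
  have hsub : ∀ (j : ℕ) (W : Set ℂ) (g : ℂ → ℂ), Cht k b r j W g → W ⊆ VV k b r (b j) :=
    fun j W g hg ζ hζ => ⟨W, g, chb_iff.2 hg, hζ⟩
  have hpi : (2 * (Real.pi : ℂ) * I).re = 0 := by simp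
  have hpe : exp (2 * (Real.pi : ℂ) * I) = 1 := exp_two_pi_mul_I
  have hni : (-(2 * (Real.pi : ℂ) * I)).re = 0 := by simp
  have hne : exp (-(2 * (Real.pi : ℂ) * I)) = 1 := by rw [exp_neg, hpe, inv_one]
  refine ⟨fun j => VV k b r (b j), fun j => XX k b r (b j), ?_⟩
  refine ⟨fun j => ?_, fun j W g hg => ⟨hsub j W g hg, fun ζ hζ => (key j W g hg ζ hζ).symm⟩,
    fun j ζ => ⟨?_, ?_⟩, fun j ζ hζ => ?_, fun j => ?_, fun j => ?_⟩
  · obtain ⟨R, g0, hg0⟩ := h1 n k c b r μ j hb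
    refine ⟨⟨?_, ?_, ?_⟩, ⟨?_, ?_, ?_, hb.hol⟩, ?_⟩
    · rw [isOpen_iff_mem_nhds]
      rintro ζ ⟨W, g, hg, hζ⟩
      exact mem_of_superset (hg.1.op.mem_nhds hζ) (hsub j W g (chb_iff.1 hg))
    · rintro ζ ⟨W, g, hg, hζ⟩ s hs
      exact ⟨W, g, hg, hg.1.left ζ hζ s hs⟩
    · exact ⟨R, fun ζ hζ => hsub j _ g0 hg0 hζ⟩
    · rintro ζ ⟨W, g, hg, hζ⟩
      have h3 : XX k b r (b j) =ᶠ[𝓝 ζ] g :=
        eventually_of_mem (hg.1.op.mem_nhds hζ) (key j W g (chb_iff.1 hg))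
      have h4 : DifferentiableAt ℂ g ζ := (hg.2.1.diff ζ hζ).differentiableAt
        (hg.1.op.mem_nhds hζ)
      exact (h4.congr_of_eventuallyEq h3).differentiableWithinAt
    · rintro ζ ⟨W, g, hg, hζ⟩
      rw [key j W g (chb_iff.1 hg) ζ hζ]
      exact hg.2.1.avoid ζ hζ
    · rintro ζ ⟨W, g, hg, hζ⟩
      have h3 : XX k b r (b j) =ᶠ[𝓝 ζ] g :=
        eventually_of_mem (hg.1.op.mem_nhds hζ) (key j W g (chb_iff.1 hg))
      rw [h3.deriv_eq, key j W g (chb_iff.1 hg) ζ hζ]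
      exact hg.2.1.nat ζ hζ
    · refine hg0.asy.congr' ?_
      refine eventually_lf.2 ⟨R, fun ζ hζ => ?_⟩
      show (g0 ζ - b j) * exp (-ζ) = (XX k b r (b j) ζ - b j) * exp (-ζ)
      rw [key j _ g0 hg0 ζ hζ]
  · rintro ⟨W, g, hg, hζ⟩
    have h3 := cht_tr (chb_iff.1 hg) hpi hpe
    refine hsub j _ _ h3 ?_
    show 2 * (Real.pi : ℂ) * I + ζ ∈ W
    rw [add_comm]
    exact hζ
  · rintro ⟨W, g, hg, hζ⟩
    have h3 := cht_tr (chb_iff.1 hg) hni hne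
    refine hsub j _ _ h3 ?_
    show -(2 * (Real.pi : ℂ) * I) + (ζ + 2 * (Real.pi : ℂ) * I) ∈ W
    rw [add_comm ζ, neg_add_cancel_left]
    exact hζ
  · obtain ⟨W, g, hg, hζ⟩ := hζ
    have h3 := cht_tr (chb_iff.1 hg) hni hne
    have h4 : ζ + 2 * (Real.pi : ℂ) * I ∈ {w : ℂ | -(2 * (Real.pi : ℂ) * I) + w ∈ W} := by
      show -(2 * (Real.pi : ℂ) * I) + (ζ + 2 * (Real.pi : ℂ) * I) ∈ W
      rw [add_comm ζ, neg_add_cancel_left]
      exact hζ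
    show XX k b r (b j) (ζ + 2 * (Real.pi : ℂ) * I) = XX k b r (b j) ζ
    rw [key j _ _ h3 _ h4, key j W g (chb_iff.1 hg) ζ hζ]
    show g (-(2 * (Real.pi : ℂ) * I) + (ζ + 2 * (Real.pi : ℂ) * I)) = g ζ
    rw [add_comm ζ, neg_add_cancel_left]
  · show VV k b r (b (j + k)) = VV k b r (b j)
    rw [hb.cyc.per]
  · show XX k b r (b (j + k)) = XX k b r (b j)
    rw [hb.cyc.per]

end Pool.Agent.MEY
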