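import Pool.Agent.MEY.Targets

/-!
# MEY: basic lemmas (adapted from Pool.Agent.MEX.Basic)
-/

set_option autoImplicit false

open Complex Filter Topology Set MeasureTheory
open Pool.Agent.Multibrot (rt push)
open Pool.Agent.Limb (F)
open Pool.Agent.PLim (Cyc fp fpp Rho LocFix)
open Pool.Agent.MEX

namespace Pool.Agent.MEY

/-! ### the quadratic differential and natural maps -/

lemma AA_differentiableAt {k : ℕ} {b : ℕ → ℂ} {r : Dat} (hr : Hol r) {x : ℂ} (hx : x ∉ r.E) :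
    DifferentiableAt ℂ (AA k b r) x := hr x hx

lemma NM.deriv_ne {k : ℕ} {b : ℕ → ℂ} {r : Dat} {U : Set ℂ} {g : ℂ → ℂ} (h : NM k b r U g) {ζ : ℂ}
    (hζ : ζ ∈ U) : deriv g ζ ≠ 0 := by
  intro h0
  have := h.nat ζ hζ
  rw [h0] at this
  simp at this

lemma NM.AA_ne {k : ℕ} {b : ℕ → ℂ} {r : Dat} {U : Set ℂ} {g : ℂ → ℂ} (h : NM k b r U g) {ζ : ℂ}
    (hζ : ζ ∈ U) : AA k b r (g ζ) ≠ 0 := by
  intro h0
  have := h.nat ζ hζ
  rw [h0] at this
  simp at this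

lemma NM.mono {k : ℕ} {b : ℕ → ℂ} {r : Dat} {U U' : Set ℂ} {g : ℂ → ℂ} (h : NM k b r U g)
    (hU : U' ⊆ U) : NM k b r U' g :=
  ⟨h.diff.mono hU, fun ζ hζ => h.avoid ζ (hU hζ), fun ζ hζ => h.nat ζ (hU hζ), h.hol⟩

lemma NM.congr {k : ℕ} {b : ℕ → ℂ} {r : Dat} {U : Set ℂ} {g g' : ℂ → ℂ} (h : NM k b r U g)
    (hU : IsOpen U) (he : EqOn g' g U) : NM k b r U g' := by
  refine ⟨h.diff.congr he, fun ζ hζ => by rw [he hζ]; exact h.avoid ζ hζ, fun ζ hζ => ?_, h.hol⟩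
  have : g' =ᶠ[𝓝 ζ] g := he.eventuallyEq_of_mem (hU.mem_nhds hζ)
  rw [this.deriv_eq, he hζ]
  exact h.nat ζ hζ

/-- translation and reflection -/
lemma NM.comp_add {k : ℕ} {b : ℕ → ℂ} {r : Dat} {U : Set ℂ} {g : ℂ → ℂ} (h : NM k b r U g)
    (hU : IsOpen U) (ζ₀ : ℂ) : NM k b r {w : ℂ | ζ₀ + w ∈ U} (fun w => g (ζ₀ + w)) := by
  refine ⟨?_, fun w hw => h.avoid _ hw, fun w hw => ?_, h.hol⟩
  · intro w hw
    have h1 : DifferentiableAt ℂ g (ζ₀ + w) := (h.diff _ hw).differentiableAt (hU.mem_nhds hw)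
    exact (h1.comp w ((differentiableAt_const ζ₀).add differentiableAt_id)).differentiableWithinAt
  · have : deriv (fun w => g (ζ₀ + w)) w = deriv g (ζ₀ + w) := by
      have := deriv_comp_const_add (f := g) ζ₀ w
      simpa using this
    rw [this]
    exact h.nat _ hw

lemma NM.comp_sub {k : ℕ} {b : ℕ → ℂ} {r : Dat} {U : Set ℂ} {g : ℂ → ℂ} (h : NM k b r U g)
    (hU : IsOpen U) (ζ₀ : ℂ) : NM k b r {w : ℂ | ζ₀ - w ∈ U} (fun w => g (ζ₀ - w)) := by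
  refine ⟨?_, fun w hw => h.avoid _ hw, fun w hw => ?_, h.hol⟩
  · intro w hw
    have h1 : DifferentiableAt ℂ g (ζ₀ - w) := (h.diff _ hw).differentiableAt (hU.mem_nhds hw)
    exact (h1.comp w ((differentiableAt_const ζ₀).sub differentiableAt_id)).differentiableWithinAt
  · have : deriv (fun w => g (ζ₀ - w)) w = -deriv g (ζ₀ - w) := by
      have := deriv_comp_const_sub (f := g) ζ₀ w
      simpa using this
    rw [this, neg_sq]
    exact h.nat _ hw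

/-- Two natural maps with the same value have equal or opposite derivatives. -/
lemma NM.deriv_eq_or {k : ℕ} {b : ℕ → ℂ} {r : Dat} {U U' : Set ℂ} {g g' : ℂ → ℂ} (h : NM k b r U g)
    (h' : NM k b r U' g') {ζ ζ' : ℂ} (hζ : ζ ∈ U) (hζ' : ζ' ∈ U') (he : g ζ = g' ζ') :
    deriv g ζ = deriv g' ζ' ∨ deriv g ζ = -deriv g' ζ' := by
  have h1 := h.nat ζ hζ
  have h2 := h'.nat ζ' hζ'
  rw [← he] at h2
  have h3 : deriv g ζ ^ 2 = deriv g' ζ' ^ 2 :=
    mul_right_cancel₀ (h.AA_ne hζ) (h1.trans h2.symm)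
  exact sq_eq_sq_iff_eq_or_eq_neg.1 h3

/-! ### the poles -/

lemma E_isOpen (r : Dat) : IsOpen {x : ℂ | x ∉ r.E} := by
  have h : {x : ℂ | x ∉ r.E} = (↑r.E : Set ℂ)ᶜ := by
    ext x
    simp
  rw [h]
  exact (r.E.finite_toSet.isClosed).isOpen_compl

lemma AA_measurable {k : ℕ} {b : ℕ → ℂ} {r : Dat} (hr : Hol r) : Measurable (AA k b r) := by
  refine measurable_of_measurable_on_compl_finite (↑r.E : Set ℂ) r.E.finite_toSet ?_
  refine Continuous.measurable ?_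
  rw [continuous_iff_continuousAt]
  rintro ⟨x, hx⟩
  have hx' : x ∉ r.E := by simpa using hx
  exact (AA_differentiableAt (k := k) (b := b) hr hx').continuousAt.comp
    continuous_subtype_val.continuousAt

lemma phe_measurable {k : ℕ} {b : ℕ → ℂ} {r : Dat} (hr : Hol r) : Measurable (phe k b r) :=
  (AA_measurable hr).enorm

lemma Bad.trp {n k : ℕ} {c : ℂ} {b : ℕ → ℂ} {r : Dat} {μ : ℂ} (h : Bad n k c b r μ) {y : ℂ}
    (hc : y ≠ c) (hy : y ∉ r.E) : push n c (AA k b r) y = AA k b r y := h.inv y hc hy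

lemma Bad.rt_notMem {n k : ℕ} {c : ℂ} {b : ℕ → ℂ} {r : Dat} {μ : ℂ} (h : Bad n k c b r μ) {y : ℂ}
    (hy : y ∉ r.E) (j : ℕ) : rt n c j y ∉ r.E := by
  intro hx
  have h1 := h.fE _ hx
  have hn : n ≠ 0 := by have := h.hn; omega
  have h2 : F n c (rt n c j y) = y := by
    unfold F
    rw [Pool.Agent.Multibrot.rt_pow hn]
    ring
  rw [h2] at h1
  exact hy h1

lemma Bad.iter {n k : ℕ} {c : ℂ} {b : ℕ → ℂ} {r : Dat} {μ : ℂ} (h : Bad n k c b r μ) (m : ℕ)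
    {x : ℂ} (hx : x ∈ r.E) : (F n c)^[m] x ∈ r.E := by
  induction m with
  | zero => simpa using hx
  | succ m ih =>
    rw [Function.iterate_succ_apply']
    exact h.fE _ ih

/-- a sheet avoids the poles -/
lemma sheet_avoidE {n k m : ℕ} {c : ℂ} {b : ℕ → ℂ} {r : Dat} {μ : ℂ} (h : Bad n k c b r μ)
    {x y : ℂ} (hs : (F n c)^[m] x = y) (hy : y ∉ r.E) : x ∉ r.E := by
  intro hx
  exact hy (hs ▸ h.iter m hx)

lemma ne_of_notMem {n k : ℕ} {c : ℂ} {b : ℕ → ℂ} {r : Dat} {μ : ℂ} (h : Bad n k c b r μ)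
    {x : ℂ} (hx : x ∉ r.E) (j : ℕ) : x ≠ b j := fun he => hx (he ▸ h.bE j)

/-- the regular part of `AA` at the pole `B`, multiplied by `(x - B) ^ 2` -/
noncomputable def qq (r : Dat) (B x : ℂ) : ℂ := by
  classical exact if x = B then 1 else (x - B) ^ 2 * r.ph x

lemma qq_self {r : Dat} {B : ℂ} : qq r B B = 1 := by
  simp [qq]

lemma qq_of_ne {r : Dat} {B x : ℂ} (hx : x ≠ B) : qq r B x = (x - B) ^ 2 * r.ph x := by
  simp [qq, hx]

lemma AA_eq_qq {k : ℕ} {b : ℕ → ℂ} {r : Dat} {B x : ℂ} (hx : x ≠ B) :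
    AA k b r x = qq r B x / (x - B) ^ 2 := by
  have h : x - B ≠ 0 := sub_ne_zero.2 hx
  rw [qq_of_ne hx]
  show r.ph x = _
  field_simp

lemma E_eventually (r : Dat) (B : ℂ) : ∀ᶠ x in 𝓝 B, x ∈ r.E → x = B := by
  have h : IsOpen ((↑(r.E.erase B) : Set ℂ)ᶜ) :=
    ((r.E.erase B).finite_toSet.isClosed).isOpen_compl
  have hm : B ∈ ((↑(r.E.erase B) : Set ℂ)ᶜ) := by simp
  filter_upwards [h.mem_nhds hm] with x hx hxE
  by_contra hne
  exact hx (Finset.mem_coe.2 (Finset.mem_erase.2 ⟨hne, hxE⟩))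

lemma Bad.qq_diff {n k : ℕ} {c : ℂ} {b : ℕ → ℂ} {r : Dat} {μ : ℂ} (h : Bad n k c b r μ) {j : ℕ}
    {x : ℂ} (hx : x ∈ r.E → x = b j) : DifferentiableAt ℂ (qq r (b j)) x := by
  have hoff : ∀ y : ℂ, y ∉ r.E → DifferentiableAt ℂ (qq r (b j)) y := by
    intro y hy
    have hyb : y ≠ b j := fun he => hy (he ▸ h.bE j)
    have h1 : qq r (b j) =ᶠ[𝓝 y] fun x => (x - b j) ^ 2 * r.ph x := by
      filter_upwards [isOpen_ne.mem_nhds hyb] with x hx
      exact qq_of_ne hx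
    have h2 : DifferentiableAt ℂ (fun x => (x - b j) ^ 2 * r.ph x) y :=
      ((differentiableAt_id.sub_const _).pow 2).mul (h.hol y hy)
    exact h2.congr_of_eventuallyEq h1
  by_cases hxE : x ∈ r.E
  · rw [hx hxE]
    have hc : ContinuousAt (qq r (b j)) (b j) := by
      rw [continuousAt_iff_punctured_nhds, qq_self]
      refine (h.lim j).congr' ?_
      filter_upwards [self_mem_nhdsWithin] with y hy
      exact (qq_of_ne hy).symm
    have hd : ∀ᶠ y in 𝓝[≠] (b j), DifferentiableAt ℂ (qq r (b j)) y := by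
      filter_upwards [(E_eventually r (b j)).filter_mono nhdsWithin_le_nhds,
        self_mem_nhdsWithin] with y hy hne
      exact hoff y fun hyE => hne (hy hyE)
    exact (Complex.analyticAt_of_differentiable_on_punctured_nhds_of_continuousAt hd
      hc).differentiableAt
  · exact hoff x hxE

/-! ### levels -/

section

variable {n k : ℕ} {c : ℂ} {b : ℕ → ℂ} {r : Dat} {μ : ℂ} {V : ℕ → Set ℂ} {χ : ℕ → ℂ → ℂ} {J : ℕ}
  {D : ℂ → ENNReal} {d h : ℝ} {a : ℝ → ℝ} {m : ℕ} {lam : ℝ} {G : ℂ → ℂ}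

lemma Rnd.li (hR : Rnd n k c b r μ V χ J D d h a) (lam : ℝ) : LI {ζ : ℂ | lam < et h a ζ} :=
  et_LI hR.lip hR.a0 lam

lemma Rnd.nm (hR : Rnd n k c b r μ V χ J D d h a) {lam : ℝ} (hl : 0 ≤ lam) :
    NM k b r {ζ : ℂ | lam < et h a ζ} (χ J) :=
  (hR.mx.cht J).nm.mono fun ζ hζ => hR.sub ζ (lt_of_le_of_lt hl hζ)

lemma Lvl.avoid (hG : Lvl n k c b r χ J h a m lam G) (hR : Rnd n k c b r μ V χ J D d h a) {ζ : ℂ}
    (hζ : lam < et h a ζ) : G ζ ∉ r.E :=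
  sheet_avoidE hR.bad (hG.sht ζ hζ) ((hR.nm hG.hl).avoid ζ hζ)

lemma Lam_diff {k : ℕ} {b : ℕ → ℂ} {r : Dat} (hr : Hol r) {W : Set ℂ} {G : ℂ → ℂ} (hW : IsOpen W)
    (hG : DifferentiableOn ℂ G W) (hb : ∀ ζ ∈ W, G ζ ∉ r.E) :
    DifferentiableOn ℂ (Lam k b r G) W := by
  intro ζ hζ
  unfold Lam
  have h1 : DifferentiableAt ℂ (fun ζ => AA k b r (G ζ)) ζ :=
    (AA_differentiableAt (k := k) (b := b) hr (hb ζ hζ)).comp ζ ((hG ζ hζ).differentiableAt (hW.mem_nhds hζ))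
  have h2 : DifferentiableAt ℂ (deriv G) ζ :=
    ((hG.deriv hW) ζ hζ).differentiableAt (hW.mem_nhds hζ)
  exact (h1.mul (h2.pow 2)).differentiableWithinAt

lemma Lvl.lam_diff (hG : Lvl n k c b r χ J h a m lam G)
    (hR : Rnd n k c b r μ V χ J D d h a) :
    DifferentiableOn ℂ (Lam k b r G) {ζ : ℂ | lam < et h a ζ} :=
  Lam_diff hR.bad.hol (hR.li lam).op hG.diff fun _ hζ => hG.avoid hR hζ

lemma Lvl.wt (hG : Lvl n k c b r χ J h a m lam G) (hR : Rnd n k c b r μ V χ J D d h a) :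
    ∀ᵐ ζ : ℂ, lam < et h a ζ →
      ENNReal.ofReal (‖1 - Lam k b r G ζ‖ + ‖Lam k b r G ζ‖) ≤ 1 + D ζ :=
  hR.wt m _ G hG.hk (hR.li lam).op (fun ζ hζ => hR.sub ζ (lt_of_le_of_lt hG.hl hζ)) hG.diff
    fun ζ hζ => hG.sht ζ hζ

end

end Pool.Agent.MEY
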