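import Pool.Agent.MEY.Basic

set_option autoImplicit false

open Complex Filter Topology Set MeasureTheory
open Pool.Agent.Multibrot (rt push)
open Pool.Agent.Limb (F)
open Pool.Agent.PLim (Cyc fp fpp Rho LocFix)
open Pool.Agent.MEX

namespace Pool.Agent.MEY

namespace NUA_

/-- the principal square root -/
noncomputable def psq (z : ℂ) : ℂ := exp (log z / 2)

lemma psq_sq {z : ℂ} (hz : z ≠ 0) : psq z ^ 2 = z := by
  unfold psq
  rw [← Complex.exp_nat_mul]
  push_cast
  rw [mul_div_cancel₀ _ (two_ne_zero)]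
  exact exp_log hz

lemma psq_re (z : ℂ) : 0 ≤ (psq z).re := by
  unfold psq
  rw [exp_re]
  have h1 : (log z / 2).im = arg z / 2 := by
    have : (log z / 2) = ((1 / 2 : ℝ) : ℂ) * log z := by
      push_cast; ring
    rw [this, re_ofReal_mul_im, log_im]
    ring
  rw [h1]
  refine mul_nonneg (Real.exp_pos _).le ?_
  have h2 := neg_pi_lt_arg z
  have h3 := arg_le_pi z
  exact Real.cos_nonneg_of_neg_pi_div_two_le_of_le (by linarith) (by linarith)
where
  re_ofReal_mul_im (x : ℝ) (w : ℂ) : ((x : ℂ) * w).im = x * w.im := by simp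

lemma psq_sub {z : ℂ} (hz : z ≠ 0) : ‖psq z - 1‖ ≤ ‖z - 1‖ := by
  have h1 : z - 1 = (psq z - 1) * (psq z + 1) := by
    have := psq_sq hz
    linear_combination -this
  have h2 : 1 ≤ ‖psq z + 1‖ := by
    have h3 : (psq z + 1).re ≤ ‖psq z + 1‖ := re_le_norm _
    have h4 := psq_re z
    rw [add_re, one_re] at h3
    linarith
  rw [h1, norm_mul]
  exact le_mul_of_one_le_right (norm_nonneg _) h2

lemma slit {z : ℂ} (hz : ‖z - 1‖ ≤ 1 / 2) : z ∈ slitPlane := by
  rw [mem_slitPlane_iff]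
  left
  have h1 := (abs_le.mp ((abs_re_le_norm (z - 1)).trans hz)).1
  rw [sub_re, one_re] at h1
  linarith

lemma int1 {t : ℝ} (ht : 0 < t) (K : ℝ) :
    IntegrableOn (fun s : ℝ => K / (t + s)) (Ioc 0 3) ∧
      ∫ s in Ioc (0 : ℝ) 3, K / (t + s) = K * Real.log ((t + 3) / t) := by
  constructor
  · refine (ContinuousOn.integrableOn_Icc (a := (0 : ℝ)) (b := 3) ?_).mono_set Ioc_subset_Icc_self
    refine continuousOn_const.div (by fun_prop) ?_
    intro s hs
    have := hs.1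
    positivity
  · rw [← intervalIntegral.integral_of_le (by norm_num : (0 : ℝ) ≤ 3)]
    have h1 : ∀ s : ℝ, K / (t + s) = K * (t + s)⁻¹ := fun s => div_eq_mul_inv _ _
    simp only [h1]
    rw [intervalIntegral.integral_const_mul,
      intervalIntegral.integral_comp_add_left (fun x => x⁻¹) t, add_zero,
      integral_inv_of_pos ht (by linarith)]

lemma int2 (K : ℝ) :
    IntegrableOn (fun s : ℝ => K * Real.exp (-s)) (Ioi 3) ∧
      ∫ s in Ioi (3 : ℝ), K * Real.exp (-s) = K * Real.exp (-3) := by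
  constructor
  · exact (integrableOn_exp_neg_Ioi 3).const_mul K
  · rw [MeasureTheory.integral_const_mul, integral_exp_neg_Ioi]

end NUA_

open NUA_ in
theorem p_NUA (h1 : T_CTR) (h2 : T_PRI) : T_NUA := by
  obtain ⟨C₁, hC₁, hctr⟩ := h1
  refine ⟨1000 * C₁, by linarith, ?_⟩
  intro n k c b r μ V χ J D d t h a m lam G hR hS hG
  have hS1 : Small C₁ d t := hS.mono hC₁ (by linarith)
  obtain ⟨hc1, hc2⟩ := hctr n k c b r μ V χ J D d t h a m lam G hR hS1 hG
  have hd := hS.hd
  have hd1 := hS.hd1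
  have ht := hS.ht
  have ht1 := hS.ht1
  have hsd : 0 < √d := Real.sqrt_pos.mpr hd
  have hK0 : 0 < C₁ * √d := by positivity
  have hKt : C₁ * √d / t ≤ 1 / 1000 := by
    have := hS.sqrt
    rw [div_le_iff₀ ht]
    linarith
  set W : Set ℂ := {ζ : ℂ | lam + t < et h a ζ} with hW
  have hLI : LI W := hR.li (lam + t)
  -- the bound on `W`
  have hb1 : ∀ ζ ∈ W, ‖Lam k b r G ζ - 1‖ ≤ C₁ * √d / (et h a ζ - lam) := by
    intro ζ hζ
    exact hc1 ζ (le_of_lt hζ)
  have hb2 : ∀ ζ ∈ W, ‖Lam k b r G ζ - 1‖ ≤ 1 / 1000 := by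
    intro ζ hζ
    have hζ' : lam + t < et h a ζ := hζ
    refine (hb1 ζ hζ).trans (le_trans ?_ hKt)
    exact div_le_div_of_nonneg_left hK0.le ht (by linarith)
  have hne : ∀ ζ ∈ W, Lam k b r G ζ ∈ slitPlane := fun ζ hζ =>
    slit ((hb2 ζ hζ).trans (by norm_num))
  have hne0 : ∀ ζ ∈ W, Lam k b r G ζ ≠ 0 := fun ζ hζ => slitPlane_ne_zero (hne ζ hζ)
  set Y : ℂ → ℂ := fun ζ => psq (Lam k b r G ζ) - 1 with hY
  have hYb : ∀ ζ ∈ W, ‖Y ζ‖ ≤ ‖Lam k b r G ζ - 1‖ := fun ζ hζ => psq_sub (hne0 ζ hζ)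
  have hYd : DifferentiableOn ℂ Y W := by
    intro ζ hζ
    have hsub : W ⊆ {ζ : ℂ | lam < et h a ζ} := by
      intro ξ hξ
      have hξ' : lam + t < et h a ξ := hξ
      show lam < et h a ξ
      linarith
    have e1 : DifferentiableWithinAt ℂ (Lam k b r G) W ζ := ((hG.lam_diff hR).mono hsub) ζ hζ
    have e2 : DifferentiableWithinAt ℂ (fun ζ => log (Lam k b r G ζ)) W ζ := e1.clog (hne ζ hζ)
    have e3 : DifferentiableWithinAt ℂ (fun ζ => exp (log (Lam k b r G ζ) / 2)) W ζ :=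
      (e2.div_const 2).cexp
    exact e3.sub_const 1
  have hbd : ∀ ζ : ℂ, ζ.re < h - lam - 2 → ζ ∈ W ∧
      ‖Y ζ‖ ≤ (C₁ * d * Real.exp (-(h - lam))) * Real.exp ζ.re := by
    intro ζ hζ
    have hmem : ζ ∈ W := by
      show lam + t < et h a ζ
      have := le_et (h := h) hR.a0 ζ
      linarith
    refine ⟨hmem, (hYb ζ hmem).trans ((hc2 ζ hζ.le).trans (le_of_eq ?_))⟩
    rw [mul_assoc (C₁ * d), ← Real.exp_add]
    congr 2
    ring
  obtain ⟨N, hN1, hN2, hN3, hN4⟩ := h2 W Y _ (h - lam - 2) hLI hYd hbd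
  refine ⟨N, hN1, hN3, ?_⟩
  intro ζ hζ
  have hζW : ζ ∈ W := hζ
  rw [hN2 ζ hζW]
  refine ⟨?_, (hYb ζ hζW).trans (hb2 ζ hζW), ?_⟩
  · obtain ⟨hint, hle⟩ := hN4 ζ hζW
    refine hle.trans ?_
    have hunion : Ioi (0 : ℝ) = Ioc 0 3 ∪ Ioi 3 := (Ioc_union_Ioi_eq_Ioi (by norm_num)).symm
    have hi1 : IntegrableOn (fun s : ℝ => ‖Y (ζ - s)‖) (Ioc 0 3) :=
      hint.mono_set Ioc_subset_Ioi_self
    have hi2 : IntegrableOn (fun s : ℝ => ‖Y (ζ - s)‖) (Ioi 3) :=
      hint.mono_set (Ioi_subset_Ioi (by norm_num))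
    have hsplit : ∫ s in Ioi (0 : ℝ), ‖Y (ζ - s)‖ =
        (∫ s in Ioc (0 : ℝ) 3, ‖Y (ζ - s)‖) + ∫ s in Ioi (3 : ℝ), ‖Y (ζ - s)‖ := by
      rw [hunion]
      exact setIntegral_union (Set.disjoint_left.mpr fun x hx hx' =>
        absurd hx.2 (not_le.mpr hx')) measurableSet_Ioi hi1 hi2
    have hmemW : ∀ s : ℝ, 0 ≤ s → ζ - s ∈ W := fun s hs => hLI.left ζ hζW s hs
    have ha1 : ∫ s in Ioc (0 : ℝ) 3, ‖Y (ζ - s)‖ ≤ C₁ * √d * Real.log ((t + 3) / t) := by
      rw [← (int1 ht (C₁ * √d)).2]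
      refine setIntegral_mono_on hi1 (int1 ht (C₁ * √d)).1 measurableSet_Ioc ?_
      intro s hs
      have hs0 : 0 ≤ s := hs.1.le
      refine (hYb _ (hmemW s hs0)).trans ((hb1 _ (hmemW s hs0)).trans ?_)
      rw [et_sub]
      refine div_le_div_of_nonneg_left hK0.le (by linarith) ?_
      have hζ' : lam + t < et h a ζ := hζ
      linarith
    have ha2 : ∫ s in Ioi (3 : ℝ), ‖Y (ζ - s)‖ ≤ (C₁ * d * Real.exp (1 / 2)) * Real.exp (-3) := by
      rw [← (int2 (C₁ * d * Real.exp (1 / 2))).2]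
      refine setIntegral_mono_on hi2 (int2 _).1 measurableSet_Ioi ?_
      intro s hs
      have hs3 : (3 : ℝ) < s := hs
      have hs0 : 0 ≤ s := by linarith
      have hre : (ζ - s).re = ζ.re - s := by simp
      have hζ' : lam + t < et h a ζ := hζ
      have h5 := et_le (h := h) hR.a1 ζ
      refine (hYb _ (hmemW s hs0)).trans ((hc2 _ (by rw [hre]; linarith)).trans ?_)
      rw [mul_assoc (C₁ * d), ← Real.exp_add, hre]
      refine mul_le_mul_of_nonneg_left (Real.exp_le_exp.mpr (by linarith)) (by positivity)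
    rw [hsplit]
    -- numbers
    have hlogt : Real.log ((t + 3) / t) ≤ 2 + 1 / 2 * Real.log (1 / d) := by
      have e1 : Real.log ((t + 3) / t) ≤ Real.log (4 * (1 / √d)) := by
        refine Real.log_le_log (by positivity) ?_
        have h6 : √d ≤ t := by
          have := hS.sqrt
          nlinarith
        calc (t + 3) / t ≤ 4 / t := by
              gcongr
              linarith
          _ ≤ 4 / √d := by gcongr
          _ = 4 * (1 / √d) := by ring
      have e2 : Real.log (4 * (1 / √d)) = Real.log 4 + 1 / 2 * Real.log (1 / d) := by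
        rw [Real.log_mul (by norm_num) (by positivity)]
        congr 1
        have g1 : Real.log (1 / √d) = -(Real.log d / 2) := by
          rw [one_div, Real.log_inv, Real.log_sqrt hd.le]
        have g2 : Real.log (1 / d) = -Real.log d := by
          rw [one_div, Real.log_inv]
        rw [g1, g2]
        ring
      have e3 : Real.log 4 ≤ 2 := by
        have : (4 : ℝ) = 2 ^ 2 := by norm_num
        rw [this, Real.log_pow]
        have := Real.log_two_lt_d9
        push_cast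
        linarith
      linarith
    have hexp : Real.exp (1 / 2) * Real.exp (-3) ≤ 1 := by
      rw [← Real.exp_add]
      exact Real.exp_le_one_iff.mpr (by norm_num)
    have hdd : d ≤ √d := by
      have h7 : √d * √d = d := Real.mul_self_sqrt hd.le
      have h8 : √d ≤ 1 := by
        rw [show (1 : ℝ) = √1 from Real.sqrt_one.symm]
        exact Real.sqrt_le_sqrt (by linarith)
      nlinarith
    have hL0 : 0 ≤ Real.log (1 / d) := Real.log_nonneg (by
      rw [le_div_iff₀ hd]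
      linarith)
    have hdt := hS.hdt
    have f1 : C₁ * √d * Real.log ((t + 3) / t) ≤ C₁ * √d * (2 + 1 / 2 * Real.log (1 / d)) :=
      mul_le_mul_of_nonneg_left hlogt hK0.le
    have f2 : C₁ * d * Real.exp (1 / 2) * Real.exp (-3) ≤ C₁ * √d := by
      calc C₁ * d * Real.exp (1 / 2) * Real.exp (-3)
          = C₁ * d * (Real.exp (1 / 2) * Real.exp (-3)) := by ring
        _ ≤ C₁ * d * 1 := mul_le_mul_of_nonneg_left hexp (by positivity)
        _ ≤ C₁ * √d := by
          rw [mul_one]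
          exact mul_le_mul_of_nonneg_left hdd (by linarith)
    have f3 : 0 ≤ C₁ * √d * Real.log (1 / d) := mul_nonneg hK0.le hL0
    nlinarith [ha1, ha2, f1, f2, f3, hdt]
  · show (1 + (psq (Lam k b r G ζ) - 1)) ^ 2 = _
    rw [add_sub_cancel]
    exact psq_sq (hne0 ζ hζW)

end Pool.Agent.MEY
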