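import Pool.Agent.MEY.Basic

/-!
# MEY, target OPP: a natural map on a convex set does not take a value with opposite derivatives
-/

set_option autoImplicit false

open Complex Filter Topology Set MeasureTheory
open Pool.Agent.Multibrot (rt push)
open Pool.Agent.Limb (F)
open Pool.Agent.PLim (Cyc fp fpp Rho LocFix)
open Pool.Agent.MEX

namespace Pool.Agent.MEY

theorem p_OPP (h1 : T_UNQ) : T_OPP := by
  intro k b r U g ζ₁ ζ₂ hU hc hg h₁ h₂ he hd
  set s : ℂ := ζ₁ + ζ₂ with hs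
  have hg2 := hg.comp_sub hU s
  have hU2 : IsOpen {w : ℂ | s - w ∈ U} := hU.preimage (continuous_const.sub continuous_id)
  have hcv : Convex ℝ {w : ℂ | s - w ∈ U} := by
    intro x hx y hy a b' ha hb hab
    show s - (a • x + b' • y) ∈ U
    have h3 : s - (a • x + b' • y) = a • (s - x) + b' • (s - y) := by
      have h4 : s = (a + b') • s := by rw [hab, one_smul]
      rw [smul_sub, smul_sub]
      nth_rewrite 1 [h4]
      rw [add_smul]
      ring
    rw [h3]
    exact hc hx hy ha hb hab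
  have hW : IsOpen (U ∩ {w : ℂ | s - w ∈ U}) := hU.inter hU2
  have hWc : Convex ℝ (U ∩ {w : ℂ | s - w ∈ U}) := hc.inter hcv
  have hm1 : ζ₁ ∈ U ∩ {w : ℂ | s - w ∈ U} := by
    refine ⟨h₁, ?_⟩
    show s - ζ₁ ∈ U
    rw [hs, add_sub_cancel_left]
    exact h₂
  have hm2 : ζ₂ ∈ U ∩ {w : ℂ | s - w ∈ U} := by
    refine ⟨h₂, ?_⟩
    show s - ζ₂ ∈ U
    rw [hs, add_sub_cancel_right]
    exact h₁
  have hEq : EqOn g (fun w => g (s - w)) (U ∩ {w : ℂ | s - w ∈ U}) := by
    refine h1 k b r _ g (fun w => g (s - w)) ζ₁ hW hWc.isPreconnected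
      (hg.mono inter_subset_left) (hg2.mono inter_subset_right) hm1 ?_ ?_
    · show g ζ₁ = g (s - ζ₁)
      rw [hs, add_sub_cancel_left, he]
    · rw [deriv_comp_sub', hs, add_sub_cancel_left, hd]
  set m : ℂ := (1 / 2 : ℝ) • ζ₁ + (1 / 2 : ℝ) • ζ₂ with hm
  have hmW : m ∈ U ∩ {w : ℂ | s - w ∈ U} :=
    hWc hm1 hm2 (by norm_num) (by norm_num) (by norm_num)
  have hsm : s - m = m := by
    rw [hm, hs]
    simp only [Complex.real_smul]
    push_cast
    ring
  have h5 : deriv g m = deriv (fun w => g (s - w)) m :=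
    (hEq.eventuallyEq_of_mem (hW.mem_nhds hmW)).deriv_eq
  rw [deriv_comp_sub', hsm] at h5
  exact hg.deriv_ne hmW.1 (self_eq_neg.1 h5)

end Pool.Agent.MEY
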