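import Pool.Agent.MEY.Basic

/-!
# MEY: PICK, a chart with few blocked heights and small mass defect
-/

set_option autoImplicit false

open Complex Filter Topology Set MeasureTheory
open Pool.Agent.Multibrot (rt push)
open Pool.Agent.Limb (F)
open Pool.Agent.PLim (Cyc fp fpp Rho LocFix)
open Pool.Agent.MEX

namespace Pool.Agent.MEY

theorem p_PICK (h1 : T_CNT) (h2 : T_MASS) (h3 : T_WTC) (h4 : T_WTD) (h5 : T_DDM)
    (h6 : T_TENT) : T_PICK := by
  classical
  intro n k c b r μ V χ hB hM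
  have hμ := hB.m0
  have hpi := Real.pi_pos
  set good : ℕ → Prop := fun j => ∀ S : Finset ℝ,
    (∀ y ∈ S, 0 ≤ y ∧ y < 2 * Real.pi ∧ ∃ x : ℝ, (x : ℂ) + y * I ∉ V j) → S.card ≤ r.N with hgood
  set G : Finset ℕ := (Finset.range k).filter good with hG
  set Bd : Finset ℕ := (Finset.range k).filter (fun j => ¬ good j) with hBd
  have hcard : G.card + Bd.card = k := by
    have := Finset.card_filter_add_card_filter_not (s := Finset.range k) (p := good)
    simpa using this
  -- the blocked heights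
  have hex : ∀ j, ∃ S : Finset ℝ, (j ∈ Bd → S.card = r.N + 1 ∧
      ∀ y ∈ S, 0 ≤ y ∧ y < 2 * Real.pi ∧ ∃ x : ℝ, (x : ℂ) + y * I ∉ V j) := by
    intro j
    by_cases hj : j ∈ Bd
    · have h7 : ¬ good j := (Finset.mem_filter.1 hj).2
      rw [hgood] at h7
      push Not at h7
      obtain ⟨S, hS, hc⟩ := h7
      obtain ⟨T, hTS, hT⟩ := Finset.exists_subset_card_eq (show r.N + 1 ≤ S.card from hc)
      exact ⟨T, fun _ => ⟨hT, fun y hy => hS y (hTS hy)⟩⟩
    · exact ⟨∅, fun h => absurd h hj⟩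
  choose S hS using hex
  set T : Finset (ℕ × ℝ) := Bd.biUnion fun j => (S j).image fun y => (j, y) with hT
  have hTc : T.card = (r.N + 1) * Bd.card := by
    rw [hT, Finset.card_biUnion]
    · rw [Finset.sum_congr rfl (fun j hj => ?_), Finset.sum_const, smul_eq_mul, mul_comm]
      rw [Finset.card_image_of_injective _ (fun x y h => (Prod.mk.inj h).2)]
      exact (hS j hj).1
    · intro i _ j _ hij
      rw [Function.onFun, Finset.disjoint_left]
      intro x hx hx'
      rw [Finset.mem_image] at hx hx'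
      obtain ⟨y, _, rfl⟩ := hx
      obtain ⟨y', _, h⟩ := hx'
      exact hij (Prod.mk.inj h).1.symm
  have hcnt : T.card + 8 ≤ 6 * r.E.card := by
    refine h1 n k c b r μ V χ T hB hM ?_
    intro p hp
    rw [hT, Finset.mem_biUnion] at hp
    obtain ⟨j, hj, hp⟩ := hp
    rw [Finset.mem_image] at hp
    obtain ⟨y, hy, rfl⟩ := hp
    obtain ⟨a1, a2, a3⟩ := (hS j hj).2 y hy
    exact ⟨Finset.mem_range.1 (Finset.mem_filter.1 hj).1, a1, a2, a3⟩
  have hGk : k ≤ (r.N + 1) * G.card := by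
    rw [hTc] at hcnt
    have h10 := hB.card
    have h11 : (r.N + 1) * G.card + (r.N + 1) * Bd.card = (r.N + 1) * k := by
      rw [← mul_add, hcard]
    have h12 : (r.N + 1) * k = r.N * k + k := by ring
    omega
  -- small mass defect
  have hmass := h2 n k c b r μ V χ hB hM
  obtain ⟨j, hj, hjm⟩ : ∃ j ∈ G, ∫⁻ ζ in {ζ : ℂ | 0 ≤ ζ.im ∧ ζ.im < 2 * Real.pi},
      Dfc n k c b r V χ j ζ ≤ ENNReal.ofReal (4 * Real.pi * (r.N + 2) * r.m) := by
    by_contra hcon
    push Not at hcon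
    have h7 : (G.card : ENNReal) * ENNReal.ofReal (4 * Real.pi * (r.N + 2) * r.m) ≤
        ENNReal.ofReal (4 * Real.pi * k * r.m) := by
      calc (G.card : ENNReal) * ENNReal.ofReal (4 * Real.pi * (r.N + 2) * r.m)
          = ∑ j ∈ G, ENNReal.ofReal (4 * Real.pi * (r.N + 2) * r.m) := by
            rw [Finset.sum_const, nsmul_eq_mul]
        _ ≤ ∑ j ∈ G, ∫⁻ ζ in {ζ : ℂ | 0 ≤ ζ.im ∧ ζ.im < 2 * Real.pi},
            Dfc n k c b r V χ j ζ := Finset.sum_le_sum fun j hj => (hcon j hj).le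
        _ ≤ ∑ j ∈ Finset.range k, ∫⁻ ζ in {ζ : ℂ | 0 ≤ ζ.im ∧ ζ.im < 2 * Real.pi},
            Dfc n k c b r V χ j ζ :=
            Finset.sum_le_sum_of_subset (Finset.filter_subset _ _)
        _ ≤ _ := hmass
    have e1 : (G.card : ENNReal) * ENNReal.ofReal (4 * Real.pi * (r.N + 2) * r.m) =
        ENNReal.ofReal (G.card * (4 * Real.pi * (r.N + 2) * r.m)) := by
      rw [ENNReal.ofReal_mul (by positivity : (0 : ℝ) ≤ (G.card : ℝ)), ENNReal.ofReal_natCast]
    rw [e1, ENNReal.ofReal_le_ofReal_iff (by positivity)] at h7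
    have h8 : (0 : ℝ) < 4 * Real.pi * r.m := by positivity
    have h9 : 4 * Real.pi * r.m * ((r.N + 2) * G.card) ≤ 4 * Real.pi * r.m * k := by linarith
    have h10 : ((r.N + 2) * G.card : ℝ) ≤ k := le_of_mul_le_mul_left h9 h8
    have h11 : (r.N + 2) * G.card ≤ k := by exact_mod_cast h10
    have h12 : (r.N + 2) * G.card = (r.N + 1) * G.card + G.card := by ring
    have h13 : G.card = 0 := by omega
    have h14 := hB.cyc.hp
    rw [h13] at hGk
    omega
  have hjg : good j := (Finset.mem_filter.1 hj).2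
  have hD : Dfc n k c b r V χ (j + k) = Dfc n k c b r V χ j := by
    unfold Dfc
    rw [hM.vj, hM.cj]
  obtain ⟨h, θ, hh, y, hy⟩ := h6 n k c b r μ V χ (j + k) hB hM (by
    rw [hM.vj]
    exact hjg)
  refine ⟨j + k, Dfc n k c b r V χ (j + k), h, θ, ⟨hB, hM, by omega, ?_, ?_, ?_, ?_, ?_⟩,
    hh, y, hy⟩
  · exact (h5 n k c b r μ V χ (j + k) hB hM).1
  · exact (h5 n k c b r μ V χ (j + k) hB hM).2
  · rw [hD]
    exact hjm
  · intro m W Gs hm hW hWV hGs hsh
    exact h3 n k c b r μ V χ (j + k) m W Gs hB hM hm hW hWV hGs hsh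
  · intro m W Gs Gs' hm hW hWV hGs hGs' hsh hsh' hne
    exact h4 n k c b r μ V χ (j + k) m W Gs Gs' hB hM hm hW hWV hGs hGs' hsh hsh' hne

end Pool.Agent.MEY
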