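import Pool.Agent.MEY.Basic

/-!
# MEY, POL: the numerator
-/

set_option autoImplicit false

namespace Pool.Agent.MEY

/-- POL: the numerator. -/
theorem p_POL : T_POL := fun _ _ _ _ _ _ hB => hB.num

end Pool.Agent.MEY
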