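import Pool.Agent.MEX.All
import Pool.Agent.MEY.CNT
import Pool.Agent.MEY.CTR
import Pool.Agent.MEY.CYE
import Pool.Agent.MEY.CYU
import Pool.Agent.MEY.DDM
import Pool.Agent.MEY.DEM
import Pool.Agent.MEY.ECT
import Pool.Agent.MEY.ELE
import Pool.Agent.MEY.ENL
import Pool.Agent.MEY.EQE
import Pool.Agent.MEY.EXT
import Pool.Agent.MEY.GAP
import Pool.Agent.MEY.GEO
import Pool.Agent.MEY.HJ
import Pool.Agent.MEY.INJ
import Pool.Agent.MEY.ITE
import Pool.Agent.MEY.LIFT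
import Pool.Agent.MEY.LOB
import Pool.Agent.MEY.LOCN
import Pool.Agent.MEY.LQI
import Pool.Agent.MEY.LQZ
import Pool.Agent.MEY.MASS
import Pool.Agent.MEY.MAX
import Pool.Agent.MEY.MON
import Pool.Agent.MEY.NOE
import Pool.Agent.MEY.NUA
import Pool.Agent.MEY.NUB
import Pool.Agent.MEY.OPP
import Pool.Agent.MEY.PEN
import Pool.Agent.MEY.PICK
import Pool.Agent.MEY.POL
import Pool.Agent.MEY.ROU
import Pool.Agent.MEY.RTA
import Pool.Agent.MEY.SAM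
import Pool.Agent.MEY.SEQ
import Pool.Agent.MEY.STP
import Pool.Agent.MEY.TENT
import Pool.Agent.MEY.TNP
import Pool.Agent.MEY.UNQ
import Pool.Agent.MEY.WTC
import Pool.Agent.MEY.WTD
import Pool.Agent.MEY.WTP
import Pool.Agent.MEY.WTQ

/-!
# MEY: assembly of the extension theorem for general quadratic differentials
-/

set_option autoImplicit false

open Pool.Agent.MEX (p_PPM p_AR2 p_NUL p_RMV a_MVL a_HAR p_PER p_INN p_EXD p_BOO p_PRI p_LLG p_ROO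
  a_REC)

namespace Pool.Agent.MEY

theorem a_OPP : T_OPP := p_OPP p_UNQ
theorem a_NOE : T_NOE := p_NOE p_POL p_LIFT
theorem a_CYU : T_CYU := p_CYU p_UNQ
theorem a_MAX : T_MAX := p_MAX p_CYE a_CYU
theorem a_HJ : T_HJ := p_HJ a_NOE
theorem a_ENL : T_ENL := p_ENL p_LOCN p_UNQ
theorem a_ECT : T_ECT := p_ECT p_EQE p_SAM
theorem a_CNT : T_CNT := p_CNT p_POL a_ENL p_LQZ p_LQI a_ECT
theorem a_TENT : T_TENT := p_TENT a_HJ p_GAP p_TNP
theorem a_DEM : T_DEM := p_DEM p_PPM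
theorem a_MASS : T_MASS := p_MASS a_DEM p_AR2 p_SAM p_PPM
theorem a_WTQ : T_WTQ := p_WTQ p_WTP
theorem a_WTC : T_WTC := p_WTC p_WTP p_MON p_NUL
theorem a_WTD : T_WTD := p_WTD a_WTQ p_MON p_NUL
theorem a_PICK : T_PICK := p_PICK a_CNT a_MASS a_WTC a_WTD p_DDM a_TENT
theorem a_CTR : T_CTR := p_CTR a_HAR a_MVL p_PER p_INN p_EXD p_BOO
theorem a_NUA : T_NUA := p_NUA a_CTR p_PRI
theorem a_NUB : T_NUB := p_NUB a_NUA
theorem a_STP : T_STP := p_STP p_LLG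
theorem a_INJ : T_INJ := p_INJ a_NUB p_SAM a_OPP
theorem a_LOB : T_LOB := p_LOB a_CTR a_NUB a_INJ p_ROO a_HAR p_PER p_BOO
theorem a_SEQ : T_SEQ := p_SEQ a_STP a_LOB
theorem a_GEO : T_GEO := p_GEO a_CTR a_NUB p_SAM p_LIFT p_UNQ
theorem a_PEN : T_PEN := p_PEN a_SEQ a_REC a_GEO
theorem a_ROU : T_ROU := p_ROU a_PEN a_NUB
theorem a_ITE : T_ITE := p_ITE a_ROU p_RTA p_TNP
theorem a_EXT : T_EXT := p_EXT a_MAX a_PICK a_ITE p_ELE

end Pool.Agent.MEY
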