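import Pool.Agent.MEY.Targets2
import Pool.Agent.MEX.SECX
import Pool.Agent.PLim.TRANS
import Pool.Agent.PLim.LOCZ

/-!
# MEY, CEN: the local section at a centre
-/

set_option autoImplicit false

open Complex Filter Topology Set MeasureTheory
open Pool.Agent.Limb (F)
open Pool.Agent.PLim (Cyc Res fp fpp Rho LocFix IsLimb OMXn p_LOCZ)
open Pool.Agent.MEX (LI lf PP Exa NCXk LL SECXk)

namespace Pool.Agent.MEY

namespace CEN_

/-- The product of the points of the cycle. -/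
noncomputable def PQ (n k : ℕ) (zf : ℂ → ℂ) (c : ℂ) : ℂ :=
  ∏ j ∈ Finset.range k, (F n c)^[j] (zf c)

theorem rho_PQ (n k : ℕ) (zf : ℂ → ℂ) (c : ℂ) :
    Rho n k c (zf c) = (n : ℂ) ^ k * PQ n k zf c ^ (n - 1) := by
  rw [Pool.Agent.PLim.TRANS_.Rho_eq]
  unfold fp PQ
  rw [Finset.prod_mul_distrib, Finset.prod_const, Finset.card_range, Finset.prod_pow]

theorem iter_diffOn {zf : ℂ → ℂ} {U : Set ℂ} (n j : ℕ) (h : DifferentiableOn ℂ zf U) :
    DifferentiableOn ℂ (fun c => (F n c)^[j] (zf c)) U := by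
  have h1 := (Pool.Agent.PLim.LOCZ_.iter_contDiff n j).differentiable one_ne_zero
  exact h1.comp_differentiableOn (differentiableOn_id.prodMk h)

theorem PQ_diffOn {zf : ℂ → ℂ} {U : Set ℂ} (n k : ℕ) (h : DifferentiableOn ℂ zf U) :
    DifferentiableOn ℂ (PQ n k zf) U := by
  unfold PQ
  exact DifferentiableOn.fun_finsetProd fun j _ => iter_diffOn n j h

theorem zf_deriv {n k : ℕ} {c : ℂ} {zf : ℂ → ℂ} {z' : ℂ} (hz : HasDerivAt zf z' c)
    (h0 : zf c = 0) (hR : Rho n k c 0 = 0)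
    (hfix : ∀ᶠ c' in 𝓝 c, (F n c')^[k] (zf c') = zf c') :
    z' = Pool.Agent.Multibrot.DQ n k c := by
  set Φ : ℂ × ℂ → ℂ := fun p => (F n p.1)^[k] p.2 with hΦ
  have hd := ((Pool.Agent.PLim.LOCZ_.iter_contDiff n k).differentiable one_ne_zero
    (c, (0 : ℂ))).hasFDerivAt
  have h1 : HasDerivAt (fun c' => Φ (c', 0)) (fderiv ℂ Φ (c, 0) (1, 0)) c := by
    have hl : HasDerivAt (fun t : ℂ => (t, (0 : ℂ))) ((1 : ℂ), (0 : ℂ)) c :=
      (hasDerivAt_id c).prodMk (hasDerivAt_const c 0)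
    exact HasFDerivAt.comp_hasDerivAt (f := fun t : ℂ => (t, (0 : ℂ))) c hd hl
  have h2 : HasDerivAt (fun z => Φ (c, z)) (fderiv ℂ Φ (c, 0) (0, 1)) 0 := by
    have hl : HasDerivAt (fun t : ℂ => (c, t)) ((0 : ℂ), (1 : ℂ)) 0 :=
      (hasDerivAt_const 0 c).prodMk (hasDerivAt_id 0)
    exact HasFDerivAt.comp_hasDerivAt (f := fun t : ℂ => (c, t)) 0 hd hl
  have h3 : fderiv ℂ Φ (c, 0) (0, 1) = 0 := by
    have h10 : deriv (fun z => Φ (c, z)) 0 = 0 := hR
    rw [h2.deriv] at h10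
    exact h10
  have h4 : fderiv ℂ Φ (c, 0) (1, 0) = Pool.Agent.Multibrot.DQ n k c := by
    have h5 := Pool.Agent.Multibrot.hasDerivAt_Q n k c
    have h6 : (fun c' => Φ (c', 0)) = Pool.Agent.Multibrot.Q n k := by
      funext c'
      exact (Pool.Agent.Multibrot.Q_eq_iterate n k c').symm
    rw [h6] at h1
    exact h1.unique h5
  have h7 : HasDerivAt (fun c' => Φ (c', zf c')) (fderiv ℂ Φ (c, 0) (1, z')) c := by
    have hl : HasDerivAt (fun t : ℂ => (t, zf t)) ((1 : ℂ), z') c :=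
      (hasDerivAt_id c).prodMk hz
    have hd' : HasFDerivAt Φ (fderiv ℂ Φ (c, 0)) (c, zf c) := by
      rw [h0]
      exact hd
    exact HasFDerivAt.comp_hasDerivAt (f := fun t : ℂ => (t, zf t)) c hd' hl
  have h8 : HasDerivAt zf (fderiv ℂ Φ (c, 0) (1, z')) c :=
    h7.congr_of_eventuallyEq (hfix.mono fun c' h => h.symm)
  have h9 : ((1 : ℂ), z') = (1, 0) + z' • ((0 : ℂ), (1 : ℂ)) := by
    simp
  rw [hz.unique h8, h9, map_add, map_smul, h3, h4, smul_zero, add_zero]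

theorem PQ_deriv {n k : ℕ} {c : ℂ} {zf : ℂ → ℂ} {z' : ℂ} (hk : 1 ≤ k)
    (hz : HasDerivAt zf z' c) (h0 : zf c = 0) :
    HasDerivAt (PQ n k zf) (z' * ∏ j ∈ Finset.range (k - 1), (F n c)^[j + 1] 0) c := by
  obtain ⟨m, rfl⟩ : ∃ m, k = m + 1 := ⟨k - 1, by omega⟩
  rw [Nat.add_sub_cancel]
  have h1 : PQ n (m + 1) zf = fun c =>
      (∏ j ∈ Finset.range m, (F n c)^[j + 1] (zf c)) * zf c := by
    funext c
    unfold PQ
    rw [Finset.prod_range_succ']
    rfl
  have h2 : DifferentiableAt ℂ (fun c => ∏ j ∈ Finset.range m, (F n c)^[j + 1] (zf c)) c := by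
    refine DifferentiableAt.fun_finsetProd fun j _ => ?_
    have h3 := (Pool.Agent.PLim.LOCZ_.iter_contDiff n (j + 1)).differentiable one_ne_zero
      (c, zf c)
    exact h3.comp c (differentiableAt_id.prodMk hz.differentiableAt)
  rw [h1]
  have h4 := h2.hasDerivAt.mul hz
  refine h4.congr_deriv ?_
  rw [h0, mul_zero, zero_add, mul_comm]

end CEN_

open CEN_

theorem p_CEN (hGLE : T_GLE) : T_CEN := by
  intro n k c hn hk hpt
  obtain ⟨δ, r, zf, -, -, hL⟩ := p_LOCZ n k c 0 1 hn one_pos hpt.fix (by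
    rw [hpt.mul]
    exact zero_ne_one)
  have hball : Metric.ball c δ ∈ 𝓝 c := Metric.ball_mem_nhds c hL.hδ
  have hzd : DifferentiableAt ℂ zf c := hL.diff.differentiableAt hball
  have hz' := zf_deriv (n := n) (k := k) hzd.hasDerivAt hL.zf0 hpt.mul
    (by filter_upwards [hball] with c' hc' using hL.fix c' hc')
  have hQ : Pool.Agent.Multibrot.Q n k c = 0 := by
    rw [Pool.Agent.Multibrot.Q_eq_iterate]
    exact hpt.fix
  have hzne : deriv zf c ≠ 0 := by
    rw [hz']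
    exact hGLE n k c hn hk hQ
  have hn1 : 0 < n - 1 := by omega
  obtain ⟨al, hal⟩ := IsAlgClosed.exists_pow_nat_eq ((n : ℂ) ^ k) hn1
  have hal0 : al ≠ 0 := by
    rintro rfl
    rw [zero_pow hn1.ne'] at hal
    have : (n : ℂ) ≠ 0 := Nat.cast_ne_zero.2 (by omega)
    exact pow_ne_zero k this hal.symm
  set g : ℂ → ℂ := fun c' => al * PQ n k zf c' with hg
  have hgpow : ∀ c', g c' ^ (n - 1) = Rho n k c' (zf c') := by
    intro c'
    rw [rho_PQ, hg]
    beta_reduce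
    rw [mul_pow, hal]
  have hgd : DifferentiableOn ℂ g (Metric.ball c δ) := (PQ_diffOn n k hL.diff).const_mul al
  have hgc : g c = 0 := by
    have h1 : PQ n k zf c = 0 := by
      unfold PQ
      refine Finset.prod_eq_zero (Finset.mem_range.2 (by omega : 0 < k)) ?_
      exact hL.zf0
    rw [hg]
    beta_reduce
    rw [h1, mul_zero]
  set g' : ℂ := al * (deriv zf c * ∏ j ∈ Finset.range (k - 1), (F n c)^[j + 1] 0) with hg'
  have hgder : HasDerivAt g g' c := (PQ_deriv hk hzd.hasDerivAt hL.zf0).const_mul al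
  have hg'0 : g' ≠ 0 := by
    refine mul_ne_zero hal0 (mul_ne_zero hzne ?_)
    rw [Finset.prod_ne_zero_iff]
    intro j hj
    have := Finset.mem_range.1 hj
    exact hpt.exa (j + 1) (by omega) (by omega)
  have hgC : ContDiffAt ℂ 1 g c := (hgd.contDiffOn Metric.isOpen_ball).contDiffAt hball
  have hgF : HasFDerivAt g ((ContinuousLinearEquiv.unitsEquivAut ℂ (Units.mk0 g' hg'0) :
      ℂ ≃L[ℂ] ℂ) : ℂ →L[ℂ] ℂ) c := by
    refine hgder.hasFDerivAt.congr_fderiv ?_
    ext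
    simp
  set a : ℂ → ℂ := hgC.localInverse hgF one_ne_zero with ha
  have hS := hgC.hasStrictFDerivAt' hgF one_ne_zero
  have ha0 : a 0 = c := by
    have := hgC.localInverse_apply_image hgF one_ne_zero
    rwa [hgc] at this
  have haC : ContDiffAt ℂ 1 a 0 := by
    have := hgC.to_localInverse hgF one_ne_zero
    rwa [hgc] at this
  have hright : ∀ᶠ w in 𝓝 (0 : ℂ), g (a w) = w := by
    have := hS.eventually_right_inverse
    rwa [hgc] at this
  have hleft : ∀ᶠ c' in 𝓝 c, a (g c') = c' := hS.eventually_left_inverse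
  have had : HasDerivAt a g'⁻¹ 0 := by
    have h1 : HasDerivAt a (deriv a 0) 0 := (haC.differentiableAt one_ne_zero).hasDerivAt
    have h2 : HasDerivAt g g' (a 0) := by
      rw [ha0]
      exact hgder
    have h3 : HasDerivAt (fun w => g (a w)) (g' * deriv a 0) 0 := h2.comp 0 h1
    have h4 : HasDerivAt (fun w : ℂ => w) (g' * deriv a 0) 0 :=
      h3.congr_of_eventuallyEq (hright.mono fun w h => h.symm)
    have h5 := h4.unique (hasDerivAt_id 0)
    have h6 : deriv a 0 = g'⁻¹ := eq_inv_of_mul_eq_one_right h5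
    rwa [h6] at h1
  have hdiff : ∀ᶠ w in 𝓝 (0 : ℂ), DifferentiableAt ℂ a w :=
    (haC.eventually (by simp)).mono fun w h => h.differentiableAt one_ne_zero
  have hacont : Tendsto a (𝓝 0) (𝓝 c) := by
    have := haC.continuousAt
    rwa [ContinuousAt, ha0] at this
  have hmem : ∀ᶠ w in 𝓝 (0 : ℂ), a w ∈ Metric.ball c δ := hacont.eventually hball
  have hex : ∀ᶠ w in 𝓝 (0 : ℂ), Exa n k (a w) (zf (a w)) := by
    have h1 := Pool.Agent.MEX.SECX_.exact_nhds hpt.exa
    have h2 : Tendsto (fun w => (a w, zf (a w))) (𝓝 0) (𝓝 (c, 0)) := by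
      refine hacont.prodMk_nhds ?_
      have h3 := hzd.continuousAt
      rw [ContinuousAt, hL.zf0] at h3
      exact h3.comp hacont
    exact h2.eventually h1
  obtain ⟨ρ0, hρ0, hρ⟩ := Metric.eventually_nhds_iff_ball.1
    (hright.and (hdiff.and (hmem.and hex)))
  set ρ := min ρ0 1 with hρd
  have hρpos : 0 < ρ := lt_min hρ0 one_pos
  have hsub : ∀ w ∈ Metric.ball (0 : ℂ) ρ, w ∈ Metric.ball (0 : ℂ) ρ0 := fun w hw =>
    Metric.ball_subset_ball (min_le_left _ _) hw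
  refine ⟨ρ, a, fun w => zf (a w), hρpos, min_le_right _ _, ?_, ?_, ha0, ?_, ?_, ?_, ?_⟩
  · intro w hw
    exact (hρ w (hsub w hw)).2.1.differentiableWithinAt
  · intro w hw
    have h1 := hρ w (hsub w hw)
    have h2 : DifferentiableAt ℂ zf (a w) :=
      hL.diff.differentiableAt (Metric.isOpen_ball.mem_nhds h1.2.2.1)
    exact (h2.comp w h1.2.1).differentiableWithinAt
  · rw [ha0, hL.zf0]
  · rw [had.deriv]
    exact inv_ne_zero hg'0
  · intro w hw
    have h1 := hρ w (hsub w hw)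
    refine ⟨hL.fix _ h1.2.2.1, h1.2.2.2, ?_⟩
    rw [← hgpow, h1.1]
  · have h1 : ∀ᶠ c' in 𝓝 c, g c' ∈ Metric.ball (0 : ℂ) ρ := by
      have h2 := hgder.continuousAt
      rw [ContinuousAt, hgc] at h2
      exact h2.eventually (Metric.ball_mem_nhds 0 hρpos)
    obtain ⟨ε0, hε0, hε⟩ := Metric.eventually_nhds_iff_ball.1 (h1.and (hleft.and hball))
    refine ⟨min ε0 r, lt_min hε0 hL.hr, ?_⟩
    intro c' z' hc' hz'' hP
    have h3 := hε c' (by
      rw [mem_ball_iff_norm]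
      exact lt_of_lt_of_le hc' (min_le_left _ _))
    have h4 : z' = zf c' := by
      refine hL.uniq c' h3.2.2 z' ?_ hP.fix
      rw [mem_ball_zero_iff]
      exact lt_of_lt_of_le hz'' (min_le_right _ _)
    refine ⟨g c', h3.1, h3.2.1, ?_⟩
    rw [h3.2.1, h4]

end Pool.Agent.MEY
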