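import Pool.Agent.MEY.Targets2
import Pool.Agent.MEX.SECX
import Pool.Agent.PLim.TRANS
import Pool.Agent.PLim.NOA

/-!
# MEY, CMP: every cycle of exact period `k` with multiplier in the extended region is obtained
-/

set_option autoImplicit false

open Complex Filter Topology Set MeasureTheory
open Pool.Agent.Limb (F)
open Pool.Agent.PLim (Cyc Res fp fpp Rho LocFix IsLimb OMXn CNT_contI CNT_contR p_LOCZ)
open Pool.Agent.PLim.SECT_ (EE EE_compact)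
open Pool.Agent.MEX (LI lf PP Exa NCXk LL SECXk)
open Pool.Agent.MEX.SECX_ (EX EX_sub EX_compact EX_exact)

namespace Pool.Agent.MEY

namespace CMP_

/-- A cycle with multiplier zero contains zero. -/
lemma zero_mem {n k : ℕ} {c z : ℂ} (hn : 2 ≤ n) (h : Rho n k c z = 0) :
    ∃ i, i < k ∧ (F n c)^[i] z = 0 := by
  rw [Pool.Agent.PLim.TRANS_.Rho_eq] at h
  obtain ⟨i, hi, h1⟩ := Finset.prod_eq_zero_iff.1 h
  refine ⟨i, Finset.mem_range.1 hi, ?_⟩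
  unfold fp at h1
  rcases mul_eq_zero.1 h1 with h2 | h2
  · have : (n : ℂ) ≠ 0 := Nat.cast_ne_zero.2 (by omega)
    exact absurd h2 this
  · exact eq_zero_of_pow_eq_zero h2

/-- Another point of the cycle. -/
lemma pt_iter {n k : ℕ} {c z w : ℂ} (hk : 1 ≤ k) (h : Pt n k c z w) {i : ℕ} (hi : i ≤ k) :
    Pt n k c ((F n c)^[i] z) w := by
  obtain ⟨h1, h2⟩ := Pool.Agent.PLim.NOA_.rho_shift_iter hk h.fix i
  refine ⟨h1, ?_, h2.trans h.mul⟩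
  have hback : (F n c)^[k - i] ((F n c)^[i] z) = z := by
    rw [← Function.iterate_add_apply, show k - i + i = k by omega]
    exact h.fix
  intro j hj0 hjk he
  refine h.exa j hj0 hjk ?_
  conv_lhs => rw [← hback, ← Function.iterate_add_apply, add_comm, Function.iterate_add_apply, he]
  exact hback

/-- Left invariant open sets are preconnected. -/
lemma li_preconnected {W : Set ℂ} (h : LI W) : IsPreconnected W := by
  obtain ⟨R, hR⟩ := h.inf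
  apply isPreconnected_of_forall (((R - 1 : ℝ)) : ℂ)
  intro y hy
  have hH : IsPreconnected {w : ℂ | w.re < R} := (convex_halfSpace_re_lt R).isPreconnected
  have hray : IsPreconnected ((fun s : ℝ => y - (s : ℂ)) '' Ici 0) := by
    apply isPreconnected_Ici.image
    fun_prop
  refine ⟨{w : ℂ | w.re < R} ∪ (fun s : ℝ => y - (s : ℂ)) '' Ici 0, ?_, ?_, ?_, ?_⟩
  · rintro w (hw | ⟨s, hs, rfl⟩)
    · exact hR w hw
    · exact h.left y hy s hs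
  · left
    show (((R - 1 : ℝ)) : ℂ).re < R
    rw [ofReal_re]
    linarith
  · right
    exact ⟨0, self_mem_Ici, by simp⟩
  · have hs : (0 : ℝ) ≤ max 0 (y.re - R + 1) := le_max_left _ _
    refine IsPreconnected.union (y - ((max 0 (y.re - R + 1) : ℝ) : ℂ)) ?_ ⟨_, hs, rfl⟩ hH hray
    show (y - ((max 0 (y.re - R + 1) : ℝ) : ℂ)).re < R
    rw [sub_re, ofReal_re]
    have := le_max_right 0 (y.re - R + 1)
    linarith

end CMP_

open CMP_ in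
theorem p_CMP (hOMG : T_OMG) (hDDO : T_DDO) (hLFT : T_LFT) (hLUQ : T_LUQ) : T_CMP := by
  intro N κ hκ hG n k c z μ hn hk hμ hP
  obtain ⟨hΩ, hper, -⟩ := hOMG N κ hκ
  obtain ⟨hDo, hDc, hDb, hDe, hDs, hDr⟩ := hDDO n N κ hn hκ
  have hpre := li_preconnected hΩ
  obtain ⟨ψ, χ, hS, hψμ, hχμ⟩ := hLFT N κ hΩ hG n k c z μ hn hk hμ hP
  -- a limit point for `Re → -∞`
  have hν : ∀ j : ℕ, μ - ((j : ℝ) : ℂ) ∈ Omg N κ := fun j =>
    hΩ.left μ hμ j (Nat.cast_nonneg j)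
  have hxE : ∀ j : ℕ, ((ψ (μ - ((j : ℝ) : ℂ)), χ (μ - ((j : ℝ) : ℂ))) : ℂ × ℂ) ∈ EX n k := by
    intro j
    have h1 := hS.pt _ (hν j)
    exact subset_closure ⟨⟨h1.fix, hS.bd _ (hν j)⟩, h1.exa⟩
  obtain ⟨⟨c0, z0⟩, hx0, φ, hφ, hlim⟩ := (EX_compact hn hk).tendsto_subseq hxE
  have hexp : Tendsto (fun j : ℕ => exp (μ - (((φ j : ℕ) : ℝ) : ℂ))) atTop (𝓝 0) := by
    rw [tendsto_zero_iff_norm_tendsto_zero]
    have h1 : ∀ j : ℕ, ‖exp (μ - (((φ j : ℕ) : ℝ) : ℂ))‖ = Real.exp (μ.re - (φ j : ℕ)) := by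
      intro j
      rw [norm_exp, sub_re, ofReal_re]
    simp only [h1]
    have h2 : Tendsto (fun j : ℕ => μ.re - ((φ j : ℕ) : ℝ)) atTop atBot := by
      have h3 : Tendsto (fun j : ℕ => ((φ j : ℕ) : ℝ)) atTop atTop :=
        tendsto_natCast_atTop_atTop.comp hφ.tendsto_atTop
      have := tendsto_atBot_add_const_left atTop μ.re (tendsto_neg_atTop_atBot.comp h3)
      simpa [sub_eq_add_neg, Function.comp_def] using this
    exact Real.tendsto_exp_atBot.comp h2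
  have hR0 : Rho n k c0 z0 = 0 := by
    have h1 : Tendsto (fun j : ℕ => Rho n k (ψ (μ - (((φ j : ℕ) : ℝ) : ℂ)))
        (χ (μ - (((φ j : ℕ) : ℝ) : ℂ)))) atTop (𝓝 (Rho n k c0 z0)) :=
      ((CNT_contR n k).tendsto (c0, z0)).comp hlim
    have h2 : (fun j : ℕ => Rho n k (ψ (μ - (((φ j : ℕ) : ℝ) : ℂ)))
        (χ (μ - (((φ j : ℕ) : ℝ) : ℂ)))) = fun j : ℕ => exp (μ - (((φ j : ℕ) : ℝ) : ℂ)) := by
      funext j
      exact (hS.pt _ (hν (φ j))).mul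
    rw [h2] at h1
    exact tendsto_nhds_unique h1 hexp
  have hE0 := EX_sub hn hk hx0
  have hPt0 : Pt n k c0 z0 0 := ⟨hE0.1, EX_exact hn hk hx0 (by
    show Rho n k c0 z0 ≠ 1
    rw [hR0]; exact zero_ne_one), hR0⟩
  obtain ⟨i, hik, hi0⟩ := zero_mem hn hR0
  have hPt : Pt n k c0 0 0 := by
    have := pt_iter hk hPt0 hik.le
    rwa [hi0] at this
  refine ⟨c0, hPt, ?_⟩
  intro Ψ X hGl
  -- the local uniqueness at the centre
  obtain ⟨δ, r, zf, -, -, hL⟩ := p_LOCZ n k c0 0 1 hn one_pos hPt.fix (by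
    rw [hPt.mul]; exact zero_ne_one)
  have h0D : (0 : ℂ) ∈ DD n N κ := Or.inl rfl
  have hDn : DD n N κ ∈ 𝓝 (0 : ℂ) := hDo.mem_nhds h0D
  have hΨa : AnalyticAt ℂ Ψ 0 := hGl.dΨ.analyticAt hDn
  have hΨc : ContinuousAt Ψ 0 := hΨa.continuousAt
  have hXc : ContinuousAt X 0 := (hGl.dX.analyticAt hDn).continuousAt
  have hmap : map Ψ (𝓝 0) = 𝓝 (Ψ 0) :=
    hΨa.hasStrictDerivAt.map_nhds_eq (hGl.d 0 h0D)
  rw [hGl.zero] at hmap
  have hV : ∀ᶠ v in 𝓝 (0 : ℂ), v ∈ DD n N κ ∧ Ψ v ∈ Metric.ball c0 δ ∧ X v ∈ Metric.ball 0 r := by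
    refine Filter.Eventually.and hDn (Filter.Eventually.and ?_ ?_)
    · apply hΨc.eventually
      rw [hGl.zero]
      exact Metric.ball_mem_nhds _ hL.hδ
    · apply hXc.eventually
      rw [hGl.X0]
      exact Metric.ball_mem_nhds _ hL.hr
  have himg : Ψ '' {v | v ∈ DD n N κ ∧ Ψ v ∈ Metric.ball c0 δ ∧ X v ∈ Metric.ball 0 r} ∈ 𝓝 c0 := by
    rw [← hmap]
    exact image_mem_map hV
  have hfst : Tendsto (fun j : ℕ => ψ (μ - (((φ j : ℕ) : ℝ) : ℂ))) atTop (𝓝 c0) :=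
    (continuous_fst.tendsto (c0, z0)).comp hlim
  have hit : Tendsto (fun j : ℕ => (F n (ψ (μ - (((φ j : ℕ) : ℝ) : ℂ))))^[i]
      (χ (μ - (((φ j : ℕ) : ℝ) : ℂ)))) atTop (𝓝 0) := by
    have := ((CNT_contI n i).tendsto (c0, z0)).comp hlim
    simp only [hi0] at this
    exact this
  obtain ⟨j, hj1, hj2⟩ := ((hfst.eventually himg).and
    (hit.eventually (Metric.ball_mem_nhds (0 : ℂ) hL.hr))).exists
  obtain ⟨ν, hνd⟩ : ∃ ν : ℂ, ν = μ - (((φ j : ℕ) : ℝ) : ℂ) := ⟨_, rfl⟩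
  have hνΩ : ν ∈ Omg N κ := by rw [hνd]; exact hν (φ j)
  rw [← hνd] at hj1 hj2
  obtain ⟨v, ⟨hvD, hvδ, hvr⟩, hvν⟩ := hj1
  have hPν : Pt n k (ψ ν) ((F n (ψ ν))^[i] (χ ν)) (exp ν) := pt_iter hk (hS.pt ν hνΩ) hik.le
  have hXv : X v = (F n (ψ ν))^[i] (χ ν) := by
    have h1 : X v = zf (Ψ v) := hL.uniq (Ψ v) hvδ (X v) hvr (hGl.pt v hvD).fix
    have h2 : (F n (ψ ν))^[i] (χ ν) = zf (ψ ν) := by
      rw [← hvν] at hj2 hPν ⊢
      exact hL.uniq (Ψ v) hvδ _ hj2 hPν.fix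
    rw [h1, h2, hvν]
  have hvpow : v ^ (n - 1) = exp ν := by
    rw [← (hGl.pt v hvD).mul, hXv, hvν, hPν.mul]
  have hn1 : ((n - 1 : ℕ) : ℂ) ≠ 0 := Nat.cast_ne_zero.2 (by omega)
  have hexpn : ∀ μ : ℂ, exp (μ / ((n - 1 : ℕ) : ℂ)) ^ (n - 1) = exp μ := by
    intro μ
    rw [← exp_nat_mul, mul_div_cancel₀ _ hn1]
  obtain ⟨ζ, hζ⟩ : ∃ ζ : ℂ, ζ = v / exp (ν / ((n - 1 : ℕ) : ℂ)) := ⟨_, rfl⟩
  have hζ1 : ζ ^ (n - 1) = 1 := by
    rw [hζ, div_pow, hexpn, hvpow, div_self (exp_ne_zero _)]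
  have hζv : ζ * exp (ν / ((n - 1 : ℕ) : ℂ)) = v := by
    rw [hζ, div_mul_cancel₀ _ (exp_ne_zero _)]
  have hζ0 : ζ ≠ 0 := by
    rintro rfl
    rw [zero_pow (by omega)] at hζ1
    exact zero_ne_one hζ1
  have hmapsto : MapsTo (fun μ : ℂ => ζ * exp (μ / ((n - 1 : ℕ) : ℂ))) (Omg N κ) (DD n N κ) := by
    intro μ' hμ'
    exact (hDr _ ζ hζ1).2 ((hDe μ').2 hμ')
  have hcmap : ContinuousOn (fun μ : ℂ => ζ * exp (μ / ((n - 1 : ℕ) : ℂ))) (Omg N κ) := by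
    apply Continuous.continuousOn
    fun_prop
  have key := hLUQ N κ hG n k (Omg N κ) ψ (fun μ => (F n (ψ μ))^[i] (χ μ))
    (fun μ => Ψ (ζ * exp (μ / ((n - 1 : ℕ) : ℂ)))) (fun μ => X (ζ * exp (μ / ((n - 1 : ℕ) : ℂ))))
    ν hn hk hpre subset_rfl hS.dψ.continuousOn
    ((CNT_contI n i).comp_continuousOn (hS.dψ.continuousOn.prodMk hS.dχ.continuousOn))
    (hGl.dΨ.continuousOn.comp hcmap hmapsto) (hGl.dX.continuousOn.comp hcmap hmapsto)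
    (fun μ' hμ' => pt_iter hk (hS.pt μ' hμ') hik.le)
    (fun μ' hμ' => by
      have := hGl.pt _ (hmapsto hμ')
      rw [mul_pow, hζ1, one_mul, hexpn] at this
      exact this) hνΩ (by rw [hζv, hvν]) (by rw [hζv, hXv])
  have k1 := key.1 hμ
  have k2 := key.2 hμ
  simp only at k1 k2
  rw [hψμ] at k1 k2
  rw [hχμ] at k2
  refine ⟨ζ * exp (μ / ((n - 1 : ℕ) : ℂ)), hmapsto hμ, mul_ne_zero hζ0 (exp_ne_zero _), k1.symm,
    k - i, ?_⟩
  rw [← k2, ← Function.iterate_add_apply, show k - i + i = k by omega]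
  exact hP.fix

end Pool.Agent.MEY
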