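import Pool.Agent.MEY.Targets2
import Pool.Agent.PLim.TRI

/-!
# MEY: DEC2, decay at infinity of the quadratic differential of two cycles
-/

set_option autoImplicit false

open Complex Filter Topology Set MeasureTheory
open Pool.Agent.Multibrot (MM rt push)
open Pool.Agent.Limb (F)
open Pool.Agent.PLim (Cyc Res fp fpp Rho LocFix IsLimb OMXn)
open Pool.Agent.MEX (LI lf PP Exa NCXk LL SECXk)

namespace Pool.Agent.MEY

namespace DEC2_

/-- The coefficient of `1/x²` at infinity. -/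
noncomputable def cf (k k' : ℕ) (b b' ρ ρ' : ℕ → ℂ) (s : ℂ) : ℂ :=
  ∑ j ∈ Finset.range k, (1 + ρ j * b j) + s * ∑ j ∈ Finset.range k', (1 + ρ' j * b' j)

/-- The expansion of one cycle at infinity. -/
lemma one (p : ℕ) (b r : ℕ → ℂ) :
    ∃ C R : ℝ, 0 ≤ C ∧ 1 ≤ R ∧ ∀ x : ℂ, R ≤ ‖x‖ →
      ‖Pool.Agent.PLim.AA p b r x - ((∑ j ∈ Finset.range p, (1 + r j * b j)) * (x ^ 2)⁻¹ +
        (∑ j ∈ Finset.range p, r j) * x⁻¹)‖ ≤ C * (‖x‖ ^ 3)⁻¹ := by
  refine ⟨∑ j ∈ Finset.range p, (8 * ‖b j‖ + 4 * ‖b j‖ ^ 2 + 2 * ‖r j‖ * ‖b j‖ ^ 2),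
    1 + ∑ j ∈ Finset.range p, 2 * ‖b j‖, by positivity, ?_, ?_⟩
  · have : 0 ≤ ∑ j ∈ Finset.range p, 2 * ‖b j‖ := by positivity
    linarith
  · intro x hx
    have hs : 0 ≤ ∑ j ∈ Finset.range p, 2 * ‖b j‖ := by positivity
    have hx1 : 1 ≤ ‖x‖ := by linarith
    have e : Pool.Agent.PLim.AA p b r x - ((∑ j ∈ Finset.range p, (1 + r j * b j)) * (x ^ 2)⁻¹ +
        (∑ j ∈ Finset.range p, r j) * x⁻¹) =
        ∑ j ∈ Finset.range p, ((((x - b j) ^ 2)⁻¹ + r j * (x - b j)⁻¹) -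
          ((1 + r j * b j) * (x ^ 2)⁻¹ + r j * x⁻¹)) := by
      rw [Finset.sum_sub_distrib, Finset.sum_add_distrib (f := fun j => (1 + r j * b j) * (x ^ 2)⁻¹),
        ← Finset.sum_mul, ← Finset.sum_mul]
      unfold Pool.Agent.PLim.AA
      ring
    rw [e, Finset.sum_mul]
    refine (norm_sum_le _ _).trans (Finset.sum_le_sum fun j hj => ?_)
    refine Pool.Agent.PLim.tri_term (b j) (r j) x hx1 ?_
    have := Finset.single_le_sum (f := fun j => 2 * ‖b j‖) (fun i _ => by positivity) hj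
    linarith

/-- The expansion at infinity. -/
lemma expand {k k' : ℕ} {b b' ρ ρ' : ℕ → ℂ} {s : ℂ}
    (h0 : ∑ j ∈ Finset.range k, ρ j + s * ∑ j ∈ Finset.range k', ρ' j = 0) :
    ∃ C R : ℝ, 0 ≤ C ∧ 1 ≤ R ∧ ∀ x : ℂ, R ≤ ‖x‖ →
      ‖ph2 k k' b b' ρ ρ' s x - cf k k' b b' ρ ρ' s * (x ^ 2)⁻¹‖ ≤ C * (‖x‖ ^ 3)⁻¹ := by
  obtain ⟨C1, R1, hC1, hR1, h1⟩ := one k b ρ
  obtain ⟨C2, R2, hC2, hR2, h2⟩ := one k' b' ρ'
  refine ⟨C1 + ‖s‖ * C2, max R1 R2, by positivity, le_max_of_le_left hR1, fun x hx => ?_⟩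
  have hx1 := h1 x (le_trans (le_max_left _ _) hx)
  have hx2 := h2 x (le_trans (le_max_right _ _) hx)
  have e : ph2 k k' b b' ρ ρ' s x - cf k k' b b' ρ ρ' s * (x ^ 2)⁻¹ =
      (Pool.Agent.PLim.AA k b ρ x - ((∑ j ∈ Finset.range k, (1 + ρ j * b j)) * (x ^ 2)⁻¹ +
        (∑ j ∈ Finset.range k, ρ j) * x⁻¹)) +
      s * (Pool.Agent.PLim.AA k' b' ρ' x - ((∑ j ∈ Finset.range k', (1 + ρ' j * b' j)) * (x ^ 2)⁻¹ +
        (∑ j ∈ Finset.range k', ρ' j) * x⁻¹)) := by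
    unfold ph2 cf
    linear_combination (x⁻¹) * h0
  rw [e]
  refine (norm_add_le _ _).trans ?_
  rw [norm_mul, add_mul, mul_assoc]
  exact add_le_add hx1 (mul_le_mul_of_nonneg_left hx2 (norm_nonneg _))

lemma tends {k k' : ℕ} {b b' ρ ρ' : ℕ → ℂ} {s : ℂ}
    (h0 : ∑ j ∈ Finset.range k, ρ j + s * ∑ j ∈ Finset.range k', ρ' j = 0) :
    Tendsto (fun x : ℂ => ph2 k k' b b' ρ ρ' s x * x ^ 2) (Bornology.cobounded ℂ)
      (𝓝 (cf k k' b b' ρ ρ' s)) := by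
  obtain ⟨C, R, hC, hR, h⟩ := expand (b := b) (b' := b') h0
  rw [tendsto_iff_norm_sub_tendsto_zero]
  have hn : Tendsto (fun x : ℂ => ‖x‖) (Bornology.cobounded ℂ) atTop := tendsto_norm_cobounded_atTop
  have hlim : Tendsto (fun x : ℂ => C * ‖x‖⁻¹) (Bornology.cobounded ℂ) (𝓝 0) := by
    have := (tendsto_inv_atTop_zero.comp hn).const_mul C
    simpa using this
  refine squeeze_zero' (Eventually.of_forall fun x => norm_nonneg _) ?_ hlim
  filter_upwards [hn.eventually (eventually_ge_atTop R)] with x hx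
  have hx0 : 0 < ‖x‖ := by linarith
  have hxne : x ≠ 0 := norm_pos_iff.1 hx0
  have e : ph2 k k' b b' ρ ρ' s x * x ^ 2 - cf k k' b b' ρ ρ' s =
      (ph2 k k' b b' ρ ρ' s x - cf k k' b b' ρ ρ' s * (x ^ 2)⁻¹) * x ^ 2 := by
    field_simp
  rw [e, norm_mul, norm_pow]
  calc _ ≤ C * (‖x‖ ^ 3)⁻¹ * ‖x‖ ^ 2 := by gcongr; exact h x hx
    _ = C * ‖x‖⁻¹ := by
      field_simp

/-- The coefficient of `1/x²` of an invariant function vanishes. -/
lemma key (n : ℕ) (c : ℂ) (φ : ℂ → ℂ) (E : Finset ℂ) (a : ℂ) (hn : 2 ≤ n)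
    (ht : Tendsto (fun x : ℂ => φ x * x ^ 2) (Bornology.cobounded ℂ) (𝓝 a))
    (hinv : ∀ y : ℂ, y ≠ c → y ∉ E → push n c φ y = φ y) : a = 0 := by
  have hn0 : n ≠ 0 := by omega
  have hnc : (n : ℂ) ≠ 0 := Nat.cast_ne_zero.2 hn0
  have hpow : Tendsto (fun s : ℝ => (s : ℂ) ^ n) atTop (Bornology.cobounded ℂ) := by
    rw [← tendsto_norm_atTop_iff_cobounded]
    have : Tendsto (fun s : ℝ => s ^ n) atTop atTop := tendsto_pow_atTop hn0
    refine this.congr' ?_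
    filter_upwards [eventually_ge_atTop 0] with s hs
    rw [norm_pow, Complex.norm_real, Real.norm_of_nonneg hs]
  have hx : Tendsto (fun s : ℝ => c + (s : ℂ) ^ n) atTop (Bornology.cobounded ℂ) := by
    rw [← tendsto_norm_atTop_iff_cobounded]
    have h1 := tendsto_norm_atTop_iff_cobounded.2 hpow
    have h2 : Tendsto (fun s : ℝ => ‖(s : ℂ) ^ n‖ - ‖c‖) atTop atTop :=
      tendsto_atTop_add_const_right _ _ h1
    refine tendsto_atTop_mono (fun s => ?_) h2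
    have := norm_sub_norm_le ((s : ℂ) ^ n) (-c)
    rw [sub_neg_eq_add, norm_neg, add_comm] at this
    exact this
  have hv : ∀ j, Tendsto (fun s : ℝ => rt n c j (c + (s : ℂ) ^ n)) atTop
      (Bornology.cobounded ℂ) := by
    intro j
    rw [← tendsto_norm_atTop_iff_cobounded]
    refine tendsto_id.congr' ?_
    filter_upwards [eventually_ge_atTop 0] with s hs
    rw [Pool.Agent.PLim.rt_norm_real hn0 c j hs]
    rfl
  have hratio : Tendsto (fun s : ℝ => ((s : ℂ) ^ n / (c + (s : ℂ) ^ n)) ^ 2) atTop (𝓝 1) := by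
    have h1 : Tendsto (fun s : ℝ => 1 - c * (c + (s : ℂ) ^ n)⁻¹) atTop (𝓝 (1 - c * 0)) :=
      tendsto_const_nhds.sub ((tendsto_inv₀_cobounded.comp hx).const_mul c)
    have h2 : Tendsto (fun s : ℝ => (1 - c * (c + (s : ℂ) ^ n)⁻¹) ^ 2) atTop
        (𝓝 ((1 - c * 0) ^ 2)) := h1.pow 2
    rw [mul_zero, sub_zero, one_pow] at h2
    refine h2.congr' ?_
    have hne : ∀ᶠ x : ℂ in Bornology.cobounded ℂ, x ≠ 0 := Bornology.eventually_ne_cobounded 0
    filter_upwards [hx.eventually hne] with s hs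
    congr 1
    rw [eq_div_iff hs, sub_mul, mul_assoc, inv_mul_cancel₀ hs]
    ring
  have hL : Tendsto (fun s : ℝ => φ (c + (s : ℂ) ^ n) * (c + (s : ℂ) ^ n) ^ 2 *
      ((s : ℂ) ^ n / (c + (s : ℂ) ^ n)) ^ 2) atTop (𝓝 (a * 1)) :=
    (ht.comp hx).mul hratio
  rw [mul_one] at hL
  have hRt : Tendsto (fun s : ℝ => ∑ j ∈ Finset.range n, ((n : ℂ) ^ 2)⁻¹ *
      (φ (rt n c j (c + (s : ℂ) ^ n)) * rt n c j (c + (s : ℂ) ^ n) ^ 2)) atTop
      (𝓝 (∑ j ∈ Finset.range n, ((n : ℂ) ^ 2)⁻¹ * a)) :=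
    tendsto_finsetSum _ fun j _ => (ht.comp (hv j)).const_mul _
  have heq : ∀ᶠ s : ℝ in atTop, φ (c + (s : ℂ) ^ n) * (c + (s : ℂ) ^ n) ^ 2 *
      ((s : ℂ) ^ n / (c + (s : ℂ) ^ n)) ^ 2 =
      ∑ j ∈ Finset.range n, ((n : ℂ) ^ 2)⁻¹ *
      (φ (rt n c j (c + (s : ℂ) ^ n)) * rt n c j (c + (s : ℂ) ^ n) ^ 2) := by
    have hnb : ∀ᶠ s : ℝ in atTop, ∀ e ∈ E, c + (s : ℂ) ^ n ≠ e := by
      rw [Filter.eventually_all_finset]
      intro e _
      exact hx.eventually (Bornology.eventually_ne_cobounded e)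
    filter_upwards [hnb, hx.eventually (Bornology.eventually_ne_cobounded 0), eventually_gt_atTop 0]
      with s hs1 hs2 hs3
    have hsn : (s : ℂ) ^ n ≠ 0 := pow_ne_zero _ (by exact_mod_cast hs3.ne')
    have hxc : c + (s : ℂ) ^ n ≠ c := by
      intro h
      exact hsn (by linear_combination h)
    have hxE : c + (s : ℂ) ^ n ∉ E := fun h => hs1 _ h rfl
    have hpush := hinv (c + (s : ℂ) ^ n) hxc hxE
    have e1 : φ (c + (s : ℂ) ^ n) * (c + (s : ℂ) ^ n) ^ 2 *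
        ((s : ℂ) ^ n / (c + (s : ℂ) ^ n)) ^ 2 = φ (c + (s : ℂ) ^ n) * ((s : ℂ) ^ n) ^ 2 := by
      field_simp
    rw [e1, ← hpush]
    unfold push
    rw [Finset.sum_mul]
    refine Finset.sum_congr rfl fun j _ => ?_
    have hvn : rt n c j (c + (s : ℂ) ^ n) ^ n = (s : ℂ) ^ n := by
      rw [Pool.Agent.Multibrot.rt_pow hn0, add_sub_cancel_left]
    have hv0 : rt n c j (c + (s : ℂ) ^ n) ≠ 0 := Pool.Agent.Multibrot.rt_ne hn0 hxc j
    set v := rt n c j (c + (s : ℂ) ^ n) with hvdef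
    have e2 : (s : ℂ) ^ n = v ^ (n - 1) * v := by
      rw [← hvn, ← pow_succ, Nat.sub_add_cancel (by omega)]
    rw [e2]
    have hv1 : v ^ (n - 1) ≠ 0 := pow_ne_zero _ hv0
    field_simp
  have huniq := tendsto_nhds_unique (hL.congr' heq) hRt
  rw [Finset.sum_const, Finset.card_range, nsmul_eq_mul] at huniq
  have h1 : a * n = a := by
    have : (n : ℂ) * (((n : ℂ) ^ 2)⁻¹ * a) = a / n := by
      field_simp
    rw [this] at huniq
    rw [eq_div_iff hnc] at huniq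
    exact huniq
  have h2 : a * ((n : ℂ) - 1) = 0 := by linear_combination h1
  rcases mul_eq_zero.1 h2 with h | h
  · exact h
  · exfalso
    have : (n : ℂ) = 1 := by linear_combination h
    have h3 : n = 1 := by exact_mod_cast this
    omega

end DEC2_

theorem p_DEC2 (hINV : T_INV2) : T_DEC2 := by
  intro n k k' c b b' ρ ρ' s h
  have ha := DEC2_.key n c (ph2 k k' b b' ρ ρ' s) (E2 k k' b b') _ h.hn
    (DEC2_.tends (b := b) (b' := b') h.sum) (hINV n k k' c b b' ρ ρ' s h)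
  obtain ⟨C, R, hC, hR, hb⟩ := DEC2_.expand (b := b) (b' := b') h.sum
  refine ⟨C, R, hR, fun x hx => ?_⟩
  have := hb x hx
  rw [ha, zero_mul, sub_zero] at this
  exact this

end Pool.Agent.MEY
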