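import Pool.Agent.MEY.Targets2
import Pool.Agent.PLim.TRANS

/-!
# MEY, EXM: the global extension theorem
-/

set_option autoImplicit false

open Complex Filter Topology Set MeasureTheory
open Pool.Agent.Limb (F)
open Pool.Agent.PLim (Cyc Res fp fpp Rho LocFix IsLimb OMXn)
open Pool.Agent.MEX (LI lf PP Exa NCXk LL SECXk)

namespace Pool.Agent.MEY

namespace EXM_

lemma LL_nonneg (δ : ℝ) : 0 ≤ LL δ := div_nonneg (sq_nonneg _) (sq_nonneg _)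

lemma ncx_mono {κ κ' : ℝ} (h : κ' ≤ κ) (hN : NCXk κ) : NCXk κ' := by
  intro n k c0 z0 μ δ ε r zf h1 h2 h3 h4 h5 h6 h7 h8
  exact hN n k c0 z0 μ δ ε r zf h1 h2 h3 h4 h5 h6 h7
    (h8.trans_le (mul_le_mul_of_nonneg_right h (LL_nonneg δ)))

lemma nc2_mono {R : ℕ} {κ κ' : ℝ} (h : κ' ≤ κ) (hN : NC2k R κ) : NC2k R κ' := by
  intro n k k' c z z' μ μ' δ h1 h2 h3 h4 h5 h6 h7 h8 h9 h10 h11 h12
  refine hN n k k' c z z' μ μ' δ h1 h2 h3 h4 h5 h6 h7 h8 h9 h10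
    (h11.trans_le (mul_le_mul_of_nonneg_right h (LL_nonneg δ))) ?_
  rcases h12 with h12 | ⟨δ', a1, a2, a3, a4⟩
  · exact Or.inl h12
  · exact Or.inr ⟨δ', a1, a2, a3, a4.trans_le (mul_le_mul_of_nonneg_right h (LL_nonneg δ'))⟩

lemma ball_DD {n N : ℕ} {κ : ℝ} (hn : 2 ≤ n) : Metric.ball (0 : ℂ) 1 ⊆ DD n N κ := by
  intro w hw
  rw [mem_ball_zero_iff] at hw
  by_cases h0 : w = 0
  · exact Or.inl h0
  · refine Or.inr (Or.inl ?_)
    have h1 : Real.log ‖w‖ < 0 := Real.log_neg (norm_pos_iff.2 h0) hw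
    have h2 : (0 : ℝ) < ((n - 1 : ℕ) : ℝ) := by
      have : 0 < n - 1 := by omega
      exact_mod_cast this
    have h3 : ((((n - 1 : ℕ) : ℂ)) * log w).re = ((n - 1 : ℕ) : ℝ) * Real.log ‖w‖ := by
      rw [← Complex.ofReal_natCast, Complex.re_ofReal_mul, Complex.log_re]
    rw [h3]
    exact mul_neg_of_pos_of_neg h2 h1

/-- A section is injective if it is not invariant under rotations. -/
lemma rot_one {n k N : ℕ} {κ : ℝ} {c : ℂ} {Ψ X : ℂ → ℂ} (hn : 2 ≤ n) (hG : Glob n k N κ c Ψ X)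
    {ζ : ℂ} (h : ∀ v ∈ DD n N κ, Ψ (ζ * v) = Ψ v) : ζ = 1 := by
  have hnb : DD n N κ ∈ 𝓝 (0 : ℂ) :=
    Filter.mem_of_superset (Metric.ball_mem_nhds _ one_pos) (ball_DD hn)
  have h0 : (0 : ℂ) ∈ DD n N κ := Or.inl rfl
  have hd : HasDerivAt Ψ (deriv Ψ 0) 0 := (hG.dΨ.differentiableAt hnb).hasDerivAt
  have h1 : HasDerivAt (fun v : ℂ => Ψ (ζ * v)) (deriv Ψ 0 * ζ) 0 := by
    have h2 : HasDerivAt (fun v : ℂ => ζ * v) ζ 0 := by
      simpa using (hasDerivAt_id (0 : ℂ)).const_mul ζ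
    have h3 : HasDerivAt Ψ (deriv Ψ 0) (ζ * 0) := by
      rw [mul_zero]
      exact hd
    exact h3.comp (0 : ℂ) h2
  have h4 : (fun v : ℂ => Ψ (ζ * v)) =ᶠ[𝓝 0] Ψ := by
    filter_upwards [hnb] with v hv
    exact h v hv
  have h5 := (h1.congr_of_eventuallyEq h4.symm).unique hd
  have h6 := hG.d 0 h0
  exact mul_left_cancel₀ h6 (by rw [h5, mul_one])

/-- A cycle with multiplier zero contains zero. -/
lemma zero_mem {n k : ℕ} {c z : ℂ} (hn : 2 ≤ n) (h : Rho n k c z = 0) :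
    ∃ i, i < k ∧ (F n c)^[i] z = 0 := by
  rw [Pool.Agent.PLim.TRANS_.Rho_eq] at h
  obtain ⟨i, hi, h1⟩ := Finset.prod_eq_zero_iff.1 h
  refine ⟨i, Finset.mem_range.1 hi, ?_⟩
  unfold fp at h1
  rcases mul_eq_zero.1 h1 with h2 | h2
  · have : (n : ℂ) ≠ 0 := Nat.cast_ne_zero.2 (by omega)
    exact absurd h2 this
  · exact eq_zero_of_pow_eq_zero h2

lemma rho_zero {n k : ℕ} {c : ℂ} (hn : 2 ≤ n) (hk : 1 ≤ k) : Rho n k c 0 = 0 := by
  rw [Pool.Agent.PLim.TRANS_.Rho_eq]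
  refine Finset.prod_eq_zero (i := 0) (Finset.mem_range.2 hk) ?_
  unfold fp
  rw [Function.iterate_zero, id, zero_pow (by omega), mul_zero]

/-- The cycle of a superattracting point. -/
lemma centre {n k : ℕ} {c z : ℂ} (hn : 2 ≤ n) (hk : 1 ≤ k) (h : Pt n k c z 0) :
    Pt n k c 0 0 ∧ ∃ j : ℕ, (F n c)^[j] 0 = z := by
  obtain ⟨i, hi, h0⟩ := zero_mem hn h.mul
  have hback : (F n c)^[k - i] 0 = z := by
    rw [← h0, ← Function.iterate_add_apply, show k - i + i = k by omega]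
    exact h.fix
  refine ⟨⟨?_, ?_, rho_zero hn hk⟩, k - i, hback⟩
  · rw [← h0, ← Function.iterate_add_apply, add_comm, Function.iterate_add_apply, h.fix]
  · intro j hj0 hjk he
    refine h.exa j hj0 hjk ?_
    conv_lhs => rw [← hback, ← Function.iterate_add_apply, add_comm, Function.iterate_add_apply, he]
    exact hback

end EXM_

open EXM_ in
theorem p_EXM (hNCX : Pool.Agent.MEX.T_NCX) (hNC2 : T_NC2) (hNCU : T_NCU) (hNCZ : T_NCZ)
    (hGOD : T_GOD) (hGLB : T_GLB) (hIJG : T_IJG) (hCMP : T_CMP) : T_EXM := by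
  intro R hR
  obtain ⟨κ0, hκ0, hN0⟩ := hNCX
  obtain ⟨κ1, hκ1, hN1⟩ := hNC2 R
  set κ : ℝ := min (min κ0 κ1) 1 with hκ
  have hpos : 0 < κ := lt_min (lt_min hκ0 hκ1) one_pos
  have hle1 : κ ≤ 1 := min_le_right _ _
  have hleκ0 : κ ≤ κ0 := (min_le_left _ _).trans (min_le_left _ _)
  have hleκ1 : κ ≤ κ1 := (min_le_left _ _).trans (min_le_right _ _)
  have hX : NCXk κ := ncx_mono hleκ0 hN0
  have hG : GODk (6 * (R + 1)) κ := hGOD _ κ (by omega) hpos hle1 hX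
  have hU : NCUk R κ := hNCU R κ (nc2_mono hleκ1 hN1)
  refine ⟨κ, hpos, hle1, hX, hG, hU, ?_⟩
  intro n hn
  have hij := hIJG R κ hR hpos hG hU
  refine ⟨?_, ?_, ?_, ?_⟩
  · intro k k' c z z' w w' hk hk' hkk hkk' hz hz' hw hw'
    exact hNCZ R κ hpos hU n k k' c z z' w w' hn hk hk' hkk hkk' hz hz' hw hw'
  · intro k c hk hc
    obtain ⟨Ψ, X, hΨ⟩ := hGLB _ κ hpos hG n k c hn hk hc
    refine ⟨Ψ, X, hΨ, ?_⟩
    intro w hw w' hw' he
    have hkR : k ≤ R * k := Nat.le_mul_of_pos_left k hR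
    obtain ⟨-, -, ζ, -, h2, h3⟩ := hij n k k c c Ψ X Ψ X w w' hn hk hk hkR hkR hΨ hΨ hw hw' he
    have := rot_one hn hΨ h3
    rw [h2, this, one_mul]
  · intro k k' c c' Ψ X Ψ' X' w w' hk hk' hkk hkk' hΨ hΨ' hw hw' he
    obtain ⟨h1, h2, -⟩ := hij n k k' c c' Ψ X Ψ' X' w w' hn hk hk' hkk hkk' hΨ hΨ' hw hw' he
    exact ⟨h1, h2⟩
  · intro k c z w hk hz hw
    by_cases h0 : w = 0
    · subst h0
      obtain ⟨h1, j, hj⟩ := centre hn hk hz
      refine ⟨c, h1, fun Ψ X hΨ => ⟨0, Or.inl rfl, hΨ.zero, j, ?_⟩⟩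
      rw [hΨ.X0]
      exact hj
    · have hμ : log w ∈ Omg (6 * (R + 1)) κ := by
        rcases hw with hw | hw
        · exact absurd hw h0
        · exact hw
      have hz' : Pt n k c z (exp (log w)) := by
        rw [exp_log h0]
        exact hz
      obtain ⟨c0, hc0, hall⟩ := hCMP _ κ hpos hG n k c z (log w) hn hk hμ hz'
      refine ⟨c0, hc0, fun Ψ X hΨ => ?_⟩
      obtain ⟨v, hv, -, hv2, j, hj⟩ := hall Ψ X hΨ
      exact ⟨v, hv, hv2, j, hj⟩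

end Pool.Agent.MEY
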