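import Pool.Agent.MEY.Targets2

/-!
# ME2, GLB: the global section at a centre
-/

set_option autoImplicit false

open Complex Filter Topology Set MeasureTheory
open Pool.Agent.Multibrot (MM rt push)
open Pool.Agent.Limb (F)
open Pool.Agent.PLim (Cyc Res fp fpp Rho LocFix IsLimb OMXn)
open Pool.Agent.MEX (LI lf PP Exa NCXk LL SECXk)

namespace Pool.Agent.MEY

namespace GLB_

/-- the function `f (ν log w)` with the value `c` at `0` -/
noncomputable def ext (ν : ℕ) (c : ℂ) (f : ℂ → ℂ) (w : ℂ) : ℂ :=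
  if w = 0 then c else f ((ν : ℂ) * log w)

/-- two logarithms of a nonzero number differ by a multiple of the period -/
lemma log_add {w w' : ℂ} (hw : w ≠ 0) (hw' : w' ≠ 0) :
    ∃ m : ℤ, log w' = (log w + log (w' / w)) + m * (2 * Real.pi * I) := by
  apply Complex.exp_eq_exp_iff_exists_int.mp
  rw [exp_log hw', exp_add, exp_log hw, exp_log (div_ne_zero hw' hw)]
  field_simp

lemma ext_hasDerivAt {ν : ℕ} {c : ℂ} {f : ℂ → ℂ} {W : Set ℂ} (hW : IsOpen W)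
    (hf : DifferentiableOn ℂ f W)
    (hper : ∀ μ ∈ W, ∀ m : ℤ, f (μ + 2 * Real.pi * I * (ν * m)) = f μ) {w : ℂ} (hw : w ≠ 0)
    (hwW : (ν : ℂ) * log w ∈ W) :
    HasDerivAt (ext ν c f) (deriv f ((ν : ℂ) * log w) * (ν * w⁻¹)) w := by
  have h1 : HasDerivAt (fun w' : ℂ => (ν : ℂ) * (log w + log (w' / w))) (ν * w⁻¹) w := by
    have h2 : HasDerivAt (fun w' : ℂ => w' / w) (1 / w) w := (hasDerivAt_id w).div_const w
    have h3 : HasDerivAt (fun w' : ℂ => log (w' / w)) (1 / w / (w / w)) w :=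
      h2.clog (by rw [div_self hw]; exact one_mem_slitPlane)
    have h4 := (h3.const_add (log w)).const_mul (ν : ℂ)
    have h8 : (ν : ℂ) * (1 / w / (w / w)) = ν * w⁻¹ := by
      rw [div_self hw, div_one, one_div]
    rw [h8] at h4
    exact h4
  have hval : (fun w' : ℂ => (ν : ℂ) * (log w + log (w' / w))) w = (ν : ℂ) * log w := by
    simp [div_self hw]
  have hval' : (ν : ℂ) * (log w + log (w / w)) = (ν : ℂ) * log w := hval
  have h5 : HasDerivAt f (deriv f ((ν : ℂ) * log w))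
      ((fun w' : ℂ => (ν : ℂ) * (log w + log (w' / w))) w) := by
    rw [hval]
    exact (hf.differentiableAt (hW.mem_nhds hwW)).hasDerivAt
  have h6 := h5.comp w h1
  refine h6.congr_of_eventuallyEq ?_
  have h7 : ∀ᶠ w' in 𝓝 w, (ν : ℂ) * (log w + log (w' / w)) ∈ W := by
    have := h1.continuousAt
    apply this.eventually_mem
    rw [hval']
    exact hW.mem_nhds hwW
  filter_upwards [h7, isOpen_ne.mem_nhds hw] with w' hw1 hw2
  have hw2' : w' ≠ 0 := hw2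
  obtain ⟨m, hm⟩ := log_add hw hw2'
  simp only [ext, if_neg hw2', Function.comp]
  rw [← hper _ hw1 m, hm]
  congr 1
  ring

lemma mem_H {ν : ℕ} (hν : 0 < ν) {ρ : ℝ} (hρ : 0 < ρ) {μ : ℂ} (h : μ.re < ν * Real.log ρ) :
    exp (μ / ν) ∈ Metric.ball (0 : ℂ) ρ := by
  have hν' : (0 : ℝ) < ν := by exact_mod_cast hν
  rw [mem_ball_zero_iff, norm_exp]
  have h1 : (μ / (ν : ℂ)).re = μ.re / ν := by
    rw [← Complex.ofReal_natCast, Complex.div_ofReal_re]
  rw [h1]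
  calc Real.exp (μ.re / ν) < Real.exp (Real.log ρ) := by
        apply Real.exp_lt_exp.mpr
        rw [div_lt_iff₀ hν']
        linarith
    _ = ρ := Real.exp_log hρ

lemma exp_pow {ν : ℕ} (hν : 0 < ν) (μ : ℂ) : exp (μ / ν) ^ ν = exp μ := by
  rw [← exp_nat_mul]
  congr 1
  have : (ν : ℂ) ≠ 0 := by exact_mod_cast hν.ne'
  field_simp

lemma exp_log_mul (ν : ℕ) {w : ℂ} (hw : w ≠ 0) : exp ((ν : ℂ) * log w) = w ^ ν := by
  rw [exp_nat_mul, exp_log hw]

lemma exp_per (ν : ℕ) (μ : ℂ) (m : ℤ) : exp (μ + 2 * Real.pi * I * (ν * m)) = exp μ := by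
  rw [exp_eq_exp_iff_exists_int]
  exact ⟨ν * m, by push_cast; ring⟩

lemma exp_div_per {ν : ℕ} (hν : 0 < ν) (μ : ℂ) (m : ℤ) :
    exp ((μ + 2 * Real.pi * I * (ν * m)) / ν) = exp (μ / ν) := by
  rw [exp_eq_exp_iff_exists_int]
  have : (ν : ℂ) ≠ 0 := by exact_mod_cast hν.ne'
  exact ⟨m, by field_simp⟩

end GLB_

theorem p_GLB (hO : T_OMG) (hLf : T_LFT) (hU : T_LUQ) (hC : T_CEN) : T_GLB := by
  intro N κ hκ hG n k c hn hk hc
  obtain ⟨hLI, hOp, -⟩ := hO N κ hκ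
  obtain ⟨ρ, a, z, hcen⟩ := hC n k c hn hk hc
  set ν : ℕ := n - 1 with hν
  have hν0 : 0 < ν := by omega
  have hνr : (0 : ℝ) < ν := by exact_mod_cast hν0
  have hνc : (ν : ℂ) ≠ 0 := by exact_mod_cast hν0.ne'
  have hρ := hcen.hρ
  have hlog : Real.log ρ ≤ 0 := Real.log_nonpos hρ.le hcen.hρ1
  set W : Set ℂ := Omg N κ with hW
  set H : Set ℂ := {μ : ℂ | μ.re < ν * Real.log ρ} with hH
  have hHW : H ⊆ W := by
    intro μ hμ
    left
    have : μ.re < ν * Real.log ρ := hμ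
    nlinarith
  have hHb : ∀ μ ∈ H, exp (μ / ν) ∈ Metric.ball (0 : ℂ) ρ := fun μ hμ => GLB_.mem_H hν0 hρ hμ
  set μ0 : ℂ := ((ν * Real.log ρ - 1 : ℝ) : ℂ) with hμ0
  have hre0 : μ0.re = ν * Real.log ρ - 1 := Complex.ofReal_re _
  have hμH : μ0 ∈ H := by
    show μ0.re < ν * Real.log ρ
    rw [hre0]
    linarith
  have hpt0 : Pt n k (a (exp (μ0 / ν))) (z (exp (μ0 / ν))) (exp μ0) := by
    have := hcen.pt _ (hHb μ0 hμH)
    rwa [← hν, GLB_.exp_pow hν0] at this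
  obtain ⟨ψ, χ, hS, hψ0, hχ0⟩ := hLf N κ hLI hG n k _ _ μ0 hn hk (hHW hμH) hpt0
  have hHpre : IsPreconnected H := (convex_halfSpace_re_lt (ν * Real.log ρ)).isPreconnected
  -- the sections on the half plane
  have hcexp : ContinuousOn (fun μ : ℂ => exp (μ / ν)) H := by fun_prop
  have hHeq : EqOn ψ (fun μ => a (exp (μ / ν))) H ∧ EqOn χ (fun μ => z (exp (μ / ν))) H := by
    refine hU N κ hG n k H ψ χ _ _ μ0 hn hk hHpre hHW (hS.dψ.continuousOn.mono hHW)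
      (hS.dχ.continuousOn.mono hHW) (hcen.da.continuousOn.comp hcexp hHb)
      (hcen.dz.continuousOn.comp hcexp hHb) (fun μ hμ => hS.pt μ (hHW hμ)) ?_ hμH hψ0 hχ0
    intro μ hμ
    have := hcen.pt _ (hHb μ hμ)
    rwa [← hν, GLB_.exp_pow hν0] at this
  -- the periodicity
  have hmemW : ∀ μ ∈ W, ∀ m : ℤ, μ + 2 * Real.pi * I * (ν * m) ∈ W := by
    intro μ hμ m
    have h := (hOp μ (ν * m)).mpr hμ
    push_cast at h
    exact h
  have hper : ∀ m : ℤ, (∀ μ ∈ W, ψ (μ + 2 * Real.pi * I * (ν * m)) = ψ μ) ∧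
      ∀ μ ∈ W, χ (μ + 2 * Real.pi * I * (ν * m)) = χ μ := by
    intro m
    have hct : ContinuousOn (fun μ : ℂ => μ + 2 * Real.pi * I * (ν * m)) W := by fun_prop
    have hmH : μ0 + 2 * Real.pi * I * (ν * m) ∈ H := by
      show (μ0 + 2 * Real.pi * I * (ν * m)).re < ν * Real.log ρ
      have : (μ0 + 2 * Real.pi * I * (ν * m)).re = μ0.re := by
        simp
      rw [this, hre0]
      linarith
    have e1 : ψ (μ0 + 2 * Real.pi * I * (ν * m)) = ψ μ0 := by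
      rw [hHeq.1 hmH, hHeq.1 hμH]
      simp only
      rw [GLB_.exp_div_per hν0]
    have e2 : χ (μ0 + 2 * Real.pi * I * (ν * m)) = χ μ0 := by
      rw [hHeq.2 hmH, hHeq.2 hμH]
      simp only
      rw [GLB_.exp_div_per hν0]
    have h := hU N κ hG n k W (fun μ => ψ (μ + 2 * Real.pi * I * (ν * m)))
      (fun μ => χ (μ + 2 * Real.pi * I * (ν * m))) ψ χ μ0 hn hk hLI.isPreconnected subset_rfl
      (hS.dψ.continuousOn.comp hct fun μ hμ => hmemW μ hμ m)
      (hS.dχ.continuousOn.comp hct fun μ hμ => hmemW μ hμ m) hS.dψ.continuousOn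
      hS.dχ.continuousOn ?_ hS.pt (hHW hμH) e1 e2
    · exact ⟨fun μ hμ => h.1 hμ, fun μ hμ => h.2 hμ⟩
    · intro μ hμ
      have := hS.pt _ (hmemW μ hμ m)
      rwa [GLB_.exp_per] at this
  -- the sections near zero
  have hmemH : ∀ w ∈ Metric.ball (0 : ℂ) ρ, w ≠ 0 → (ν : ℂ) * log w ∈ H := by
    intro w hw hw0
    rw [mem_ball_zero_iff] at hw
    show ((ν : ℂ) * log w).re < ν * Real.log ρ
    have : ((ν : ℂ) * log w).re = ν * Real.log ‖w‖ := by
      rw [← Complex.ofReal_natCast, Complex.re_ofReal_mul, Complex.log_re]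
    rw [this]
    exact mul_lt_mul_of_pos_left (Real.log_lt_log (norm_pos_iff.mpr hw0) hw) hνr
  have hdiv : ∀ w : ℂ, w ≠ 0 → exp ((ν : ℂ) * log w / ν) = w := by
    intro w hw0
    rw [mul_div_cancel_left₀ _ hνc, exp_log hw0]
  have hΨa : EqOn (GLB_.ext ν c ψ) a (Metric.ball 0 ρ) := by
    intro w hw
    by_cases hw0 : w = 0
    · rw [hw0, hcen.a0]
      simp [GLB_.ext]
    · simp only [GLB_.ext, if_neg hw0]
      rw [hHeq.1 (hmemH w hw hw0)]
      simp only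
      rw [hdiv w hw0]
  have hXz : EqOn (GLB_.ext ν 0 χ) z (Metric.ball 0 ρ) := by
    intro w hw
    by_cases hw0 : w = 0
    · rw [hw0, hcen.z0]
      simp [GLB_.ext]
    · simp only [GLB_.ext, if_neg hw0]
      rw [hHeq.2 (hmemH w hw hw0)]
      simp only
      rw [hdiv w hw0]
  have hb0 : Metric.ball (0 : ℂ) ρ ∈ 𝓝 (0 : ℂ) := Metric.ball_mem_nhds _ hρ
  have hΨe : GLB_.ext ν c ψ =ᶠ[𝓝 0] a := by
    filter_upwards [hb0] with w hw using hΨa hw
  have hXe : GLB_.ext ν 0 χ =ᶠ[𝓝 0] z := by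
    filter_upwards [hb0] with w hw using hXz hw
  have hDD : ∀ w ∈ DD n N κ, w = 0 ∨ (w ≠ 0 ∧ (ν : ℂ) * log w ∈ W) := by
    intro w hw
    by_cases hw0 : w = 0
    · exact Or.inl hw0
    · rcases hw with h | h
      · exact absurd h hw0
      · exact Or.inr ⟨hw0, h⟩
  have hdΨ : ∀ w, w ≠ 0 → (ν : ℂ) * log w ∈ W →
      HasDerivAt (GLB_.ext ν c ψ) (deriv ψ ((ν : ℂ) * log w) * (ν * w⁻¹)) w := fun w hw0 hwW =>
    GLB_.ext_hasDerivAt hLI.op hS.dψ (fun μ hμ m => (hper m).1 μ hμ) hw0 hwW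
  have hdX : ∀ w, w ≠ 0 → (ν : ℂ) * log w ∈ W →
      HasDerivAt (GLB_.ext ν 0 χ) (deriv χ ((ν : ℂ) * log w) * (ν * w⁻¹)) w := fun w hw0 hwW =>
    GLB_.ext_hasDerivAt hLI.op hS.dχ (fun μ hμ m => (hper m).2 μ hμ) hw0 hwW
  refine ⟨GLB_.ext ν c ψ, GLB_.ext ν 0 χ, ?_, ?_, ?_, ?_, ?_, ?_⟩
  · intro w hw
    rcases hDD w hw with rfl | ⟨hw0, hwW⟩
    · exact (hΨe.differentiableAt_iff.mpr (hcen.da.differentiableAt hb0)).differentiableWithinAt
    · exact (hdΨ w hw0 hwW).differentiableAt.differentiableWithinAt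
  · intro w hw
    rcases hDD w hw with rfl | ⟨hw0, hwW⟩
    · exact (hXe.differentiableAt_iff.mpr (hcen.dz.differentiableAt hb0)).differentiableWithinAt
    · exact (hdX w hw0 hwW).differentiableAt.differentiableWithinAt
  · simp [GLB_.ext]
  · simp [GLB_.ext]
  · intro w hw
    rcases hDD w hw with rfl | ⟨hw0, hwW⟩
    · have h1 : GLB_.ext ν c ψ 0 = c := by simp [GLB_.ext]
      have h2 : GLB_.ext ν 0 χ 0 = 0 := by simp [GLB_.ext]
      rw [h1, h2, ← hν, zero_pow hν0.ne']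
      exact hc
    · simp only [GLB_.ext, if_neg hw0]
      have := hS.pt _ hwW
      rwa [GLB_.exp_log_mul ν hw0] at this
  · intro w hw
    rcases hDD w hw with rfl | ⟨hw0, hwW⟩
    · rw [hΨe.deriv_eq]
      exact hcen.d
    · rw [(hdΨ w hw0 hwW).deriv]
      exact mul_ne_zero (hS.d _ hwW) (mul_ne_zero hνc (inv_ne_zero hw0))

end Pool.Agent.MEY
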