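import Pool.Agent.MEY.Targets2

/-!
# MEY-GLE: the centres are simple
-/

set_option autoImplicit false

open Complex Filter Topology Set MeasureTheory
open Pool.Agent.Multibrot (Q DQ)

namespace Pool.Agent.MEY

namespace GLE_

open Polynomial

/-- The critical orbit polynomials over the integers. -/
noncomputable def PQ (n : ℕ) : ℕ → ℤ[X]
  | 0 => 0
  | k + 1 => PQ n k ^ n + X

lemma eval_PQ (n : ℕ) (c : ℂ) : ∀ k : ℕ, (PQ n k).eval₂ (algebraMap ℤ ℂ) c = Q n k c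
  | 0 => by simp [PQ]
  | k + 1 => by
    rw [PQ, eval₂_add, eval₂_pow, eval₂_X, eval_PQ n c k, Pool.Agent.Multibrot.Q_succ]

lemma PQ_monic {n : ℕ} (hn : 2 ≤ n) : ∀ k : ℕ, (PQ n (k + 1)).Monic ∧
    (PQ n (k + 1)).natDegree = n ^ k
  | 0 => by
    have h : PQ n (0 + 1) = X := by
      rw [PQ, PQ, zero_pow (by omega), zero_add]
    rw [h]
    exact ⟨monic_X, by simp⟩
  | k + 1 => by
    obtain ⟨h1, h2⟩ := PQ_monic hn k
    have h3 : (PQ n (k + 1) ^ n).Monic := h1.pow n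
    have h4 : (PQ n (k + 1) ^ n).natDegree = n ^ (k + 1) := by
      rw [h1.natDegree_pow, h2]
      ring
    have h5 : 2 ≤ n ^ (k + 1) := by
      calc 2 ≤ n := hn
        _ = n ^ 1 := (pow_one n).symm
        _ ≤ n ^ (k + 1) := Nat.pow_le_pow_right (by omega) (by omega)
    have h6 : (X : ℤ[X]).degree < (PQ n (k + 1) ^ n).degree := by
      rw [degree_X, degree_eq_natDegree h3.ne_zero, h4]
      exact_mod_cast (by omega : 1 < n ^ (k + 1))
    rw [PQ]
    refine ⟨h3.add_of_left h6, ?_⟩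
    rw [natDegree_add_eq_left_of_degree_lt h6, h4]

lemma int_c {n : ℕ} (hn : 2 ≤ n) {k : ℕ} {c : ℂ} (h : Q n (k + 1) c = 0) : IsIntegral ℤ c :=
  ⟨PQ n (k + 1), (PQ_monic hn k).1, by rw [eval_PQ, h]⟩

lemma int_Q {n : ℕ} {c : ℂ} (hc : IsIntegral ℤ c) : ∀ k : ℕ, IsIntegral ℤ (Q n k c)
  | 0 => by
    rw [Pool.Agent.Multibrot.Q_zero]
    exact isIntegral_zero
  | k + 1 => by
    rw [Pool.Agent.Multibrot.Q_succ]
    exact ((int_Q hc k).pow n).add hc

lemma int_nat (n : ℕ) : IsIntegral ℤ (n : ℂ) := by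
  have h := isIntegral_algebraMap (R := ℤ) (A := ℂ) (x := (n : ℤ))
  simpa using h

lemma int_DQ {n : ℕ} {c : ℂ} (hc : IsIntegral ℤ c) : ∀ k : ℕ, IsIntegral ℤ (DQ n k c)
  | 0 => by
    rw [Pool.Agent.Multibrot.DQ_zero]
    exact isIntegral_zero
  | k + 1 => by
    rw [Pool.Agent.Multibrot.DQ_succ]
    exact ((((int_nat n).mul ((int_Q hc k).pow (n - 1))).mul (int_DQ hc k))).add isIntegral_one

lemma no_inv {n : ℕ} (hn : 2 ≤ n) {y : ℂ} (hy : IsIntegral ℤ y) (h : (n : ℂ) * y + 1 = 0) :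
    False := by
  have hn0 : (n : ℂ) ≠ 0 := by
    have : n ≠ 0 := by omega
    exact_mod_cast this
  have hq : y = algebraMap ℚ ℂ (-1 / n) := by
    have h1 : (n : ℂ) * y = -1 := by linear_combination h
    rw [map_div₀, map_neg, map_one, map_natCast, eq_div_iff hn0, mul_comm]
    exact h1
  rw [hq, isIntegral_algebraMap_iff (algebraMap ℚ ℂ).injective,
    IsIntegrallyClosed.isIntegral_iff] at hy
  obtain ⟨m, hm⟩ := hy
  have hn1 : (n : ℚ) ≠ 0 := by
    have : n ≠ 0 := by omega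
    exact_mod_cast this
  rw [eq_div_iff hn1] at hm
  have h2 : m * (n : ℤ) = -1 := by
    have : ((m * (n : ℤ) : ℤ) : ℚ) = ((-1 : ℤ) : ℚ) := by
      push_cast
      simpa using hm
    exact_mod_cast this
  have h3 : (n : ℤ) ∣ 1 := ⟨-m, by linarith⟩
  have h4 := Int.le_of_dvd one_pos h3
  omega

end GLE_

open GLE_ in
theorem p_GLE : T_GLE := by
  intro n k c hn hk hQ hD
  obtain ⟨m, rfl⟩ : ∃ m, k = m + 1 := ⟨k - 1, by omega⟩
  have hc := int_c hn hQ
  rw [Pool.Agent.Multibrot.DQ_succ, mul_assoc] at hD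
  exact no_inv hn (((int_Q hc m).pow (n - 1)).mul (int_DQ hc m)) hD

end Pool.Agent.MEY
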