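import Pool.Agent.MEY.Targets2
import Pool.Agent.PLim.TRANS
import Pool.Agent.PLim.TRA
import Pool.Agent.PLim.TRL
import Pool.Agent.PLim.TRP
import Pool.Agent.PLim.TRI
import Pool.Agent.PLim.TRS
import Pool.Agent.PLim.LOCZ
import Pool.Agent.PLim.BIG

/-!
# MEY, GOD: regularity of the points over the extended half plane
-/

set_option autoImplicit false

open Complex Filter Topology Set
open Pool.Agent.Limb (F)
open Pool.Agent.PLim (Rho LocFix p_TRANS p_TRA p_TRL p_TRP p_TRI p_TRS p_LOCZ p_BIG)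
open Pool.Agent.MEX (LI LL Exa NCXk Far)

namespace Pool.Agent.MEY

namespace GOD_

lemma log_nonneg {δ : ℝ} (h0 : 0 < δ) (h : δ ≤ 1 / 2) : 0 ≤ Real.log (1 / δ) := by
  refine Real.log_nonneg ?_
  rw [le_div_iff₀ h0]
  linarith

lemma LL_le {δ : ℝ} (h0 : 0 < δ) (h : δ ≤ 1 / 2) : LL δ ≤ δ ^ 2 := by
  have h1 := log_nonneg h0 h
  unfold LL
  refine div_le_self (by positivity) ?_
  nlinarith

lemma far_ne {δ : ℝ} {μ : ℂ} (h0 : 0 < δ) (h : Far δ μ.im) : exp μ ≠ 1 := by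
  intro h1
  rw [Complex.exp_eq_one_iff] at h1
  obtain ⟨m, hm⟩ := h1
  have h2 : μ.im = 2 * Real.pi * m := by
    rw [hm]
    simp
    ring
  have h3 := h 1 le_rfl (by norm_num) m
  have hpi := Real.pi_pos
  have h4 : ((1 : ℕ) : ℝ) * μ.im / (2 * Real.pi) - m = 0 := by
    rw [h2]
    push_cast
    field_simp
    ring
  rw [h4, abs_zero] at h3
  linarith

lemma exp_lt {μ : ℂ} (h : μ.re < 0) : ‖exp μ‖ < 1 := by
  rw [Complex.norm_exp]
  exact Real.exp_lt_one_iff.2 h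

lemma exp_ne {μ : ℂ} (h : μ.re < 0) : exp μ ≠ 1 := by
  intro h1
  have := exp_lt h
  rw [h1, norm_one] at this
  exact lt_irrefl _ this

lemma t_TRANS : Pool.Agent.PLim.T_TRANS :=
  p_TRANS p_TRA (p_TRL p_TRP (p_TRI p_TRP) p_TRS)

end GOD_

open GOD_ in
theorem p_GOD : T_GOD := by
  intro N κ hN hκ hκ1 hNC n k c z μ hn hk hμ hz
  have hne : exp μ ≠ 1 := by
    rcases hμ with h | ⟨δ, h0, h1, hF, hre⟩
    · exact exp_ne h
    · exact far_ne h0 fun q hq hq6 m => hF q hq (hq6.trans hN) m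
  have hre1 : μ.re < 1 := by
    rcases hμ with h | ⟨δ, h0, h1, hF, hre⟩
    · linarith [(show μ.re < 0 from h)]
    · have h4 := LL_le h0 h1
      have h5 : δ ^ 2 ≤ 1 / 4 := by nlinarith
      nlinarith
  refine ⟨hne, ?_, ?_⟩
  · by_contra hc
    have h1 := p_BIG n k c z hn hk (not_lt.1 hc) hz.fix
    rw [hz.mul, Complex.norm_exp, Real.exp_lt_exp] at h1
    linarith
  · intro R hR
    obtain ⟨ε, r, zf, h1, h2, hL⟩ := p_LOCZ n k c z R hn hR hz.fix (by rw [hz.mul]; exact hne)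
    refine ⟨ε, r, zf, h1, h2, hL, ?_⟩
    rcases hμ with h | ⟨δ, h0, h3, hF, hre⟩
    · refine t_TRANS n k c z ε r zf hn hk hL ?_ ?_ ?_
      · rw [hz.mul]
        exact exp_ne_zero μ
      · rw [hz.mul]
        exact (exp_lt h).le
      · rw [hz.mul]
        exact hne
    · exact hNC n k c z μ δ ε r zf hn hk hL hz.exa hz.mul h0
        (fun q hq hq6 m => hF q hq (hq6.trans hN) m) hre

end Pool.Agent.MEY
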