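import Pool.Agent.MEY.Targets2

/-!
# MEY, IJG: univalence and disjointness
-/

set_option autoImplicit false

open Complex Filter Topology Set MeasureTheory
open Pool.Agent.Limb (F)
open Pool.Agent.PLim (Cyc Res fp fpp Rho LocFix IsLimb OMXn)
open Pool.Agent.MEX (LI lf PP Exa NCXk LL SECXk)

namespace Pool.Agent.MEY

namespace IJG_

lemma minper {n k : ℕ} {c z w : ℂ} (hk : 1 ≤ k) (h : Pt n k c z w) :
    Function.minimalPeriod (F n c) z = k := by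
  have h1 : Function.IsPeriodicPt (F n c) k z := h.fix
  have h2 : Function.minimalPeriod (F n c) z ∣ k := h1.minimalPeriod_dvd
  have h3 : 0 < Function.minimalPeriod (F n c) z := h1.minimalPeriod_pos hk
  have h4 : Function.minimalPeriod (F n c) z ≤ k := Nat.le_of_dvd hk h2
  rcases lt_or_eq_of_le h4 with h5 | h5
  · exact absurd Function.iterate_minimalPeriod (h.exa _ h3 h5)
  · exact h5

lemma opn {n k N : ℕ} {κ : ℝ} {c : ℂ} {Ψ X : ℂ → ℂ} (hG : Glob n k N κ c Ψ X)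
    (hO : IsOpen (DD n N κ)) {w : ℂ} (hw : w ∈ DD n N κ) {U : Set ℂ} (hU : U ∈ 𝓝 w) :
    Ψ '' U ∈ 𝓝 (Ψ w) := by
  have h1 : HasStrictDerivAt Ψ (deriv Ψ w) w :=
    (hG.dΨ.analyticAt (hO.mem_nhds hw)).hasStrictDerivAt
  rw [← h1.map_nhds_eq (hG.d w hw)]
  exact image_mem_map hU

/-- the theorem for nonzero points -/
lemma core (hDDO : T_DDO) (hSAME : T_SAME) {R : ℕ} {κ : ℝ} (hκ : 0 < κ)
    (hG : GODk (6 * (R + 1)) κ) (hU : NCUk R κ) {n k k' : ℕ} {c c' : ℂ} {Ψ X Ψ' X' : ℂ → ℂ}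
    {w w' : ℂ} (hn : 2 ≤ n) (hk : 1 ≤ k) (hk' : 1 ≤ k') (h1 : k ≤ R * k') (h2 : k' ≤ R * k)
    (hΨ : Glob n k (6 * (R + 1)) κ c Ψ X) (hΨ' : Glob n k' (6 * (R + 1)) κ c' Ψ' X')
    (hw : w ∈ DD n (6 * (R + 1)) κ) (hw' : w' ∈ DD n (6 * (R + 1)) κ) (h0 : w ≠ 0)
    (h0' : w' ≠ 0) (he : Ψ w = Ψ' w') :
    k = k' ∧ c = c' ∧ ∃ ζ : ℂ, ζ ^ (n - 1) = 1 ∧ w' = ζ * w ∧
      ∀ v ∈ DD n (6 * (R + 1)) κ, Ψ' (ζ * v) = Ψ v := by
  obtain ⟨-, -, -, -, hex, -⟩ := hDDO n (6 * (R + 1)) κ hn hκ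
  have hn1 : ((n - 1 : ℕ) : ℂ) ≠ 0 := Nat.cast_ne_zero.2 (by omega)
  have hpow : ∀ μ : ℂ, exp (μ / ((n - 1 : ℕ) : ℂ)) ^ (n - 1) = exp μ := by
    intro μ
    rw [← Complex.exp_nat_mul]
    congr 1
    field_simp
  obtain ⟨μ, hμ, rfl⟩ := hex w hw h0
  obtain ⟨μ', hμ', rfl⟩ := hex w' hw' h0'
  have hz := hΨ.pt _ hw
  have hz' := hΨ'.pt _ hw'
  rw [hpow] at hz hz'
  rw [← he] at hz'
  obtain ⟨j, hj⟩ := hU n k k' _ _ _ μ μ' hn hk hk' h1 h2 hz hz' hμ hμ'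
  have hkk : k = k' := by
    have e1 := minper hk hz
    have e2 := minper hk' hz'
    rw [← hj, Function.minimalPeriod_apply_iterate] at e2
    · rw [← e1, ← e2]
    · exact Function.mk_mem_periodicPts hk hz.fix
  subst hkk
  obtain ⟨ζ, hζ, e1, e2⟩ := hSAME _ κ hκ hG n k c c' Ψ X Ψ' X' _ _ hn hk hΨ hΨ' hw hw' h0 h0' he
    ⟨j, hj⟩
  refine ⟨rfl, ?_, ζ, hζ, e1, e2⟩
  have e3 := e2 0 (Or.inl rfl)
  rw [mul_zero, hΨ.zero, hΨ'.zero] at e3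
  exact e3.symm

end IJG_

open IJG_ in
theorem p_IJG (hDDO : T_DDO) (hSAME : T_SAME) : T_IJG := by
  intro R κ hR hκ hG hU n k k' c c' Ψ X Ψ' X' w w' hn hk hk' hkk hkk' hΨ hΨ' hw hw' he
  obtain ⟨hO, -, -, -, -, -⟩ := hDDO n (6 * (R + 1)) κ hn hκ
  by_cases h00 : w ≠ 0 ∧ w' ≠ 0
  · exact core hDDO hSAME hκ hG hU hn hk hk' hkk hkk' hΨ hΨ' hw hw' h00.1 h00.2 he
  -- nearby points
  have hnear : ∀ ε : ℝ, 0 < ε → ∃ v v' : ℂ, v ∈ DD n (6 * (R + 1)) κ ∧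
      v' ∈ DD n (6 * (R + 1)) κ ∧ ‖v - w‖ < ε ∧ ‖v' - w'‖ < ε ∧ Ψ v = Ψ' v' ∧ Ψ v ≠ Ψ w := by
    intro ε hε
    have hUn : DD n (6 * (R + 1)) κ ∩ Metric.ball w ε ∈ 𝓝 w :=
      inter_mem (hO.mem_nhds hw) (Metric.ball_mem_nhds _ hε)
    have hUn' : DD n (6 * (R + 1)) κ ∩ Metric.ball w' ε ∈ 𝓝 w' :=
      inter_mem (hO.mem_nhds hw') (Metric.ball_mem_nhds _ hε)
    have e1 := opn hΨ hO hw hUn
    have e2 := opn hΨ' hO hw' hUn'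
    rw [← he] at e2
    have e3 : ∀ᶠ y in 𝓝[≠] (Ψ w), y ∈ Ψ '' (DD n (6 * (R + 1)) κ ∩ Metric.ball w ε) ∧
        y ∈ Ψ' '' (DD n (6 * (R + 1)) κ ∩ Metric.ball w' ε) :=
      mem_nhdsWithin_of_mem_nhds (inter_mem e1 e2)
    obtain ⟨y, ⟨⟨v, ⟨hv1, hv2⟩, hv3⟩, ⟨v', ⟨hv1', hv2'⟩, hv3'⟩⟩, hy⟩ :=
      (e3.and self_mem_nhdsWithin).exists
    rw [Metric.mem_ball, dist_eq_norm] at hv2 hv2'
    exact ⟨v, v', hv1, hv1', hv2, hv2', by rw [hv3, hv3'], by rw [hv3]; exact hy⟩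
  have hnz : ∀ ε : ℝ, 0 < ε → ε ≤ ‖w‖ ∨ w = 0 → ε ≤ ‖w'‖ ∨ w' = 0 → ∃ v v' ζ : ℂ,
      ‖v - w‖ < ε ∧ ‖v' - w'‖ < ε ∧ k = k' ∧ c = c' ∧ ζ ^ (n - 1) = 1 ∧ v' = ζ * v ∧
      ∀ v ∈ DD n (6 * (R + 1)) κ, Ψ' (ζ * v) = Ψ v := by
    intro ε hε h1 h2
    obtain ⟨v, v', hv, hv', a1, a2, a3, a4⟩ := hnear ε hε
    have hv0 : v ≠ 0 := by
      intro h
      rcases h1 with h1 | h1
      · rw [h, zero_sub, norm_neg] at a1
        linarith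
      · rw [h, h1] at a4
        exact a4 rfl
    have hv0' : v' ≠ 0 := by
      intro h
      rcases h2 with h2 | h2
      · rw [h, zero_sub, norm_neg] at a2
        linarith
      · rw [a3, he, h, h2] at a4
        exact a4 rfl
    obtain ⟨b1, b2, ζ, b3, b4, b5⟩ :=
      core hDDO hSAME hκ hG hU hn hk hk' hkk hkk' hΨ hΨ' hv hv' hv0 hv0' a3
    exact ⟨v, v', ζ, a1, a2, b1, b2, b3, b4, b5⟩
  have hn1 : n - 1 ≠ 0 := by omega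
  by_cases hw0 : w = 0
  · by_cases hw0' : w' = 0
    · obtain ⟨v, v', ζ, -, -, b1, b2, b3, -, b5⟩ := hnz 1 one_pos (Or.inr hw0) (Or.inr hw0')
      exact ⟨b1, b2, ζ, b3, by rw [hw0, hw0', mul_zero], b5⟩
    · exfalso
      have hp : 0 < ‖w'‖ := norm_pos_iff.2 hw0'
      obtain ⟨v, v', ζ, a1, a2, -, -, b3, b4, -⟩ :=
        hnz (‖w'‖ / 3) (by positivity) (Or.inr hw0) (Or.inl (by linarith))
      have hζ : ‖ζ‖ = 1 := norm_eq_one_of_pow_eq_one b3 hn1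
      have h1 : ‖v'‖ = ‖v‖ := by rw [b4, norm_mul, hζ, one_mul]
      rw [hw0, sub_zero] at a1
      have h2 : ‖w'‖ ≤ ‖v' - w'‖ + ‖v'‖ := by
        have := norm_sub_le (v' - w') v'
        rw [sub_right_comm, sub_self, zero_sub, norm_neg] at this
        linarith
      linarith
  · by_cases hw0' : w' = 0
    · exfalso
      have hp : 0 < ‖w‖ := norm_pos_iff.2 hw0
      obtain ⟨v, v', ζ, a1, a2, -, -, b3, b4, -⟩ :=
        hnz (‖w‖ / 3) (by positivity) (Or.inl (by linarith)) (Or.inr hw0')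
      have hζ : ‖ζ‖ = 1 := norm_eq_one_of_pow_eq_one b3 hn1
      have h1 : ‖v'‖ = ‖v‖ := by rw [b4, norm_mul, hζ, one_mul]
      rw [hw0', sub_zero] at a2
      have h2 : ‖w‖ ≤ ‖v - w‖ + ‖v‖ := by
        have := norm_sub_le (v - w) v
        rw [sub_right_comm, sub_self, zero_sub, norm_neg] at this
        linarith
      linarith
    · exact absurd ⟨hw0, hw0'⟩ h00

end Pool.Agent.MEY
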