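import Pool.Agent.MEY.Targets2
import Pool.Agent.PLim.TRP

/-!
# ME2, INV2: the invariance of the quadratic differential of two cycles
-/

set_option autoImplicit false

open Complex Filter Topology Set MeasureTheory
open Pool.Agent.Multibrot (MM rt push)
open Pool.Agent.Limb (F)
open Pool.Agent.PLim (Cyc Res fp fpp Rho LocFix IsLimb OMXn)
open Pool.Agent.MEX (LI lf PP Exa NCXk LL SECXk)

namespace Pool.Agent.MEY

namespace INV2_

/-- the push-forward is linear -/
lemma push_add_mul (n : ℕ) (c s : ℂ) (f g : ℂ → ℂ) (y : ℂ) :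
    push n c (fun x => f x + s * g x) y = push n c f y + s * push n c g y := by
  simp only [push]
  rw [Finset.mul_sum, ← Finset.sum_add_distrib]
  refine Finset.sum_congr rfl fun j _ => ?_
  ring

/-- a point off the finite set of the points of the cycle is off the cycle -/
lemma ne_cyc {n k : ℕ} {c : ℂ} {b : ℕ → ℂ} (h : Cyc n k c b) {y : ℂ}
    (hy : y ∉ (Finset.range k).image b) (j : ℕ) : y ≠ b j := by
  intro he
  apply hy
  rw [Finset.mem_image]
  exact ⟨j % k, Finset.mem_range.2 (Nat.mod_lt _ h.hp), by rw [he, ← Pool.Agent.MEX.cyc_mod h j]⟩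

end INV2_

theorem p_INV2 : T_INV2 := by
  intro n k k' c b b' ρ ρ' s h y hyc hyE
  have hE : y ∉ (Finset.range k).image b ∧ y ∉ (Finset.range k').image b' := by
    rw [E2, Finset.mem_union, not_or] at hyE
    exact hyE
  have h1 := Pool.Agent.PLim.p_TRP n k c b ρ y h.hn h.cb h.rs hyc (INV2_.ne_cyc h.cb hE.1)
  have h2 := Pool.Agent.PLim.p_TRP n k' c b' ρ' y h.hn h.cb' h.rs' hyc (INV2_.ne_cyc h.cb' hE.2)
  have h3 : push n c (ph2 k k' b b' ρ ρ' s) y =
      push n c (Pool.Agent.PLim.AA k b ρ) y + s * push n c (Pool.Agent.PLim.AA k' b' ρ') y :=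
    INV2_.push_add_mul n c s _ _ y
  rw [h3, h1, h2, ph2]
  have h4 := h.sum
  linear_combination (-(y - c)⁻¹) * h4

end Pool.Agent.MEY
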