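import Pool.Agent.MEY.Targets2
import Pool.Agent.PLim.KOEB
import Pool.Agent.PLim.PHIp

/-!
# KDI: a distortion theorem with a bad constant
-/

set_option autoImplicit false

open Complex Filter Topology Set MeasureTheory

namespace Pool.Agent.MEY

namespace KDI_

open Pool.Agent.PLim

/-- The lower bound for the distance of two values. -/
theorem lower {a : ℂ} {R : ℝ} {g : ℂ → ℂ} (hd : DifferentiableOn ℂ g (Metric.ball a R))
    (hi : InjOn g (Metric.ball a R)) {x : ℂ} (hx : x ∈ Metric.ball a R) :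
    ‖deriv g a‖ * ‖x - a‖ ≤ 64 * ‖g x - g a‖ := by
  have hR : 0 < R := lt_of_le_of_lt dist_nonneg (Metric.mem_ball.1 hx)
  rcases eq_or_ne x a with h | h
  · rw [h, sub_self, norm_zero, mul_zero]
    positivity
  · have hρ : 0 < ‖x - a‖ := norm_pos_iff.2 (sub_ne_zero.2 h)
    have hxR : ‖x - a‖ < R := by
      rw [← dist_eq_norm]
      exact Metric.mem_ball.1 hx
    have hsub : Metric.ball a ‖x - a‖ ⊆ Metric.ball a R := Metric.ball_subset_ball hxR.le
    have h1 := p_KOEB a ‖x - a‖ (fun y => g y - g x) hρ ((hd.mono hsub).sub_const _)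
      (fun y hy z hz hyz => hi (hsub hy) (hsub hz) (by simpa using hyz))
      (fun y hy h0 => by
        have h2 : y = x := hi (hsub hy) hx (sub_eq_zero.1 h0)
        rw [h2, Metric.mem_ball, dist_eq_norm] at hy
        exact lt_irrefl _ hy)
    rw [deriv_sub_const] at h1
    rw [norm_sub_rev (g x)]
    exact h1

/-- The first clause, with the radius `3 R / 4`. -/
theorem upper {a : ℂ} {R : ℝ} {g : ℂ → ℂ} (hR : 0 < R)
    (hd : DifferentiableOn ℂ g (Metric.ball a R)) (hi : InjOn g (Metric.ball a R)) {x : ℂ}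
    (hx : ‖x - a‖ ≤ 3 * R / 4) :
    ‖g x - g a‖ ≤ 64 ^ 6 * ‖deriv g a‖ * ‖x - a‖ := by
  have ho : IsOpen (Metric.ball a R) := Metric.isOpen_ball
  have ha : a ∈ Metric.ball a R := Metric.mem_ball_self hR
  have hxR : x ∈ Metric.ball a R := by
    rw [Metric.mem_ball, dist_eq_norm]
    linarith
  have hD : deriv g a ≠ 0 :=
    PHIp_.deriv_ne_zero_of_injOn (hd.analyticAt (ho.mem_nhds ha)) (ho.mem_nhds ha) hi
  have hD0 : 0 < ‖deriv g a‖ := norm_pos_iff.2 hD
  set h : ℂ → ℂ := dslope g a with hh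
  have hhd : DifferentiableOn ℂ h (Metric.ball a R) :=
    (differentiableOn_dslope (ho.mem_nhds ha)).2 hd
  have hha : h a = deriv g a := dslope_same g a
  have hhx : ∀ y, y ≠ a → ‖h y‖ * ‖y - a‖ = ‖g y - g a‖ := by
    intro y hy
    rw [hh, dslope_of_ne g hy, slope_def_field, norm_div, div_mul_cancel₀]
    exact (norm_pos_iff.2 (sub_ne_zero.2 hy)).ne'
  have hlow : ∀ y ∈ Metric.ball a R, ‖deriv g a‖ ≤ 64 * ‖h y‖ := by
    intro y hy
    rcases eq_or_ne y a with e | e
    · rw [e, hha]
      linarith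
    · have h1 := lower hd hi hy
      rw [← hhx y e] at h1
      have h2 : 0 < ‖y - a‖ := norm_pos_iff.2 (sub_ne_zero.2 e)
      have h3 : ‖deriv g a‖ * ‖y - a‖ ≤ (64 * ‖h y‖) * ‖y - a‖ := by linarith
      exact le_of_mul_le_mul_right h3 h2
  have hh0 : ∀ y ∈ Metric.ball a R, h y ≠ 0 := by
    intro y hy h0
    have h1 := hlow y hy
    rw [h0, norm_zero, mul_zero] at h1
    linarith
  obtain ⟨F, hF, hexp⟩ := KOEB_.exists_log hR hhd hh0
  -- the logarithm of the quotient, moved to the origin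
  set G : ℂ → ℂ := fun z => F a - F (z + a) with hG
  have hmaps : MapsTo (fun z : ℂ => z + a) (Metric.ball 0 R) (Metric.ball a R) := by
    intro z hz
    rw [Metric.mem_ball, dist_eq_norm] at hz ⊢
    simpa using hz
  have hGd : DifferentiableOn ℂ G (Metric.ball 0 R) := by
    refine (differentiableOn_const _).sub (hF.comp ?_ hmaps)
    exact (differentiable_id.add_const a).differentiableOn
  have hre : ∀ y ∈ Metric.ball a R, Real.log ‖h y‖ = (F y).re := by
    intro y hy
    rw [hexp y hy, norm_exp, Real.log_exp]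
  have hGre : MapsTo G (Metric.ball 0 R) {z | z.re ≤ Real.log 64} := by
    intro z hz
    have hy := hmaps hz
    simp only at hy
    show (F a - F (z + a)).re ≤ Real.log 64
    rw [sub_re, ← hre a ha, ← hre _ hy, hha]
    have h1 : 0 < ‖h (z + a)‖ := norm_pos_iff.2 (hh0 _ hy)
    have h2 := Real.log_le_log hD0 (hlow _ hy)
    rw [Real.log_mul (by norm_num) h1.ne'] at h2
    linarith
  have hG0 : G 0 = 0 := by
    rw [hG]
    simp
  have hz : x - a ∈ Metric.ball (0 : ℂ) R := by
    rw [Metric.mem_ball, dist_zero_right]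
    linarith
  have hlog : 0 < Real.log 64 := Real.log_pos (by norm_num)
  have hBC := borelCaratheodory_zero hlog hGd hGre hR hz hG0
  have hGx : G (x - a) = F a - F x := by
    rw [hG]
    simp
  rw [hGx] at hBC
  have h1 : 2 * Real.log 64 * ‖x - a‖ / (R - ‖x - a‖) ≤ 6 * Real.log 64 := by
    rw [div_le_iff₀ (by linarith)]
    nlinarith [norm_nonneg (x - a)]
  have h2 : (F x).re - (F a).re ≤ 6 * Real.log 64 := by
    have h3 : (F x - F a).re ≤ ‖F x - F a‖ := re_le_norm _
    rw [norm_sub_rev, sub_re] at h3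
    linarith
  have h3 : ‖h x‖ ≤ 64 ^ 6 * ‖deriv g a‖ := by
    have h4 : Real.log ‖h x‖ ≤ Real.log (64 ^ 6 * ‖deriv g a‖) := by
      rw [Real.log_mul (by positivity) hD0.ne', Real.log_pow, hre x hxR, ← hha, hre a ha]
      push_cast
      linarith
    exact (Real.log_le_log_iff (norm_pos_iff.2 (hh0 x hxR)) (by positivity)).1 h4
  rcases eq_or_ne x a with e | e
  · rw [e, sub_self, norm_zero, sub_self, norm_zero, mul_zero]
  · rw [← hhx x e]
    gcongr

/-- The upper bound for the derivative. -/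
theorem upperD {a : ℂ} {R : ℝ} {g : ℂ → ℂ} (hR : 0 < R)
    (hd : DifferentiableOn ℂ g (Metric.ball a R)) (hi : InjOn g (Metric.ball a R)) {x : ℂ}
    (hx : ‖x - a‖ < R / 2) :
    ‖deriv g x‖ ≤ 3 * 64 ^ 6 * ‖deriv g a‖ := by
  have hsub : Metric.closedBall x (R / 4) ⊆ Metric.ball a R := by
    intro y hy
    rw [Metric.mem_closedBall, dist_eq_norm] at hy
    rw [Metric.mem_ball, dist_eq_norm]
    have h1 : ‖y - a‖ ≤ ‖y - x‖ + ‖x - a‖ := by
      have := norm_add_le (y - x) (x - a)
      simpa using this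
    linarith
  have hdc : DiffContOnCl ℂ (fun y => g y - g a) (Metric.ball x (R / 4)) := by
    refine DifferentiableOn.diffContOnCl ?_
    rw [closure_ball x (by positivity)]
    exact (hd.mono hsub).sub_const _
  have h1 := norm_deriv_le_of_forall_mem_sphere_norm_le (c := x) (R := R / 4)
    (C := 64 ^ 6 * ‖deriv g a‖ * (3 * R / 4)) (f := fun y => g y - g a) (by positivity) hdc
    (fun y hy => by
      have h2 : ‖y - x‖ = R / 4 := by
        rw [← dist_eq_norm]
        exact Metric.mem_sphere.1 hy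
      have h3 : ‖y - a‖ ≤ ‖y - x‖ + ‖x - a‖ := by
        have := norm_add_le (y - x) (x - a)
        simpa using this
      have h4 : ‖y - a‖ ≤ 3 * R / 4 := by linarith
      refine (upper hR hd hi h4).trans ?_
      gcongr)
  rw [deriv_sub_const] at h1
  refine h1.trans (le_of_eq ?_)
  field_simp

end KDI_

open KDI_ in
/-- KDI. -/
theorem p_KDI : T_KDI := by
  refine ⟨(3 * 64 ^ 6) ^ 2, by norm_num, fun a R g hR hd hi => ⟨fun x hx => ⟨?_, ?_, ?_⟩, ?_⟩⟩
  · have hx' : ‖x - a‖ < R / 2 := by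
      rw [← dist_eq_norm]
      exact Metric.mem_ball.1 hx
    refine (upper hR hd hi (x := x) (by linarith)).trans ?_
    gcongr
    norm_num
  · have hx' : ‖x - a‖ < R / 2 := by
      rw [← dist_eq_norm]
      exact Metric.mem_ball.1 hx
    refine (upperD hR hd hi hx').trans ?_
    gcongr
    norm_num
  · have hx' : ‖x - a‖ < R / 2 := by
      rw [← dist_eq_norm]
      exact Metric.mem_ball.1 hx
    set m : ℂ := (x + a) / 2 with hm
    have hmx : ‖m - x‖ = ‖x - a‖ / 2 := by
      rw [show m - x = -((x - a) / 2) by rw [hm]; ring, norm_neg, norm_div]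
      norm_num
    have hma : ‖m - a‖ = ‖x - a‖ / 2 := by
      rw [show m - a = (x - a) / 2 by rw [hm]; ring, norm_div]
      norm_num
    have hn := norm_nonneg (x - a)
    have s1 : Metric.ball x (R - ‖x - a‖) ⊆ Metric.ball a R := by
      refine Metric.ball_subset_ball' ?_
      rw [dist_eq_norm]
      linarith
    have s2 : Metric.ball m (R - ‖m - a‖) ⊆ Metric.ball a R := by
      refine Metric.ball_subset_ball' ?_
      rw [dist_eq_norm]
      linarith
    have h1 := upperD (a := x) (R := R - ‖x - a‖) (x := m) (by linarith) (hd.mono s1)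
      (hi.mono s1) (by rw [hmx]; linarith)
    have h2 := upperD (a := m) (R := R - ‖m - a‖) (x := a) (by rw [hma]; linarith) (hd.mono s2)
      (hi.mono s2) (by rw [norm_sub_rev, hma]; linarith)
    calc ‖deriv g a‖ ≤ 3 * 64 ^ 6 * ‖deriv g m‖ := h2
      _ ≤ 3 * 64 ^ 6 * (3 * 64 ^ 6 * ‖deriv g x‖) := by gcongr
      _ = _ := by ring
  · intro y hy
    by_contra hn
    have h1 := Pool.Agent.PLim.p_KOEB a R (fun z => g z - y) hR (hd.sub_const _)
      (fun z hz w hw hzw => hi hz hw (by simpa using hzw))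
      (fun z hz h0 => hn ⟨z, hz, sub_eq_zero.1 h0⟩)
    rw [deriv_sub_const] at h1
    rw [Metric.mem_ball, dist_eq_norm, norm_sub_rev, lt_div_iff₀ (by norm_num)] at hy
    have h2 := norm_nonneg (g a - y)
    nlinarith

end Pool.Agent.MEY
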