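import Pool.Agent.MEY.Targets2

/-!
# MEY, LIC: left invariant open sets are contractible
-/

set_option autoImplicit false

open Complex Filter Topology Set
open Pool.Agent.MEX (LI LL)

namespace Pool.Agent.MEY

theorem p_LIC : T_LIC := by
  intro W hW
  obtain ⟨R, hR⟩ := hW.inf
  -- the shift
  let sh : ℂ → ℝ := fun z => max 0 (z.re - R + 1)
  have hsh : ∀ z, 0 ≤ sh z := fun z => le_max_left _ _
  have hshc : Continuous sh := by
    simp only [sh]
    fun_prop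
  have hre : ∀ z : ℂ, (z - (sh z : ℂ)).re ≤ R - 1 := by
    intro z
    have : z.re - R + 1 ≤ sh z := le_max_right _ _
    simp only [sub_re, ofReal_re]
    linarith
  have hgm : ∀ z : ℂ, z - (sh z : ℂ) ∈ W := by
    intro z
    apply hR
    linarith [hre z]
  let g : C(W, W) := ⟨fun z => ⟨(z : ℂ) - (sh z : ℂ), hgm z⟩, by
    apply Continuous.subtype_mk
    fun_prop⟩
  let p0 : W := ⟨((R - 1 : ℝ) : ℂ), hR _ (by simp)⟩
  rw [contractible_iff_id_nullhomotopic]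
  refine ⟨p0, ContinuousMap.Homotopic.trans (g := g) ?_ ?_⟩
  · refine ⟨⟨⟨fun x => ⟨(x.2 : ℂ) - ((x.1 : ℝ) * sh x.2 : ℝ), ?_⟩, ?_⟩, ?_, ?_⟩⟩
    · exact hW.left _ x.2.2 _ (mul_nonneg x.1.2.1 (hsh _))
    · apply Continuous.subtype_mk
      fun_prop
    · intro x
      apply Subtype.ext
      simp
    · intro x
      apply Subtype.ext
      simp [g]
  · refine ⟨⟨⟨fun x => ⟨((1 - (x.1 : ℝ) : ℝ) : ℂ) * ((x.2 : ℂ) - (sh x.2 : ℂ)) +
      ((x.1 : ℝ) : ℂ) * ((R - 1 : ℝ) : ℂ), ?_⟩, ?_⟩, ?_, ?_⟩⟩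
    · apply hR
      have h1 := hre (x.2 : ℂ)
      have h2 : (0 : ℝ) ≤ x.1 := x.1.2.1
      have h3 : (x.1 : ℝ) ≤ 1 := x.1.2.2
      have h4 : ((((1 - (x.1 : ℝ) : ℝ) : ℂ) * ((x.2 : ℂ) - (sh x.2 : ℂ)) +
        ((x.1 : ℝ) : ℂ) * ((R - 1 : ℝ) : ℂ))).re =
          (1 - (x.1 : ℝ)) * ((x.2 : ℂ) - (sh x.2 : ℂ)).re + (x.1 : ℝ) * (R - 1) := by
        rw [add_re, re_ofReal_mul, re_ofReal_mul, ofReal_re]
      rw [h4]
      have h5 := mul_le_mul_of_nonneg_left h1 (sub_nonneg.2 h3)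
      nlinarith
    · apply Continuous.subtype_mk
      fun_prop
    · intro x
      apply Subtype.ext
      simp [g]
    · intro x
      apply Subtype.ext
      simp [p0]

end Pool.Agent.MEY
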