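import Pool.Agent.MEY.Targets2
import Pool.Agent.MEX.SECX
import Pool.Agent.PLim.NOA

/-!
# MEY, LIMBY: the limbs are in the image of the extended disc, relative bounds
-/

set_option autoImplicit false

open Complex Filter Topology Set MeasureTheory
open Pool.Agent.Multibrot (MM rt push)
open Pool.Agent.Limb (F)
open Pool.Agent.PLim (Cyc Res fp fpp Rho LocFix IsLimb OMXn)
open Pool.Agent.MEX (LI lf PP Exa NCXk LL SECXk Far)

namespace Pool.Agent.MEY

namespace LIMBY_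

lemma far_of {N : ℕ} {δ τ : ℝ} (hN : 6 ≤ N) (h : FarN N δ τ) : Far δ τ :=
  fun q h1 h2 m => h q h1 (h2.trans hN) m

lemma far_near {δ τ η x : ℝ} (h : FarN 12 δ τ) (hη : η ≤ δ / 80) (hx : |x - τ| < η) :
    FarN 12 (δ / 2) x := by
  intro q hq1 hq6 m
  have hpi := Real.pi_gt_three
  have h1 := h q hq1 hq6 m
  have hq6' : (q : ℝ) ≤ 12 := by exact_mod_cast hq6
  have hq1' : (1 : ℝ) ≤ q := by exact_mod_cast hq1
  have h2 : (q : ℝ) * τ / (2 * Real.pi) - m =
      (q * x / (2 * Real.pi) - m) - q * (x - τ) / (2 * Real.pi) := by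
    field_simp
    ring
  have h3 : |(q : ℝ) * (x - τ) / (2 * Real.pi)| ≤ 2 * η := by
    rw [abs_div, abs_mul, abs_of_pos (by positivity : (0 : ℝ) < 2 * Real.pi),
      abs_of_nonneg (by positivity : (0 : ℝ) ≤ q), div_le_iff₀ (by positivity)]
    have : 0 ≤ η := (abs_nonneg _).trans hx.le
    calc (q : ℝ) * |x - τ| ≤ 12 * η := mul_le_mul hq6' hx.le (abs_nonneg _) (by norm_num)
      _ ≤ 2 * η * (2 * Real.pi) := by nlinarith
  rw [h2] at h1
  have h4 := abs_sub ((q : ℝ) * x / (2 * Real.pi) - m) (q * (x - τ) / (2 * Real.pi))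
  have h5 : 0 ≤ η := (abs_nonneg _).trans hx.le
  linarith

/-- the small disc is in the extended half plane -/
lemma ball_Omg {κ δ τ : ℝ} (hκ : 0 < κ) (hκ1 : κ ≤ 1) (hδ : 0 < δ) (hF : FarN 12 δ τ) {μ : ℂ}
    (hμ : μ ∈ Metric.ball ((τ : ℂ) * I) (κ * LL δ / 80)) : μ ∈ Omg 12 κ := by
  have hh := MEX.SECX_.far_half (far_of (by norm_num) hF)
  have hL := MEX.SECX_.LL_pos hδ hh
  have hL2 := MEX.SECX_.LL_le hδ hh
  have hL3 := MEX.SECX_.LL_half hδ hh
  rw [Metric.mem_ball, dist_eq_norm] at hμ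
  have him : |μ.im - τ| < κ * LL δ / 80 := by
    have h1 := Complex.abs_im_le_norm (μ - (τ : ℂ) * I)
    have h2 : (μ - (τ : ℂ) * I).im = μ.im - τ := by simp
    rw [h2] at h1
    linarith
  have hre : μ.re < κ * LL δ / 80 := by
    have h1 := Complex.abs_re_le_norm (μ - (τ : ℂ) * I)
    have h2 : (μ - (τ : ℂ) * I).re = μ.re := by simp
    rw [h2] at h1
    have := le_abs_self μ.re
    linarith
  have hη : κ * LL δ / 80 ≤ δ / 80 := by
    have h1 : κ * LL δ ≤ 1 * LL δ := by gcongr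
    have h2 : δ ^ 2 ≤ δ := by nlinarith
    linarith
  refine Or.inr ⟨δ / 2, by positivity, by linarith, far_near hF hη him, ?_⟩
  have h1 : κ * LL δ ≤ κ * (16 * LL (δ / 2)) := by gcongr
  have h2 : 0 < LL (δ / 2) := MEX.SECX_.LL_pos (by positivity) (by linarith)
  have h3 : 0 < κ * LL (δ / 2) := by positivity
  linarith

/-- a bounded set which contains a disc has a large diameter -/
lemma diam_ge {S : Set ℂ} (hS : Bornology.IsBounded S) {x : ℂ} {ρ : ℝ} (hρ : 0 < ρ)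
    (h : Metric.ball x ρ ⊆ S) : ρ ≤ 2 * Metric.diam S := by
  have h1 : x ∈ S := h (Metric.mem_ball_self hρ)
  have h2 : x + (ρ / 2 : ℝ) ∈ S := by
    apply h
    rw [Metric.mem_ball, dist_eq_norm, add_sub_cancel_left, Complex.norm_real,
      Real.norm_of_nonneg (by positivity)]
    linarith
  have h3 := Metric.dist_le_diam_of_mem hS h2 h1
  rw [dist_eq_norm, add_sub_cancel_left, Complex.norm_real,
    Real.norm_of_nonneg (by positivity)] at h3
  linarith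

/-- injectivity of sections -/
lemma inj_sec {κ : ℝ} (hNCU : NCUk 1 κ) {n k : ℕ} (hn : 2 ≤ n) (hk : 1 ≤ k) {ψ χ : ℂ → ℂ}
    {a : ℂ} {η : ℝ} (hη : η ≤ 1 / 4) (hB : Metric.ball a η ⊆ Omg 12 κ)
    (hpt : ∀ μ ∈ Metric.ball a η, Pt n k (ψ μ) (χ μ) (exp μ)) : InjOn ψ (Metric.ball a η) := by
  intro x hx y hy hxy
  have p1 := hpt x hx
  have p2 := hpt y hy
  rw [← hxy] at p2
  obtain ⟨j, hj⟩ := hNCU n k k (ψ x) (χ x) (χ y) x y hn hk hk (by omega) (by omega) p1 p2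
    (hB hx) (hB hy)
  have h1 := (Pool.Agent.PLim.NOA_.rho_shift_iter hk p1.fix j).2
  rw [hj, p2.mul, p1.mul] at h1
  obtain ⟨m, hm⟩ := Complex.exp_eq_exp_iff_exists_int.1 h1
  have hd : ‖y - x‖ < 1 := by
    rw [Metric.mem_ball] at hx hy
    have := dist_triangle_right y x a
    rw [dist_eq_norm] at this
    linarith
  rw [hm, add_sub_cancel_left] at hd
  have hm0 : m = 0 := by
    by_contra hne
    have h2 : (1 : ℝ) ≤ |(m : ℝ)| := by
      exact_mod_cast Int.one_le_abs hne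
    rw [norm_mul, norm_mul, norm_mul, Complex.norm_I, Complex.norm_intCast, Complex.norm_real,
      Complex.norm_ofNat, Real.norm_of_nonneg Real.pi_pos.le] at hd
    have hpi := Real.pi_gt_three
    nlinarith
  rw [hm, hm0]
  simp

end LIMBY_

open LIMBY_ in
theorem p_LIMBY (hLZ : T_LIMBZ) (hKDI : T_KDI) (hDDO : T_DDO) : T_LIMBY := by
  obtain ⟨CK, hCK1, hCK⟩ := hKDI
  intro κ hκ hκ1 hGOD hNCU
  have hCK0 : 0 < CK := by linarith
  refine ⟨640 * CK ^ 3 / κ, by positivity, ?_⟩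
  intro n C1 hn hC1 hOMX k p q c0 w0 Ψ X A δ hk hG hw0 hL hδ hF hq c hc
  set C := 640 * CK ^ 3 / κ with hCdef
  have hC640 : 640 ≤ C := by
    rw [hCdef, le_div_iff₀ hκ]
    have : 1 ≤ CK ^ 3 := one_le_pow₀ hCK1
    nlinarith
  have hCκ : 640 / κ ≤ C := by
    rw [hCdef]
    have : 1 ≤ CK ^ 3 := one_le_pow₀ hCK1
    gcongr
    linarith
  -- the numbers
  have hq0 : 0 < q := by have := hL.hpq; omega
  have hq0' : (0 : ℝ) < q := by exact_mod_cast hq0
  have hk' : (1 : ℝ) ≤ k := by exact_mod_cast hk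
  have hn1 : 0 < n - 1 := by omega
  have hn1' : (1 : ℝ) ≤ ((n - 1 : ℕ) : ℝ) := by exact_mod_cast hn1
  have hn0 : ((n - 1 : ℕ) : ℂ) ≠ 0 := by
    have : (n - 1 : ℕ) ≠ 0 := by omega
    exact_mod_cast this
  set τ : ℝ := 2 * Real.pi * p / q with hτ
  have hh := MEX.SECX_.far_half (far_of (by norm_num) hF)
  have hLp := MEX.SECX_.LL_pos hδ hh
  have hL2 := MEX.SECX_.LL_le hδ hh
  set η : ℝ := κ * LL δ / 80 with hη
  have hη0 : 0 < η := by positivity
  have hη1 : η ≤ 1 / 4 := by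
    have h1 : κ * LL δ ≤ 1 * LL δ := by gcongr
    have h2 : δ ^ 2 ≤ 1 := by nlinarith
    rw [hη]
    linarith
  have hC1k : 0 < C1 * k := by positivity
  have hsmall : 2 * (C1 * k / q) < η := by
    have h1 : 640 / κ * (C1 * k) ≤ C * (C1 * k) := by gcongr
    have h2 : 640 * (C1 * k) < κ * (q * LL δ) := by
      have h3 : 640 / κ * (C1 * k) < q * LL δ := by
        refine lt_of_le_of_lt h1 ?_
        rw [← mul_assoc]
        exact hq
      rw [div_mul_eq_mul_div, div_lt_iff₀ hκ] at h3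
      linarith
    rw [hη, ← mul_div_assoc, div_lt_iff₀ hq0']
    nlinarith
  have hball : ∀ μ ∈ Metric.ball ((τ : ℂ) * I) η, μ ∈ Omg 12 κ := fun μ hμ =>
    ball_Omg hκ hκ1 hδ hF hμ
  obtain ⟨-, -, hDb, hDe, hDx, hDr⟩ := hDDO n 12 κ hn hκ
  -- the section
  have hexpτ : exp ((τ : ℂ) * I) = exp (2 * Real.pi * I * p / q) := by
    congr 1
    rw [hτ]
    push_cast
    ring
  set E : ℂ → ℂ := fun μ => exp (μ / ((n - 1 : ℕ) : ℂ)) with hE
  have hEp : ∀ μ, E μ ^ (n - 1) = exp μ := by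
    intro μ
    simp only [hE]
    rw [← Complex.exp_nat_mul, mul_div_cancel₀ _ hn0]
  have hE0 : ∀ μ, E μ ≠ 0 := fun μ => Complex.exp_ne_zero _
  set ζ : ℂ := w0 / E ((τ : ℂ) * I) with hζ
  have hζw : ζ * E ((τ : ℂ) * I) = w0 := div_mul_cancel₀ _ (hE0 _)
  have hζ1 : ζ ^ (n - 1) = 1 := by
    rw [hζ, div_pow, hEp, hexpτ, hw0, div_self (Complex.exp_ne_zero _)]
  have hζn : ‖ζ‖ = 1 := by
    have h1 : ‖ζ‖ ^ (n - 1) = 1 := by rw [← norm_pow, hζ1, norm_one]
    exact (pow_eq_one_iff_of_nonneg (norm_nonneg _) (by omega)).1 h1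
  have hζ0 : ζ ≠ 0 := by
    intro h
    rw [h, norm_zero] at hζn
    exact zero_ne_one hζn
  have hmem : ∀ μ ∈ Omg 12 κ, ζ * E μ ∈ DD n 12 κ := fun μ hμ =>
    (hDr _ _ hζ1).2 ((hDe μ).2 hμ)
  set ψ : ℂ → ℂ := fun μ => Ψ (ζ * E μ) with hψ
  set χ : ℂ → ℂ := fun μ => X (ζ * E μ) with hχ
  have hpt : ∀ μ ∈ Omg 12 κ, Pt n k (ψ μ) (χ μ) (exp μ) := by
    intro μ hμ
    have h1 := hG.pt _ (hmem μ hμ)
    rw [mul_pow, hζ1, one_mul, hEp] at h1
    exact h1
  have hop : IsOpen (DD n 12 κ) := (hDDO n 12 κ hn hκ).1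
  have hEd : ∀ μ, HasDerivAt (fun μ => ζ * E μ) (ζ * (E μ * (1 / ((n - 1 : ℕ) : ℂ)))) μ := by
    intro μ
    have h1 : HasDerivAt (fun μ : ℂ => μ / ((n - 1 : ℕ) : ℂ)) (1 / ((n - 1 : ℕ) : ℂ)) μ :=
      (hasDerivAt_id μ).div_const _
    exact (h1.cexp).const_mul ζ
  have hψd : ∀ μ ∈ Omg 12 κ, HasDerivAt ψ (deriv Ψ (ζ * E μ) *
      (ζ * (E μ * (1 / ((n - 1 : ℕ) : ℂ))))) μ := by
    intro μ hμ
    have h1 : HasDerivAt Ψ (deriv Ψ (ζ * E μ)) (ζ * E μ) :=
      (hG.dΨ.differentiableAt (hop.mem_nhds (hmem μ hμ))).hasDerivAt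
    exact h1.comp μ (hEd μ)
  have hχc : ∀ μ ∈ Omg 12 κ, ContinuousAt χ μ := by
    intro μ hμ
    have h1 : ContinuousAt X (ζ * E μ) :=
      (hG.dX.differentiableAt (hop.mem_nhds (hmem μ hμ))).continuousAt
    exact ContinuousAt.comp (f := fun μ => ζ * E μ) (g := X) h1 (hEd μ).continuousAt
  have hψ0 : ∀ μ ∈ Omg 12 κ, deriv ψ μ ≠ 0 := by
    intro μ hμ
    rw [(hψd μ hμ).deriv]
    exact mul_ne_zero (hG.d _ (hmem μ hμ)) (mul_ne_zero hζ0 (mul_ne_zero (hE0 _)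
      (one_div_ne_zero hn0)))
  have hψ16 : ∀ μ ∈ Omg 12 κ, ‖ψ μ‖ ≤ 16 := fun μ hμ =>
    (hGOD n k _ _ μ hn hk hμ (hpt μ hμ)).2.1.le
  have hψr : ψ ((τ : ℂ) * I) = Ψ w0 := by
    simp only [hψ]
    rw [hζw]
  have hχr : χ ((τ : ℂ) * I) = X w0 := by
    simp only [hχ]
    rw [hζw]
  obtain ⟨μ, hμ1, hμ2⟩ := hLZ n C1 hn hC1 hOMX k p q (Ψ w0) (X w0) A η ψ χ hL hη0 hη1 hsmall
    (fun ν hν => ((hψd ν (hball ν hν)).differentiableAt).differentiableWithinAt)
    (fun ν hν => (hχc ν (hball ν hν)).continuousWithinAt) hψr hχr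
    (fun ν hν => ⟨hpt ν (hball ν hν), hψ16 ν (hball ν hν), hψ0 ν (hball ν hν)⟩) c hc
  have hμη : ‖μ - (τ : ℂ) * I‖ < η / 2 := by
    have : ‖μ - (τ : ℂ) * I‖ ≤ C1 * k / q := hμ1
    linarith
  have hμB : μ ∈ Metric.ball ((τ : ℂ) * I) η := by
    rw [Metric.mem_ball, dist_eq_norm]
    linarith
  refine ⟨⟨ζ * E μ, hmem μ (hball μ hμB), hμ2, ?_⟩, ?_⟩
  · -- the distance in the disc
    have h1 : ζ * E μ - w0 = ζ * E ((τ : ℂ) * I) *
        (exp ((μ - (τ : ℂ) * I) / ((n - 1 : ℕ) : ℂ)) - 1) := by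
      have h2 : E μ = E ((τ : ℂ) * I) * exp ((μ - (τ : ℂ) * I) / ((n - 1 : ℕ) : ℂ)) := by
        simp only [hE]
        rw [← Complex.exp_add]
        congr 1
        ring
      rw [h2, ← hζw]
      ring
    have h3 : ‖E ((τ : ℂ) * I)‖ = 1 := by
      simp only [hE]
      rw [Complex.norm_exp]
      have : ((τ : ℂ) * I / ((n - 1 : ℕ) : ℂ)).re = 0 := by
        have e1 : (τ : ℂ) * I / ((n - 1 : ℕ) : ℂ) = ((τ / ((n - 1 : ℕ) : ℝ) : ℝ) : ℂ) * I := by
          push_cast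
          ring
        rw [e1]
        simp
      rw [this, Real.exp_zero]
    have h4 : ‖(μ - (τ : ℂ) * I) / ((n - 1 : ℕ) : ℂ)‖ ≤ 1 := by
      rw [norm_div, Complex.norm_natCast]
      rw [div_le_one (by linarith)]
      linarith
    have h5 := Complex.norm_exp_sub_one_le h4
    have h6 : ‖ζ * E μ - w0‖ ≤ 2 * (‖μ - (τ : ℂ) * I‖ / ((n - 1 : ℕ) : ℝ)) := by
      rw [h1, norm_mul, norm_mul, hζn, h3, one_mul, one_mul]
      rw [norm_div, Complex.norm_natCast] at h5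
      exact h5
    have h7 : ‖μ - (τ : ℂ) * I‖ * q ≤ C1 * k := by
      have : ‖μ - (τ : ℂ) * I‖ ≤ C1 * k / q := hμ1
      rwa [le_div_iff₀ hq0'] at this
    calc ‖ζ * E μ - w0‖ * (((n - 1 : ℕ) : ℝ) * q) ≤
          2 * (‖μ - (τ : ℂ) * I‖ / ((n - 1 : ℕ) : ℝ)) * (((n - 1 : ℕ) : ℝ) * q) := by gcongr
      _ = 2 * (‖μ - (τ : ℂ) * I‖ * q) := by field_simp
      _ ≤ C * C1 * k := by
          have : 2 * (C1 * k) ≤ C * (C1 * k) := by gcongr; linarith
          nlinarith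
  · -- the relative bound
    have hdiff : DifferentiableOn ℂ ψ (Metric.ball ((τ : ℂ) * I) η) := fun ν hν =>
      ((hψd ν (hball ν hν)).differentiableAt).differentiableWithinAt
    have hinj : InjOn ψ (Metric.ball ((τ : ℂ) * I) η) :=
      inj_sec hNCU hn hk hη1 hball fun ν hν => hpt ν (hball ν hν)
    obtain ⟨hK1, -⟩ := hCK ((τ : ℂ) * I) η ψ hη0 hdiff hinj
    obtain ⟨hK2, -, -⟩ := hK1 μ (by rw [Metric.mem_ball, dist_eq_norm]; exact hμη)
    set a : ℂ := (τ : ℂ) * I - ((η / 4 : ℝ) : ℂ) with ha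
    have ha1 : ‖a - (τ : ℂ) * I‖ = η / 4 := by
      rw [ha, sub_sub_cancel_left, norm_neg, Complex.norm_real, Real.norm_of_nonneg (by positivity)]
    obtain ⟨-, -, hK3⟩ := hK1 a (by
      rw [Metric.mem_ball, dist_eq_norm, ha1]
      linarith)
    have hsub : Metric.ball a (η / 4) ⊆ Metric.ball ((τ : ℂ) * I) η := by
      intro x hx
      rw [Metric.mem_ball] at hx ⊢
      have := dist_triangle x a ((τ : ℂ) * I)
      rw [dist_eq_norm a, ha1] at this
      linarith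
    obtain ⟨-, hK4⟩ := hCK a (η / 4) ψ (by positivity) (hdiff.mono hsub) (hinj.mono hsub)
    have hin : ψ '' Metric.ball a (η / 4) ⊆ Ψ '' Metric.ball 0 1 := by
      rintro _ ⟨x, hx, rfl⟩
      refine ⟨ζ * E x, ?_, rfl⟩
      rw [mem_ball_zero_iff, norm_mul, hζn, one_mul]
      simp only [hE]
      rw [Complex.norm_exp, Real.exp_lt_one_iff]
      have e1 : (x / ((n - 1 : ℕ) : ℂ)).re = x.re / ((n - 1 : ℕ) : ℝ) := by
        rw [← Complex.ofReal_natCast, Complex.div_ofReal_re]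
      rw [e1]
      have e2 : x.re < 0 := by
        rw [Metric.mem_ball, dist_eq_norm] at hx
        have h1 := Complex.abs_re_le_norm (x - a)
        have h2 : (x - a).re = x.re + η / 4 := by
          rw [ha]
          simp
        rw [h2] at h1
        have := le_abs_self (x.re + η / 4)
        linarith
      exact div_neg_of_neg_of_pos e2 (by linarith)
    have hbd : Bornology.IsBounded (Ψ '' Metric.ball 0 1) := by
      have h1 : Ψ '' Metric.ball 0 1 ⊆ insert (Ψ 0) (Metric.closedBall 0 16) := by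
        rintro _ ⟨w, hw, rfl⟩
        by_cases hw0 : w = 0
        · rw [hw0]
          exact Or.inl rfl
        · obtain ⟨ν, hν, rfl⟩ := hDx w (hDb hw) hw0
          refine Or.inr ?_
          rw [mem_closedBall_zero_iff]
          have h2 := hG.pt _ (hDb hw)
          have h3 : exp (ν / ((n - 1 : ℕ) : ℂ)) ^ (n - 1) = exp ν := hEp ν
          rw [h3] at h2
          exact (hGOD n k _ _ ν hn hk hν h2).2.1.le
      exact (Metric.isBounded_closedBall.insert _).subset h1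
    have hd0 : 0 < ‖deriv ψ a‖ := norm_pos_iff.2 (hψ0 a (hball a (hsub (Metric.mem_ball_self
      (by positivity)))))
    have hρ : 0 < ‖deriv ψ a‖ * (η / 4) / CK := by positivity
    have hdiam := diam_ge hbd hρ (hK4.trans hin)
    set D := Metric.diam (Ψ '' Metric.ball 0 1) with hD
    have hD0 : 0 ≤ D := Metric.diam_nonneg
    -- the chain of inequalities
    have i1 : ‖c - Ψ w0‖ ≤ CK * (CK * ‖deriv ψ a‖) * (C1 * k / q) := by
      rw [← hμ2, ← hψr]
      refine hK2.trans ?_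
      have : ‖μ - (τ : ℂ) * I‖ ≤ C1 * k / q := hμ1
      gcongr
    have i2 : ‖deriv ψ a‖ * η ≤ 8 * CK * D := by
      rw [div_le_iff₀ hCK0] at hdiam
      linarith
    have i3 : ‖deriv ψ a‖ * (κ * LL δ) ≤ 640 * CK * D := by
      have : κ * LL δ = 80 * η := by rw [hη]; ring
      rw [this]
      linarith
    have i4 : ‖deriv ψ a‖ * LL δ ≤ 640 * CK * D / κ := by
      rw [le_div_iff₀ hκ]
      linarith
    calc ‖c - Ψ w0‖ * (q * LL δ) ≤ CK * (CK * ‖deriv ψ a‖) * (C1 * k / q) * (q * LL δ) := by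
          gcongr
      _ = CK ^ 2 * (C1 * k) * (‖deriv ψ a‖ * LL δ) := by
          field_simp
      _ ≤ CK ^ 2 * (C1 * k) * (640 * CK * D / κ) := by gcongr
      _ = C * C1 * k * D := by
          rw [hCdef]
          field_simp

end Pool.Agent.MEY
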