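import Pool.Agent.MEY.Targets2
import Pool.Agent.PLim.LIMB
import Pool.Agent.PLim.All

/-!
# MEY: the limb in the image of a given section (adapted from MEX/LIMBX.lean)
-/

set_option autoImplicit false

open Complex Filter Topology Set MeasureTheory
open Pool.Agent.Multibrot Pool.Agent.Limb Pool.Agent.PLim Pool.Agent.PLim.LIMB_
open Pool.Agent.MEX (Exa)

namespace Pool.Agent.MEY

namespace LIMBZ_

/-- the theorem, with the targets of PLIM as hypotheses -/
lemma main (hTOP : T_TOP) (hOMC : T_OMC) (hFIXE : T_FIXE)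
    (hBOT : T_BOT) (hLOG : T_LOG) (hGREEN : T_GREEN) : T_LIMBZ := by
  classical
  intro n C1 hn hC1 hO
  obtain ⟨Λ, hΛ⟩ := hBOT n hn
  intro k p q r z0 A η ψ χ hL hηpos hη4 hcase₀ hψd' hχc' hψr' hχr' hsec'
  have hk := hL.hk
  have hp := hL.hp
  have hpq := hL.hpq
  have hcop := hL.cop
  have hz0 := hL.fix
  have hrho := hL.rho
  have hAM := hL.sub
  have hAU := hL.op
  have hAcl := hL.cl
  have hrA := hL.nr
  have h0A := hL.n0
  have hq0 : 0 < q := by omega
  have hqR : (0 : ℝ) < q := by exact_mod_cast hq0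
  have hkR : (1 : ℝ) ≤ k := by exact_mod_cast hk
  have hpi := Real.pi_pos
  set τ : ℝ := 2 * Real.pi * p / q with hτ
  have hτI : (2 * Real.pi * I * p / q : ℂ) = (τ : ℂ) * I := by
    rw [hτ]; push_cast; ring
  rw [hτI] at hrho
  have hτ0 : 0 < τ := by
    have : (0 : ℝ) < p := by exact_mod_cast hp
    positivity
  have hτ2 : τ < 2 * Real.pi := by
    rw [hτ, div_lt_iff₀ hqR]
    have : (p : ℝ) < q := by exact_mod_cast hpq
    nlinarith
  have hrM : r ∈ MM n := by
    refine inMM hGREEN hFIXE hLOG hn hk hΛ hz0 ?_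
    rw [hrho, norm_exp_ofReal_mul_I]
  have hBe : (((2 * Real.pi * p / q : ℝ) : ℂ) * I) = (τ : ℂ) * I := rfl
  rw [hBe] at hψr' hχr'
  have hψd : DifferentiableOn ℂ ψ (Metric.ball ((τ : ℂ) * I) η) := hψd'
  have hχc : ContinuousOn χ (Metric.ball ((τ : ℂ) * I) η) := hχc'
  have hψr : ψ ((τ : ℂ) * I) = r := hψr'
  have hsec : ∀ μ ∈ Metric.ball ((τ : ℂ) * I) η, (F n (ψ μ))^[k] (χ μ) = χ μ ∧
      Rho n k (ψ μ) (χ μ) = exp μ ∧ ‖ψ μ‖ ≤ 16 ∧ deriv ψ μ ≠ 0 ∧ Exa n k (ψ μ) (χ μ) := by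
    intro μ hμ
    obtain ⟨h1, h2, h3⟩ := hsec' μ hμ
    exact ⟨h1.fix, h1.mul, h2, h3, h1.exa⟩
  set K : ℝ := C1 * k with hK
  have hKpos : 0 < K := by positivity
  have hcase : 2 * K < η * q := by
    have h1 : 2 * (K / q) * q < η * q := mul_lt_mul_of_pos_right hcase₀ hqR
    have h2 : 2 * (K / q) * q = 2 * K := by field_simp
    linarith
  have hKη : K / q < η / 2 := by
    rw [div_lt_iff₀ hqR]
    linarith
  set om : ℂ → ℂ := fun μ => if h : ∃ w, OmR n k Λ (ψ μ) (χ μ) w then h.choose else 0 with hom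
  -- the root of unity of the points over the right half plane
  have hrep : ∀ μ ∈ Metric.ball ((τ : ℂ) * I) η, 0 < μ.re → 1 < ‖Rho n k (ψ μ) (χ μ)‖ := by
    intro μ hμ hre
    rw [(hsec μ hμ).2.1, norm_exp]
    exact Real.one_lt_exp_iff.2 hre
  have homX : ∀ μ ∈ Metric.ball ((τ : ℂ) * I) η, 0 < μ.re → ψ μ ∈ MM n →
      OmR n k Λ (ψ μ) (χ μ) (om μ) ∧ (∀ w', OmR n k Λ (ψ μ) (χ μ) w' → w' = om μ) ∧
      ∃ (q' : ℕ) (ν : ℂ), 1 ≤ q' ∧ om μ ^ q' = 1 ∧ exp ν = exp μ * om μ ∧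
        ‖ν‖ ^ 2 ≤ C1 * k / q' * ν.re := by
    intro μ hμ hre hψM
    obtain ⟨w, hw, huniq, -, q', ν, hq', hwq, hν, hνn⟩ :=
      hO k Λ (ψ μ) (χ μ) hk hΛ hψM (hsec μ hμ).1 (hrep μ hμ hre)
    have hex : ∃ w, OmR n k Λ (ψ μ) (χ μ) w := ⟨w, hw⟩
    have e : om μ = w := by
      have h1 : om μ = hex.choose := by
        simp only [hom]
        rw [dif_pos hex]
      rw [h1]
      exact huniq _ hex.choose_spec
    rw [e]
    refine ⟨hw, huniq, q', ν, hq', hwq, ?_, hνn⟩
    rw [hν, (hsec μ hμ).2.1]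
  have hprim : IsPrimitiveRoot (exp (-((τ : ℂ) * I))) q := by
    have h1 := Complex.isPrimitiveRoot_exp_of_coprime p q (by omega) hcop
    have h2 := h1.inv
    rw [← Complex.exp_neg] at h2
    have e : -(2 * Real.pi * I * ((p : ℂ) / q)) = -((τ : ℂ) * I) := by
      rw [← hτI]; ring
    rwa [e] at h2
  have hne0 : ∀ μ ∈ Metric.ball ((τ : ℂ) * I) η, ψ μ ≠ 0 := by
    intro μ hμ h0
    have h1 := hsec μ hμ
    rw [h0] at h1
    have h2 : ‖Rho n k 0 (χ μ)‖ < 2 := by
      rw [h1.2.1, norm_exp]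
      have h3 : μ.re ≤ 1 / 4 := by
        have h4 : |(μ - (τ : ℂ) * I).re| ≤ ‖μ - (τ : ℂ) * I‖ := abs_re_le_norm _
        rw [Metric.mem_ball, dist_eq_norm] at hμ
        have h5 : (μ - (τ : ℂ) * I).re = μ.re := by simp
        rw [h5] at h4
        linarith [le_abs_self μ.re]
      calc Real.exp μ.re ≤ Real.exp (1 / 4) := Real.exp_le_exp.2 h3
        _ < 2 := by
          have h6 : Real.exp (1 / 4) ≤ Real.exp (Real.log 2 * (1 / 2)) := by
            apply Real.exp_le_exp.2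
            have := Real.log_two_gt_d9
            linarith
          have h7 : Real.exp (Real.log 2 * (1 / 2)) < Real.exp (Real.log 2) := by
            apply Real.exp_lt_exp.2
            have := Real.log_two_gt_d9
            linarith
          rw [Real.exp_log (by norm_num : (0 : ℝ) < 2)] at h7
          linarith
    rcases rho_zero hn hk h1.1 with h3 | h3
    · have h4 := h1.2.1
      rw [h3] at h4
      exact exp_ne_zero _ h4.symm
    · linarith
  have hrne : r ≠ 0 := by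
    have := hne0 ((τ : ℂ) * I) (Metric.mem_ball_self hηpos)
    rwa [hψr] at this
  have hMcomp : IsCompact (MM n) := by
    refine Metric.isCompact_of_isClosed_isBounded (MM_closed n) ?_
    refine (Metric.isBounded_iff_subset_closedBall (0 : ℂ)).2 ⟨2, fun x hx => ?_⟩
    rw [mem_closedBall_zero_iff]
    exact MM_two hn hx
  have h0M : (0 : ℂ) ∈ MM n := disc_sub hn (by rw [norm_zero]; exact r0_nonneg hn)
  have hmain := hTOP (MM n) A r 0 τ η K q ψ om hMcomp (MM_connected hn) hAM hAU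
    hAcl hrM hrA h0M h0A hrne.symm hτ0 hτ2 hηpos (by linarith) hKpos (by omega)
    hprim.pow_eq_one (fun j hj => hprim.dvd_of_pow_eq_one j hj)
    (by
      have hpi3 := Real.pi_gt_three
      have h1 : K * η < q := by
        have h2 : K * η ≤ K * 1 := mul_le_mul_of_nonneg_left (by linarith) hKpos.le
        have h3 : η * q ≤ 1 / 4 * q := mul_le_mul_of_nonneg_right hη4 hqR.le
        linarith
      have h2 : (1 : ℝ) * q ≤ Real.pi ^ 2 * q :=
        mul_le_mul_of_nonneg_right (by nlinarith) hqR.le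
      linarith)
    (by linarith)
    hψd (fun μ hμ => (hsec μ hμ).2.2.2.1) hψr hne0
    (fun μ hμ hre => inMM hGREEN hFIXE hLOG hn hk hΛ (hsec μ hμ).1 (by
      rw [(hsec μ hμ).2.1, norm_exp]
      exact Real.exp_le_one_iff.2 hre))
    (by
      intro μ₀ hμ₀ hre₀ hM₀
      obtain ⟨hom0, -, -⟩ := homX μ₀ hμ₀ hre₀ hM₀
      obtain ⟨δ, hδ, hloc⟩ := hOMC n k Λ (ψ μ₀) (χ μ₀) (om μ₀) hn hk hΛ hM₀
        (hsec μ₀ hμ₀).1 (hrep μ₀ hμ₀ hre₀) hom0
      have hnb : Metric.ball ((τ : ℂ) * I) η ∈ 𝓝 μ₀ := Metric.isOpen_ball.mem_nhds hμ₀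
      have hψc : ContinuousAt ψ μ₀ := (hψd.differentiableAt hnb).continuousAt
      have hχc' : ContinuousAt χ μ₀ := hχc.continuousAt hnb
      have e1 : ∀ᶠ μ in 𝓝 μ₀, ‖ψ μ - ψ μ₀‖ < δ := by
        have := Metric.tendsto_nhds.1 hψc δ hδ
        simpa only [dist_eq_norm] using this
      have e2 : ∀ᶠ μ in 𝓝 μ₀, ‖χ μ - χ μ₀‖ < δ := by
        have := Metric.tendsto_nhds.1 hχc' δ hδ
        simpa only [dist_eq_norm] using this
      have e3 : ∀ᶠ μ : ℂ in 𝓝 μ₀, 0 < μ.re :=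
        (isOpen_lt continuous_const continuous_re).mem_nhds hre₀
      filter_upwards [e1, e2, e3, hnb] with μ h1 h2 h3 h4 hM
      have h5 := hloc (ψ μ) (χ μ) hM h1 h2 (hsec μ h4).1
      exact ((homX μ h4 h3 hM).2.1 _ h5).symm)
    (by
      intro μ hμ hre hM
      obtain ⟨-, -, q', ν, hq', hwq, hν, hνn⟩ := homX μ hμ hre hM
      have hw1 : ‖om μ‖ = 1 := norm_eq_one_of_pow_eq_one hwq (by omega)
      have hexp : exp (ν - μ) = om μ := by
        rw [Complex.exp_sub, hν, mul_div_cancel_left₀ _ (exp_ne_zero μ)]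
      have hre0 : (ν - μ).re = 0 := by
        have h1 : ‖exp (ν - μ)‖ = 1 := by rw [hexp, hw1]
        rw [norm_exp] at h1
        exact Real.exp_eq_one_iff _ |>.1 h1
      have hνre : ν.re = μ.re := by
        rw [sub_re] at hre0
        linarith
      have hdiff : μ - 2 * Real.pi * (((μ - ν).im / (2 * Real.pi) : ℝ) : ℂ) * I = ν := by
        have e : (2 * Real.pi * (((μ - ν).im / (2 * Real.pi) : ℝ) : ℂ) : ℂ) = ((μ - ν).im : ℂ) := by
          push_cast
          field_simp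
        rw [e]
        apply Complex.ext
        · simp [hνre]
        · simp
      refine ⟨q', (μ - ν).im / (2 * Real.pi), hq', hwq, ?_, ?_⟩
      · rw [← hexp]
        congr 1
        have : (2 * Real.pi * (((μ - ν).im / (2 * Real.pi) : ℝ) : ℂ) * I : ℂ) = μ - ν := by
          linear_combination -hdiff
        rw [this]
        ring
      · rw [hdiff, ← hνre]
        exact hνn)
  intro c hcA
  obtain ⟨μ, hμ, hre, hμc, hμK⟩ := hmain c hcA
  exact ⟨μ, hμK, hμc⟩

end LIMBZ_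

/-- LIMBZ: the limb in the image of a given section. -/
theorem p_LIMBZ : T_LIMBZ := LIMBZ_.main a_TOP a_OMC a_FIXE a_BOT a_LOG a_GREEN

end Pool.Agent.MEY
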