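import Pool.Agent.MEY.Targets2
import Pool.Agent.PLim.CNT

/-!
# ME2, LUQ: uniqueness of the sections of the multiplier
-/

set_option autoImplicit false

open Complex Filter Topology Set MeasureTheory
open Pool.Agent.Multibrot (MM rt push)
open Pool.Agent.Limb (F)
open Pool.Agent.PLim (Cyc Res fp fpp Rho LocFix IsLimb OMXn)
open Pool.Agent.MEX (LI lf PP Exa NCXk LL SECXk)

namespace Pool.Agent.MEY

namespace LUQ_

/-- the local uniqueness of the parameter and of the periodic point with a given multiplier -/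
lemma loc {n k : ℕ} {c z : ℂ} {ε r : ℝ} {zf : ℂ → ℂ} (hL : LocFix n k c z ε r zf)
    (hd : deriv (fun c => Rho n k c (zf c)) c ≠ 0) :
    ∃ V ∈ 𝓝 c, ∀ c1 ∈ V, ∀ c2 ∈ V, ∀ z1 ∈ Metric.ball z r, ∀ z2 ∈ Metric.ball z r,
      (F n c1)^[k] z1 = z1 → (F n c2)^[k] z2 = z2 → Rho n k c1 z1 = Rho n k c2 z2 →
      c1 = c2 ∧ z1 = z2 := by
  set g : ℂ → ℂ := fun c => Rho n k c (zf c) with hg
  have hgd : DifferentiableOn ℂ g (Metric.ball c ε) :=
    Pool.Agent.PLim.CNT_diffR n k zf _ hL.diff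
  have hball : Metric.ball c ε ∈ 𝓝 c := Metric.ball_mem_nhds _ hL.hδ
  have hgs : HasStrictDerivAt g (deriv g c) c := (hgd.analyticAt hball).hasStrictDerivAt
  set e0 := hgs.hasStrictFDerivAt_equiv hd
  set e := e0.toOpenPartialHomeomorph g with he
  have hes : c ∈ e.source := e0.mem_toOpenPartialHomeomorph_source
  refine ⟨e.source ∩ Metric.ball c ε, inter_mem (e.open_source.mem_nhds hes) hball, ?_⟩
  intro c1 hc1 c2 hc2 z1 hz1 z2 hz2 h1 h2 h12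
  have e1 : z1 = zf c1 := hL.uniq c1 hc1.2 z1 hz1 h1
  have e2 : z2 = zf c2 := hL.uniq c2 hc2.2 z2 hz2 h2
  have hgg : e c1 = e c2 := by
    show g c1 = g c2
    rw [hg]
    show Rho n k c1 (zf c1) = Rho n k c2 (zf c2)
    rw [← e1, ← e2, h12]
  have hcc : c1 = c2 := e.injOn hc1.1 hc2.1 hgg
  exact ⟨hcc, by rw [e1, e2, hcc]⟩

end LUQ_

theorem p_LUQ : T_LUQ := by
  intro N κ hG n k W ψ χ ψ' χ' μ0 hn hk hW hWO hψ hχ hψ' hχ' hP hP' hμ0 h0 h0'
  have hpc : PreconnectedSpace W := isPreconnected_iff_preconnectedSpace.mp hW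
  rw [continuousOn_iff_continuous_domRestrict] at hψ hχ hψ' hχ'
  set S : Set W := {x | W.domRestrict ψ x = W.domRestrict ψ' x ∧
    W.domRestrict χ x = W.domRestrict χ' x} with hS
  have hcl : IsClosed S := (isClosed_eq hψ hψ').inter (isClosed_eq hχ hχ')
  have hop : IsOpen S := by
    rw [isOpen_iff_mem_nhds]
    intro x hx
    obtain ⟨hx1, hx2⟩ := hx
    have hx1' : ψ x.1 = ψ' x.1 := hx1
    have hx2' : χ x.1 = χ' x.1 := hx2
    obtain ⟨-, -, hR⟩ := hG n k (ψ x.1) (χ x.1) x.1 hn hk (hWO x.2) (hP x.1 x.2)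
    obtain ⟨ε, r, zf, -, -, hL, hd⟩ := hR 1 one_pos
    obtain ⟨V, hV, hVu⟩ := LUQ_.loc hL hd
    have hb : Metric.ball (χ x.1) r ∈ 𝓝 (χ x.1) := Metric.ball_mem_nhds _ hL.hr
    have a1 : ∀ᶠ y : W in 𝓝 x, ψ y.1 ∈ V := hψ.continuousAt.eventually_mem hV
    have a2 : ∀ᶠ y : W in 𝓝 x, ψ' y.1 ∈ V := by
      rw [hx1'] at hV
      exact hψ'.continuousAt.eventually_mem hV
    have a3 : ∀ᶠ y : W in 𝓝 x, χ y.1 ∈ Metric.ball (χ x.1) r := hχ.continuousAt.eventually_mem hb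
    have a4 : ∀ᶠ y : W in 𝓝 x, χ' y.1 ∈ Metric.ball (χ x.1) r := by
      have hb' : Metric.ball (χ x.1) r ∈ 𝓝 (χ' x.1) := by rw [← hx2']; exact hb
      exact hχ'.continuousAt.eventually_mem hb'
    filter_upwards [a1, a2, a3, a4] with y h1 h2 h3 h4
    have p1 := hP y.1 y.2
    have p2 := hP' y.1 y.2
    exact hVu _ h1 _ h2 _ h3 _ h4 p1.fix p2.fix (p1.mul.trans p2.mul.symm)
  have huniv : S = univ := IsClopen.eq_univ ⟨hcl, hop⟩ ⟨⟨μ0, hμ0⟩, h0, h0'⟩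
  have key : ∀ μ ∈ W, ψ μ = ψ' μ ∧ χ μ = χ' μ := by
    intro μ hμ
    have : (⟨μ, hμ⟩ : W) ∈ S := by rw [huniv]; trivial
    exact this
  exact ⟨fun μ hμ => (key μ hμ).1, fun μ hμ => (key μ hμ).2⟩

end Pool.Agent.MEY
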