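import Pool.Agent.MEY.Targets2
import Pool.Agent.MEX.DEF

/-!
# MEY, MSS: the mass defect of one step, for a general quadratic differential
-/

set_option autoImplicit false

open Complex Filter Topology Set MeasureTheory
open Pool.Agent.Multibrot (MM rt push)
open Pool.Agent.Limb (F)
open Pool.Agent.PLim (Cyc Res fp fpp Rho LocFix IsLimb OMXn TRL_H TRL_annm TRL_small TRL_area
  TRL_push TRL_taylor)
open Pool.Agent.MEX (LI lf PP Exa NCXk LL SECXk)

namespace Pool.Agent.MEY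

namespace MSS_

lemma cont {r : Dat} (hr : Hol r) : ContinuousOn r.ph ((r.E : Set ℂ)ᶜ) := fun x hx =>
  (hr x (by simpa using hx)).continuousAt.continuousWithinAt

lemma meas {r : Dat} (hr : Hol r) : Measurable r.ph := by
  classical
  have h1 : ContinuousOn r.ph ((r.E : Set ℂ)ᶜᶜ) := by
    rw [compl_compl]
    exact r.E.finite_toSet.continuousOn _
  have h2 := ContinuousOn.measurable_piecewise (cont hr) h1
    (r.E.finite_toSet.isClosed.isOpen_compl.measurableSet)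
  rwa [Set.piecewise_same] at h2

/-- the integral outside of small discs is finite -/
lemma fin {r : Dat} (hr : Hol r) (K R τ : ℝ) (hR : 1 ≤ R) (hτ : 0 < τ) (V : Set ℂ)
    (hV : MeasurableSet V) (hVb : ∀ w ∈ V, ∀ e ∈ r.E, τ ≤ ‖w - e‖)
    (hC : ∀ x : ℂ, R ≤ ‖x‖ → ‖r.ph x‖ ≤ K * (‖x‖ ^ 3)⁻¹) :
    ∫⁻ w in V, ‖r.ph w‖ₑ ≠ ⊤ := by
  obtain ⟨M, hM0, hM⟩ : ∃ M : ℝ, 0 ≤ M ∧ ∀ x : ℂ, ‖x‖ ≤ R → (∀ e ∈ r.E, τ ≤ ‖x - e‖) →
      ‖r.ph x‖ ≤ M := by
    have hcl : IsClosed {x : ℂ | ∀ e ∈ r.E, τ ≤ ‖x - e‖} := by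
      have e1 : {x : ℂ | ∀ e ∈ r.E, τ ≤ ‖x - e‖} = ⋂ e ∈ r.E, {x : ℂ | τ ≤ ‖x - e‖} := by
        ext x
        simp
      rw [e1]
      exact isClosed_biInter fun e _ => isClosed_le continuous_const (by fun_prop)
    have hcp : IsCompact (Metric.closedBall (0 : ℂ) R ∩ {x : ℂ | ∀ e ∈ r.E, τ ≤ ‖x - e‖}) :=
      (isCompact_closedBall _ _).inter_right hcl
    have hco : ContinuousOn r.ph
        (Metric.closedBall (0 : ℂ) R ∩ {x : ℂ | ∀ e ∈ r.E, τ ≤ ‖x - e‖}) := by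
      refine (cont hr).mono fun x hx he => ?_
      have h1 := hx.2 x (by simpa using he)
      rw [sub_self, norm_zero] at h1
      linarith
    obtain ⟨M, hM⟩ := hcp.exists_bound_of_continuousOn hco
    refine ⟨max M 0, le_max_right _ _, fun x h1 h2 => (hM x ⟨?_, h2⟩).trans (le_max_left _ _)⟩
    rwa [mem_closedBall_zero_iff]
  have hint : Integrable (fun x : ℂ => (1 + ‖x‖) ^ (-(3 : ℝ))) := by
    apply integrable_one_add_norm
    rw [Complex.finrank_real_complex]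
    norm_num
  have hint2 : Integrable (fun x : ℂ => (8 * |K| + M * (1 + R) ^ (3 : ℝ)) *
      (1 + ‖x‖) ^ (-(3 : ℝ))) := hint.const_mul _
  have hfin := hint2.lintegral_lt_top
  refine (lt_of_le_of_lt ?_ hfin).ne
  refine (lintegral_mono_ae ?_).trans (setLIntegral_le_lintegral V _)
  filter_upwards [ae_restrict_mem hV] with w hw
  rw [← ofReal_norm]
  apply ENNReal.ofReal_le_ofReal
  have hpos : 0 < 1 + ‖w‖ := by positivity
  have e0 : (1 + ‖w‖) ^ (-(3 : ℝ)) = ((1 + ‖w‖) ^ 3)⁻¹ := by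
    rw [Real.rpow_neg hpos.le]
    norm_num
  rw [e0, add_mul]
  by_cases h : R ≤ ‖w‖
  · have h1 := hC w h
    have h2 : K * (‖w‖ ^ 3)⁻¹ ≤ 8 * |K| * ((1 + ‖w‖) ^ 3)⁻¹ := by
      have e1 : (1 + ‖w‖) ^ 3 ≤ 8 * ‖w‖ ^ 3 := by
        have : (1 + ‖w‖) ^ 3 ≤ (2 * ‖w‖) ^ 3 :=
          pow_le_pow_left₀ (by positivity) (by linarith) 3
        refine this.trans (le_of_eq ?_)
        ring
      have hw0 : 0 < ‖w‖ := by linarith
      have e2 : (‖w‖ ^ 3)⁻¹ ≤ 8 * ((1 + ‖w‖) ^ 3)⁻¹ := by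
        have : 8 * ((1 + ‖w‖) ^ 3)⁻¹ = ((1 + ‖w‖) ^ 3 / 8)⁻¹ := by
          field_simp
        rw [this]
        exact inv_anti₀ (by positivity) (by linarith)
      calc K * (‖w‖ ^ 3)⁻¹ ≤ |K| * (‖w‖ ^ 3)⁻¹ :=
            mul_le_mul_of_nonneg_right (le_abs_self K) (by positivity)
        _ ≤ |K| * (8 * ((1 + ‖w‖) ^ 3)⁻¹) := mul_le_mul_of_nonneg_left e2 (abs_nonneg K)
        _ = _ := by ring
    have h3 : 0 ≤ M * (1 + R) ^ (3 : ℝ) * ((1 + ‖w‖) ^ 3)⁻¹ := by positivity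
    linarith
  · push Not at h
    have h1 := hM w h.le (hVb w hw)
    have h2 : 1 ≤ (1 + R) ^ (3 : ℝ) * ((1 + ‖w‖) ^ 3)⁻¹ := by
      have e1 : (1 + R) ^ (3 : ℝ) = (1 + R) ^ 3 := by norm_num
      rw [e1, ← div_eq_mul_inv, one_le_div (by positivity)]
      exact pow_le_pow_left₀ (by positivity) (by linarith) 3
    have h3 : 0 ≤ 8 * |K| * ((1 + ‖w‖) ^ 3)⁻¹ := by positivity
    have h4 := mul_le_mul_of_nonneg_left h2 hM0
    linarith

lemma union (f : ℂ → ENNReal) (S : Finset ℂ) (E : ℂ → Set ℂ) :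
    ∫⁻ w in ⋃ j ∈ S, E j, f w ≤ ∑ j ∈ S, ∫⁻ w in E j, f w := by
  classical
  induction S using Finset.induction_on with
  | empty => simp
  | insert j S hj ih =>
    rw [Finset.set_biUnion_insert, Finset.sum_insert hj]
    exact (lintegral_union_le f _ _).trans (add_le_add_right ih _)

/-- the integral over a thin annulus -/
lemma annb (f : ℂ → ℂ) (e : ℂ) (a t q K M : ℝ) (ha : 0 ≤ a) (ht : 0 < t) (hq : 0 < q)
    (hq1 : q ≤ 1) (hK : 0 ≤ K) (hM : 0 ≤ M)
    (hf : ∀ᶠ x in 𝓝[≠] e, ‖f x‖ ≤ a * (‖x - e‖ ^ 2)⁻¹ + M * ‖x - e‖⁻¹) (η : ℝ) (hη : 0 < η) :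
    ∀ᶠ ε : ℝ in 𝓝[>] 0,
      ∫⁻ w in {w : ℂ | ε * t * q - K * ε ^ 2 < ‖w - e‖ ∧ ‖w - e‖ ≤ ε * t}, ‖f w‖ₑ ≤
        ENNReal.ofReal (2 * Real.pi * (a * -Real.log q) + η) := by
  obtain ⟨ρ, hρ, hball⟩ : ∃ ρ : ℝ, 0 < ρ ∧ ∀ x : ℂ, x ≠ e → ‖x - e‖ < ρ →
      ‖f x‖ ≤ a * (‖x - e‖ ^ 2)⁻¹ + M * ‖x - e‖⁻¹ := by
    rw [eventually_nhdsWithin_iff, Metric.eventually_nhds_iff] at hf
    obtain ⟨ρ, hρ, h⟩ := hf
    exact ⟨ρ, hρ, fun x hx hd => h (by rwa [dist_eq_norm]) hx⟩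
  obtain ⟨M', hM'⟩ : ∃ M' : ℝ, M' = M * (2 / (t * q)) := ⟨_, rfl⟩
  have hM'0 : 0 ≤ M' := by
    rw [hM']
    positivity
  have f1 : ∀ᶠ ε : ℝ in 𝓝[>] 0, 0 < ε := eventually_mem_nhdsWithin
  have f3 : ∀ᶠ ε : ℝ in 𝓝[>] 0, ε * K < t * q / 2 := TRL_small K _ (by positivity)
  have f4 : ∀ᶠ ε : ℝ in 𝓝[>] 0, ε * t < ρ := TRL_small t _ hρ
  have f5 : ∀ᶠ ε : ℝ in 𝓝[>] 0, a * (2 * Real.pi * Real.log (t / (t * q - K * ε))) +
      M' * Real.pi * t ^ 2 * ε < 2 * Real.pi * (a * -Real.log q) + η := by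
    have h1 : Tendsto (fun ε : ℝ => a * (2 * Real.pi * Real.log (t / (t * q - K * ε))) +
        M' * Real.pi * t ^ 2 * ε) (𝓝 0) (𝓝 (a * (2 * Real.pi *
        Real.log (t / (t * q - K * 0))) + M' * Real.pi * t ^ 2 * 0)) := by
      have h2 : t * q - K * 0 ≠ 0 := by
        rw [mul_zero, sub_zero]
        positivity
      have h3 : t / (t * q - K * 0) ≠ 0 := div_ne_zero ht.ne' h2
      have h4 : ContinuousAt (fun ε : ℝ => a * (2 * Real.pi *
          Real.log (t / (t * q - K * ε))) + M' * Real.pi * t ^ 2 * ε) 0 := by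
        have h5 : ContinuousAt (fun ε : ℝ => t / (t * q - K * ε)) 0 :=
          continuousAt_const.div (by fun_prop) h2
        exact (((h5.log h3).const_mul _).const_mul _).add (by fun_prop)
      exact h4
    have h2 : a * (2 * Real.pi * Real.log (t / (t * q - K * 0))) + M' * Real.pi * t ^ 2 * 0 <
        2 * Real.pi * (a * -Real.log q) + η := by
      have h3 : t / (t * q - K * 0) = q⁻¹ := by
        field_simp
        ring
      rw [h3, Real.log_inv]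
      linarith
    exact (h1.mono_left nhdsWithin_le_nhds).eventually_lt_const h2
  filter_upwards [f1, f3, f4, f5] with ε h1 h3 h4 h5
  have hρ : ε * (t * q / 2) ≤ ε * t * q - K * ε ^ 2 := by
    have := mul_le_mul_of_nonneg_left h3.le h1.le
    linarith [this, (by ring : ε * (ε * K) = K * ε ^ 2)]
  have hρ0 : 0 < ε * (t * q / 2) := by positivity
  have hρ1 : 0 < ε * t * q - K * ε ^ 2 := hρ0.trans_le hρ
  have hρR : ε * t * q - K * ε ^ 2 ≤ ε * t := by
    have e1 : ε * t * q ≤ ε * t * 1 := mul_le_mul_of_nonneg_left hq1 (by positivity)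
    have e2 : 0 ≤ K * ε ^ 2 := by positivity
    linarith
  have hpt : ∀ w ∈ {w : ℂ | ε * t * q - K * ε ^ 2 < ‖w - e‖ ∧ ‖w - e‖ ≤ ε * t},
      ‖f w‖ₑ ≤ ENNReal.ofReal a * ENNReal.ofReal ((‖w - e‖ ^ 2)⁻¹) +
        ENNReal.ofReal (M' / ε) := by
    intro w hw
    have hw0 : 0 < ‖w - e‖ := hρ1.trans hw.1
    have hwe : w ≠ e := by
      intro h
      rw [h, sub_self, norm_zero] at hw0
      exact lt_irrefl _ hw0
    have g1 := hball w hwe (hw.2.trans_lt h4)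
    have g2 : M * ‖w - e‖⁻¹ ≤ M' / ε := by
      have e1 : ‖w - e‖⁻¹ ≤ (ε * (t * q / 2))⁻¹ := inv_anti₀ hρ0 (hρ.trans hw.1.le)
      have e2 : M * ‖w - e‖⁻¹ ≤ M * (ε * (t * q / 2))⁻¹ := mul_le_mul_of_nonneg_left e1 hM
      have e3 : M * (ε * (t * q / 2))⁻¹ = M' / ε := by
        rw [hM']
        field_simp
      linarith
    rw [← ofReal_norm, ← ENNReal.ofReal_mul ha,
      ← ENNReal.ofReal_add (by positivity) (by positivity)]
    exact ENNReal.ofReal_le_ofReal (by linarith)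
  calc ∫⁻ w in {w : ℂ | ε * t * q - K * ε ^ 2 < ‖w - e‖ ∧ ‖w - e‖ ≤ ε * t}, ‖f w‖ₑ
      ≤ ∫⁻ w in {w : ℂ | ε * t * q - K * ε ^ 2 < ‖w - e‖ ∧ ‖w - e‖ ≤ ε * t},
        (ENNReal.ofReal a * ENNReal.ofReal ((‖w - e‖ ^ 2)⁻¹) + ENNReal.ofReal (M' / ε)) :=
        setLIntegral_mono' (TRL_annm _ _ _) hpt
    _ = ENNReal.ofReal a *
        ENNReal.ofReal (2 * Real.pi * Real.log (ε * t / (ε * t * q - K * ε ^ 2))) +
        ENNReal.ofReal (M' / ε) *
        volume {w : ℂ | ε * t * q - K * ε ^ 2 < ‖w - e‖ ∧ ‖w - e‖ ≤ ε * t} := by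
        rw [lintegral_add_right _ measurable_const, lintegral_const_mul' _ _ ENNReal.ofReal_ne_top,
          Pool.Agent.MEX.DEF_.ann1 _ _ _ hρ1 hρR, setLIntegral_const]
    _ ≤ ENNReal.ofReal a *
        ENNReal.ofReal (2 * Real.pi * Real.log (ε * t / (ε * t * q - K * ε ^ 2))) +
        ENNReal.ofReal (M' / ε) * ENNReal.ofReal (Real.pi * ((ε * t) ^ 2 -
          (ε * t * q - K * ε ^ 2) ^ 2)) := by
        gcongr
        exact TRL_area _ _ _ hρ1.le hρR
    _ ≤ ENNReal.ofReal (2 * Real.pi * (a * -Real.log q) + η) := by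
        have e1 : ε * t / (ε * t * q - K * ε ^ 2) = t / (t * q - K * ε) := by
          have e2 : ε * t * q - K * ε ^ 2 = ε * (t * q - K * ε) := by ring
          rw [e2, mul_div_mul_left _ _ h1.ne']
        have e2 : 0 ≤ Real.log (t / (t * q - K * ε)) := by
          rw [← e1]
          exact Real.log_nonneg ((one_le_div hρ1).2 hρR)
        have e3 : (0 : ℝ) ≤ (ε * t) ^ 2 - (ε * t * q - K * ε ^ 2) ^ 2 := by
          have := pow_le_pow_left₀ hρ1.le hρR 2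
          linarith
        rw [e1, ← ENNReal.ofReal_mul ha, ← ENNReal.ofReal_mul (by positivity),
          ← ENNReal.ofReal_add (by positivity) (by positivity)]
        apply ENNReal.ofReal_le_ofReal
        refine le_trans ?_ h5.le
        have e4 : M' / ε * (Real.pi * ((ε * t) ^ 2 - (ε * t * q - K * ε ^ 2) ^ 2)) ≤
            M' / ε * (Real.pi * (ε * t) ^ 2) := by
          apply mul_le_mul_of_nonneg_left _ (by positivity)
          apply mul_le_mul_of_nonneg_left _ Real.pi_pos.le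
          nlinarith [sq_nonneg (ε * t * q - K * ε ^ 2)]
        have e5 : M' / ε * (Real.pi * (ε * t) ^ 2) = M' * Real.pi * t ^ 2 * ε := by
          field_simp
        linarith

lemma PP_eq (n : ℕ) (c : ℂ) (r : Dat) (y : ℂ) :
    PP n c (phe 0 (fun _ => 0) r) y = TRL_H n c r.ph y := by
  unfold PP TRL_H phe AA
  exact Finset.sum_congr rfl fun j _ => (enorm_mul _ _).symm

end MSS_

/-- the mass defect of one step -/
theorem p_MSS : T_MSS := by
  intro n c r al q T K R M hn hr hF h0 hpush hR1 hM hdec hT hnear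
  have hn0 : n ≠ 0 := by omega
  have hnc : (n : ℂ) ≠ 0 := Nat.cast_ne_zero.2 hn0
  have hfp : ∀ e ∈ r.E, 0 < ‖fp n e‖ := by
    intro e he
    rw [norm_pos_iff]
    exact mul_ne_zero hnc (pow_ne_zero _ (h0 e he))
  choose Kt hK0 hK using fun e : ℂ => TRL_taylor e n
  obtain ⟨K', hK'⟩ : ∃ K' : ℂ → ℝ, K' = fun e => Kt e * T e ^ 2 / ‖fp n e‖ := ⟨_, rfl⟩
  have hK'0 : ∀ e, 0 ≤ K' e := by
    intro e
    rw [hK']
    have := hK0 e
    positivity
  have hAm : Measurable r.ph := MSS_.meas hr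
  set P : ℂ → ENNReal := phe 0 (fun _ => 0) r with hP
  have hPm : Measurable P := hAm.enorm
  have hae : ∀ᵐ x : ℂ, x ∉ r.E := by
    have : (r.E : Set ℂ)ᶜ ∈ ae (volume : Measure ℂ) :=
      compl_mem_ae_iff.2 (r.E.finite_toSet.measure_zero _)
    filter_upwards [this] with x hx
    simpa using hx
  have haec : ∀ᵐ x : ℂ, x ≠ c :=
    compl_mem_ae_iff.2 (measure_singleton (μ := (volume : Measure ℂ)) c)
  have hle : ∀ᵐ x : ℂ, P x ≤ PP n c P x := by
    filter_upwards [hae, haec] with x hx hxc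
    have e2 := hpush x hxc hx
    rw [MSS_.PP_eq]
    show ‖r.ph x‖ₑ ≤ _
    rw [← e2]
    exact enorm_sum_le _ _
  set V : ℝ → Set ℂ := fun ε => {x : ℂ | ∀ e ∈ r.E, ε * T e < ‖x - e‖} with hV
  have hVm : ∀ ε, MeasurableSet (V ε) := by
    intro ε
    have e : V ε = ⋂ e ∈ r.E, {x : ℂ | ε * T e < ‖x - e‖} := by
      ext x
      simp [hV]
    rw [e]
    exact Finset.measurableSet_biInter _ fun j _ =>
      measurableSet_lt measurable_const (measurable_id.sub_const j).norm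
  set S : ℝ := ∑ e ∈ r.E, 2 * Real.pi * (al e * -Real.log (q e)) with hS
  have hterm : ∀ e ∈ r.E, 0 ≤ 2 * Real.pi * (al e * -Real.log (q e)) := by
    intro e he
    obtain ⟨-, a2, a3, a4, -⟩ := hT e he
    have : Real.log (q e) ≤ 0 := Real.log_nonpos a2.le a3
    have h3 : 0 ≤ al e * -Real.log (q e) := mul_nonneg a4 (by linarith)
    positivity
  -- the bound on one set
  have hone : ∀ η : ℝ, 0 < η → ∀ᶠ ε : ℝ in 𝓝[>] 0,
      ∫⁻ y in V ε, (PP n c P y - P y) ≤ ENNReal.ofReal (S + r.E.card * η) := by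
    intro η hη
    have f1 : ∀ᶠ ε : ℝ in 𝓝[>] 0, 0 < ε := eventually_mem_nhdsWithin
    have f3 : ∀ᶠ ε : ℝ in 𝓝[>] 0, ∀ e ∈ r.E, ε * T e < 1 := by
      rw [Filter.eventually_all_finset]
      intro e _
      exact TRL_small (T e) 1 one_pos
    have fA : ∀ᶠ ε : ℝ in 𝓝[>] 0, ∀ e ∈ r.E,
        ∫⁻ w in {w : ℂ | ε * T e * q e - K' e * ε ^ 2 < ‖w - e‖ ∧ ‖w - e‖ ≤ ε * T e},
          ‖r.ph w‖ₑ ≤ ENNReal.ofReal (2 * Real.pi * (al e * -Real.log (q e)) + η) := by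
      rw [Filter.eventually_all_finset]
      intro e he
      obtain ⟨a1, a2, a3, a4, -⟩ := hT e he
      exact MSS_.annb r.ph e (al e) (T e) (q e) (K' e) M a4 a1 a2 a3 (hK'0 e) hM (hnear e he) η hη
    filter_upwards [f1, f3, fA] with ε g1 g3 gA
    have hUV : {w : ℂ | w ^ n + c ∈ V ε} ⊆ V ε ∪ ⋃ e ∈ r.E,
        {w : ℂ | ε * T e * q e - K' e * ε ^ 2 < ‖w - e‖ ∧ ‖w - e‖ ≤ ε * T e} := by
      intro w hw
      by_cases hwV : w ∈ V ε
      · exact Or.inl hwV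
      · right
        rw [hV, Set.mem_ofPred_eq] at hwV
        push Not at hwV
        obtain ⟨e, he, hwe⟩ := hwV
        simp only [Set.mem_iUnion]
        refine ⟨e, he, ?_, hwe⟩
        obtain ⟨a1, a2, a3, a4, a5⟩ := hT e he
        have hw' : ∀ i ∈ r.E, ε * T i < ‖w ^ n + c - i‖ := hw
        have e0 : ε * (‖fp n e‖ * q e * T e) ≤ ε * T (F n c e) :=
          mul_le_mul_of_nonneg_left a5 g1.le
        have e1 : ε * (‖fp n e‖ * q e * T e) < ‖w ^ n + c - F n c e‖ :=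
          e0.trans_lt (hw' _ (hF e he))
        have e3 : w ^ n + c - F n c e =
            (w ^ n - e ^ n - n * e ^ (n - 1) * (w - e)) + fp n e * (w - e) := by
          unfold fp F
          ring
        have e4 := hK e w (hwe.trans (g3 e he).le)
        have e5 : ‖w ^ n + c - F n c e‖ ≤ Kt e * ‖w - e‖ ^ 2 + ‖fp n e‖ * ‖w - e‖ := by
          rw [e3]
          refine (norm_add_le _ _).trans (add_le_add e4 ?_)
          rw [norm_mul]
        have e6 : ‖w - e‖ ^ 2 ≤ (ε * T e) ^ 2 := pow_le_pow_left₀ (norm_nonneg _) hwe 2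
        have e7 := mul_le_mul_of_nonneg_left e6 (hK0 e)
        have e8 : ‖fp n e‖ * (K' e * ε ^ 2) = Kt e * (ε * T e) ^ 2 := by
          rw [hK']
          have := (hfp e he).ne'
          field_simp
        have e9 : ‖fp n e‖ * (ε * T e * q e - K' e * ε ^ 2) < ‖fp n e‖ * ‖w - e‖ := by
          rw [mul_sub, e8]
          linarith [(by ring : ε * (‖fp n e‖ * q e * T e) = ‖fp n e‖ * (ε * T e * q e))]
        exact lt_of_mul_lt_mul_left e9 (hfp e he).le
    have hfin : ∫⁻ w in V ε, ‖r.ph w‖ₑ ≠ ⊤ := by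
      obtain ⟨τ, hτ, hτj⟩ : ∃ τ : ℝ, 0 < τ ∧ ∀ e ∈ r.E, τ ≤ ε * T e := by
        rcases r.E.eq_empty_or_nonempty with hE | hE
        · exact ⟨1, one_pos, fun e he => by rw [hE] at he; simp at he⟩
        · obtain ⟨i, hi, hmin⟩ := Finset.exists_min_image r.E (fun e => ε * T e) hE
          exact ⟨ε * T i, mul_pos g1 (hT i hi).1, fun j hj => hmin j hj⟩
      exact MSS_.fin hr K R τ hR1 hτ (V ε) (hVm ε)
        (fun w hw i hi => (hτj i hi).trans (hw i hi).le) hdec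
    have hup : ∫⁻ x in V ε, TRL_H n c r.ph x ≤
        (∫⁻ x in V ε, ‖r.ph x‖ₑ) + ENNReal.ofReal (S + r.E.card * η) := by
      calc ∫⁻ x in V ε, TRL_H n c r.ph x
          ≤ ∫⁻ w in {w : ℂ | w ^ n + c ∈ V ε}, ‖r.ph w‖ₑ := TRL_push hn c hAm (hVm ε)
        _ ≤ ∫⁻ w in V ε ∪ ⋃ e ∈ r.E,
            {w : ℂ | ε * T e * q e - K' e * ε ^ 2 < ‖w - e‖ ∧ ‖w - e‖ ≤ ε * T e},
            ‖r.ph w‖ₑ := lintegral_mono_set hUV
        _ ≤ (∫⁻ w in V ε, ‖r.ph w‖ₑ) + ∫⁻ w in ⋃ e ∈ r.E,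
            {w : ℂ | ε * T e * q e - K' e * ε ^ 2 < ‖w - e‖ ∧ ‖w - e‖ ≤ ε * T e},
            ‖r.ph w‖ₑ := lintegral_union_le _ _ _
        _ ≤ _ := by
            refine add_le_add_right ?_ _
            refine (MSS_.union _ _ _).trans ?_
            have e1 : ENNReal.ofReal (S + r.E.card * η) =
                ∑ e ∈ r.E, ENNReal.ofReal (2 * Real.pi * (al e * -Real.log (q e)) + η) := by
              rw [← ENNReal.ofReal_sum_of_nonneg fun e he => by
                have := hterm e he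
                linarith, Finset.sum_add_distrib, Finset.sum_const, nsmul_eq_mul]
            rw [e1]
            exact Finset.sum_le_sum fun e he => gA e he
    have hfin' : ∫⁻ w in V ε, P w ≠ ⊤ := hfin
    rw [lintegral_sub hPm hfin' (ae_restrict_of_ae hle)]
    refine tsub_le_iff_left.2 ?_
    have e1 : ∫⁻ a in V ε, PP n c P a = ∫⁻ x in V ε, TRL_H n c r.ph x :=
      lintegral_congr fun x => MSS_.PP_eq n c r x
    rw [e1]
    exact hup
  -- all sets
  have hall : ∀ ε : ℝ, 0 < ε → ∀ η : ℝ, 0 < η →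
      ∫⁻ y in V ε, (PP n c P y - P y) ≤ ENNReal.ofReal (S + r.E.card * η) := by
    intro ε hε η hη
    have f1 : ∀ᶠ ε' : ℝ in 𝓝[>] 0, ε' * 1 < ε := TRL_small 1 ε hε
    obtain ⟨ε', g1, g2⟩ := (f1.and (hone η hη)).exists
    refine le_trans (lintegral_mono_set ?_) g2
    intro x hx e he
    refine lt_of_le_of_lt ?_ (hx e he)
    exact mul_le_mul_of_nonneg_right (by linarith) (hT e he).1.le
  have hall2 : ∀ ε : ℝ, 0 < ε → ∫⁻ y in V ε, (PP n c P y - P y) ≤ ENNReal.ofReal S := by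
    intro ε hε
    have h1 : Tendsto (fun η : ℝ => ENNReal.ofReal (S + r.E.card * η)) (𝓝[>] 0)
        (𝓝 (ENNReal.ofReal (S + r.E.card * 0))) := by
      apply (ENNReal.continuous_ofReal.tendsto _).comp
      refine Tendsto.mono_left ?_ nhdsWithin_le_nhds
      exact ((continuous_const.add (continuous_const.mul continuous_id)).tendsto (0 : ℝ))
    rw [mul_zero, add_zero] at h1
    exact ge_of_tendsto h1 (eventually_mem_nhdsWithin.mono fun η hη => hall ε hε η hη)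
  have hcov : ∀ᵐ x : ℂ, x ∈ ⋃ i : ℕ, V (1 / ((i : ℝ) + 1)) := by
    filter_upwards [hae] with x hx
    rw [Set.mem_iUnion]
    have h1 : ∀ᶠ ε : ℝ in 𝓝[>] 0, ∀ e ∈ r.E, ε * T e < ‖x - e‖ := by
      rw [Filter.eventually_all_finset]
      intro e he
      refine TRL_small (T e) _ (norm_pos_iff.2 (sub_ne_zero.2 ?_))
      intro h
      exact hx (h ▸ he)
    have h2 : Tendsto (fun i : ℕ => 1 / ((i : ℝ) + 1)) atTop (𝓝[>] 0) := by
      rw [tendsto_nhdsWithin_iff]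
      exact ⟨tendsto_one_div_add_atTop_nhds_zero_nat, Filter.Eventually.of_forall fun i => by
        show (0 : ℝ) < _
        positivity⟩
    exact (h2.eventually h1).exists
  have hmono : Monotone fun i : ℕ => V (1 / ((i : ℝ) + 1)) := by
    intro i j hij x hx l hl
    refine lt_of_le_of_lt ?_ (hx l hl)
    apply mul_le_mul_of_nonneg_right _ (hT l hl).1.le
    apply one_div_le_one_div_of_le (by positivity)
    have : (i : ℝ) ≤ j := Nat.cast_le.2 hij
    linarith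
  have hfull : ∫⁻ y, (PP n c P y - P y) =
      ∫⁻ y in ⋃ i : ℕ, V (1 / ((i : ℝ) + 1)), (PP n c P y - P y) := by
    rw [← setLIntegral_univ]
    apply setLIntegral_congr
    filter_upwards [hcov] with x hx
    exact propext ⟨fun _ => hx, fun _ => trivial⟩
  rw [hfull, setLIntegral_iUnion_of_directed _ hmono.directed_le]
  exact iSup_le fun i => hall2 _ (by positivity)

end Pool.Agent.MEY
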