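import Pool.Agent.MEY.Targets2
import Pool.Agent.PLim.TRA
import Pool.Agent.PLim.TRANS
import Pool.Agent.PLim.TRL
import Pool.Agent.PLim.TRP
import Pool.Agent.PLim.TRI
import Pool.Agent.PLim.TRS

/-!
# MEY: NC2, the theorem on two cycles
-/

set_option autoImplicit false

open Complex Filter Topology Set MeasureTheory
open Pool.Agent.Multibrot (MM rt push)
open Pool.Agent.Limb (F)
open Pool.Agent.PLim (Cyc Res fp fpp Rho LocFix)
open Pool.Agent.MEX (LL Far Exa)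

namespace Pool.Agent.MEY

namespace NC2_

lemma LL_pos {δ : ℝ} (h0 : 0 < δ) (h : δ ≤ 1 / 2) : 0 < LL δ := by
  have h1 : 0 ≤ Real.log (1 / δ) := by
    apply Real.log_nonneg
    rw [le_div_iff₀ h0]
    linarith
  unfold LL
  positivity

lemma farC {N : ℕ} {δ : ℝ} {μ : ℂ} (h : FarN N δ μ.im) : FarC N δ μ := by
  intro q hq hqN m
  have h1 := h q hq hqN m
  have h2 : |((q : ℂ) * μ - 2 * Real.pi * I * m).im| ≤ ‖(q : ℂ) * μ - 2 * Real.pi * I * m‖ :=
    Complex.abs_im_le_norm _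
  have h3 : ((q : ℂ) * μ - 2 * Real.pi * I * m).im = 2 * Real.pi * (q * μ.im / (2 * Real.pi) - m) := by
    have hpi : (Real.pi : ℝ) ≠ 0 := Real.pi_ne_zero
    have h4 : ((q : ℂ) * μ - 2 * Real.pi * I * m).im = q * μ.im - 2 * Real.pi * m := by
      simp
    rw [h4]
    field_simp
  rw [h3, abs_mul, abs_of_pos (by positivity : (0 : ℝ) < 2 * Real.pi)] at h2
  exact (mul_le_mul_of_nonneg_left h1 (by positivity)).trans h2

lemma far6 {N : ℕ} {δ τ : ℝ} (hN : 6 ≤ N) (h : FarN N δ τ) : Far δ τ :=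
  fun q hq hq6 m => h q hq (hq6.trans hN) m

lemma exp_ne_one {N : ℕ} {δ : ℝ} {μ : ℂ} (hN : 1 ≤ N) (hδ : 0 < δ) (hF : FarN N δ μ.im) :
    exp μ ≠ 1 := by
  intro h
  obtain ⟨m, hm⟩ := Complex.exp_eq_one_iff.1 h
  have h1 := hF 1 le_rfl hN m
  have h2 : μ.im = m * (2 * Real.pi) := by
    rw [hm]
    simp
  rw [h2] at h1
  have h3 : ((1 : ℕ) : ℝ) * (m * (2 * Real.pi)) / (2 * Real.pi) - m = 0 := by
    have : (Real.pi : ℝ) ≠ 0 := Real.pi_ne_zero
    field_simp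
    push_cast
    ring
  rw [h3, abs_zero] at h1
  linarith

/-- The cycle of a point of exact period `k` with multiplier different from `0`. -/
lemma cyc_of_pt {n k : ℕ} {c z w : ℂ} (hn : 2 ≤ n) (hk : 1 ≤ k) (hP : Pt n k c z w)
    (hw : w ≠ 0) : Cyc n k c (fun j => (F n c)^[j] z) ∧
      w = ∏ j ∈ Finset.range k, fp n ((F n c)^[j] z) := by
  set b : ℕ → ℂ := fun j => (F n c)^[j] z with hb
  have hfix0 := hP.fix
  have hbper : ∀ j, b (j + k) = b j := by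
    intro j
    simp only [hb]
    rw [Function.iterate_add_apply, hfix0]
  have hbstep : ∀ j, b (j + 1) = b j ^ n + c := by
    intro j
    simp only [hb]
    rw [Function.iterate_succ_apply']
    rfl
  have hRk : w = ∏ j ∈ Finset.range k, fp n (b j) := by
    rw [← hP.mul]
    exact Pool.Agent.PLim.TRANS_.Rho_eq n k c z
  have hprod0 : ∏ j ∈ Finset.range k, fp n (b j) ≠ 0 := by
    rw [← hRk]
    exact hw
  have hmod : ∀ j, b j = b (j % k) := by
    intro j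
    have h3 : ∀ i a, b (a + k * i) = b a := by
      intro i
      induction i with
      | zero => intro a; simp
      | succ i ih => intro a; rw [Nat.mul_succ, ← add_assoc, hbper, ih]
    conv_lhs => rw [← Nat.mod_add_div j k]
    exact h3 _ _
  have hfp0 : ∀ j, fp n (b j) ≠ 0 := by
    intro j
    rw [hmod j]
    exact (Finset.prod_ne_zero_iff.1 hprod0) _ (Finset.mem_range.2 (Nat.mod_lt _ hk))
  have hb0 : ∀ j, b j ≠ 0 := by
    intro j h
    refine hfp0 j ?_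
    unfold fp
    rw [h, zero_pow (by omega), mul_zero]
  have hdist : ∀ i j, i < j → j < k → b i ≠ b j := by
    intro i j hij hjk he
    have h1 : (F n c)^[k - j] (b i) = (F n c)^[k - j] (b j) := by rw [he]
    simp only [hb] at h1
    rw [← Function.iterate_add_apply, ← Function.iterate_add_apply,
      show k - j + j = k by omega, hfix0] at h1
    exact hP.exa (k - j + i) (by omega) (by omega) h1
  refine ⟨⟨hk, hbstep, hbper, ?_, hb0⟩, hRk⟩
  intro i j hi hj hij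
  rcases lt_trichotomy i j with h | h | h
  · exact absurd hij (hdist i j h hj)
  · exact h
  · exact absurd hij.symm (hdist j i h hi)

/-- If the orbits meet then `z'` is in the orbit of `z`. -/
lemma orbit_of_meet {n k' : ℕ} {c z z' : ℂ} (hk' : 1 ≤ k') (hz' : (F n c)^[k'] z' = z')
    {i j : ℕ} (h : (F n c)^[i] z = (F n c)^[j] z') : ∃ l : ℕ, (F n c)^[l] z = z' := by
  have hmul : ∀ m : ℕ, (F n c)^[k' * m] z' = z' := by
    intro m
    rw [Function.iterate_mul]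
    exact Function.iterate_fixed hz' m
  have hj : j ≤ k' * j := Nat.le_mul_of_pos_left j hk'
  refine ⟨k' * j - j + i, ?_⟩
  rw [Function.iterate_add_apply, h, ← Function.iterate_add_apply, Nat.sub_add_cancel hj]
  exact hmul j

/-- The transversality theorem in the case of one bad cycle. -/
lemma one (hX : Pool.Agent.MEX.T_EXT) : ∃ κ : ℝ, 0 < κ ∧ ∀ (n k N : ℕ) (c : ℂ) (b ρ : ℕ → ℂ)
    (μ : ℂ) (δ : ℝ), 2 ≤ n → 6 ≤ N → Cyc n k c b → Res n k b ρ →
    exp μ = ∏ j ∈ Finset.range k, fp n (b j) → 0 < δ → FarN N δ μ.im →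
    ∑ j ∈ Finset.range k, ρ j = 0 → κ * LL δ ≤ μ.re := by
  obtain ⟨κ, hκ, h⟩ := hX
  refine ⟨κ, hκ, ?_⟩
  intro n k N c b ρ μ δ hn hN hC hR hmul hδ hF hsum
  exact h n k c b ρ μ δ ⟨hn, hC, hR, hsum, hmul⟩ hδ (far6 hN hF)

/-- Two cycles with sums of residues different from `0`. -/
lemma two (R : ℕ) (hE : T_EXT) (hT : T_TWO) : ∃ κ : ℝ, 0 < κ ∧ ∀ (n k k' : ℕ) (c : ℂ)
    (b b' ρ ρ' : ℕ → ℂ) (μ μ' : ℂ) (δ : ℝ), 2 ≤ n → k' ≤ R * k → Cyc n k c b → Cyc n k' c b' →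
    (∀ i j, b i ≠ b' j) → Res n k b ρ → Res n k' b' ρ' →
    exp μ = ∏ j ∈ Finset.range k, fp n (b j) → exp μ' = ∏ j ∈ Finset.range k', fp n (b' j) →
    0 < δ → δ ≤ 1 / 2 → FarN (6 * (R + 1)) δ μ.im →
    ∑ j ∈ Finset.range k, ρ j ≠ 0 → ∑ j ∈ Finset.range k', ρ' j ≠ 0 →
    κ * LL δ ≤ max μ.re 0 + ‖∑ j ∈ Finset.range k, ρ j‖ / ‖∑ j ∈ Finset.range k', ρ' j‖ *
      max μ'.re 0 := by
  obtain ⟨κ, hκ, h⟩ := hE (6 * (R + 1))
  refine ⟨κ, hκ, ?_⟩
  intro n k k' c b b' ρ ρ' μ μ' δ hn hkk hC hC' hdj hR hR' hmul hmul' hδ hδ1 hF hS hS'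
  by_contra hcon
  rw [not_le] at hcon
  set S := ∑ j ∈ Finset.range k, ρ j with hSd
  set S' := ∑ j ∈ Finset.range k', ρ' j with hSd'
  set X : ℝ := max μ.re 0 + ‖S‖ / ‖S'‖ * max μ'.re 0 with hX
  have hX0 : 0 ≤ X := by
    have h1 : 0 ≤ max μ.re 0 := le_max_right _ _
    have h2 : 0 ≤ max μ'.re 0 := le_max_right _ _
    positivity
  have hLL := mul_pos hκ (LL_pos hδ hδ1)
  set m : ℝ := (X + κ * LL δ) / 2 with hm
  have hm0 : 0 < m := by rw [hm]; linarith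
  have hXm : X ≤ m := by rw [hm]; linarith
  have hmκ : m < κ * LL δ := by rw [hm]; linarith
  have hTwo : Two n k k' c b b' ρ ρ' (-S / S') := by
    refine ⟨hn, hC, hC', hdj, hR, hR', div_ne_zero (neg_ne_zero.2 hS) hS', ?_⟩
    rw [← hSd, ← hSd', div_mul_cancel₀ _ hS']
    ring
  have hbad := hT n k k' c b b' ρ ρ' (-S / S') μ μ' m (6 * (R + 1)) hTwo hmul hmul' hm0
    (by
      rw [norm_div, norm_neg]
      exact hXm)
    (by omega)
    (by nlinarith)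
  have hre : μ.re ≤ m := by
    have h1 : μ.re ≤ max μ.re 0 := le_max_left _ _
    have h2 : 0 ≤ ‖S‖ / ‖S'‖ * max μ'.re 0 :=
      mul_nonneg (by positivity) (le_max_right _ _)
    linarith
  have h3 := h n k c b _ μ δ hbad rfl hre hδ hδ1 (farC hF)
  have h4 : κ * LL δ ≤ m := h3
  linarith

lemma ratio {A B L L' κ x x' : ℝ} (hB : 0 < B) (hL : 0 < L) (hL' : 0 < L') (hκ : 0 < κ)
    (h : A * L' ≤ B * L) (hA : 0 ≤ A) (hx : x < κ * L) (hx' : x' < κ * L') :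
    max x 0 + A / B * max x' 0 ≤ 2 * (κ * L) := by
  have h1 : max x 0 ≤ κ * L := max_le hx.le (by positivity)
  have h2 : max x' 0 ≤ κ * L' := max_le hx'.le (by positivity)
  have h3 : A / B * max x' 0 ≤ A / B * (κ * L') := mul_le_mul_of_nonneg_left h2 (by positivity)
  have h4 : A / B * (κ * L') ≤ κ * L := by
    rw [div_mul_eq_mul_div, div_le_iff₀ hB]
    nlinarith
  linarith

end NC2_

open NC2_ in
theorem p_NC2 (h_EXT : T_EXT) (h_TWO : T_TWO) (h_MEX : Pool.Agent.MEX.T_EXT) : T_NC2 := by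
  intro R
  obtain ⟨κ1, hκ1, htwo⟩ := two R h_EXT h_TWO
  obtain ⟨κ2, hκ2, hone⟩ := one h_MEX
  have hκ : 0 < min κ1 κ2 / 4 := by
    have := lt_min hκ1 hκ2
    linarith
  refine ⟨min κ1 κ2 / 4, hκ, ?_⟩
  set κ : ℝ := min κ1 κ2 / 4 with hκd
  have hκ1' : 4 * κ ≤ κ1 := by
    have := min_le_left κ1 κ2
    linarith
  have hκ2' : 4 * κ ≤ κ2 := by
    have := min_le_right κ1 κ2
    linarith
  intro n k k' c z z' μ μ' δ hn hk hk' hkk hkk' hP hP' hδ hδ1 hF hre hor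
  by_contra hno
  rw [not_exists] at hno
  obtain ⟨hC, hmul⟩ := cyc_of_pt hn hk hP (exp_ne_zero μ)
  obtain ⟨hC', hmul'⟩ := cyc_of_pt hn hk' hP' (exp_ne_zero μ')
  set b : ℕ → ℂ := fun j => (F n c)^[j] z with hb
  set b' : ℕ → ℂ := fun j => (F n c)^[j] z' with hb'
  have hdj : ∀ i j, b i ≠ b' j := by
    intro i j h
    obtain ⟨l, hl⟩ := orbit_of_meet hk' hP'.fix h
    exact hno l hl
  have hne : exp μ ≠ 1 := exp_ne_one (by omega) hδ hF
  have hne' : exp μ' ≠ 1 := by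
    rcases hor with h | ⟨δ', hδ', -, hF', -⟩
    · exact h.2
    · exact exp_ne_one (by omega) hδ' hF'
  obtain ⟨⟨ρ, hρ⟩, -⟩ := Pool.Agent.PLim.p_TRA n k c b hn hC (by rw [← hmul]; exact hne)
  obtain ⟨⟨ρ', hρ'⟩, -⟩ := Pool.Agent.PLim.p_TRA n k' c b' hn hC' (by rw [← hmul']; exact hne')
  have hLL := LL_pos hδ hδ1
  have hκL := mul_pos hκ hLL
  have hS : ∑ j ∈ Finset.range k, ρ j ≠ 0 := by
    intro h0
    have h1 := hone n k (6 * (R + 1)) c b ρ μ δ hn (by omega) hC hρ hmul hδ hF h0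
    nlinarith
  have hS' : ∑ j ∈ Finset.range k', ρ' j ≠ 0 := by
    intro h0
    rcases hor with h | ⟨δ', hδ', hδ1', hF', hre'⟩
    · have hTRL : Pool.Agent.PLim.T_TRL := Pool.Agent.PLim.p_TRL Pool.Agent.PLim.p_TRP
        (Pool.Agent.PLim.p_TRI Pool.Agent.PLim.p_TRP) Pool.Agent.PLim.p_TRS
      refine hTRL n k' c b' ρ' hn hC' hρ' h0 ?_
      rw [← hmul', norm_exp]
      exact Real.exp_le_one_iff.2 h.1
    · have h1 := hone n k' (6 * (R + 1)) c b' ρ' μ' δ' hn (by omega) hC' hρ' hmul' hδ' hF' h0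
      have hLL' := LL_pos hδ' hδ1'
      nlinarith
  have hSn : 0 < ‖∑ j ∈ Finset.range k, ρ j‖ := norm_pos_iff.2 hS
  have hSn' : 0 < ‖∑ j ∈ Finset.range k', ρ' j‖ := norm_pos_iff.2 hS'
  have hmain := htwo n k k' c b b' ρ ρ' μ μ' δ hn hkk' hC hC' hdj hρ hρ' hmul hmul' hδ hδ1 hF
    hS hS'
  rcases hor with h | ⟨δ', hδ', hδ1', hF', hre'⟩
  · rw [max_eq_right h.1, mul_zero, add_zero] at hmain
    have h1 : max μ.re 0 ≤ κ * LL δ := max_le hre.le hκL.le
    nlinarith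
  · have hLL' := LL_pos hδ' hδ1'
    rcases le_total (‖∑ j ∈ Finset.range k, ρ j‖ * LL δ')
      (‖∑ j ∈ Finset.range k', ρ' j‖ * LL δ) with h | h
    · have h1 := ratio hSn' hLL hLL' hκ h hSn.le hre hre'
      nlinarith
    · have hmain' := htwo n k' k c b' b ρ' ρ μ' μ δ' hn hkk hC' hC (fun i j => (hdj j i).symm)
        hρ' hρ hmul' hmul hδ' hδ1' hF' hS' hS
      have h1 := ratio hSn hLL' hLL hκ h hSn'.le hre' hre
      nlinarith

end Pool.Agent.MEY
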