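import Pool.Agent.MEY.Targets2
import Pool.Agent.PLim.ATU
import Pool.Agent.PLim.ATTR

/-!
# MEY, NCU: at most one cycle has a multiplier in the extended region
-/

set_option autoImplicit false

open Complex Filter Topology Set
open Pool.Agent.Limb (F)
open Pool.Agent.PLim (Rho p_ATU p_ATTR)
open Pool.Agent.MEX (LI LL Exa)

namespace Pool.Agent.MEY

namespace NCU_

/-- the relation of being in the same cycle is symmetric -/
lemma symm {n k' : ℕ} {c z z' : ℂ} (hk' : 1 ≤ k') (hz' : (F n c)^[k'] z' = z')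
    (h : ∃ j : ℕ, (F n c)^[j] z' = z) : ∃ j : ℕ, (F n c)^[j] z = z' := by
  obtain ⟨j, hj⟩ := h
  refine ⟨k' * j - j, ?_⟩
  have hle : j ≤ k' * j := Nat.le_mul_of_pos_left j hk'
  rw [← hj, ← Function.iterate_add_apply, Nat.sub_add_cancel hle, Function.iterate_mul]
  exact Function.iterate_fixed hz' j

lemma exp_lt {μ : ℂ} (h : μ.re < 0) : ‖exp μ‖ < 1 := by
  rw [Complex.norm_exp]
  exact Real.exp_lt_one_iff.2 h

lemma exp_ne {μ : ℂ} (h : μ.re < 0) : exp μ ≠ 1 := by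
  intro h1
  have := exp_lt h
  rw [h1, norm_one] at this
  exact lt_irrefl _ this

end NCU_

open NCU_ in
theorem p_NCU : T_NCU := by
  intro R κ h2 n k k' c z z' μ μ' hn hk hk' hkk hkk' hz hz' hμ hμ'
  have far : ∀ {μ : ℂ}, μ ∈ Omg (6 * (R + 1)) κ → ((μ.re ≤ 0 ∧ exp μ ≠ 1) ∨ ∃ δ' : ℝ, 0 < δ' ∧
      δ' ≤ 1 / 2 ∧ FarN (6 * (R + 1)) δ' μ.im ∧ μ.re < κ * LL δ') := by
    intro μ h
    rcases h with h | h
    · exact Or.inl ⟨le_of_lt h, exp_ne h⟩
    · exact Or.inr h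
  rcases hμ with h | ⟨δ, h0, h1, hF, hre⟩
  · rcases hμ' with h' | ⟨δ, h0, h1, hF, hre⟩
    · refine p_ATU p_ATTR n k k' c z z' hn hk hk' hz.fix hz'.fix ?_ ?_
      · rw [hz.mul]
        exact exp_lt h
      · rw [hz'.mul]
        exact exp_lt h'
    · exact symm hk' hz'.fix (h2 n k' k c z' z μ' μ δ hn hk' hk hkk' hkk hz' hz h0 h1 hF hre
        (far (Or.inl h)))
  · exact h2 n k k' c z z' μ μ' δ hn hk hk' hkk hkk' hz hz' h0 h1 hF hre (far hμ')

end Pool.Agent.MEY
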