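import Pool.Agent.MEY.Targets2
import Pool.Agent.MEY.GLE
import Pool.Agent.MEX.SECX
import Pool.Agent.PLim.TRANS

/-!
# MEY, NCZ: at most one cycle, also for the multiplier zero
-/

set_option autoImplicit false

open Complex Filter Topology Set MeasureTheory
open Pool.Agent.Limb (F)
open Pool.Agent.PLim (Rho LocFix fp)
open Pool.Agent.MEX (LI Exa)

namespace Pool.Agent.MEY

namespace NCZ_

open Pool.Agent.PLim (CNT_contI CNT_contR CNT_diffR CNT_root p_LOCZ p_BIG)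
open Pool.Agent.MEX.SECX_ (exact_nhds)

lemma zero_in {n k : ℕ} {c z : ℂ} (hn : 2 ≤ n) (h : Rho n k c z = 0) :
    ∃ i, i < k ∧ (F n c)^[i] z = 0 := by
  rw [Pool.Agent.PLim.TRANS_.Rho_eq, Finset.prod_eq_zero_iff] at h
  obtain ⟨i, hi, h0⟩ := h
  refine ⟨i, Finset.mem_range.1 hi, ?_⟩
  unfold fp at h0
  rcases mul_eq_zero.1 h0 with h1 | h1
  · exact absurd (by exact_mod_cast h1) (by omega : n ≠ 0)
  · exact (pow_eq_zero_iff (by omega)).1 h1

lemma back {f : ℂ → ℂ} {k j : ℕ} {z z' : ℂ} (hk : 1 ≤ k) (hz' : f^[k] z' = z')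
    (h : f^[j] z' = z) : ∃ i, f^[i] z = z' := by
  refine ⟨k * (j + 1) - j, ?_⟩
  have h1 : j ≤ k * (j + 1) := (Nat.le_succ j).trans (Nat.le_mul_of_pos_left _ hk)
  rw [← h, ← Function.iterate_add_apply, Nat.sub_add_cancel h1, Function.iterate_mul]
  exact Function.iterate_fixed hz' _

lemma same {f : ℂ → ℂ} {k' i i' : ℕ} {z z' : ℂ} (hk : 1 ≤ k') (hz' : f^[k'] z' = z')
    (h : f^[i] z = f^[i'] z') : ∃ j, f^[j] z = z' := by
  obtain ⟨m, hm⟩ := back hk hz' h.symm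
  refine ⟨m + i, ?_⟩
  rw [Function.iterate_add_apply]
  exact hm

lemma ne_one {N : ℕ} {κ : ℝ} (hN : 1 ≤ N) {w : ℂ} (h : log w ∈ Omg N κ) : w ≠ 1 := by
  rintro rfl
  rw [log_one] at h
  rcases h with h | ⟨δ, hδ, -, hf, -⟩
  · simp at h
  · have := hf 1 le_rfl hN 0
    simp at this
    linarith

lemma isolated {n k : ℕ} (hn : 2 ≤ n) (hk : 1 ≤ k) (c : ℂ) :
    ∀ᶠ x in 𝓝[≠] c, (F n x)^[k] 0 ≠ 0 := by
  obtain ⟨m, rfl⟩ : ∃ m, k = m + 1 := ⟨k - 1, by omega⟩
  set p : Polynomial ℂ := (GLE_.PQ n (m + 1)).map (algebraMap ℤ ℂ) with hp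
  have hpm : p.Monic := (GLE_.PQ_monic hn m).1.map _
  have hev : ∀ x : ℂ, p.eval x = (F n x)^[m + 1] 0 := by
    intro x
    rw [hp, Polynomial.eval_map, GLE_.eval_PQ, Pool.Agent.Multibrot.Q_eq_iterate]
    rfl
  have hfin : {x : ℂ | (F n x)^[m + 1] 0 = 0}.Finite := by
    refine (p.roots.toFinset.finite_toSet).subset ?_
    intro x hx
    have hx' : (F n x)^[m + 1] 0 = 0 := hx
    simp only [Finset.mem_coe, Multiset.mem_toFinset]
    rw [Polynomial.mem_roots hpm.ne_zero, Polynomial.IsRoot.def, hev x, hx']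
  have hcl : IsClosed ({x : ℂ | (F n x)^[m + 1] 0 = 0} \ {c}) := (hfin.sdiff).isClosed
  have hn1 : ({x : ℂ | (F n x)^[m + 1] 0 = 0} \ {c})ᶜ ∈ 𝓝 c :=
    hcl.isOpen_compl.mem_nhds (fun h => h.2 rfl)
  filter_upwards [mem_nhdsWithin_of_mem_nhds hn1, self_mem_nhdsWithin] with x hx hxc h0
  exact hx ⟨h0, hxc⟩

lemma main {R : ℕ} {κ : ℝ} (hOMG : T_OMG) (hκ : 0 < κ) (hNC : NCUk R κ) {n k k' : ℕ}
    {c z z' w' : ℂ} (hn : 2 ≤ n) (hk : 1 ≤ k) (hk' : 1 ≤ k') (h1 : k ≤ R * k')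
    (h2 : k' ≤ R * k) (hP : Pt n k c z 0) (hP' : Pt n k' c z' w') (hw0 : w' ≠ 0)
    (hw' : log w' ∈ Omg (6 * (R + 1)) κ) : ∃ j : ℕ, (F n c)^[j] z = z' := by
  obtain ⟨δ, r, zf, -, -, hL⟩ := p_LOCZ n k c z 1 hn one_pos hP.fix (by
    rw [hP.mul]
    exact zero_ne_one)
  obtain ⟨δ', r', zf', -, -, hL'⟩ := p_LOCZ n k' c z' 1 hn one_pos hP'.fix (by
    rw [hP'.mul]
    exact ne_one (by omega) hw')
  have hzc : ContinuousAt zf c :=
    (hL.diff.differentiableAt (Metric.ball_mem_nhds _ hL.hδ)).continuousAt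
  have hzc' : ContinuousAt zf' c :=
    (hL'.diff.differentiableAt (Metric.ball_mem_nhds _ hL'.hδ)).continuousAt
  have hpr : ContinuousAt (fun x => (x, zf x)) c := continuousAt_id.prodMk hzc
  have hpr' : ContinuousAt (fun x => (x, zf' x)) c := continuousAt_id.prodMk hzc'
  have e0 : ∀ᶠ x in 𝓝 c, x ∈ Metric.ball c δ := Metric.ball_mem_nhds _ hL.hδ
  have e0' : ∀ᶠ x in 𝓝 c, x ∈ Metric.ball c δ' := Metric.ball_mem_nhds _ hL'.hδ
  have e1 : ∀ᶠ x in 𝓝 c, Exa n k x (zf x) := by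
    have h : ∀ᶠ y : ℂ × ℂ in 𝓝 (c, zf c), Exa n k y.1 y.2 := by
      rw [hL.zf0]
      exact exact_nhds hP.exa
    exact hpr.eventually h
  have e1' : ∀ᶠ x in 𝓝 c, Exa n k' x (zf' x) := by
    have h : ∀ᶠ y : ℂ × ℂ in 𝓝 (c, zf' c), Exa n k' y.1 y.2 := by
      rw [hL'.zf0]
      exact exact_nhds hP'.exa
    exact hpr'.eventually h
  have hg : ContinuousAt (fun x => Rho n k x (zf x)) c :=
    (CNT_contR n k).continuousAt.comp' hpr
  have hg' : ContinuousAt (fun x => Rho n k' x (zf' x)) c :=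
    (CNT_contR n k').continuousAt.comp' hpr'
  have hg0 : Rho n k c (zf c) = 0 := by rw [hL.zf0, hP.mul]
  have hg0' : Rho n k' c (zf' c) = w' := by rw [hL'.zf0, hP'.mul]
  have e2 : ∀ᶠ x in 𝓝 c, ‖Rho n k x (zf x)‖ < 1 := by
    have h : ‖Rho n k c (zf c)‖ < 1 := by
      rw [hg0, norm_zero]
      exact one_pos
    exact hg.norm.eventually (isOpen_Iio.mem_nhds h)
  have e3 : ∀ᶠ x in 𝓝 c, Rho n k' x (zf' x) ≠ 0 := by
    refine hg'.eventually_ne ?_
    rw [hg0']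
    exact hw0
  have e4 : ∀ᶠ x in 𝓝 c, log w' + log (Rho n k' x (zf' x) / w') ∈ Omg (6 * (R + 1)) κ := by
    have hc : ContinuousAt (fun x => log w' + log (Rho n k' x (zf' x) / w')) c := by
      refine continuousAt_const.add ((hg'.div_const w').clog ?_)
      rw [hg0', div_self hw0]
      exact one_mem_slitPlane
    have hv : log w' + log (Rho n k' c (zf' c) / w') ∈ Omg (6 * (R + 1)) κ := by
      rw [hg0', div_self hw0, log_one, add_zero]
      exact hw'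
    exact hc.eventually ((hOMG _ κ hκ).1.op.mem_nhds hv)
  have e5 : ∀ᶠ x in 𝓝[≠] c, ∃ j ∈ Finset.range k, (F n x)^[j] (zf x) = zf' x := by
    filter_upwards [mem_nhdsWithin_of_mem_nhds e0, mem_nhdsWithin_of_mem_nhds e0',
      mem_nhdsWithin_of_mem_nhds e1, mem_nhdsWithin_of_mem_nhds e1',
      mem_nhdsWithin_of_mem_nhds e2, mem_nhdsWithin_of_mem_nhds e3,
      mem_nhdsWithin_of_mem_nhds e4, isolated hn hk c] with x b0 b0' b1 b1' b2 b3 b4 b5
    have hfix := hL.fix x b0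
    have hfix' := hL'.fix x b0'
    have hne : Rho n k x (zf x) ≠ 0 := by
      intro h0
      obtain ⟨i, hi, hi0⟩ := zero_in hn h0
      apply b5
      rw [← hi0, ← Function.iterate_add_apply, add_comm, Function.iterate_add_apply, hfix]
    have hA : Pt n k x (zf x) (exp (log (Rho n k x (zf x)))) :=
      ⟨hfix, b1, (exp_log hne).symm⟩
    have hB : Pt n k' x (zf' x) (exp (log w' + log (Rho n k' x (zf' x) / w'))) := by
      refine ⟨hfix', b1', ?_⟩
      rw [exp_add, exp_log hw0, exp_log (div_ne_zero b3 hw0)]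
      field_simp
    have hAm : log (Rho n k x (zf x)) ∈ Omg (6 * (R + 1)) κ := by
      left
      rw [log_re]
      exact Real.log_neg (norm_pos_iff.2 hne) b2
    obtain ⟨j, hj⟩ := hNC n k k' x (zf x) (zf' x) _ _ hn hk hk' h1 h2 hA hB hAm b4
    refine ⟨j % k, Finset.mem_range.2 (Nat.mod_lt _ hk), ?_⟩
    rw [← hj]
    conv_rhs => rw [← Nat.mod_add_div j k, Function.iterate_add_apply, Function.iterate_mul]
    rw [Function.iterate_fixed hfix]
  have e6 : ∃ j ∈ Finset.range k, ∃ᶠ x in 𝓝[≠] c, (F n x)^[j] (zf x) = zf' x := by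
    by_contra hcon
    push Not at hcon
    have h3 : ∀ᶠ x in 𝓝[≠] c, ∀ j ∈ Finset.range k, (F n x)^[j] (zf x) ≠ zf' x := by
      rw [Filter.eventually_all_finset]
      intro j hj
      exact hcon j hj
    obtain ⟨x, hx1, hx2⟩ := (e5.and h3).exists
    obtain ⟨j, hj, hj2⟩ := hx1
    exact hx2 j hj hj2
  obtain ⟨j, -, hj⟩ := e6
  refine ⟨j, ?_⟩
  by_contra hne
  have hh : ContinuousAt (fun x => (F n x)^[j] (zf x) - zf' x) c :=
    ((CNT_contI n j).continuousAt.comp' hpr).sub hzc'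
  have h4 : ∀ᶠ x in 𝓝 c, (F n x)^[j] (zf x) - zf' x ≠ 0 := by
    refine hh.eventually_ne ?_
    rw [hL.zf0, hL'.zf0]
    exact sub_ne_zero.2 hne
  refine hj ?_
  filter_upwards [mem_nhdsWithin_of_mem_nhds h4] with x hx hx2
  exact hx (sub_eq_zero.2 hx2)

end NCZ_

open NCZ_ in
theorem p_NCZ (hOMG : T_OMG) : T_NCZ := by
  intro R κ hκ hNC n k k' c z z' w w' hn hk hk' h1 h2 hP hP' hw hw'
  rcases hw with rfl | hw
  · rcases hw' with rfl | hw'
    · obtain ⟨i, -, hi⟩ := zero_in hn hP.mul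
      obtain ⟨i', -, hi'⟩ := zero_in hn hP'.mul
      exact same hk' hP'.fix (hi.trans hi'.symm)
    · rcases eq_or_ne w' 0 with rfl | h0
      · obtain ⟨i, -, hi⟩ := zero_in hn hP.mul
        obtain ⟨i', -, hi'⟩ := zero_in hn hP'.mul
        exact same hk' hP'.fix (hi.trans hi'.symm)
      · exact main hOMG hκ hNC hn hk hk' h1 h2 hP hP' h0 hw'
  · rcases eq_or_ne w 0 with rfl | h0
    · rcases eq_or_ne w' 0 with rfl | h0'
      · obtain ⟨i, -, hi⟩ := zero_in hn hP.mul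
        obtain ⟨i', -, hi'⟩ := zero_in hn hP'.mul
        exact same hk' hP'.fix (hi.trans hi'.symm)
      · rcases hw' with h | hw'
        · exact absurd h h0'
        · exact main hOMG hκ hNC hn hk hk' h1 h2 hP hP' h0' hw'
    · rcases eq_or_ne w' 0 with rfl | h0'
      · obtain ⟨j, hj⟩ := main hOMG hκ hNC hn hk' hk h2 h1 hP' hP h0 hw
        exact back hk' hP'.fix hj
      · rcases hw' with h | hw'
        · exact absurd h h0'
        · refine hNC n k k' c z z' (log w) (log w') hn hk hk' h1 h2 ?_ ?_ hw hw'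
          · rw [exp_log h0]
            exact hP
          · rw [exp_log h0']
            exact hP'

end Pool.Agent.MEY
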