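import Pool.Agent.MEY.Targets2
import Pool.Agent.MEX.POL

/-!
# MEY, NUM2: the numerator of the quadratic differential of two cycles
-/

set_option autoImplicit false

open Complex Filter Topology Set MeasureTheory
open Pool.Agent.Multibrot (MM rt push)
open Pool.Agent.Limb (F)
open Pool.Agent.PLim (Cyc Res fp fpp Rho LocFix IsLimb OMXn)
open Pool.Agent.MEX (LI lf PP Exa NCXk LL SECXk cyc_mod)
open Pool.Agent.MEX.POL_ (pol eq_pol pole_pol deg_le natDegree_den)

namespace Pool.Agent.MEY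

namespace NUM2_

open Polynomial

/-- the denominator of one cycle -/
noncomputable def den (k : ℕ) (b : ℕ → ℂ) : Polynomial ℂ :=
  ∏ j ∈ Finset.range k, (X - C (b j)) ^ 2

lemma eval_den (k : ℕ) (b : ℕ → ℂ) (x : ℂ) :
    (den k b).eval x = ∏ j ∈ Finset.range k, (x - b j) ^ 2 := by
  unfold den
  rw [Polynomial.eval_prod]
  simp

lemma den_ne (k : ℕ) (b : ℕ → ℂ) : den k b ≠ 0 := by
  unfold den
  rw [Finset.prod_ne_zero_iff]
  intro j _
  exact pow_ne_zero _ (X_sub_C_ne_zero _)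

/-- the numerator of the two cycles -/
noncomputable def pol2 (k k' : ℕ) (b b' r r' : ℕ → ℂ) (s : ℂ) : Polynomial ℂ :=
  pol k b r * den k' b' + C s * pol k' b' r' * den k b

lemma eval_pol2 (k k' : ℕ) (b b' r r' : ℕ → ℂ) (s x : ℂ) :
    (pol2 k k' b b' r r' s).eval x = (pol k b r).eval x * (den k' b').eval x +
      s * (pol k' b' r').eval x * (den k b).eval x := by
  unfold pol2
  simp

lemma prod_E2 {n k k' : ℕ} {c : ℂ} {b b' ρ ρ' : ℕ → ℂ} {s : ℂ}
    (h : Two n k k' c b b' ρ ρ' s) (x : ℂ) :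
    ∏ e ∈ E2 k k' b b', (x - e) ^ 2 = (den k b).eval x * (den k' b').eval x := by
  unfold E2
  have hdis : Disjoint ((Finset.range k).image b) ((Finset.range k').image b') := by
    rw [Finset.disjoint_left]
    intro e he he'
    obtain ⟨i, _, hi⟩ := Finset.mem_image.1 he
    obtain ⟨j, _, hj⟩ := Finset.mem_image.1 he'
    exact h.dj i j (hi.trans hj.symm)
  rw [Finset.prod_union hdis, Finset.prod_image, Finset.prod_image, eval_den, eval_den]
  · intro i hi j hj hij
    exact h.cb'.dist i j (Finset.mem_range.1 hi) (Finset.mem_range.1 hj) hij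
  · intro i hi j hj hij
    exact h.cb.dist i j (Finset.mem_range.1 hi) (Finset.mem_range.1 hj) hij

lemma card_E2 {n k k' : ℕ} {c : ℂ} {b b' ρ ρ' : ℕ → ℂ} {s : ℂ}
    (h : Two n k k' c b b' ρ ρ' s) : (E2 k k' b b').card = k + k' := by
  unfold E2
  have hdis : Disjoint ((Finset.range k).image b) ((Finset.range k').image b') := by
    rw [Finset.disjoint_left]
    intro e he he'
    obtain ⟨i, _, hi⟩ := Finset.mem_image.1 he
    obtain ⟨j, _, hj⟩ := Finset.mem_image.1 he'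
    exact h.dj i j (hi.trans hj.symm)
  rw [Finset.card_union_of_disjoint hdis, Finset.card_image_of_injOn, Finset.card_image_of_injOn,
    Finset.card_range, Finset.card_range]
  · intro i hi j hj hij
    exact h.cb'.dist i j (Finset.mem_range.1 hi) (Finset.mem_range.1 hj) hij
  · intro i hi j hj hij
    exact h.cb.dist i j (Finset.mem_range.1 hi) (Finset.mem_range.1 hj) hij

lemma not_mem {n k k' : ℕ} {c : ℂ} {b b' ρ ρ' : ℕ → ℂ} {s : ℂ}
    (h : Two n k k' c b b' ρ ρ' s) {x : ℂ} (hx : x ∉ E2 k k' b b') :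
    (∀ j, x ≠ b j) ∧ ∀ j, x ≠ b' j := by
  unfold E2 at hx
  rw [Finset.mem_union, not_or] at hx
  constructor
  · intro j he
    apply hx.1
    rw [he, cyc_mod h.cb j]
    exact Finset.mem_image_of_mem _ (Finset.mem_range.2 (Nat.mod_lt _ h.cb.hp))
  · intro j he
    apply hx.2
    rw [he, cyc_mod h.cb' j]
    exact Finset.mem_image_of_mem _ (Finset.mem_range.2 (Nat.mod_lt _ h.cb'.hp))

lemma ph2_eq {n k k' : ℕ} {c : ℂ} {b b' ρ ρ' : ℕ → ℂ} {s : ℂ}
    (h : Two n k k' c b b' ρ ρ' s) {x : ℂ} (hx : x ∉ E2 k k' b b') :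
    ph2 k k' b b' ρ ρ' s x * ((den k b).eval x * (den k' b').eval x) =
      (pol2 k k' b b' ρ ρ' s).eval x := by
  obtain ⟨h1, h2⟩ := not_mem h hx
  have e1 := eq_pol k b ρ x h1
  have e2 := eq_pol k' b' ρ' x h2
  rw [← eval_den] at e1 e2
  rw [eval_pol2, ← e1, ← e2]
  unfold ph2
  ring

lemma pole_b {n k k' : ℕ} {c : ℂ} {b b' ρ ρ' : ℕ → ℂ} {s : ℂ}
    (h : Two n k k' c b b' ρ ρ' s) {j : ℕ} (hj : j < k) :
    (pol2 k k' b b' ρ ρ' s).eval (b j) ≠ 0 := by
  have h0 : (den k b).eval (b j) = 0 := by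
    rw [eval_den]
    exact Finset.prod_eq_zero (i := j) (Finset.mem_range.2 hj) (by simp)
  rw [eval_pol2, h0, mul_zero, add_zero]
  refine mul_ne_zero (pole_pol ρ hj h.cb.dist) ?_
  rw [eval_den, Finset.prod_ne_zero_iff]
  intro i _
  exact pow_ne_zero _ (sub_ne_zero.2 (h.dj j i))

lemma pole_b' {n k k' : ℕ} {c : ℂ} {b b' ρ ρ' : ℕ → ℂ} {s : ℂ}
    (h : Two n k k' c b b' ρ ρ' s) {j : ℕ} (hj : j < k') :
    (pol2 k k' b b' ρ ρ' s).eval (b' j) ≠ 0 := by
  have h0 : (den k' b').eval (b' j) = 0 := by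
    rw [eval_den]
    exact Finset.prod_eq_zero (i := j) (Finset.mem_range.2 hj) (by simp)
  rw [eval_pol2, h0, mul_zero, zero_add]
  refine mul_ne_zero (mul_ne_zero h.s0 (pole_pol ρ' hj h.cb'.dist)) ?_
  rw [eval_den, Finset.prod_ne_zero_iff]
  intro i _
  exact pow_ne_zero _ (sub_ne_zero.2 (h.dj i j).symm)

end NUM2_

open NUM2_ in
/-- NUM2: the numerator. -/
theorem p_NUM2 (hDEC : T_DEC2) : T_NUM2 := by
  intro n k k' c b b' ρ ρ' s m N h
  have hk : 0 < k := h.cb.hp
  have hne : pol2 k k' b b' ρ ρ' s ≠ 0 := by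
    intro h0
    refine pole_b h hk ?_
    rw [h0, Polynomial.eval_zero]
  refine ⟨pol2 k k' b b' ρ ρ' s, hne, ?_, ?_, ?_⟩
  · obtain ⟨K, R, hR1, hR⟩ := hDEC n k k' c b b' ρ ρ' s h
    have hfin : ∃ M : ℝ, ∀ e ∈ E2 k k' b b', ‖e‖ ≤ M := by
      refine ⟨∑ e ∈ E2 k k' b b', ‖e‖, fun e he => ?_⟩
      exact Finset.single_le_sum (f := fun e => ‖e‖) (fun i _ => norm_nonneg i) he
    obtain ⟨M, hM⟩ := hfin
    have hcard : (E2 k k' b b').card = k + k' := card_E2 h
    have hden : (den k b * den k' b').natDegree = 2 * (E2 k k' b b').card := by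
      rw [Polynomial.natDegree_mul (den_ne k b) (den_ne k' b'), hcard]
      unfold den
      rw [natDegree_den, natDegree_den]
      ring
    show (pol2 k k' b b' ρ ρ' s).natDegree + 3 ≤ 2 * (E2 k k' b b').card
    rw [← hden]
    refine deg_le (K := K) (R := max R (M + 1)) hne fun x hx => ?_
    have hxE : x ∉ E2 k k' b b' := by
      intro he
      have h1 : M + 1 ≤ ‖x‖ := (le_max_right _ _).trans hx
      linarith [hM x he]
    rw [← ph2_eq h hxE, norm_mul, Polynomial.eval_mul]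
    exact mul_le_mul_of_nonneg_right (hR x ((le_max_left _ _).trans hx)) (norm_nonneg _)
  · intro e he
    have he' : e ∈ E2 k k' b b' := he
    unfold E2 at he'
    rw [Finset.mem_union] at he'
    rcases he' with h1 | h1
    · obtain ⟨j, hj, rfl⟩ := Finset.mem_image.1 h1
      exact pole_b h (Finset.mem_range.1 hj)
    · obtain ⟨j, hj, rfl⟩ := Finset.mem_image.1 h1
      exact pole_b' h (Finset.mem_range.1 hj)
  · intro x hx
    have hx' : x ∉ E2 k k' b b' := hx
    show ph2 k k' b b' ρ ρ' s x * ∏ e ∈ E2 k k' b b', (x - e) ^ 2 = _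
    rw [prod_E2 h, ph2_eq h hx']

end Pool.Agent.MEY
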