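import Pool.Agent.MEY.Targets2

/-!
# MEY, OMG: the extended half plane
-/

set_option autoImplicit false

open Complex Filter Topology Set
open Pool.Agent.MEX (LI LL)

namespace Pool.Agent.MEY

namespace OMG_

lemma log_nonneg {δ : ℝ} (h0 : 0 < δ) (h : δ ≤ 1 / 2) : 0 ≤ Real.log (1 / δ) := by
  refine Real.log_nonneg ?_
  rw [le_div_iff₀ h0]
  linarith

lemma LL_le {δ : ℝ} (h0 : 0 < δ) (h : δ ≤ 1 / 2) : LL δ ≤ δ ^ 2 := by
  have h1 := log_nonneg h0 h
  unfold LL
  refine div_le_self (by positivity) ?_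
  nlinarith

lemma LL_cont {δ : ℝ} (h0 : 0 < δ) (h : δ ≤ 1 / 2) : ContinuousAt LL δ := by
  have h1 := log_nonneg h0 h
  unfold LL
  have h2 : ContinuousAt (fun δ : ℝ => Real.log (1 / δ)) δ := by
    apply ContinuousAt.log
    · exact continuousAt_const.div continuousAt_id h0.ne'
    · positivity
  apply ContinuousAt.div
  · exact (continuousAt_id).pow 2
  · exact (continuousAt_const.add h2).pow 2
  · positivity

lemma farN_near {N : ℕ} {δ δ1 τ x : ℝ} (h : FarN N δ τ) (hx : N * |x - τ| ≤ δ - δ1) :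
    FarN N δ1 x := by
  intro q hq1 hqN m
  have hpi := Real.pi_gt_three
  have h1 := h q hq1 hqN m
  have hqN' : (q : ℝ) ≤ N := by exact_mod_cast hqN
  have h2 : (q : ℝ) * τ / (2 * Real.pi) - m =
      (q * x / (2 * Real.pi) - m) - q * (x - τ) / (2 * Real.pi) := by
    field_simp
    ring
  have h3 : |(q : ℝ) * (x - τ) / (2 * Real.pi)| ≤ δ - δ1 := by
    rw [abs_div, abs_mul, abs_of_pos (by positivity : (0 : ℝ) < 2 * Real.pi),
      abs_of_nonneg (by positivity : (0 : ℝ) ≤ q), div_le_iff₀ (by positivity)]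
    have h4 : (q : ℝ) * |x - τ| ≤ N * |x - τ| :=
      mul_le_mul_of_nonneg_right hqN' (abs_nonneg _)
    have h5 : 0 ≤ δ - δ1 := by
      have : (0 : ℝ) ≤ N * |x - τ| := by positivity
      linarith
    nlinarith
  rw [h2] at h1
  have h4 := abs_sub ((q : ℝ) * x / (2 * Real.pi) - m) (q * (x - τ) / (2 * Real.pi))
  linarith

lemma farN_per {N : ℕ} {δ x : ℝ} (m : ℤ) (h : FarN N δ x) :
    FarN N δ (x + 2 * Real.pi * m) := by
  intro q hq1 hqN m'
  have h1 := h q hq1 hqN (m' - q * m)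
  have hpi : (Real.pi : ℝ) ≠ 0 := Real.pi_ne_zero
  have h2 : (q : ℝ) * (x + 2 * Real.pi * m) / (2 * Real.pi) - m' =
      q * x / (2 * Real.pi) - ((m' - q * m : ℤ) : ℝ) := by
    push_cast
    field_simp
    ring
  rw [h2]
  exact h1

lemma mem_per {N : ℕ} {κ : ℝ} (μ : ℂ) (m : ℤ) (h : μ ∈ Omg N κ) :
    μ + 2 * Real.pi * I * m ∈ Omg N κ := by
  have hre : (μ + 2 * Real.pi * I * m).re = μ.re := by simp
  have him : (μ + 2 * Real.pi * I * m).im = μ.im + 2 * Real.pi * m := by simp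
  rcases h with h | ⟨δ, h0, h1, h2, h3⟩
  · exact Or.inl (by rw [hre]; exact h)
  · refine Or.inr ⟨δ, h0, h1, ?_, ?_⟩
    · rw [him]
      exact farN_per m h2
    · rw [hre]
      exact h3

end OMG_

open OMG_ in
theorem p_OMG : T_OMG := by
  intro N κ hκ
  refine ⟨⟨?_, ?_, ⟨0, fun ζ hζ => Or.inl hζ⟩⟩, ?_, ?_⟩
  · rw [isOpen_iff_mem_nhds]
    intro μ hμ
    rcases hμ with h | ⟨δ, h0, h1, h2, h3⟩
    · have : {ν : ℂ | ν.re < 0} ∈ 𝓝 μ :=
        (isOpen_lt Complex.continuous_re continuous_const).mem_nhds h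
      filter_upwards [this] with ν hν
      exact Or.inl hν
    · have e1 : ∀ᶠ x in 𝓝 δ, μ.re < κ * LL x := by
        have : ContinuousAt (fun x => κ * LL x) δ := continuousAt_const.mul (LL_cont h0 h1)
        exact this.eventually (lt_mem_nhds h3)
      have e2 : ∀ᶠ x in 𝓝[<] δ, μ.re < κ * LL x ∧ 0 < x ∧ x < δ := by
        filter_upwards [nhdsWithin_le_nhds e1, nhdsWithin_le_nhds (lt_mem_nhds h0),
          self_mem_nhdsWithin] with x hx1 hx2 hx3
        exact ⟨hx1, hx2, hx3⟩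
      obtain ⟨δ1, hd1, hd2, hd3⟩ := e2.exists
      have e3 : ∀ᶠ ν : ℂ in 𝓝 μ, ν.re < κ * LL δ1 :=
        (isOpen_lt Complex.continuous_re continuous_const).mem_nhds hd1
      have e4 : ∀ᶠ ν : ℂ in 𝓝 μ, N * |ν.im - μ.im| < δ - δ1 := by
        have hc : Continuous fun ν : ℂ => (N : ℝ) * |ν.im - μ.im| := by fun_prop
        refine (isOpen_lt hc continuous_const).mem_nhds ?_
        simp only [mem_ofPred_eq, sub_self, abs_zero, mul_zero]
        linarith
      filter_upwards [e3, e4] with ν hν1 hν2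
      exact Or.inr ⟨δ1, hd2, hd3.le.trans h1, farN_near h2 hν2.le, hν1⟩
  · intro ζ hζ s hs
    have hre : (ζ - s).re ≤ ζ.re := by simp [hs]
    have him : (ζ - s).im = ζ.im := by simp
    rcases hζ with h | ⟨δ, h0, h1, h2, h3⟩
    · exact Or.inl (lt_of_le_of_lt hre h)
    · refine Or.inr ⟨δ, h0, h1, ?_, lt_of_le_of_lt hre h3⟩
      rw [him]
      exact h2
  · intro μ m
    refine ⟨fun h => ?_, mem_per μ m⟩
    have h1 := mem_per _ (-m) h
    have h2 : μ + 2 * Real.pi * I * m + 2 * Real.pi * I * ((-m : ℤ) : ℂ) = μ := by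
      push_cast
      ring
    rwa [h2] at h1
  · intro μ hμ
    rcases hμ with h | ⟨δ, h0, h1, h2, h3⟩
    · exact lt_of_lt_of_le h (by positivity)
    · have h4 := LL_le h0 h1
      have h5 : δ ^ 2 ≤ 1 / 4 := by nlinarith
      have h6 : κ * LL δ ≤ κ := by nlinarith
      exact (h3.trans_le h6).trans_le (le_max_left _ _)

end Pool.Agent.MEY
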