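import Pool.Agent.MEY.Targets2
import Pool.Agent.MEX.Basic

/-!
# MEY: SAME, sections with a common cycle coincide up to a rotation
-/

set_option autoImplicit false

open Complex Filter Topology Set MeasureTheory
open Pool.Agent.Limb (F)
open Pool.Agent.PLim (Cyc Res fp Rho)
open Pool.Agent.MEX (LI Exa LL)

namespace Pool.Agent.MEY

namespace SAME_

/-- joint continuity of the iterates -/
lemma contI (n k : ℕ) : Continuous (fun q : ℂ × ℂ => (F n q.1)^[k] q.2) := by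
  induction k with
  | zero => simpa using continuous_snd
  | succ k ih =>
    simp only [Function.iterate_succ_apply', F]
    exact (ih.pow n).add continuous_fst

/-- the image of a periodic point -/
lemma pt_step {n k : ℕ} {c z w : ℂ} (hk : 1 ≤ k) (h : Pt n k c z w) :
    Pt n k c (F n c z) w := by
  refine ⟨?_, ?_, ?_⟩
  · rw [← Function.iterate_succ_apply, Function.iterate_succ_apply', h.fix]
  · intro j hj hjk he
    apply h.exa j hj hjk
    have h1 : (F n c)^[k - 1] ((F n c)^[j] (F n c z)) = (F n c)^[j] z := by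
      rw [← Function.iterate_succ_apply, ← Function.iterate_add_apply,
        show k - 1 + j.succ = j + k by omega, Function.iterate_add_apply, h.fix]
    have h2 : (F n c)^[k - 1] (F n c z) = z := by
      rw [← Function.iterate_succ_apply, show (k - 1).succ = k by omega, h.fix]
    rw [he, h2] at h1
    exact h1.symm
  · rw [← h.mul, Pool.Agent.MEX.Rho_eq, Pool.Agent.MEX.Rho_eq]
    obtain ⟨m, rfl⟩ : ∃ m, k = m + 1 := ⟨k - 1, by omega⟩
    rw [Finset.prod_range_succ, Finset.prod_range_succ' _ m]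
    congr 1
    rw [← Function.iterate_succ_apply, h.fix]
    rfl

/-- the points of the cycle of a periodic point -/
lemma pt_iter {n k : ℕ} {c z w : ℂ} (hk : 1 ≤ k) (h : Pt n k c z w) (j : ℕ) :
    Pt n k c ((F n c)^[j] z) w := by
  induction j with
  | zero => simpa using h
  | succ j ih =>
    rw [Function.iterate_succ_apply']
    exact pt_step hk ih

end SAME_

open SAME_ in
theorem p_SAME (h1 : T_OMG) (h2 : T_DDO) (h3 : T_LUQ) : T_SAME := by
  intro N κ hκ hG n k c c' Ψ X Ψ' X' w w' hn hk hg hg' hw hw' hw0 hw0' hΨ hj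
  obtain ⟨j, hj⟩ := hj
  obtain ⟨hLI, -, -⟩ := h1 N κ hκ
  obtain ⟨hO, -, -, hE, hL, hR⟩ := h2 n N κ hn hκ
  have hn1 : n - 1 ≠ 0 := by omega
  have hnC : ((n - 1 : ℕ) : ℂ) ≠ 0 := by exact_mod_cast hn1
  have hp1 := pt_iter hk (hg.pt w hw) j
  have hp2 := hg'.pt w' hw'
  rw [hj, hΨ] at hp1
  have hww : w ^ (n - 1) = w' ^ (n - 1) := by rw [← hp1.mul, ← hp2.mul]
  obtain ⟨ζ, hζw⟩ : ∃ ζ : ℂ, ζ * w = w' := ⟨w' / w, div_mul_cancel₀ w' hw0⟩
  have hζ1 : ζ ^ (n - 1) = 1 := by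
    have h4 : ζ ^ (n - 1) * w ^ (n - 1) = 1 * w ^ (n - 1) := by
      rw [← mul_pow, hζw, one_mul, hww]
    exact mul_right_cancel₀ (pow_ne_zero _ hw0) h4
  obtain ⟨μ1, hμ1, hwμ⟩ := hL w hw hw0
  obtain ⟨e, hedef⟩ : ∃ e : ℂ → ℂ, e = fun μ => exp (μ / ((n - 1 : ℕ) : ℂ)) := ⟨_, rfl⟩
  have he : Continuous e := by
    rw [hedef]
    fun_prop
  have heD : ∀ μ ∈ Omg N κ, e μ ∈ DD n N κ := fun μ hμ => by
    rw [hedef]
    exact (hE μ).2 hμ
  have heζ : ∀ μ ∈ Omg N κ, ζ * e μ ∈ DD n N κ := fun μ hμ => (hR (e μ) ζ hζ1).2 (heD μ hμ)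
  have hepow : ∀ μ, (e μ) ^ (n - 1) = exp μ := by
    intro μ
    rw [hedef]
    simp only
    rw [← Complex.exp_nat_mul]
    congr 1
    field_simp
  have heζpow : ∀ μ, (ζ * e μ) ^ (n - 1) = exp μ := by
    intro μ
    rw [mul_pow, hζ1, one_mul, hepow]
  have c1 : ContinuousOn (fun μ => Ψ (e μ)) (Omg N κ) :=
    hg.dΨ.continuousOn.comp he.continuousOn heD
  have c1' : ContinuousOn (fun μ => X (e μ)) (Omg N κ) :=
    hg.dX.continuousOn.comp he.continuousOn heD
  have c2 : ContinuousOn (fun μ => (F n (Ψ (e μ)))^[j] (X (e μ))) (Omg N κ) :=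
    (contI n j).comp_continuousOn (c1.prodMk c1')
  have c3 : ContinuousOn (fun μ => Ψ' (ζ * e μ)) (Omg N κ) :=
    hg'.dΨ.continuousOn.comp (continuous_const.mul he).continuousOn heζ
  have c4 : ContinuousOn (fun μ => X' (ζ * e μ)) (Omg N κ) :=
    hg'.dX.continuousOn.comp (continuous_const.mul he).continuousOn heζ
  have hew : e μ1 = w := by rw [hedef, hwμ]
  have key := h3 N κ hG n k (Omg N κ) (fun μ => Ψ (e μ))
    (fun μ => (F n (Ψ (e μ)))^[j] (X (e μ))) (fun μ => Ψ' (ζ * e μ)) (fun μ => X' (ζ * e μ)) μ1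
    hn hk hLI.isPreconnected Subset.rfl c1 c2 c3 c4
    (fun μ hμ => by
      have := pt_iter hk (hg.pt (e μ) (heD μ hμ)) j
      rw [hepow] at this
      exact this)
    (fun μ hμ => by
      have := hg'.pt (ζ * e μ) (heζ μ hμ)
      rw [heζpow] at this
      exact this) hμ1
    (by rw [hew, hζw, hΨ]) (by rw [hew, hζw, hj])
  have hv : ∀ v ∈ DD n N κ, v ≠ 0 → Ψ' (ζ * v) = Ψ v := by
    intro v hv hv0
    obtain ⟨μ, hμ, hvμ⟩ := hL v hv hv0
    have h5 := key.1 hμ
    have h6 : e μ = v := by rw [hedef, hvμ]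
    simp only [h6] at h5
    exact h5.symm
  refine ⟨ζ, hζ1, hζw.symm, ?_⟩
  intro v hvD
  by_cases hv0 : v = 0
  · subst hv0
    have hD0 : DD n N κ ∈ 𝓝 (0 : ℂ) := hO.mem_nhds hvD
    have t1 : Tendsto Ψ (𝓝[≠] 0) (𝓝 (Ψ 0)) :=
      ((hg.dΨ.continuousOn.continuousAt hD0).tendsto).mono_left nhdsWithin_le_nhds
    have hc2 : ContinuousAt (fun v => Ψ' (ζ * v)) 0 := by
      have h7 : ContinuousAt Ψ' (ζ * 0) := by
        rw [mul_zero]
        exact hg'.dΨ.continuousOn.continuousAt hD0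
      exact ContinuousAt.comp (f := fun v : ℂ => ζ * v) h7 (continuous_const.mul continuous_id).continuousAt
    have t2 : Tendsto (fun v => Ψ' (ζ * v)) (𝓝[≠] 0) (𝓝 (Ψ' (ζ * 0))) :=
      hc2.tendsto.mono_left nhdsWithin_le_nhds
    have ev : (fun v => Ψ' (ζ * v)) =ᶠ[𝓝[≠] 0] Ψ := by
      filter_upwards [self_mem_nhdsWithin, nhdsWithin_le_nhds hD0] with v hv1 hv2
      exact hv v hv2 hv1
    exact tendsto_nhds_unique (t2.congr' ev) t1 ▸ rfl
  · exact hv v hvD hv0

end Pool.Agent.MEY
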