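import Pool.Agent.MEY.Targets2
import Pool.Agent.MEX.Basic

/-!
# MEY, TWO: the datum of two cycles
-/

set_option autoImplicit false

open Complex Filter Topology Set MeasureTheory
open Pool.Agent.Multibrot (MM rt push)
open Pool.Agent.Limb (F)
open Pool.Agent.PLim (Cyc Res fp fpp Rho LocFix)
open Pool.Agent.MEX (PP cyc_mod)

namespace Pool.Agent.MEY

namespace TWO_

/-! ### the local form at a pole -/

lemma term_cont {e a ρ : ℂ} (h : e ≠ a) :
    ContinuousAt (fun x : ℂ => ((x - a) ^ 2)⁻¹ + ρ * (x - a)⁻¹) e := by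
  have h1 : e - a ≠ 0 := sub_ne_zero.2 h
  have h2 : ContinuousAt (fun x : ℂ => x - a) e := by fun_prop
  exact ((h2.pow 2).inv₀ (pow_ne_zero _ h1)).add (continuousAt_const.mul (h2.inv₀ h1))

lemma AA_cont {k : ℕ} {b ρ : ℕ → ℂ} {e : ℂ} (h : ∀ j, e ≠ b j) :
    ContinuousAt (Pool.Agent.PLim.AA k b ρ) e := by
  unfold Pool.Agent.PLim.AA
  exact tendsto_finsetSum _ fun j _ => term_cont (h j)

/-- the regular part at the pole `b j` -/
lemma AA_split {n k : ℕ} {c : ℂ} {b : ℕ → ℂ} (ρ : ℕ → ℂ) (h : Cyc n k c b) {j : ℕ} (hj : j < k) :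
    ∃ g : ℂ → ℂ, ContinuousAt g (b j) ∧ ∀ x, Pool.Agent.PLim.AA k b ρ x =
      ((x - b j) ^ 2)⁻¹ + ρ j * (x - b j)⁻¹ + g x := by
  refine ⟨fun x => ∑ i ∈ (Finset.range k).erase j, (((x - b i) ^ 2)⁻¹ + ρ i * (x - b i)⁻¹), ?_,
    fun x => ?_⟩
  · refine tendsto_finsetSum _ fun i hi => ?_
    rw [Finset.mem_erase, Finset.mem_range] at hi
    exact term_cont fun he => hi.1 (h.dist _ _ hj hi.2 he).symm
  · unfold Pool.Agent.PLim.AA
    exact (Finset.add_sum_erase _ (fun i => ((x - b i) ^ 2)⁻¹ + ρ i * (x - b i)⁻¹)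
      (Finset.mem_range.2 hj)).symm

/-- a function with a double pole -/
def Pole (f : ℂ → ℂ) (e α : ℂ) : Prop :=
  ∃ (β : ℂ) (g : ℂ → ℂ), ContinuousAt g e ∧
    ∀ x, f x = α * ((x - e) ^ 2)⁻¹ + β * (x - e)⁻¹ + g x

lemma Pole.lim {f : ℂ → ℂ} {e α : ℂ} (h : Pole f e α) :
    Tendsto (fun x => (x - e) ^ 2 * f x) (𝓝[≠] e) (𝓝 α) := by
  obtain ⟨β, g, hg, hf⟩ := h
  have h1 : Tendsto (fun x => α + β * (x - e) + (x - e) ^ 2 * g x) (𝓝[≠] e)
      (𝓝 (α + β * (e - e) + (e - e) ^ 2 * g e)) := by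
    have h2 : ContinuousAt (fun x => α + β * (x - e) + (x - e) ^ 2 * g x) e := by
      have h3 : ContinuousAt (fun x : ℂ => x - e) e := by fun_prop
      exact (continuousAt_const.add (continuousAt_const.mul h3)).add ((h3.pow 2).mul hg)
    exact h2.tendsto.mono_left nhdsWithin_le_nhds
  have h4 : α + β * (e - e) + (e - e) ^ 2 * g e = α := by simp
  rw [h4] at h1
  refine h1.congr' ?_
  filter_upwards [self_mem_nhdsWithin] with x hx
  have h5 : x - e ≠ 0 := sub_ne_zero.2 hx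
  rw [hf]
  field_simp

lemma Pole.bd {f : ℂ → ℂ} {e α : ℂ} (h : Pole f e α) : ∃ M : ℝ, 0 ≤ M ∧ ∀ M' : ℝ, M ≤ M' →
    ∀ᶠ x in 𝓝[≠] e, ‖f x‖ ≤ ‖α‖ * (‖x - e‖ ^ 2)⁻¹ + M' * ‖x - e‖⁻¹ := by
  obtain ⟨β, g, hg, hf⟩ := h
  refine ⟨‖β‖ + (‖g e‖ + 1), by positivity, fun M' hM => ?_⟩
  have h1 : ∀ᶠ x in 𝓝[≠] e, ‖g x‖ < ‖g e‖ + 1 :=
    (hg.norm.tendsto.mono_left nhdsWithin_le_nhds).eventually_lt_const (by linarith)
  have h2 : ∀ᶠ x in 𝓝[≠] e, ‖x - e‖ < 1 := by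
    have h3 : ContinuousAt (fun x : ℂ => ‖x - e‖) e := by fun_prop
    exact (h3.tendsto.mono_left nhdsWithin_le_nhds).eventually_lt_const (by simp)
  filter_upwards [h1, h2, self_mem_nhdsWithin] with x hx1 hx2 hx3
  have h4 : 0 < ‖x - e‖ := norm_pos_iff.2 (sub_ne_zero.2 hx3)
  have h5 : 1 ≤ ‖x - e‖⁻¹ := (one_le_inv₀ h4).2 hx2.le
  rw [hf]
  calc ‖α * ((x - e) ^ 2)⁻¹ + β * (x - e)⁻¹ + g x‖
      ≤ ‖α * ((x - e) ^ 2)⁻¹‖ + ‖β * (x - e)⁻¹‖ + ‖g x‖ := norm_add₃_le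
    _ = ‖α‖ * (‖x - e‖ ^ 2)⁻¹ + ‖β‖ * ‖x - e‖⁻¹ + ‖g x‖ := by
        rw [norm_mul, norm_mul, norm_inv, norm_inv, norm_pow]
    _ ≤ ‖α‖ * (‖x - e‖ ^ 2)⁻¹ + ‖β‖ * ‖x - e‖⁻¹ + (‖g e‖ + 1) * ‖x - e‖⁻¹ := by
        have h6 : (‖g e‖ + 1) * 1 ≤ (‖g e‖ + 1) * ‖x - e‖⁻¹ :=
          mul_le_mul_of_nonneg_left h5 (by positivity)
        linarith
    _ = ‖α‖ * (‖x - e‖ ^ 2)⁻¹ + (‖β‖ + (‖g e‖ + 1)) * ‖x - e‖⁻¹ := by ring
    _ ≤ _ := by
        have h6 := mul_le_mul_of_nonneg_right hM (inv_nonneg.2 h4.le)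
        linarith

variable {n k k' : ℕ} {c : ℂ} {b b' ρ ρ' : ℕ → ℂ} {s : ℂ}

lemma pole1 (h : Two n k k' c b b' ρ ρ' s) {j : ℕ} (hj : j < k) :
    Pole (ph2 k k' b b' ρ ρ' s) (b j) 1 := by
  obtain ⟨g, hg, he⟩ := AA_split ρ h.cb hj
  refine ⟨ρ j, fun x => g x + s * Pool.Agent.PLim.AA k' b' ρ' x, ?_, fun x => ?_⟩
  · exact hg.add (continuousAt_const.mul (AA_cont fun i => h.dj j i))
  · unfold ph2
    rw [he]
    ring

lemma pole2 (h : Two n k k' c b b' ρ ρ' s) {j : ℕ} (hj : j < k') :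
    Pole (ph2 k k' b b' ρ ρ' s) (b' j) s := by
  obtain ⟨g, hg, he⟩ := AA_split ρ' h.cb' hj
  refine ⟨s * ρ' j, fun x => Pool.Agent.PLim.AA k b ρ x + s * g x, ?_, fun x => ?_⟩
  · exact (AA_cont fun i => (h.dj i j).symm).add (continuousAt_const.mul hg)
  · unfold ph2
    rw [he]
    ring

/-! ### the poles -/

lemma mem_E2 {e : ℂ} : e ∈ E2 k k' b b' ↔ (∃ j < k, b j = e) ∨ ∃ j < k', b' j = e := by
  unfold E2
  simp only [Finset.mem_union, Finset.mem_image, Finset.mem_range]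

lemma b_mem (h : Cyc n k c b) (b' : ℕ → ℂ) (j : ℕ) : b j ∈ E2 k k' b b' :=
  mem_E2.2 (Or.inl ⟨j % k, Nat.mod_lt _ h.hp, (cyc_mod h j).symm⟩)

lemma b_mem' (h : Cyc n k' c b') (b : ℕ → ℂ) (j : ℕ) : b' j ∈ E2 k k' b b' :=
  mem_E2.2 (Or.inr ⟨j % k', Nat.mod_lt _ h.hp, (cyc_mod h j).symm⟩)

lemma ne_of_notMem (h : Two n k k' c b b' ρ ρ' s) {x : ℂ} (hx : x ∉ E2 k k' b b') :
    (∀ j, x ≠ b j) ∧ ∀ j, x ≠ b' j :=
  ⟨fun j he => hx (he ▸ b_mem h.cb b' j), fun j he => hx (he ▸ b_mem' h.cb' b j)⟩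

lemma hol2 (h : Two n k k' c b b' ρ ρ' s) (m : ℝ) (N : ℕ) : Hol (D2 k k' b b' ρ ρ' s m N) := by
  intro x hx
  obtain ⟨h1, h2⟩ := ne_of_notMem h hx
  exact (Pool.Agent.MEX.AA_differentiableAt h1).add
    ((Pool.Agent.MEX.AA_differentiableAt h2).const_mul s)

lemma card_E2 (k k' : ℕ) (b b' : ℕ → ℂ) : (E2 k k' b b').card ≤ k + k' := by
  unfold E2
  refine (Finset.card_union_le _ _).trans ?_
  have h1 := Finset.card_image_le (s := Finset.range k) (f := b)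
  have h2 := Finset.card_image_le (s := Finset.range k') (f := b')
  rw [Finset.card_range] at h1 h2
  omega

/-! ### the weights along one cycle -/

/-- the factor -/
noncomputable def qq (k : ℕ) (μ : ℂ) : ℝ := Real.exp (-(max μ.re 0 / k))

/-- the weights -/
noncomputable def tt (n k : ℕ) (b : ℕ → ℂ) (μ : ℂ) (j : ℕ) : ℝ :=
  ∏ i ∈ Finset.range j, (‖fp n (b i)‖ * qq k μ)

lemma qq_pos (k : ℕ) (μ : ℂ) : 0 < qq k μ := Real.exp_pos _

lemma qq_le (k : ℕ) (μ : ℂ) : qq k μ ≤ 1 := by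
  unfold qq
  apply Real.exp_le_one_iff.2
  have : 0 ≤ max μ.re 0 / k := div_nonneg (le_max_right _ _) (Nat.cast_nonneg k)
  linarith

lemma qq_log (k : ℕ) (μ : ℂ) : -Real.log (qq k μ) = max μ.re 0 / k := by
  unfold qq
  rw [Real.log_exp, neg_neg]

lemma fp_pos (hn : 2 ≤ n) (h : Cyc n k c b) (j : ℕ) : 0 < ‖fp n (b j)‖ := by
  rw [norm_pos_iff]
  exact mul_ne_zero (Nat.cast_ne_zero.2 (by omega)) (pow_ne_zero _ (h.nz j))

lemma tt_pos (hn : 2 ≤ n) (h : Cyc n k c b) (μ : ℂ) (j : ℕ) : 0 < tt n k b μ j :=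
  Finset.prod_pos fun i _ => mul_pos (fp_pos hn h i) (qq_pos k μ)

lemma tt_zero (n k : ℕ) (b : ℕ → ℂ) (μ : ℂ) : tt n k b μ 0 = 1 := by
  unfold tt
  simp

lemma tt_succ (n k : ℕ) (b : ℕ → ℂ) (μ : ℂ) (j : ℕ) :
    tt n k b μ (j + 1) = ‖fp n (b j)‖ * qq k μ * tt n k b μ j := by
  unfold tt
  rw [Finset.prod_range_succ, mul_comm]

lemma tt_k (h : Cyc n k c b) {μ : ℂ} (hμ : exp μ = ∏ j ∈ Finset.range k, fp n (b j)) :
    tt n k b μ k ≤ 1 := by
  have hk : (k : ℝ) ≠ 0 := by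
    have := h.hp
    positivity
  unfold tt
  rw [Finset.prod_mul_distrib, ← norm_prod, ← hμ, Complex.norm_exp, Finset.prod_const,
    Finset.card_range]
  unfold qq
  rw [← Real.exp_nat_mul, ← Real.exp_add]
  apply Real.exp_le_one_iff.2
  have h1 : (k : ℝ) * -(max μ.re 0 / k) = -max μ.re 0 := by field_simp
  rw [h1]
  linarith [le_max_left μ.re 0]

open Classical in
/-- the weight of one cycle, as a function of the point -/
noncomputable def TT (n k : ℕ) (b : ℕ → ℂ) (μ e : ℂ) : ℝ :=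
  ∑ j ∈ Finset.range k, if b j = e then tt n k b μ j else 0

lemma TT_eq (h : Cyc n k c b) (μ : ℂ) {j : ℕ} (hj : j < k) : TT n k b μ (b j) = tt n k b μ j := by
  classical
  unfold TT
  rw [Finset.sum_eq_single_of_mem j (Finset.mem_range.2 hj), if_pos rfl]
  intro i hi hij
  rw [if_neg]
  intro he
  exact hij (h.dist _ _ (Finset.mem_range.1 hi) hj he)

lemma TT_zero (b : ℕ → ℂ) (μ : ℂ) {e : ℂ} (he : ∀ j, b j ≠ e) : TT n k b μ e = 0 := by
  classical
  unfold TT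
  exact Finset.sum_eq_zero fun j _ => if_neg (he j)

lemma TT_step (h : Cyc n k c b) {μ : ℂ}
    (hμ : exp μ = ∏ j ∈ Finset.range k, fp n (b j)) {j : ℕ} (hj : j < k) :
    ‖fp n (b j)‖ * qq k μ * TT n k b μ (b j) ≤ TT n k b μ (b (j + 1)) := by
  rw [TT_eq h μ hj, ← tt_succ]
  rcases Nat.lt_or_ge (j + 1) k with h1 | h1
  · rw [TT_eq h μ h1]
  · have h2 : j + 1 = k := by omega
    have h3 : b (j + 1) = b 0 := by
      rw [h2]
      have := h.per 0
      rwa [zero_add] at this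
    rw [h3, TT_eq h μ h.hp, tt_zero, h2]
    exact tt_k h hμ

lemma F_b (h : Cyc n k c b) (j : ℕ) : F n c (b j) = b (j + 1) := (h.step j).symm

end TWO_

open TWO_ in
/-- TWO: the datum of two cycles -/
theorem p_TWO (hM : T_MSS) (hI : T_INV2) (hD : T_DEC2) (hN2 : T_NUM2) : T_TWO := by
  classical
  intro n k k' c b b' ρ ρ' s μ μ' m N h hμ hμ' hm hmm hN hcard
  have hn := h.hn
  have fE : ∀ x ∈ E2 k k' b b', F n c x ∈ E2 k k' b b' := by
    intro x hx
    rcases mem_E2.1 hx with ⟨j, _, rfl⟩ | ⟨j, _, rfl⟩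
    · rw [F_b h.cb]
      exact b_mem h.cb b' _
    · rw [F_b h.cb']
      exact b_mem' h.cb' b _
  have hinv : ∀ y : ℂ, y ≠ c → y ∉ E2 k k' b b' →
      push n c (ph2 k k' b b' ρ ρ' s) y = ph2 k k' b b' ρ ρ' s y :=
    hI n k k' c b b' ρ ρ' s h
  refine ⟨hn, h.cb, hμ, fun j => b_mem h.cb b' j, fE, hol2 h m N, ?_, ?_, hinv, ?_, hm, hN, ?_⟩
  · intro j
    have h1 := (pole1 h (Nat.mod_lt j h.cb.hp)).lim
    rw [← cyc_mod h.cb j] at h1
    exact h1
  · exact hN2 n k k' c b b' ρ ρ' s m N h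
  · obtain ⟨K, R, hR, hdec⟩ := hD n k k' c b b' ρ ρ' s h
    -- the constants at the poles
    have hal : ∀ e : ℂ, ∃ M : ℝ, 0 ≤ M ∧ (e ∈ E2 k k' b b' → ∀ M' : ℝ, M ≤ M' →
        ∀ᶠ x in 𝓝[≠] e, ‖ph2 k k' b b' ρ ρ' s x‖ ≤
          (if ∃ j < k, b j = e then 1 else ‖s‖) * (‖x - e‖ ^ 2)⁻¹ + M' * ‖x - e‖⁻¹) := by
      intro e
      by_cases he : ∃ j < k, b j = e
      · obtain ⟨j, hj, hje⟩ := he
        obtain ⟨M, hM0, hMb⟩ := (pole1 h hj).bd
        refine ⟨M, hM0, fun _ M' hM' => ?_⟩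
        rw [if_pos ⟨j, hj, hje⟩, ← hje]
        have := hMb M' hM'
        rwa [norm_one] at this
      · by_cases he' : ∃ j < k', b' j = e
        · obtain ⟨j, hj, hje⟩ := he'
          obtain ⟨M, hM0, hMb⟩ := (pole2 h hj).bd
          refine ⟨M, hM0, fun _ M' hM' => ?_⟩
          rw [if_neg he, ← hje]
          exact hMb M' hM'
        · refine ⟨0, le_rfl, fun hmem => ?_⟩
          rcases mem_E2.1 hmem with h1 | h1
          · exact absurd h1 he
          · exact absurd h1 he'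
    choose Mf hMf0 hMf using hal
    have hMs : ∀ e ∈ E2 k k' b b', Mf e ≤ ∑ e ∈ E2 k k' b b', Mf e := fun e he =>
      Finset.single_le_sum (fun i _ => hMf0 i) he
    have hnj : ∀ j, ¬ ∃ i < k, b i = b' j := fun j => by
      rintro ⟨i, _, hi⟩
      exact h.dj i j hi
    have key := hM n c (D2 k k' b b' ρ ρ' s m N)
      (fun e => if ∃ j < k, b j = e then 1 else ‖s‖)
      (fun e => if ∃ j < k, b j = e then qq k μ else qq k' μ')
      (fun e => TT n k b μ e + TT n k' b' μ' e) K R (∑ e ∈ E2 k k' b b', Mf e) hn (hol2 h m N) fE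
      (fun x hx => by
        rcases mem_E2.1 hx with ⟨j, _, rfl⟩ | ⟨j, _, rfl⟩
        · exact h.cb.nz j
        · exact h.cb'.nz j)
      hinv hR (Finset.sum_nonneg fun e _ => hMf0 e) hdec
      (fun e he => by
        rcases mem_E2.1 he with ⟨j, hj, rfl⟩ | ⟨j, hj, rfl⟩
        · have h1 : ∃ i < k, b i = b j := ⟨j, hj, rfl⟩
          have h2 : ∀ i, TT n k' b' μ' (b i) = 0 := fun i => TT_zero b' μ' fun l => (h.dj i l).symm
          simp only [if_pos h1, F_b h.cb, h2, add_zero]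
          refine ⟨?_, qq_pos _ _, qq_le _ _, zero_le_one, TT_step h.cb hμ hj⟩
          rw [TT_eq h.cb μ hj]
          exact tt_pos hn h.cb μ j
        · have h2 : ∀ i, TT n k b μ (b' i) = 0 := fun i => TT_zero b μ fun l => h.dj l i
          simp only [if_neg (hnj j), F_b h.cb', h2, zero_add]
          refine ⟨?_, qq_pos _ _, qq_le _ _, norm_nonneg s, TT_step h.cb' hμ' hj⟩
          rw [TT_eq h.cb' μ' hj]
          exact tt_pos hn h.cb' μ' j)
      (fun e he => hMf e he _ (hMs e he))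
    refine le_trans key ?_
    apply ENNReal.ofReal_le_ofReal
    have hsum : ∑ e ∈ E2 k k' b b', 2 * Real.pi *
        ((if ∃ j < k, b j = e then 1 else ‖s‖) *
          -Real.log (if ∃ j < k, b j = e then qq k μ else qq k' μ')) =
        2 * Real.pi * (max μ.re 0 + ‖s‖ * max μ'.re 0) := by
      unfold E2
      rw [Finset.sum_union, Finset.sum_image, Finset.sum_image]
      · have h1 : ∀ j ∈ Finset.range k, 2 * Real.pi *
            ((if ∃ i < k, b i = b j then 1 else ‖s‖) *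
              -Real.log (if ∃ i < k, b i = b j then qq k μ else qq k' μ')) =
            2 * Real.pi * (max μ.re 0 / k) := by
          intro j hj
          have h3 : ∃ i < k, b i = b j := ⟨j, Finset.mem_range.1 hj, rfl⟩
          rw [if_pos h3, if_pos h3, one_mul, qq_log]
        have h2 : ∀ j ∈ Finset.range k', 2 * Real.pi *
            ((if ∃ i < k, b i = b' j then 1 else ‖s‖) *
              -Real.log (if ∃ i < k, b i = b' j then qq k μ else qq k' μ')) =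
            2 * Real.pi * (‖s‖ * (max μ'.re 0 / k')) := by
          intro j _
          rw [if_neg (hnj j), if_neg (hnj j), qq_log]
        rw [Finset.sum_congr rfl h1, Finset.sum_congr rfl h2, Finset.sum_const, Finset.sum_const,
          Finset.card_range, Finset.card_range, nsmul_eq_mul, nsmul_eq_mul]
        have hk : (k : ℝ) ≠ 0 := by
          have := h.cb.hp
          positivity
        have hk' : (k' : ℝ) ≠ 0 := by
          have := h.cb'.hp
          positivity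
        field_simp
      · intro i hi j hj hij
        exact h.cb'.dist i j (Finset.mem_range.1 hi) (Finset.mem_range.1 hj) hij
      · intro i hi j hj hij
        exact h.cb.dist i j (Finset.mem_range.1 hi) (Finset.mem_range.1 hj) hij
      · rw [Finset.disjoint_left]
        intro e h1 h2
        rw [Finset.mem_image] at h1 h2
        obtain ⟨i, _, rfl⟩ := h1
        obtain ⟨j, _, hj⟩ := h2
        exact h.dj i j hj.symm
    have e1 : (D2 k k' b b' ρ ρ' s m N).E = E2 k k' b b' := rfl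
    have e2 : (D2 k k' b b' ρ ρ' s m N).m = m := rfl
    rw [e1, hsum, e2]
    exact mul_le_mul_of_nonneg_left hmm (by positivity)
  · have h1 := card_E2 k k' b b'
    have e1 : (D2 k k' b b' ρ ρ' s m N).E = E2 k k' b b' := rfl
    have e2 : (D2 k k' b b' ρ ρ' s m N).N = N := rfl
    rw [e1, e2]
    omega

end Pool.Agent.MEY
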