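import Pool.Agent.MEX.AllX
import Pool.Agent.MEY.All
import Pool.Agent.MEY.MSS
import Pool.Agent.MEY.INV2
import Pool.Agent.MEY.DEC2
import Pool.Agent.MEY.NUM2
import Pool.Agent.MEY.TWO
import Pool.Agent.MEY.NC2
import Pool.Agent.MEY.NCU
import Pool.Agent.MEY.OMG
import Pool.Agent.MEY.LIC
import Pool.Agent.MEY.GOD
import Pool.Agent.MEY.LFT
import Pool.Agent.MEY.LUQ
import Pool.Agent.MEY.GLE
import Pool.Agent.MEY.CEN
import Pool.Agent.MEY.DDO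
import Pool.Agent.MEY.GLB
import Pool.Agent.MEY.SAME
import Pool.Agent.MEY.IJG
import Pool.Agent.MEY.CMP
import Pool.Agent.MEY.NCZ
import Pool.Agent.MEY.EXM
import Pool.Agent.MEY.KDI
import Pool.Agent.MEY.LIMBZ
import Pool.Agent.MEY.LIMBY
import Pool.Agent.MEY.LIMBN

/-!
# MEY: assembly of part 2
-/

set_option autoImplicit false

namespace Pool.Agent.MEY

theorem a_MSS : T_MSS := p_MSS
theorem a_INV2 : T_INV2 := p_INV2
theorem a_DEC2 : T_DEC2 := p_DEC2 a_INV2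
theorem a_NUM2 : T_NUM2 := p_NUM2 a_DEC2
theorem a_TWO : T_TWO := p_TWO a_MSS a_INV2 a_DEC2 a_NUM2
theorem a_NC2 : T_NC2 := p_NC2 a_EXT a_TWO Pool.Agent.MEX.a_EXT
theorem a_NCU : T_NCU := p_NCU
theorem a_OMG : T_OMG := p_OMG
theorem a_LIC : T_LIC := p_LIC
theorem a_GOD : T_GOD := p_GOD
theorem a_LFT : T_LFT := p_LFT a_LIC
theorem a_LUQ : T_LUQ := p_LUQ
theorem a_GLE : T_GLE := p_GLE
theorem a_CEN : T_CEN := p_CEN a_GLE
theorem a_DDO : T_DDO := p_DDO a_OMG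
theorem a_GLB : T_GLB := p_GLB a_OMG a_LFT a_LUQ a_CEN
theorem a_SAME : T_SAME := p_SAME a_OMG a_DDO a_LUQ
theorem a_IJG : T_IJG := p_IJG a_DDO a_SAME
theorem a_CMP : T_CMP := p_CMP a_OMG a_DDO a_LFT a_LUQ
theorem a_NCZ : T_NCZ := p_NCZ a_OMG
theorem a_EXM : T_EXM := p_EXM Pool.Agent.MEX.a_NCX a_NC2 a_NCU a_NCZ a_GOD a_GLB a_IJG a_CMP
theorem a_KDI : T_KDI := p_KDI
theorem a_LIMBZ : T_LIMBZ := p_LIMBZ
theorem a_LIMBY : T_LIMBY := p_LIMBY a_LIMBZ a_KDI a_DDO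
theorem a_LIMBN : T_LIMBN := p_LIMBN a_LIMBZ a_KDI a_DDO

end Pool.Agent.MEY
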