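import Pool.Agent.MEY.Targets2
import Pool.Agent.MEX.Basic

/-!
# DDO: the extended disc
-/

set_option autoImplicit false

open Complex Filter Topology Set MeasureTheory
open Pool.Agent.MEX (LI lf PP Exa NCXk LL SECXk)

namespace Pool.Agent.MEY

namespace DDO_

variable {m : ℕ} {W : Set ℂ}

/-- Two logarithms. -/
theorem key (hper : ∀ (μ : ℂ) (j : ℤ), μ + 2 * Real.pi * I * j ∈ W ↔ μ ∈ W) {μ ν : ℂ}
    (h : exp μ = exp ν) : μ ∈ W ↔ ν ∈ W := by
  obtain ⟨j, hj⟩ := exp_eq_exp_iff_exists_int.1 h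
  rw [hj, show ν + (j : ℂ) * (2 * Real.pi * I) = ν + 2 * Real.pi * I * j by ring]
  exact hper ν j

theorem exp_mul_log {w : ℂ} (hw : w ≠ 0) : exp ((m : ℂ) * log w) = w ^ m := by
  rw [exp_nat_mul, exp_log hw]

/-- The extended disc in terms of any logarithm. -/
theorem mem_iff (hper : ∀ (μ : ℂ) (j : ℤ), μ + 2 * Real.pi * I * j ∈ W ↔ μ ∈ W) {w μ : ℂ}
    (hw : w ≠ 0) (h : exp μ = w ^ m) : (w = 0 ∨ (m : ℂ) * log w ∈ W) ↔ μ ∈ W := by
  constructor
  · rintro (h0 | h0)
    · exact absurd h0 hw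
    · exact (key hper ((exp_mul_log hw).trans h.symm)).1 h0
  · intro h0
    exact Or.inr ((key hper ((exp_mul_log hw).trans h.symm)).2 h0)

end DDO_

open DDO_ in
/-- DDO. -/
theorem p_DDO (h : T_OMG) : T_DDO := by
  intro n N κ hn hκ
  obtain ⟨hLI, hper, -⟩ := h N κ hκ
  set W := Omg N κ with hW
  have hm1 : 1 ≤ n - 1 := by omega
  have hm0 : ((n - 1 : ℕ) : ℂ) ≠ 0 := by
    exact_mod_cast (show n - 1 ≠ 0 by omega)
  have hball : Metric.ball (0 : ℂ) 1 ⊆ DD n N κ := by
    intro w hw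
    rcases eq_or_ne w 0 with h0 | h0
    · exact Or.inl h0
    · refine Or.inr (Or.inl ?_)
      have h1 : ‖w‖ < 1 := by simpa using hw
      have h2 : Real.log ‖w‖ < 0 := Real.log_neg (norm_pos_iff.2 h0) h1
      have h3 : (((n - 1 : ℕ) : ℂ) * log w).re = ((n - 1 : ℕ) : ℝ) * Real.log ‖w‖ := by
        rw [← ofReal_natCast, re_ofReal_mul, log_re]
      rw [h3]
      have h4 : (0 : ℝ) < ((n - 1 : ℕ) : ℝ) := by exact_mod_cast hm1
      exact mul_neg_of_pos_of_neg h4 h2
  have hexp : ∀ μ : ℂ, exp (μ / ((n - 1 : ℕ) : ℂ)) ∈ DD n N κ ↔ μ ∈ Omg N κ := by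
    intro μ
    refine mem_iff hper (exp_ne_zero _) ?_
    rw [← exp_nat_mul]
    congr 1
    field_simp
  have hlog : ∀ w ∈ DD n N κ, w ≠ 0 → ∃ μ ∈ Omg N κ, w = exp (μ / ((n - 1 : ℕ) : ℂ)) := by
    intro w hw h0
    rcases hw with hw | hw
    · exact absurd hw h0
    · refine ⟨_, hw, ?_⟩
      rw [mul_div_cancel_left₀ _ hm0, exp_log h0]
  refine ⟨?_, ?_, hball, hexp, hlog, ?_⟩
  · rw [isOpen_iff_mem_nhds]
    intro w hw
    rcases eq_or_ne w 0 with h0 | h0
    · rw [h0]
      exact Filter.mem_of_superset (Metric.ball_mem_nhds _ one_pos) hball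
    · have hmem : ((n - 1 : ℕ) : ℂ) * log w ∈ W := by
        rcases hw with hw | hw
        · exact absurd hw h0
        · exact hw
      set φ : ℂ → ℂ := fun v => ((n - 1 : ℕ) : ℂ) * (log w + log (v / w)) with hφ
      have hc : ContinuousAt φ w := by
        have h1 : ContinuousAt (fun v : ℂ => log (v / w)) w := by
          refine ContinuousAt.clog ?_ ?_
          · exact continuousAt_id.div_const w
          · rw [div_self h0]
            exact one_mem_slitPlane
        exact continuousAt_const.mul (continuousAt_const.add h1)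
      have hφw : φ w = ((n - 1 : ℕ) : ℂ) * log w := by
        rw [hφ]
        simp only
        rw [div_self h0, log_one, add_zero]
      have h2 : ∀ᶠ v in 𝓝 w, φ v ∈ W := by
        apply hc
        rw [hφw]
        exact hLI.op.mem_nhds hmem
      have h3 : ∀ᶠ v in 𝓝 w, v ≠ 0 := isOpen_ne.mem_nhds h0
      filter_upwards [h2, h3] with v hv hv0
      refine (mem_iff hper hv0 ?_).2 hv
      rw [hφ]
      simp only
      rw [exp_nat_mul, exp_add, exp_log h0, exp_log (div_ne_zero hv0 h0), mul_div_cancel₀ _ h0]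
  · have e : DD n N κ = Metric.ball 0 1 ∪ (fun μ : ℂ => exp (μ / ((n - 1 : ℕ) : ℂ))) '' W := by
      ext w
      constructor
      · intro hw
        rcases eq_or_ne w 0 with h0 | h0
        · left
          rw [h0]
          exact Metric.mem_ball_self one_pos
        · right
          obtain ⟨μ, h1, h2⟩ := hlog w hw h0
          exact ⟨μ, h1, h2.symm⟩
      · rintro (hw | ⟨μ, h1, rfl⟩)
        · exact hball hw
        · exact (hexp μ).2 h1
    rw [e]
    refine IsPreconnected.union (exp (-1 / ((n - 1 : ℕ) : ℂ))) ?_ ?_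
      (convex_ball (0 : ℂ) 1).isPreconnected ?_
    · rw [Metric.mem_ball, dist_zero_right, norm_exp, Real.exp_lt_one_iff]
      rw [← ofReal_natCast, show (-1 : ℂ) / (((n - 1 : ℕ) : ℝ) : ℂ) =
        (((-1 : ℝ) / ((n - 1 : ℕ) : ℝ) : ℝ) : ℂ) by push_cast; rfl, ofReal_re]
      have h4 : (0 : ℝ) < ((n - 1 : ℕ) : ℝ) := by exact_mod_cast hm1
      exact div_neg_of_neg_of_pos (by norm_num) h4
    · refine ⟨-1, Or.inl ?_, rfl⟩
      norm_num
    · refine hLI.isPreconnected.image _ ?_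
      exact (continuous_exp.comp (continuous_id.div_const _)).continuousOn
  · intro w ζ hζ
    have hζ0 : ζ ≠ 0 := by
      rintro rfl
      rw [zero_pow (by omega)] at hζ
      exact zero_ne_one hζ
    rcases eq_or_ne w 0 with h0 | h0
    · rw [h0, mul_zero]
    · have h1 : exp (((n - 1 : ℕ) : ℂ) * log w) = (ζ * w) ^ (n - 1) := by
        rw [mul_pow, hζ, one_mul]
        exact exp_mul_log h0
      exact (mem_iff hper (mul_ne_zero hζ0 h0) h1).trans (mem_iff hper h0 (exp_mul_log h0)).symm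

end Pool.Agent.MEY
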