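import Pool.Agent.MEX.Basic

/-!
# MEY: definitions

The theory of MEX for a general quadratic differential with double poles on a finite forward
invariant set (for instance a combination of the quadratic differentials of two cycles).
-/

set_option autoImplicit false

open Complex Filter Topology Set MeasureTheory
open Pool.Agent.Multibrot (rt push)
open Pool.Agent.Limb (F)
open Pool.Agent.PLim (Cyc fp fpp Rho LocFix)
open Pool.Agent.MEX (LI lf PP et)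

namespace Pool.Agent.MEY

/-- A quadratic differential `ph` with poles in the finite set `E`, a bound `m` for the mass defect
and a bound `N` for the average number of blocked heights. -/
structure Dat where
  ph : ℂ → ℂ
  E : Finset ℂ
  m : ℝ
  N : ℕ

/-- The quadratic differential (the first two arguments are not used). -/
def AA (_k : ℕ) (_b : ℕ → ℂ) (r : Dat) (x : ℂ) : ℂ := r.ph x

/-- The quadratic differential is holomorphic off the poles. -/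
def Hol (r : Dat) : Prop := ∀ x : ℂ, x ∉ r.E → DifferentiableAt ℂ r.ph x

/-- The numerator. -/
structure Num (k : ℕ) (b : ℕ → ℂ) (r : Dat) (P : Polynomial ℂ) : Prop where
  ne : P ≠ 0
  deg : P.natDegree + 3 ≤ 2 * r.E.card
  pole : ∀ e ∈ r.E, P.eval e ≠ 0
  eq : ∀ x : ℂ, x ∉ r.E → AA k b r x * ∏ e ∈ r.E, (x - e) ^ 2 = P.eval x

/-- The density of `|AA|`. -/
noncomputable def phe (k : ℕ) (b : ℕ → ℂ) (r : Dat) (x : ℂ) : ENNReal := ‖AA k b r x‖ₑ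

/-- A cycle of exact period `k` with multiplier `exp μ`, and a quadratic differential with double
poles in `E`, with coefficient `1` at the cycle, invariant under the push-forward. -/
structure Bad (n k : ℕ) (c : ℂ) (b : ℕ → ℂ) (r : Dat) (μ : ℂ) : Prop where
  hn : 2 ≤ n
  cyc : Cyc n k c b
  mul : exp μ = ∏ j ∈ Finset.range k, fp n (b j)
  bE : ∀ j, b j ∈ r.E
  fE : ∀ x ∈ r.E, F n c x ∈ r.E
  hol : Hol r
  lim : ∀ j, Tendsto (fun x => (x - b j) ^ 2 * r.ph x) (𝓝[≠] (b j)) (𝓝 1)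
  num : ∃ P : Polynomial ℂ, Num k b r P
  inv : ∀ y : ℂ, y ≠ c → y ∉ r.E → push n c r.ph y = r.ph y
  mass : ∫⁻ y, (PP n c (phe k b r) y - phe k b r y) ≤ ENNReal.ofReal (2 * Real.pi * r.m)
  m0 : 0 < r.m
  hN : 6 ≤ r.N
  card : 6 * r.E.card ≤ r.N * k + 8

/-! ### natural maps and charts -/

/-- Natural maps of the quadratic differential `AA k b r`: `g' ^ 2 * AA (g) = 1`. -/
structure NM (k : ℕ) (b : ℕ → ℂ) (r : Dat) (U : Set ℂ) (g : ℂ → ℂ) : Prop where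
  diff : DifferentiableOn ℂ g U
  avoid : ∀ ζ ∈ U, g ζ ∉ r.E
  nat : ∀ ζ ∈ U, deriv g ζ ^ 2 * AA k b r (g ζ) = 1
  hol : Hol r

/-- Charts at the double pole `b j`. -/
structure Cht (k : ℕ) (b : ℕ → ℂ) (r : Dat) (j : ℕ) (W : Set ℂ) (g : ℂ → ℂ) : Prop where
  li : LI W
  nm : NM k b r W g
  asy : Tendsto (fun ζ => (g ζ - b j) * exp (-ζ)) lf (𝓝 1)

/-- The maximal charts `χ j` on `V j`. -/
structure MaxC (k : ℕ) (b : ℕ → ℂ) (r : Dat) (V : ℕ → Set ℂ) (χ : ℕ → ℂ → ℂ) : Prop where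
  cht : ∀ j, Cht k b r j (V j) (χ j)
  mx : ∀ (j : ℕ) (W : Set ℂ) (g : ℂ → ℂ), Cht k b r j W g → W ⊆ V j ∧ EqOn g (χ j) W
  vper : ∀ (j : ℕ) (ζ : ℂ), ζ + 2 * Real.pi * I ∈ V j ↔ ζ ∈ V j
  cper : ∀ (j : ℕ), ∀ ζ ∈ V j, χ j (ζ + 2 * Real.pi * I) = χ j ζ
  vj : ∀ j, V (j + k) = V j
  cj : ∀ j, χ (j + k) = χ j

/-- The relative mass defect in the chart. -/
noncomputable def Dfc (n k : ℕ) (c : ℂ) (b : ℕ → ℂ) (r : Dat) (V : ℕ → Set ℂ) (χ : ℕ → ℂ → ℂ)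
    (j : ℕ) : ℂ → ENNReal :=
  (V j).indicator fun ζ => (PP n c)^[k] (phe k b r) (χ j ζ) / phe k b r (χ j ζ) - 1

/-- The pull back of the quadratic differential. -/
noncomputable def Lam (k : ℕ) (b : ℕ → ℂ) (r : Dat) (G : ℂ → ℂ) (ζ : ℂ) : ℂ :=
  AA k b r (G ζ) * deriv G ζ ^ 2

/-! ### one chart with small mass defect -/

/-- A chart with mass defect at most `d`. -/
structure Bas (n k : ℕ) (c : ℂ) (b : ℕ → ℂ) (r : Dat) (μ : ℂ) (V : ℕ → Set ℂ) (χ : ℕ → ℂ → ℂ)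
    (J : ℕ) (D : ℂ → ENNReal) (d : ℝ) : Prop where
  bad : Bad n k c b r μ
  mx : MaxC k b r V χ
  hJ : k ≤ J
  Dm : Measurable D
  Dper : ∀ ζ, D (ζ + 2 * Real.pi * I) = D ζ
  Dint : ∫⁻ ζ in {ζ : ℂ | 0 ≤ ζ.im ∧ ζ.im < 2 * Real.pi}, D ζ ≤ ENNReal.ofReal d
  wt : ∀ (m : ℕ) (W : Set ℂ) (G : ℂ → ℂ), m ≤ k → IsOpen W → W ⊆ V J → DifferentiableOn ℂ G W →
    (∀ ζ ∈ W, (F n c)^[m] (G ζ) = χ J ζ) →
    ∀ᵐ ζ : ℂ, ζ ∈ W → ENNReal.ofReal (‖1 - Lam k b r G ζ‖ + ‖Lam k b r G ζ‖) ≤ 1 + D ζ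
  wt2 : ∀ (m : ℕ) (W : Set ℂ) (G G' : ℂ → ℂ), m ≤ k → IsOpen W → W ⊆ V J →
    DifferentiableOn ℂ G W → DifferentiableOn ℂ G' W →
    (∀ ζ ∈ W, (F n c)^[m] (G ζ) = χ J ζ) → (∀ ζ ∈ W, (F n c)^[m] (G' ζ) = χ J ζ) →
    (∀ ζ ∈ W, G ζ ≠ G' ζ) →
    ∀ᵐ ζ : ℂ, ζ ∈ W → ENNReal.ofReal (‖Lam k b r G ζ‖ + ‖Lam k b r G' ζ‖) ≤ 1 + D ζ

/-- A region `{Re ζ < h + a (Im ζ)}` contained in the domain of the chart. -/
structure Rnd (n k : ℕ) (c : ℂ) (b : ℕ → ℂ) (r : Dat) (μ : ℂ) (V : ℕ → Set ℂ) (χ : ℕ → ℂ → ℂ)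
    (J : ℕ) (D : ℂ → ENNReal) (d h : ℝ) (a : ℝ → ℝ) : Prop
    extends Bas n k c b r μ V χ J D d where
  lip : ∀ x y : ℝ, |a x - a y| ≤ |x - y|
  aper : ∀ x : ℝ, a (x + 2 * Real.pi) = a x
  a0 : ∀ x : ℝ, 0 ≤ a x
  a1 : ∀ x : ℝ, a x ≤ 1 / 2
  sub : ∀ ζ : ℂ, 0 < et h a ζ → ζ ∈ V J

/-- The sheet of level `m` on `{lam < et}`. -/
structure Lvl (n k : ℕ) (c : ℂ) (b : ℕ → ℂ) (r : Dat) (χ : ℕ → ℂ → ℂ) (J : ℕ) (h : ℝ)
    (a : ℝ → ℝ) (m : ℕ) (lam : ℝ) (G : ℂ → ℂ) : Prop where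
  hk : m ≤ k
  hl : 0 ≤ lam
  diff : DifferentiableOn ℂ G {ζ : ℂ | lam < et h a ζ}
  sht : ∀ ζ : ℂ, lam < et h a ζ → (F n c)^[m] (G ζ) = χ J ζ
  per : ∀ ζ : ℂ, lam < et h a ζ → G (ζ + 2 * Real.pi * I) = G ζ
  asy : Tendsto (fun ζ => (G ζ - b (J - m)) * exp (-ζ)) lf
    (𝓝 (∏ i ∈ Finset.range m, fp n (b (J - m + i)))⁻¹)

/-! ### angles -/

/-- Half of the width of the tents. -/
noncomputable def om (N : ℕ) : ℝ := (Real.pi / N + Real.pi / (N + 1)) / 2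

/-- The tent function: `max 0 (om N - dist (y, θ + 2 π ℤ))`. -/
noncomputable def tnt (N : ℕ) (θ y : ℝ) : ℝ :=
  max 0 (om N - |y - θ - 2 * Real.pi * round ((y - θ) / (2 * Real.pi))|)

/-- `μ` has distance at least `2 π δ / q` from the points `2 π i p / q`, `q ≤ N`. -/
def FarC (N : ℕ) (δ : ℝ) (μ : ℂ) : Prop :=
  ∀ q : ℕ, 1 ≤ q → q ≤ N → ∀ m : ℤ, 2 * Real.pi * δ ≤ ‖q * μ - 2 * Real.pi * I * m‖

/-- `τ / 2 π` has distance at least `δ / q` from the rational numbers of denominator `q ≤ N`. -/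
def FarN (N : ℕ) (δ τ : ℝ) : Prop :=
  ∀ q : ℕ, 1 ≤ q → q ≤ N → ∀ m : ℤ, δ ≤ |q * τ / (2 * Real.pi) - m|

end Pool.Agent.MEY
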