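import Pool.Agent.MEY.Targets2
import Pool.Agent.MEX.FINX

/-!
# MEY, FIM: the final theorem
-/

set_option autoImplicit false

open Complex Filter Topology Set MeasureTheory
open Pool.Agent.Limb (F)
open Pool.Agent.PLim (Cyc Res fp fpp Rho LocFix IsLimb OMXn)
open Pool.Agent.MEX (LI lf PP Exa NCXk LL SECXk)

namespace Pool.Agent.MEY

theorem p_FIM (hE : T_EXM) (hL : T_LIMBY) : T_FIM := by
  obtain ⟨κ, hκ, hκ1, hX, hG, hU, hmain⟩ := hE 1 le_rfl
  have e12 : 6 * (1 + 1) = 12 := rfl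
  rw [e12] at hG hmain
  obtain ⟨C, hC, hlim⟩ := hL κ hκ hκ1 hG hU
  obtain ⟨a, ha, hO⟩ := Pool.Agent.MEX.FINX_.omx
  refine ⟨κ, C * a, hκ, hκ1, by positivity, hX, hG, hU, ?_⟩
  intro n hn
  obtain ⟨h1, h2, h3, h4⟩ := hmain n hn
  refine ⟨?_, h2, ?_, h4, ?_⟩
  · intro k c z z' w w' hk hz hz' hw hw'
    exact h1 k k c z z' w w' hk hk (by omega) (by omega) hz hz' hw hw'
  · intro k c c' Ψ X Ψ' X' w w' hk hΨ hΨ' hw hw' he
    exact (h3 k k c c' Ψ X Ψ' X' w w' hk hk (by omega) (by omega) hΨ hΨ' hw hw' he).2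
  · intro k p q c0 w0 Ψ X A δ hk hΨ hw0 hA hδ hF hlt c hc
    have hn2 : (2 : ℝ) ≤ n := by exact_mod_cast hn
    have hlog : 0 < Real.log n := Real.log_pos (by linarith)
    have e1 : C * (a * Real.log n) * k = C * a * Real.log n * k := by ring
    have h5 := hlim n (a * Real.log n) hn (by positivity) (hO n hn) k p q c0 w0 Ψ X A δ hk hΨ hw0
      hA hδ hF (by rw [e1]; exact hlt) c hc
    rw [e1] at h5
    exact h5

end Pool.Agent.MEY
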