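import Pool.Agent.MEY.UNQ

/-!
# MEY, SAM: two charts with the same value and derivative
-/

set_option autoImplicit false

open Complex Filter Topology Set MeasureTheory
open Pool.Agent.Multibrot (rt push)
open Pool.Agent.Limb (F)
open Pool.Agent.PLim (Cyc fp fpp Rho LocFix)
open Pool.Agent.MEX

namespace Pool.Agent.MEY

namespace SAM_

lemma tendsto_exp_lf : Tendsto exp lf (𝓝 0) := Complex.tendsto_exp_comap_re_atBot

lemma tendsto_add_lf (ζ : ℂ) : Tendsto (fun w => ζ + w) lf lf := by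
  unfold lf
  rw [tendsto_comap_iff]
  have h : (re ∘ fun w : ℂ => ζ + w) = fun w => ζ.re + w.re := by
    funext w
    simp
  rw [h]
  exact tendsto_atBot_add_const_left _ _ tendsto_comap

/-- translates of left invariant sets -/
lemma LI_shift {W : Set ℂ} (h : LI W) (ζ : ℂ) : LI {w : ℂ | ζ + w ∈ W} where
  op := h.op.preimage (continuous_const.add continuous_id)
  left := fun w hw s hs => by
    have h1 := h.left _ hw s hs
    show ζ + (w - s) ∈ W
    rwa [← add_sub_assoc]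
  inf := by
    obtain ⟨R, hR⟩ := h.inf
    refine ⟨R - ζ.re, fun w hw => hR _ ?_⟩
    rw [add_re]
    linarith

/-- the translated chart at the left end -/
lemma chart_lim {k : ℕ} {b : ℕ → ℂ} {r : Dat} {j : ℕ} {W : Set ℂ} {g : ℂ → ℂ} (h : Cht k b r j W g)
    (ζ : ℂ) : Tendsto (fun w => g (ζ + w)) lf (𝓝 (b j)) ∧
      Tendsto (fun w => (g (ζ + w) - b j) * exp (-w)) lf (𝓝 (exp ζ)) := by
  have h1 : Tendsto (fun w => (g (ζ + w) - b j) * exp (-(ζ + w))) lf (𝓝 1) :=
    h.asy.comp (tendsto_add_lf ζ)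
  have h2 : Tendsto (fun w => (g (ζ + w) - b j) * exp (-w)) lf (𝓝 (exp ζ)) := by
    have h3 := h1.mul_const (exp ζ)
    rw [one_mul] at h3
    refine h3.congr fun w => ?_
    rw [mul_assoc, ← exp_add]
    congr 2
    ring
  refine ⟨?_, h2⟩
  have h4 := (h2.mul tendsto_exp_lf).add_const (b j)
  rw [mul_zero, zero_add] at h4
  refine h4.congr fun w => ?_
  rw [mul_assoc, ← exp_add]
  simp

end SAM_

open SAM_

theorem p_SAM : T_SAM := by
  intro n k c b r μ V χ i j ζ ξ _ hM hζ hξ he hd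
  have hU1 := LI_shift (hM.cht i).li ζ
  have hU2 := LI_shift (hM.cht j).li ξ
  have hU := hU1.inter hU2
  have hn1 := ((hM.cht i).nm.comp_add (hM.cht i).li.op ζ).mono
    (inter_subset_left : {w : ℂ | ζ + w ∈ V i} ∩ {w : ℂ | ξ + w ∈ V j} ⊆ _)
  have hn2 := ((hM.cht j).nm.comp_add (hM.cht j).li.op ξ).mono
    (inter_subset_right : {w : ℂ | ζ + w ∈ V i} ∩ {w : ℂ | ξ + w ∈ V j} ⊆ _)
  have h0 : (0 : ℂ) ∈ {w : ℂ | ζ + w ∈ V i} ∩ {w : ℂ | ξ + w ∈ V j} := by
    refine ⟨?_, ?_⟩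
    · show ζ + 0 ∈ V i
      rwa [add_zero]
    · show ξ + 0 ∈ V j
      rwa [add_zero]
  have heq := p_UNQ k b r _ _ _ 0 hU.op hU.isPreconnected hn1 hn2 h0
    (by simpa using he) (by rw [deriv_comp_add', deriv_comp_add', add_zero, add_zero]; exact hd)
  obtain ⟨l1, l2⟩ := chart_lim (hM.cht i) ζ
  obtain ⟨l3, l4⟩ := chart_lim (hM.cht j) ξ
  have hev : ∀ᶠ w in lf, χ i (ζ + w) = χ j (ξ + w) := by
    filter_upwards [hU.mem_lf] with w hw
    exact heq hw
  have hb : b i = b j := by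
    refine tendsto_nhds_unique l1 (l3.congr' ?_)
    filter_upwards [hev] with w hw
    exact hw.symm
  refine ⟨hb, ?_⟩
  have hexp : exp ζ = exp ξ := by
    refine tendsto_nhds_unique l2 (l4.congr' ?_)
    filter_upwards [hev] with w hw
    rw [hw, hb]
  obtain ⟨m, hm⟩ := Complex.exp_eq_exp_iff_exists_int.1 hexp
  exact ⟨m, by rw [hm]; ring⟩

end Pool.Agent.MEY
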