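import Pool.Agent.MEY.Defs

/-!
# MEY: targets (adapted from Pool.Agent.MEX.Targets)
-/

set_option autoImplicit false

open Complex Filter Topology Set MeasureTheory
open Pool.Agent.Multibrot (rt push)
open Pool.Agent.Limb (F)
open Pool.Agent.PLim (Cyc fp fpp Rho LocFix)
open Pool.Agent.MEX (LI lf PP et Small LL Rec)

namespace Pool.Agent.MEY

/-! ### A. natural maps of a quadratic differential -/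

/-- UNQ: uniqueness of natural maps. -/
def T_UNQ : Prop := ∀ (k : ℕ) (b : ℕ → ℂ) (r : Dat) (U : Set ℂ) (g₁ g₂ : ℂ → ℂ) (ζ₀ : ℂ), IsOpen U →
  IsPreconnected U → NM k b r U g₁ → NM k b r U g₂ → ζ₀ ∈ U → g₁ ζ₀ = g₂ ζ₀ →
  deriv g₁ ζ₀ = deriv g₂ ζ₀ → EqOn g₁ g₂ U

/-- LOCN: local existence of natural maps, with locally uniform radius. -/
def T_LOCN : Prop := ∀ (k : ℕ) (b : ℕ → ℂ) (r : Dat) (x₀ : ℂ), Hol r → x₀ ∉ r.E → AA k b r x₀ ≠ 0 →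
  ∃ ρ ε : ℝ, 0 < ρ ∧ 0 < ε ∧ ∀ x ∈ Metric.ball x₀ ε, ∀ v : ℂ, v ^ 2 * AA k b r x = 1 →
    ∃ g : ℂ → ℂ, NM k b r (Metric.ball 0 ρ) g ∧ g 0 = x ∧ deriv g 0 = v

/-- OPP (from UNQ): a natural map on a convex set does not take a value with opposite
derivatives. -/
def T_OPP : Prop := ∀ (k : ℕ) (b : ℕ → ℂ) (r : Dat) (U : Set ℂ) (g : ℂ → ℂ) (ζ₁ ζ₂ : ℂ), IsOpen U →
  Convex ℝ U → NM k b r U g → ζ₁ ∈ U → ζ₂ ∈ U → g ζ₁ = g ζ₂ → deriv g ζ₁ = -deriv g ζ₂ → False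

/-- LIFT: curves of small length lift to natural discs. -/
def T_LIFT : Prop := ∀ (k : ℕ) (b : ℕ → ℂ) (r : Dat) (ζ₀ : ℂ) (R T : ℝ) (g : ℂ → ℂ) (γ γ' : ℝ → ℂ),
  0 < R → NM k b r (Metric.ball ζ₀ R) g → 0 ≤ T → (∀ s ∈ Icc 0 T, HasDerivAt γ (γ' s) s) →
  ContinuousOn γ' (Icc 0 T) → γ 0 = g ζ₀ → (∀ s ∈ Icc 0 T, γ s ∉ r.E) →
  ∫ s in (0 : ℝ)..T, ‖γ' s‖ * √‖AA k b r (γ s)‖ < R →
  ∃ ξ : ℂ, ‖ξ - ζ₀‖ ≤ ∫ s in (0 : ℝ)..T, ‖γ' s‖ * √‖AA k b r (γ s)‖ ∧ g ξ = γ T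

/-- POL: the numerator. -/
def T_POL : Prop := ∀ (n k : ℕ) (c : ℂ) (b : ℕ → ℂ) (r : Dat) (μ : ℂ), Bad n k c b r μ →
  ∃ P : Polynomial ℂ, Num k b r P

/-- NOE (from POL, LIFT): there is no natural map on the whole plane. -/
def T_NOE : Prop := ∀ (n k : ℕ) (c : ℂ) (b : ℕ → ℂ) (r : Dat) (μ : ℂ) (g : ℂ → ℂ), Bad n k c b r μ →
  NM k b r univ g → False

/-- CYE: charts at the poles exist. -/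
def T_CYE : Prop := ∀ (n k : ℕ) (c : ℂ) (b : ℕ → ℂ) (r : Dat) (μ : ℂ) (j : ℕ), Bad n k c b r μ →
  ∃ (R : ℝ) (g : ℂ → ℂ), Cht k b r j {ζ : ℂ | ζ.re < R} g

/-- CYU (from UNQ): charts at the poles are unique. -/
def T_CYU : Prop := ∀ (n k : ℕ) (c : ℂ) (b : ℕ → ℂ) (r : Dat) (μ : ℂ) (j : ℕ) (W₁ W₂ : Set ℂ)
  (g₁ g₂ : ℂ → ℂ), Bad n k c b r μ → Cht k b r j W₁ g₁ → Cht k b r j W₂ g₂ →
  EqOn g₁ g₂ (W₁ ∩ W₂)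

/-- MAX (from CYE, CYU): the maximal charts. -/
def T_MAX : Prop := ∀ (n k : ℕ) (c : ℂ) (b : ℕ → ℂ) (r : Dat) (μ : ℂ), Bad n k c b r μ →
  ∃ (V : ℕ → Set ℂ) (χ : ℕ → ℂ → ℂ), MaxC k b r V χ

/-- SAM (from UNQ): two charts with the same value and derivative. -/
def T_SAM : Prop := ∀ (n k : ℕ) (c : ℂ) (b : ℕ → ℂ) (r : Dat) (μ : ℂ) (V : ℕ → Set ℂ) (χ : ℕ → ℂ → ℂ)
  (i j : ℕ) (ζ ξ : ℂ), Bad n k c b r μ → MaxC k b r V χ → ζ ∈ V i → ξ ∈ V j →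
  χ i ζ = χ j ξ → deriv (χ i) ζ = deriv (χ j) ξ →
  b i = b j ∧ ∃ m : ℤ, ζ - ξ = m * (2 * Real.pi * I)

/-- HJ (from NOE): the largest half plane in the domain of a chart. -/
def T_HJ : Prop := ∀ (n k : ℕ) (c : ℂ) (b : ℕ → ℂ) (r : Dat) (μ : ℂ) (V : ℕ → Set ℂ) (χ : ℕ → ℂ → ℂ)
  (j : ℕ), Bad n k c b r μ → MaxC k b r V χ →
  ∃ h : ℝ, (∀ ζ : ℂ, ζ.re < h → ζ ∈ V j) ∧ ∃ y : ℝ, (h : ℂ) + y * I ∉ V j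

/-- ENL (from LOCN, UNQ): a horizontal ray which leaves the domain of the chart ends at a zero or
at infinity. -/
def T_ENL : Prop := ∀ (n k : ℕ) (c : ℂ) (b : ℕ → ℂ) (r : Dat) (μ : ℂ) (V : ℕ → Set ℂ) (χ : ℕ → ℂ → ℂ)
  (P : Polynomial ℂ) (j : ℕ) (y A : ℝ), Bad n k c b r μ → MaxC k b r V χ → Num k b r P →
  (∀ x : ℝ, x < A → (x : ℂ) + y * I ∈ V j) → (A : ℂ) + y * I ∉ V j →
  (∃ w : ℂ, P.IsRoot w ∧ Tendsto (fun x : ℝ => χ j (x + y * I)) (𝓝[<] A) (𝓝 w)) ∨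
    Tendsto (fun x : ℝ => χ j (x + y * I)) (𝓝[<] A) (cocompact ℂ)

/-- LQZ: the square of the natural coordinate at a zero. -/
def T_LQZ : Prop := ∀ (n k : ℕ) (c : ℂ) (b : ℕ → ℂ) (r : Dat) (μ : ℂ) (P : Polynomial ℂ) (w : ℂ),
  Bad n k c b r μ → Num k b r P → P.IsRoot w →
  ∃ (ρ : ℝ) (Q : ℂ → ℂ), 0 < ρ ∧ (∀ x ∈ Metric.ball w ρ, x ∉ r.E) ∧
    DifferentiableOn ℂ Q (Metric.ball w ρ) ∧ Q w = 0 ∧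
    (∀ x ∈ Metric.ball w ρ, x ≠ w → Q x ≠ 0) ∧
    (∀ x ∈ Metric.ball w ρ, deriv Q x ^ 2 = 4 * Q x * AA k b r x) ∧
    ∀ (a : ℂ) (S : Finset ℂ), (∀ x ∈ S, x ∈ Metric.ball w ρ ∧ Q x = a) →
      S.card ≤ P.rootMultiplicity w + 2

/-- LQI: the square of the natural coordinate at infinity. -/
def T_LQI : Prop := ∀ (n k : ℕ) (c : ℂ) (b : ℕ → ℂ) (r : Dat) (μ : ℂ) (P : Polynomial ℂ),
  Bad n k c b r μ → Num k b r P →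
  ∃ (ρ : ℝ) (Q : ℂ → ℂ), 0 < ρ ∧ (∀ x : ℂ, ρ < ‖x‖ → x ∉ r.E) ∧
    DifferentiableOn ℂ Q {x : ℂ | ρ < ‖x‖} ∧ Tendsto Q (cocompact ℂ) (𝓝 0) ∧
    (∀ x : ℂ, ρ < ‖x‖ → Q x ≠ 0) ∧
    (∀ x : ℂ, ρ < ‖x‖ → deriv Q x ^ 2 = 4 * Q x * AA k b r x) ∧
    ∀ (a : ℂ) (S : Finset ℂ), (∀ x ∈ S, ρ < ‖x‖ ∧ Q x = a) →
      S.card + P.natDegree + 2 ≤ 2 * r.E.card

/-- EQE: the square of the natural coordinate along a ray which ends. -/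
def T_EQE : Prop := ∀ (k : ℕ) (b : ℕ → ℂ) (r : Dat) (O V : Set ℂ) (Q g : ℂ → ℂ) (y A A' : ℝ), IsOpen O →
  (∀ x ∈ O, x ∉ r.E) → DifferentiableOn ℂ Q O → (∀ x ∈ O, Q x ≠ 0) →
  (∀ x ∈ O, deriv Q x ^ 2 = 4 * Q x * AA k b r x) → IsOpen V → NM k b r V g → A' < A →
  (∀ x ∈ Ioo A' A, (x : ℂ) + y * I ∈ V ∧ g (x + y * I) ∈ O) →
  Tendsto (fun x : ℝ => Q (g (x + y * I))) (𝓝[<] A) (𝓝 0) →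
  ∀ x ∈ Ioo A' A, Q (g (x + y * I)) = (x - A) ^ 2 ∧
    deriv Q (g (x + y * I)) * deriv g (x + y * I) = 2 * (x - A)

/-- ECT (from EQE, SAM): the number of rays which end in a given region. -/
def T_ECT : Prop := ∀ (n k : ℕ) (c : ℂ) (b : ℕ → ℂ) (r : Dat) (μ : ℂ) (V : ℕ → Set ℂ) (χ : ℕ → ℂ → ℂ)
  (O : Set ℂ) (Q : ℂ → ℂ) (N : ℕ) (S : Finset (ℕ × ℝ)) (A : ℕ × ℝ → ℝ), Bad n k c b r μ →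
  MaxC k b r V χ → IsOpen O → (∀ x ∈ O, x ∉ r.E) → DifferentiableOn ℂ Q O →
  (∀ x ∈ O, Q x ≠ 0) → (∀ x ∈ O, deriv Q x ^ 2 = 4 * Q x * AA k b r x) →
  (∀ (a : ℂ) (T : Finset ℂ), (∀ x ∈ T, x ∈ O ∧ Q x = a) → T.card ≤ N) →
  (∀ p ∈ S, p.1 < k ∧ 0 ≤ p.2 ∧ p.2 < 2 * Real.pi ∧
    (∀ x : ℝ, x < A p → (x : ℂ) + p.2 * I ∈ V p.1) ∧
    (∀ᶠ x : ℝ in 𝓝[<] (A p), χ p.1 (x + p.2 * I) ∈ O) ∧
    Tendsto (fun x : ℝ => Q (χ p.1 (x + p.2 * I))) (𝓝[<] (A p)) (𝓝 0)) → S.card ≤ N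

/-- CNT (from POL, HJ, ENL, LQZ, LQI, ECT): the number of blocked heights. -/
def T_CNT : Prop := ∀ (n k : ℕ) (c : ℂ) (b : ℕ → ℂ) (r : Dat) (μ : ℂ) (V : ℕ → Set ℂ) (χ : ℕ → ℂ → ℂ)
  (S : Finset (ℕ × ℝ)), Bad n k c b r μ → MaxC k b r V χ →
  (∀ p ∈ S, p.1 < k ∧ 0 ≤ p.2 ∧ p.2 < 2 * Real.pi ∧ ∃ x : ℝ, (x : ℂ) + p.2 * I ∉ V p.1) →
  S.card + 8 ≤ 6 * r.E.card

/-- GAP: `N` points on the circle leave a gap. -/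
def T_GAP : Prop := ∀ (N : ℕ) (B : Set ℝ), 1 ≤ N → (∀ y : ℝ, y + 2 * Real.pi ∈ B ↔ y ∈ B) →
  (∀ S : Finset ℝ, (∀ y ∈ S, y ∈ B ∧ 0 ≤ y ∧ y < 2 * Real.pi) → S.card ≤ N) →
  ∃ θ : ℝ, ∀ y ∈ B, om N ≤ |y - θ|

/-- TNP: properties of the tent function. -/
def T_TNP : Prop := ∀ (N : ℕ) (θ : ℝ), 6 ≤ N → (∀ x y : ℝ, |tnt N θ x - tnt N θ y| ≤ |x - y|) ∧
  (∀ x : ℝ, tnt N θ (x + 2 * Real.pi) = tnt N θ x) ∧ (∀ x : ℝ, 0 ≤ tnt N θ x) ∧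
  (∀ x : ℝ, tnt N θ x ≤ 1 / 2) ∧
  ∀ x : ℝ, 0 < tnt N θ x → ∃ m : ℤ, |x + 2 * Real.pi * m - θ| < om N

/-- TENT (from HJ, GAP, TNP): a half plane with a tent in the domain of the chart. -/
def T_TENT : Prop := ∀ (n k : ℕ) (c : ℂ) (b : ℕ → ℂ) (r : Dat) (μ : ℂ) (V : ℕ → Set ℂ) (χ : ℕ → ℂ → ℂ)
  (j : ℕ), Bad n k c b r μ → MaxC k b r V χ →
  (∀ S : Finset ℝ, (∀ y ∈ S, 0 ≤ y ∧ y < 2 * Real.pi ∧ ∃ x : ℝ, (x : ℂ) + y * I ∉ V j) →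
    S.card ≤ r.N) →
  ∃ h θ : ℝ, (∀ ζ : ℂ, 0 < et h (tnt r.N θ) ζ → ζ ∈ V j) ∧ ∃ y : ℝ, (h : ℂ) + y * I ∉ V j

/-! ### B. the transfer operator and the mass defect -/

/-- WTP: the triangle inequality with one distinguished preimage. -/
def T_WTP : Prop := ∀ (n k : ℕ) (c : ℂ) (b : ℕ → ℂ) (r : Dat) (μ : ℂ) (m : ℕ) (x : ℂ), Bad n k c b r μ →
  (F n c)^[m] x ∉ r.E → (∀ i < m, (F n c)^[i] c ≠ (F n c)^[m] x) →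
  ‖AA k b r ((F n c)^[m] x) - AA k b r x / Rho n m c x ^ 2‖ₑ + ‖AA k b r x / Rho n m c x ^ 2‖ₑ ≤
    (PP n c)^[m] (phe k b r) ((F n c)^[m] x)

/-- WTQ (from WTP): the triangle inequality with two distinguished preimages. -/
def T_WTQ : Prop := ∀ (n k : ℕ) (c : ℂ) (b : ℕ → ℂ) (r : Dat) (μ : ℂ) (m : ℕ) (x x' : ℂ),
  Bad n k c b r μ → x ≠ x' → (F n c)^[m] x = (F n c)^[m] x' →
  (F n c)^[m] x ∉ r.E → (∀ i < m, (F n c)^[i] c ≠ (F n c)^[m] x) →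
  ‖AA k b r x / Rho n m c x ^ 2‖ₑ + ‖AA k b r x' / Rho n m c x' ^ 2‖ₑ ≤
    (PP n c)^[m] (phe k b r) ((F n c)^[m] x)

/-- MON: monotonicity in the number of steps. -/
def T_MON : Prop := ∀ (n k : ℕ) (c : ℂ) (b : ℕ → ℂ) (r : Dat) (μ : ℂ) (m m' : ℕ) (y : ℂ),
  Bad n k c b r μ → m ≤ m' → y ∉ r.E → (∀ i < m', (F n c)^[i] c ≠ y) →
  (PP n c)^[m] (phe k b r) y ≤ (PP n c)^[m'] (phe k b r) y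

/-- DEM (from DEF, PPM): the mass defect of several steps. -/
def T_DEM : Prop := ∀ (n k : ℕ) (c : ℂ) (b : ℕ → ℂ) (r : Dat) (μ : ℂ) (m : ℕ), Bad n k c b r μ → ∫⁻ y, ((PP n c)^[m] (phe k b r) y - phe k b r y) ≤
    ENNReal.ofReal (2 * Real.pi * m * r.m)

/-- MASS (from DEM, AR2, SAM, PPM): the total mass defect of the charts. -/
def T_MASS : Prop := ∀ (n k : ℕ) (c : ℂ) (b : ℕ → ℂ) (r : Dat) (μ : ℂ) (V : ℕ → Set ℂ)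
  (χ : ℕ → ℂ → ℂ), Bad n k c b r μ → MaxC k b r V χ →
  ∑ j ∈ Finset.range k, ∫⁻ ζ in {ζ : ℂ | 0 ≤ ζ.im ∧ ζ.im < 2 * Real.pi},
    Dfc n k c b r V χ j ζ ≤ ENNReal.ofReal (4 * Real.pi * k * r.m)

/-- WTC (from WTP, MON, NUL): the triangle inequality in the charts. -/
def T_WTC : Prop := ∀ (n k : ℕ) (c : ℂ) (b : ℕ → ℂ) (r : Dat) (μ : ℂ) (V : ℕ → Set ℂ) (χ : ℕ → ℂ → ℂ)
  (J m : ℕ) (W : Set ℂ) (G : ℂ → ℂ), Bad n k c b r μ → MaxC k b r V χ → m ≤ k → IsOpen W →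
  W ⊆ V J → DifferentiableOn ℂ G W → (∀ ζ ∈ W, (F n c)^[m] (G ζ) = χ J ζ) →
  ∀ᵐ ζ : ℂ, ζ ∈ W → ENNReal.ofReal (‖1 - Lam k b r G ζ‖ + ‖Lam k b r G ζ‖) ≤
    1 + Dfc n k c b r V χ J ζ

/-- WTD (from WTQ, MON, NUL): the triangle inequality in the charts, for two sheets. -/
def T_WTD : Prop := ∀ (n k : ℕ) (c : ℂ) (b : ℕ → ℂ) (r : Dat) (μ : ℂ) (V : ℕ → Set ℂ) (χ : ℕ → ℂ → ℂ)
  (J m : ℕ) (W : Set ℂ) (G G' : ℂ → ℂ), Bad n k c b r μ → MaxC k b r V χ → m ≤ k → IsOpen W →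
  W ⊆ V J → DifferentiableOn ℂ G W → DifferentiableOn ℂ G' W →
  (∀ ζ ∈ W, (F n c)^[m] (G ζ) = χ J ζ) → (∀ ζ ∈ W, (F n c)^[m] (G' ζ) = χ J ζ) →
  (∀ ζ ∈ W, G ζ ≠ G' ζ) →
  ∀ᵐ ζ : ℂ, ζ ∈ W → ENNReal.ofReal (‖Lam k b r G ζ‖ + ‖Lam k b r G' ζ‖) ≤
    1 + Dfc n k c b r V χ J ζ

/-- DDM: measurability and periodicity of the mass defect. -/
def T_DDM : Prop := ∀ (n k : ℕ) (c : ℂ) (b : ℕ → ℂ) (r : Dat) (μ : ℂ) (V : ℕ → Set ℂ) (χ : ℕ → ℂ → ℂ)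
  (J : ℕ), Bad n k c b r μ → MaxC k b r V χ → Measurable (Dfc n k c b r V χ J) ∧
  ∀ ζ, Dfc n k c b r V χ J (ζ + 2 * Real.pi * I) = Dfc n k c b r V χ J ζ

/-- PICK (from CNT, MASS, WTC, WTD, DDM, TENT): a good chart. -/
def T_PICK : Prop := ∀ (n k : ℕ) (c : ℂ) (b : ℕ → ℂ) (r : Dat) (μ : ℂ) (V : ℕ → Set ℂ)
  (χ : ℕ → ℂ → ℂ), Bad n k c b r μ → MaxC k b r V χ →
  ∃ (J : ℕ) (D : ℂ → ENNReal) (h θ : ℝ), Bas n k c b r μ V χ J D (4 * Real.pi * (r.N + 2) * r.m) ∧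
    (∀ ζ : ℂ, 0 < et h (tnt r.N θ) ζ → ζ ∈ V J) ∧ ∃ y : ℝ, (h : ℂ) + y * I ∉ V J

/-! ### C. analysis on one chart -/

/-- CTR (from HAR, MVL, PER, INN, EXD, BOO): control of the sheets. -/
def T_CTR : Prop := ∃ C : ℝ, 1 ≤ C ∧ ∀ (n k : ℕ) (c : ℂ) (b : ℕ → ℂ) (r : Dat) (μ : ℂ) (V : ℕ → Set ℂ)
  (χ : ℕ → ℂ → ℂ) (J : ℕ) (D : ℂ → ENNReal) (d t h : ℝ) (a : ℝ → ℝ) (m : ℕ) (lam : ℝ)
  (G : ℂ → ℂ), Rnd n k c b r μ V χ J D d h a → Small C d t →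
  Lvl n k c b r χ J h a m lam G →
  (∀ ζ : ℂ, lam + t ≤ et h a ζ → ‖Lam k b r G ζ - 1‖ ≤ C * √d / (et h a ζ - lam)) ∧
    ∀ ζ : ℂ, ζ.re ≤ h - lam - 2 → ‖Lam k b r G ζ - 1‖ ≤ C * d * Real.exp (ζ.re - (h - lam))

/-- NUA (from CTR, PRI): the almost isometry. -/
def T_NUA : Prop := ∃ C : ℝ, 1 ≤ C ∧ ∀ (n k : ℕ) (c : ℂ) (b : ℕ → ℂ) (r : Dat) (μ : ℂ) (V : ℕ → Set ℂ)
  (χ : ℕ → ℂ → ℂ) (J : ℕ) (D : ℂ → ENNReal) (d t h : ℝ) (a : ℝ → ℝ) (m : ℕ) (lam : ℝ)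
  (G : ℂ → ℂ), Rnd n k c b r μ V χ J D d h a → Small C d t →
  Lvl n k c b r χ J h a m lam G → ∃ e : ℂ → ℂ, DifferentiableOn ℂ e {ζ : ℂ | lam + t < et h a ζ} ∧
    Tendsto e lf (𝓝 0) ∧ ∀ ζ : ℂ, lam + t < et h a ζ →
      ‖e ζ‖ ≤ t / 100 ∧ ‖deriv e ζ‖ ≤ 1 / 1000 ∧ (1 + deriv e ζ) ^ 2 = Lam k b r G ζ

/-- NUB (from NUA): the sheet is a chart. -/
def T_NUB : Prop := ∃ C : ℝ, 1 ≤ C ∧ ∀ (n k : ℕ) (c : ℂ) (b : ℕ → ℂ) (r : Dat) (μ : ℂ) (V : ℕ → Set ℂ)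
  (χ : ℕ → ℂ → ℂ) (J : ℕ) (D : ℂ → ENNReal) (d t h : ℝ) (a : ℝ → ℝ) (m : ℕ) (lam : ℝ)
  (G : ℂ → ℂ) (A : ℂ), Rnd n k c b r μ V χ J D d h a → Small C d t →
  Lvl n k c b r χ J h a m lam G → exp A = ∏ i ∈ Finset.range m, fp n (b (J - m + i)) →
  (∀ w : ℂ, lam + 3 / 2 * t < et h a (w + A) → w ∈ V (J - m)) ∧
  ∃ nu : ℂ → ℂ, DifferentiableOn ℂ nu {ζ : ℂ | lam + t < et h a ζ} ∧
    (∀ ζ : ℂ, lam + t < et h a ζ → ‖nu ζ - ζ + A‖ ≤ t / 100 ∧ ‖deriv nu ζ - 1‖ ≤ 1 / 1000 ∧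
      deriv nu ζ ^ 2 = Lam k b r G ζ) ∧
    ∀ ζ : ℂ, lam + 2 * t < et h a ζ → nu ζ ∈ V (J - m) ∧ χ (J - m) (nu ζ) = G ζ

/-- STP (from LLG): one more level. -/
def T_STP : Prop := ∀ (n k : ℕ) (c : ℂ) (b : ℕ → ℂ) (r : Dat) (μ : ℂ) (V : ℕ → Set ℂ)
  (χ : ℕ → ℂ → ℂ) (J : ℕ) (D : ℂ → ENNReal) (d h : ℝ) (a : ℝ → ℝ) (m : ℕ) (lam : ℝ)
  (G : ℂ → ℂ), Rnd n k c b r μ V χ J D d h a → m + 1 ≤ k →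
  Lvl n k c b r χ J h a m lam G → ∃ (lam' : ℝ) (G' : ℂ → ℂ), lam ≤ lam' ∧
    Lvl n k c b r χ J h a (m + 1) lam' G' ∧ (∀ ζ : ℂ, lam' < et h a ζ → F n c (G' ζ) = G ζ) ∧
    (lam < lam' → ∀ ε : ℝ, 0 < ε → ∃ p : ℂ, lam < et h a p ∧ lam' - ε < et h a p ∧
      et h a p ≤ lam' ∧ G p = c)

/-- INJ (from NUB, SAM, OPP): the sheet is injective on discs. -/
def T_INJ : Prop := ∃ C : ℝ, 1 ≤ C ∧ ∀ (n k : ℕ) (c : ℂ) (b : ℕ → ℂ) (r : Dat) (μ : ℂ) (V : ℕ → Set ℂ)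
  (χ : ℕ → ℂ → ℂ) (J : ℕ) (D : ℂ → ENNReal) (d t h : ℝ) (a : ℝ → ℝ) (m : ℕ) (lam : ℝ)
  (G : ℂ → ℂ) (p : ℂ) (ρ : ℝ), Rnd n k c b r μ V χ J D d h a → Small C d t →
  Lvl n k c b r χ J h a m lam G → ρ ≤ 1 →
  (∀ ζ ∈ Metric.ball p ρ, lam + 2 * t < et h a ζ) → InjOn G (Metric.ball p ρ)

/-- LOB (from CTR, NUB, INJ, ROO, HAR, PER, BOO): the depth of the sheets grows slowly. -/
def T_LOB : Prop := ∃ C : ℝ, 1 ≤ C ∧ ∀ (n k : ℕ) (c : ℂ) (b : ℕ → ℂ) (r : Dat) (μ : ℂ) (V : ℕ → Set ℂ)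
  (χ : ℕ → ℂ → ℂ) (J : ℕ) (D : ℂ → ENNReal) (d t h : ℝ) (a : ℝ → ℝ) (m : ℕ) (lam lam' : ℝ)
  (G G' : ℂ → ℂ) (p : ℂ), Rnd n k c b r μ V χ J D d h a → Small C d t →
  Lvl n k c b r χ J h a m lam G → Lvl n k c b r χ J h a (m + 1) lam' G' → lam ≤ lam' →
  (∀ ζ : ℂ, lam' < et h a ζ → F n c (G' ζ) = G ζ) → G p = c →
  lam + 10 * t < et h a p → lam' - t / 10 < et h a p → False

/-- The sequence of all sheets. -/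
structure Sq (n k : ℕ) (c : ℂ) (b : ℕ → ℂ) (r : Dat) (χ : ℕ → ℂ → ℂ) (J : ℕ) (h : ℝ) (a : ℝ → ℝ)
    (t : ℝ) (lam : ℕ → ℝ) (G : ℕ → ℂ → ℂ) : Prop where
  z0 : lam 0 = 0
  G0 : G 0 = χ J
  lvl : ∀ m ≤ k, Lvl n k c b r χ J h a m (lam m) (G m)
  mono : ∀ m < k, lam m ≤ lam (m + 1)
  step : ∀ m < k, lam (m + 1) ≤ lam m + 10 * t
  cons : ∀ m < k, ∀ ζ : ℂ, lam (m + 1) < et h a ζ → F n c (G (m + 1) ζ) = G m ζ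
  ev : ∀ m < k, lam m < lam (m + 1) →
    ∃ p : ℂ, lam m + 3 / 4 * (lam (m + 1) - lam m) ≤ et h a p ∧ et h a p ≤ lam (m + 1) ∧
      lam (m + 1) - t ≤ et h a p ∧ G m p = c

/-- SEQ (from STP, LOB): all sheets. -/
def T_SEQ : Prop := ∃ C : ℝ, 1 ≤ C ∧ ∀ (n k : ℕ) (c : ℂ) (b : ℕ → ℂ) (r : Dat) (μ : ℂ) (V : ℕ → Set ℂ)
  (χ : ℕ → ℂ → ℂ) (J : ℕ) (D : ℂ → ENNReal) (d t h : ℝ) (a : ℝ → ℝ),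
  Rnd n k c b r μ V χ J D d h a → Small C d t →
  ∃ (lam : ℕ → ℝ) (G : ℕ → ℂ → ℂ), Sq n k c b r χ J h a t lam G

/-- GEO (from CTR, NUB, SAM, LIFT, UNQ): two good records are impossible. -/
def T_GEO : Prop := ∃ C : ℝ, 1 ≤ C ∧ ∀ (n k : ℕ) (c : ℂ) (b : ℕ → ℂ) (r : Dat) (μ : ℂ) (V : ℕ → Set ℂ)
  (χ : ℕ → ℂ → ℂ) (J : ℕ) (D : ℂ → ENNReal) (d t h : ℝ) (a : ℝ → ℝ) (p : ℂ)
  (q : Fin 2 → ℕ) (lam : Fin 2 → ℝ) (G : Fin 2 → ℂ → ℂ) (z : Fin 2 → ℂ),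
  Rnd n k c b r μ V χ J D d h a → Small C d t → 59 * t ≤ et h a p → 0 < q 0 → q 0 < q 1 →
  q 1 < k → (∀ i, Lvl n k c b r χ J h a (q i) (lam i) (G i)) → (∀ i, lam i < et h a (z i)) →
  (∀ i, G i (z i) = χ J p) →
  (∀ i, ∫ s in (0 : ℝ)..t, √‖Lam k b r (G i) (z i - s)‖ ≤ 2 * t) → False

/-- PEN (from SEQ, REC, GEO): the last sheet is deep. -/
def T_PEN : Prop := ∃ C : ℝ, 1 ≤ C ∧ ∀ (n k : ℕ) (c : ℂ) (b : ℕ → ℂ) (r : Dat) (μ : ℂ) (V : ℕ → Set ℂ)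
  (χ : ℕ → ℂ → ℂ) (J : ℕ) (D : ℂ → ENNReal) (d t h : ℝ) (a : ℝ → ℝ),
  Rnd n k c b r μ V χ J D d h a → Small C d t →
  ∃ (lam : ℝ) (G : ℂ → ℂ), lam ≤ 400 * t ∧ Lvl n k c b r χ J h a k lam G

/-- ROU (from PEN, NUB): one round. -/
def T_ROU : Prop := ∃ C : ℝ, 1 ≤ C ∧ ∀ (n k : ℕ) (c : ℂ) (b : ℕ → ℂ) (r : Dat) (μ : ℂ) (V : ℕ → Set ℂ)
  (χ : ℕ → ℂ → ℂ) (J : ℕ) (D : ℂ → ENNReal) (d t h : ℝ) (a : ℝ → ℝ),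
  Rnd n k c b r μ V χ J D d h a → Small C d t →
  ∀ w : ℂ, 410 * t + μ.re < h + a (w.im + μ.im) - w.re → w ∈ V J

/-- RTA: rotations by an angle far from rational numbers of small denominator. -/
def T_RTA : Prop := ∀ (N : ℕ) (α δ : ℝ), 1 ≤ N → 0 < δ → FarN N δ α → ∀ θ y : ℝ, ∃ i : ℕ,
  (i : ℝ) ≤ 2 * N / δ ∧ Real.pi / (2 * N * (N + 1)) ≤ tnt N θ (y + i * α)

/-- ITE (from ROU, RTA, TNP): contradiction. -/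
def T_ITE : Prop := ∃ C : ℝ, 1 ≤ C ∧ ∀ (n k : ℕ) (c : ℂ) (b : ℕ → ℂ) (r : Dat) (μ : ℂ)
  (V : ℕ → Set ℂ) (χ : ℕ → ℂ → ℂ) (J : ℕ) (D : ℂ → ENNReal) (d t δ h θ y : ℝ),
  Bas n k c b r μ V χ J D d → Small C d t → μ.re ≤ t → 0 < δ → FarC r.N δ μ →
  5000 * (r.N : ℝ) ^ 3 * t ≤ δ →
  (∀ ζ : ℂ, 0 < et h (tnt r.N θ) ζ → ζ ∈ V J) → (h : ℂ) + y * I ∉ V J → False

/-- ELE: the final choice of the constants. -/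
def T_ELE : Prop := ∀ K K' : ℝ, 1 ≤ K → 1 ≤ K' → ∃ κ : ℝ, 0 < κ ∧ ∀ δ x : ℝ, 0 < δ → δ ≤ 1 / 2 →
  0 < x → x < κ * LL δ → K * x ≤ 1 / 10 ∧ K' * √(K * x) * (1 + Real.log (1 / (K * x))) ≤ δ

/-- EXT (from MAX, PICK, ITE, ELE): the extension theorem for general quadratic differentials. -/
def T_EXT : Prop := ∀ N : ℕ, ∃ κ : ℝ, 0 < κ ∧ ∀ (n k : ℕ) (c : ℂ) (b : ℕ → ℂ) (r : Dat) (μ : ℂ)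
  (δ : ℝ), Bad n k c b r μ → r.N = N → μ.re ≤ r.m → 0 < δ → δ ≤ 1 / 2 → FarC N δ μ →
  κ * LL δ ≤ r.m


end Pool.Agent.MEY
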