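import Pool.Agent.MEY.Targets
import Pool.Agent.MEX.Targets2

/-!
# MEY: targets, part 2 (two cycles, global sections, relative bounds)

See `Blueprint2.lean.txt` for the proofs.
-/

set_option autoImplicit false

open Complex Filter Topology Set MeasureTheory
open Pool.Agent.Multibrot (MM rt push)
open Pool.Agent.Limb (F)
open Pool.Agent.PLim (Cyc Res fp fpp Rho LocFix IsLimb OMXn)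
open Pool.Agent.MEX (LI lf PP Exa NCXk LL SECXk)

namespace Pool.Agent.MEY

/-! ### E. two cycles -/

/-- MSS (abstract form of `MEX.p_DEF`; adapt MEX/DEF.lean): the mass defect of one step. -/
def T_MSS : Prop := ∀ (n : ℕ) (c : ℂ) (r : Dat) (al q T : ℂ → ℝ) (K R M : ℝ), 2 ≤ n → Hol r →
  (∀ x ∈ r.E, F n c x ∈ r.E) → (∀ x ∈ r.E, x ≠ 0) →
  (∀ y : ℂ, y ≠ c → y ∉ r.E → push n c r.ph y = r.ph y) → 1 ≤ R → 0 ≤ M →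
  (∀ x : ℂ, R ≤ ‖x‖ → ‖r.ph x‖ ≤ K * (‖x‖ ^ 3)⁻¹) →
  (∀ e ∈ r.E, 0 < T e ∧ 0 < q e ∧ q e ≤ 1 ∧ 0 ≤ al e ∧ ‖fp n e‖ * q e * T e ≤ T (F n c e)) →
  (∀ e ∈ r.E, ∀ᶠ x in 𝓝[≠] e, ‖r.ph x‖ ≤ al e * (‖x - e‖ ^ 2)⁻¹ + M * ‖x - e‖⁻¹) →
  ∫⁻ y, (PP n c (phe 0 (fun _ => 0) r) y - phe 0 (fun _ => 0) r y) ≤
    ENNReal.ofReal (∑ e ∈ r.E, 2 * Real.pi * (al e * -Real.log (q e)))

/-- The combination of the quadratic differentials of two cycles. -/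
noncomputable def ph2 (k k' : ℕ) (b b' ρ ρ' : ℕ → ℂ) (s : ℂ) (x : ℂ) : ℂ :=
  Pool.Agent.PLim.AA k b ρ x + s * Pool.Agent.PLim.AA k' b' ρ' x

/-- The union of the two cycles. -/
noncomputable def E2 (k k' : ℕ) (b b' : ℕ → ℂ) : Finset ℂ :=
  (Finset.range k).image b ∪ (Finset.range k').image b'

/-- The datum of the two cycles. -/
noncomputable def D2 (k k' : ℕ) (b b' ρ ρ' : ℕ → ℂ) (s : ℂ) (m : ℝ) (N : ℕ) : Dat :=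
  ⟨ph2 k k' b b' ρ ρ' s, E2 k k' b b', m, N⟩

/-- Two disjoint cycles; the residues are balanced by the coefficient `s`. -/
structure Two (n k k' : ℕ) (c : ℂ) (b b' ρ ρ' : ℕ → ℂ) (s : ℂ) : Prop where
  hn : 2 ≤ n
  cb : Cyc n k c b
  cb' : Cyc n k' c b'
  dj : ∀ i j, b i ≠ b' j
  rs : Res n k b ρ
  rs' : Res n k' b' ρ'
  s0 : s ≠ 0
  sum : ∑ j ∈ Finset.range k, ρ j + s * ∑ j ∈ Finset.range k', ρ' j = 0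

/-- INV2 (from TRP of PLIM): invariance. -/
def T_INV2 : Prop := ∀ (n k k' : ℕ) (c : ℂ) (b b' ρ ρ' : ℕ → ℂ) (s : ℂ),
  Two n k k' c b b' ρ ρ' s → ∀ y : ℂ, y ≠ c → y ∉ E2 k k' b b' →
  push n c (ph2 k k' b b' ρ ρ' s) y = ph2 k k' b b' ρ ρ' s y

/-- DEC2 (from INV2; adapt PLim/TRI.lean): decay at infinity. -/
def T_DEC2 : Prop := ∀ (n k k' : ℕ) (c : ℂ) (b b' ρ ρ' : ℕ → ℂ) (s : ℂ),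
  Two n k k' c b b' ρ ρ' s → ∃ K R : ℝ, 1 ≤ R ∧
  ∀ x : ℂ, R ≤ ‖x‖ → ‖ph2 k k' b b' ρ ρ' s x‖ ≤ K * (‖x‖ ^ 3)⁻¹

/-- NUM2 (from DEC2; adapt MEX/POL.lean): the numerator. -/
def T_NUM2 : Prop := ∀ (n k k' : ℕ) (c : ℂ) (b b' ρ ρ' : ℕ → ℂ) (s : ℂ) (m : ℝ) (N : ℕ),
  Two n k k' c b b' ρ ρ' s → ∃ P : Polynomial ℂ, Num k b (D2 k k' b b' ρ ρ' s m N) P

/-- TWO (from MSS, INV2, DEC2, NUM2): the datum of two cycles. -/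
def T_TWO : Prop := ∀ (n k k' : ℕ) (c : ℂ) (b b' ρ ρ' : ℕ → ℂ) (s μ μ' : ℂ) (m : ℝ) (N : ℕ),
  Two n k k' c b b' ρ ρ' s → exp μ = ∏ j ∈ Finset.range k, fp n (b j) →
  exp μ' = ∏ j ∈ Finset.range k', fp n (b' j) → 0 < m →
  max μ.re 0 + ‖s‖ * max μ'.re 0 ≤ m → 6 ≤ N → 6 * (k + k') ≤ N * k + 8 →
  Bad n k c b (D2 k k' b b' ρ ρ' s m N) μ

/-- `z` is a point of exact period `k` and multiplier `w`. -/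
structure Pt (n k : ℕ) (c z w : ℂ) : Prop where
  fix : (F n c)^[k] z = z
  exa : Exa n k c z
  mul : Rho n k c z = w

/-- The extended half plane. -/
def Omg (N : ℕ) (κ : ℝ) : Set ℂ :=
  {μ : ℂ | μ.re < 0 ∨ ∃ δ : ℝ, 0 < δ ∧ δ ≤ 1 / 2 ∧ FarN N δ μ.im ∧ μ.re < κ * LL δ}

/-- At most one cycle of periods in a range has a multiplier in the extended region (one of the
multipliers is far from the roots of unity). -/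
def NC2k (R : ℕ) (κ : ℝ) : Prop := ∀ (n k k' : ℕ) (c z z' μ μ' : ℂ) (δ : ℝ), 2 ≤ n → 1 ≤ k →
  1 ≤ k' → k ≤ R * k' → k' ≤ R * k → Pt n k c z (exp μ) → Pt n k' c z' (exp μ') → 0 < δ →
  δ ≤ 1 / 2 → FarN (6 * (R + 1)) δ μ.im → μ.re < κ * LL δ →
  ((μ'.re ≤ 0 ∧ exp μ' ≠ 1) ∨ ∃ δ' : ℝ, 0 < δ' ∧ δ' ≤ 1 / 2 ∧ FarN (6 * (R + 1)) δ' μ'.im ∧
    μ'.re < κ * LL δ') →
  ∃ j : ℕ, (F n c)^[j] z = z'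

/-- NC2 (from EXT, TWO, MEX.T_EXT, and TRA, TRL of PLIM): the theorem on two cycles. -/
def T_NC2 : Prop := ∀ R : ℕ, ∃ κ : ℝ, 0 < κ ∧ NC2k R κ

/-- At most one cycle of periods in a range has a multiplier in the extended region. -/
def NCUk (R : ℕ) (κ : ℝ) : Prop := ∀ (n k k' : ℕ) (c z z' μ μ' : ℂ), 2 ≤ n → 1 ≤ k →
  1 ≤ k' → k ≤ R * k' → k' ≤ R * k → Pt n k c z (exp μ) → Pt n k' c z' (exp μ') →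
  μ ∈ Omg (6 * (R + 1)) κ → μ' ∈ Omg (6 * (R + 1)) κ → ∃ j : ℕ, (F n c)^[j] z = z'

/-- NCU (from ATU of PLIM). -/
def T_NCU : Prop := ∀ (R : ℕ) (κ : ℝ), NC2k R κ → NCUk R κ

/-! ### F. global sections -/

/-- OMG: the extended half plane. -/
def T_OMG : Prop := ∀ (N : ℕ) (κ : ℝ), 0 < κ → LI (Omg N κ) ∧
  (∀ (μ : ℂ) (m : ℤ), μ + 2 * Real.pi * I * m ∈ Omg N κ ↔ μ ∈ Omg N κ) ∧
  ∀ μ ∈ Omg N κ, μ.re < max κ 1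

/-- LIC: left invariant open sets are contractible. -/
def T_LIC : Prop := ∀ W : Set ℂ, LI W → ContractibleSpace W

/-- Regularity of the points over the extended half plane. -/
def GODk (N : ℕ) (κ : ℝ) : Prop := ∀ (n k : ℕ) (c z μ : ℂ), 2 ≤ n → 1 ≤ k → μ ∈ Omg N κ →
  Pt n k c z (exp μ) → exp μ ≠ 1 ∧ ‖c‖ < 16 ∧ ∀ R : ℝ, 0 < R →
  ∃ (ε r : ℝ) (zf : ℂ → ℂ), ε ≤ R ∧ r ≤ R ∧ LocFix n k c z ε r zf ∧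
    deriv (fun c => Rho n k c (zf c)) c ≠ 0

/-- GOD (from BIG, LOCZ, TRANS of PLIM). -/
def T_GOD : Prop := ∀ (N : ℕ) (κ : ℝ), 6 ≤ N → 0 < κ → κ ≤ 1 → NCXk κ → GODk N κ

/-- Sections of the multiplier over `W`, in the logarithmic coordinate. -/
structure Sec (n k : ℕ) (W : Set ℂ) (ψ χ : ℂ → ℂ) : Prop where
  dψ : DifferentiableOn ℂ ψ W
  dχ : DifferentiableOn ℂ χ W
  pt : ∀ μ ∈ W, Pt n k (ψ μ) (χ μ) (exp μ)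
  bd : ∀ μ ∈ W, ‖ψ μ‖ ≤ 16
  d : ∀ μ ∈ W, deriv ψ μ ≠ 0

/-- LFT (from LIC; adapt MEX/SECX.lean): existence of sections. -/
def T_LFT : Prop := ∀ (N : ℕ) (κ : ℝ), LI (Omg N κ) → GODk N κ →
  ∀ (n k : ℕ) (c z μ0 : ℂ), 2 ≤ n → 1 ≤ k → μ0 ∈ Omg N κ → Pt n k c z (exp μ0) →
  ∃ ψ χ : ℂ → ℂ, Sec n k (Omg N κ) ψ χ ∧ ψ μ0 = c ∧ χ μ0 = z

/-- LUQ: uniqueness of sections. -/
def T_LUQ : Prop := ∀ (N : ℕ) (κ : ℝ), GODk N κ → ∀ (n k : ℕ) (W : Set ℂ) (ψ χ ψ' χ' : ℂ → ℂ)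
  (μ0 : ℂ), 2 ≤ n → 1 ≤ k → IsPreconnected W → W ⊆ Omg N κ → ContinuousOn ψ W →
  ContinuousOn χ W → ContinuousOn ψ' W → ContinuousOn χ' W →
  (∀ μ ∈ W, Pt n k (ψ μ) (χ μ) (exp μ)) → (∀ μ ∈ W, Pt n k (ψ' μ) (χ' μ) (exp μ)) → μ0 ∈ W →
  ψ μ0 = ψ' μ0 → χ μ0 = χ' μ0 → EqOn ψ ψ' W ∧ EqOn χ χ' W

/-- GLE (arithmetic): the centres are simple. -/
def T_GLE : Prop := ∀ (n k : ℕ) (c : ℂ), 2 ≤ n → 1 ≤ k → Pool.Agent.Multibrot.Q n k c = 0 →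
  Pool.Agent.Multibrot.DQ n k c ≠ 0

/-- The local section at a centre. -/
structure Cen (n k : ℕ) (c : ℂ) (ρ : ℝ) (a z : ℂ → ℂ) : Prop where
  hρ : 0 < ρ
  hρ1 : ρ ≤ 1
  da : DifferentiableOn ℂ a (Metric.ball 0 ρ)
  dz : DifferentiableOn ℂ z (Metric.ball 0 ρ)
  a0 : a 0 = c
  z0 : z 0 = 0
  d : deriv a 0 ≠ 0
  pt : ∀ w ∈ Metric.ball (0 : ℂ) ρ, Pt n k (a w) (z w) (w ^ (n - 1))
  uq : ∃ ε : ℝ, 0 < ε ∧ ∀ c' z' : ℂ, ‖c' - c‖ < ε → ‖z'‖ < ε → Pt n k c' z' (Rho n k c' z') →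
    ∃ w ∈ Metric.ball (0 : ℂ) ρ, a w = c' ∧ z w = z'

/-- CEN (from GLE, and LOCZ of PLIM): the local section at a centre. -/
def T_CEN : Prop := ∀ (n k : ℕ) (c : ℂ), 2 ≤ n → 1 ≤ k → Pt n k c 0 0 →
  ∃ (ρ : ℝ) (a z : ℂ → ℂ), Cen n k c ρ a z

/-- The extended disc. -/
def DD (n N : ℕ) (κ : ℝ) : Set ℂ := {w : ℂ | w = 0 ∨ ((n - 1 : ℕ) : ℂ) * log w ∈ Omg N κ}

/-- DDO (from OMG): the extended disc. -/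
def T_DDO : Prop := ∀ (n N : ℕ) (κ : ℝ), 2 ≤ n → 0 < κ → IsOpen (DD n N κ) ∧
  IsPreconnected (DD n N κ) ∧ Metric.ball 0 1 ⊆ DD n N κ ∧
  (∀ μ : ℂ, exp (μ / ((n - 1 : ℕ) : ℂ)) ∈ DD n N κ ↔ μ ∈ Omg N κ) ∧
  (∀ w ∈ DD n N κ, w ≠ 0 → ∃ μ ∈ Omg N κ, w = exp (μ / ((n - 1 : ℕ) : ℂ))) ∧
  ∀ w ζ : ℂ, ζ ^ (n - 1) = 1 → (ζ * w ∈ DD n N κ ↔ w ∈ DD n N κ)

/-- Global sections over the extended disc, at the centre `c`. -/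
structure Glob (n k N : ℕ) (κ : ℝ) (c : ℂ) (Ψ X : ℂ → ℂ) : Prop where
  dΨ : DifferentiableOn ℂ Ψ (DD n N κ)
  dX : DifferentiableOn ℂ X (DD n N κ)
  zero : Ψ 0 = c
  X0 : X 0 = 0
  pt : ∀ w ∈ DD n N κ, Pt n k (Ψ w) (X w) (w ^ (n - 1))
  d : ∀ w ∈ DD n N κ, deriv Ψ w ≠ 0

/-- GLB (from OMG, LFT, LUQ, CEN): the global section. -/
def T_GLB : Prop := ∀ (N : ℕ) (κ : ℝ), 0 < κ → GODk N κ → ∀ (n k : ℕ) (c : ℂ), 2 ≤ n →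
  1 ≤ k → Pt n k c 0 0 → ∃ Ψ X : ℂ → ℂ, Glob n k N κ c Ψ X

/-- SAME (from OMG, DDO, LUQ): sections with a common cycle coincide up to a rotation. -/
def T_SAME : Prop := ∀ (N : ℕ) (κ : ℝ), 0 < κ → GODk N κ → ∀ (n k : ℕ) (c c' : ℂ)
  (Ψ X Ψ' X' : ℂ → ℂ) (w w' : ℂ), 2 ≤ n → 1 ≤ k → Glob n k N κ c Ψ X → Glob n k N κ c' Ψ' X' →
  w ∈ DD n N κ → w' ∈ DD n N κ → w ≠ 0 → w' ≠ 0 → Ψ w = Ψ' w' →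
  (∃ j : ℕ, (F n (Ψ w))^[j] (X w) = X' w') →
  ∃ ζ : ℂ, ζ ^ (n - 1) = 1 ∧ w' = ζ * w ∧ ∀ v ∈ DD n N κ, Ψ' (ζ * v) = Ψ v

/-- IJG (from DDO, SAME): univalence and disjointness. -/
def T_IJG : Prop := ∀ (R : ℕ) (κ : ℝ), 1 ≤ R → 0 < κ → GODk (6 * (R + 1)) κ → NCUk R κ →
  ∀ (n k k' : ℕ) (c c' : ℂ) (Ψ X Ψ' X' : ℂ → ℂ) (w w' : ℂ), 2 ≤ n → 1 ≤ k → 1 ≤ k' →
  k ≤ R * k' → k' ≤ R * k → Glob n k (6 * (R + 1)) κ c Ψ X →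
  Glob n k' (6 * (R + 1)) κ c' Ψ' X' → w ∈ DD n (6 * (R + 1)) κ →
  w' ∈ DD n (6 * (R + 1)) κ → Ψ w = Ψ' w' →
  k = k' ∧ c = c' ∧ ∃ ζ : ℂ, ζ ^ (n - 1) = 1 ∧ w' = ζ * w ∧
    ∀ v ∈ DD n (6 * (R + 1)) κ, Ψ' (ζ * v) = Ψ v

/-- CMP (from OMG, DDO, LFT, LUQ, CEN, CNT of PLIM): every cycle of exact period `k` with
multiplier in the extended region is obtained. -/
def T_CMP : Prop := ∀ (N : ℕ) (κ : ℝ), 0 < κ → GODk N κ → ∀ (n k : ℕ) (c z μ : ℂ), 2 ≤ n →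
  1 ≤ k → μ ∈ Omg N κ → Pt n k c z (exp μ) → ∃ c0 : ℂ, Pt n k c0 0 0 ∧
  ∀ Ψ X : ℂ → ℂ, Glob n k N κ c0 Ψ X → ∃ v ∈ DD n N κ, v ≠ 0 ∧ Ψ v = c ∧
    ∃ j : ℕ, (F n c)^[j] (X v) = z

/-- The extended region of multipliers. -/
def UU (N : ℕ) (κ : ℝ) : Set ℂ := {w : ℂ | w = 0 ∨ log w ∈ Omg N κ}

/-- NCZ (from OMG, LOCZ and CNT of PLIM): at most one cycle, also for the multiplier zero. -/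
def T_NCZ : Prop := ∀ (R : ℕ) (κ : ℝ), 0 < κ → NCUk R κ → ∀ (n k k' : ℕ) (c z z' w w' : ℂ),
  2 ≤ n → 1 ≤ k → 1 ≤ k' → k ≤ R * k' → k' ≤ R * k → Pt n k c z w → Pt n k' c z' w' →
  w ∈ UU (6 * (R + 1)) κ → w' ∈ UU (6 * (R + 1)) κ → ∃ j : ℕ, (F n c)^[j] z = z'

/-- EXM (from MEX.NCX, NC2, NCU, NCZ, GOD, GLB, IJG, CMP): the global extension theorem. -/
def T_EXM : Prop := ∀ R : ℕ, 1 ≤ R → ∃ κ : ℝ, 0 < κ ∧ κ ≤ 1 ∧ NCXk κ ∧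
  GODk (6 * (R + 1)) κ ∧ NCUk R κ ∧ ∀ n : ℕ, 2 ≤ n →
  (∀ (k k' : ℕ) (c z z' w w' : ℂ), 1 ≤ k → 1 ≤ k' → k ≤ R * k' → k' ≤ R * k → Pt n k c z w →
    Pt n k' c z' w' → w ∈ UU (6 * (R + 1)) κ → w' ∈ UU (6 * (R + 1)) κ →
    ∃ j : ℕ, (F n c)^[j] z = z') ∧
  (∀ (k : ℕ) (c : ℂ), 1 ≤ k → Pt n k c 0 0 → ∃ Ψ X : ℂ → ℂ,
    Glob n k (6 * (R + 1)) κ c Ψ X ∧ InjOn Ψ (DD n (6 * (R + 1)) κ)) ∧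
  (∀ (k k' : ℕ) (c c' : ℂ) (Ψ X Ψ' X' : ℂ → ℂ) (w w' : ℂ), 1 ≤ k → 1 ≤ k' → k ≤ R * k' →
    k' ≤ R * k → Glob n k (6 * (R + 1)) κ c Ψ X → Glob n k' (6 * (R + 1)) κ c' Ψ' X' →
    w ∈ DD n (6 * (R + 1)) κ → w' ∈ DD n (6 * (R + 1)) κ → Ψ w = Ψ' w' → k = k' ∧ c = c') ∧
  ∀ (k : ℕ) (c z w : ℂ), 1 ≤ k → Pt n k c z w → w ∈ UU (6 * (R + 1)) κ →
    ∃ c0 : ℂ, Pt n k c0 0 0 ∧ ∀ Ψ X : ℂ → ℂ, Glob n k (6 * (R + 1)) κ c0 Ψ X →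
      ∃ v ∈ DD n (6 * (R + 1)) κ, Ψ v = c ∧ ∃ j : ℕ, (F n c)^[j] (X v) = z

/-! ### G. relative bounds -/

/-- KDI (from KOEB of PLIM): a distortion theorem with a bad constant. -/
def T_KDI : Prop := ∃ C : ℝ, 1 ≤ C ∧ ∀ (a : ℂ) (R : ℝ) (g : ℂ → ℂ), 0 < R →
  DifferentiableOn ℂ g (Metric.ball a R) → InjOn g (Metric.ball a R) →
  (∀ x ∈ Metric.ball a (R / 2), ‖g x - g a‖ ≤ C * ‖deriv g a‖ * ‖x - a‖ ∧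
    ‖deriv g x‖ ≤ C * ‖deriv g a‖ ∧ ‖deriv g a‖ ≤ C * ‖deriv g x‖) ∧
  Metric.ball (g a) (‖deriv g a‖ * R / C) ⊆ g '' Metric.ball a R

/-- LIMBZ (from TOP, OMC, FIXE, BOT, LOG, GREEN of PLIM; adapt MEX/LIMBX.lean): the limb in the
image of a given section. -/
def T_LIMBZ : Prop := ∀ (n : ℕ) (C1 : ℝ), 2 ≤ n → 0 < C1 → OMXn n C1 →
  ∀ (k p q : ℕ) (r z0 : ℂ) (A : Set ℂ) (η : ℝ) (ψ χ : ℂ → ℂ),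
  IsLimb n k p q r z0 A → 0 < η → η ≤ 1 / 4 → 2 * (C1 * k / q) < η →
  DifferentiableOn ℂ ψ (Metric.ball ((2 * Real.pi * p / q : ℝ) * I) η) →
  ContinuousOn χ (Metric.ball ((2 * Real.pi * p / q : ℝ) * I) η) →
  ψ ((2 * Real.pi * p / q : ℝ) * I) = r → χ ((2 * Real.pi * p / q : ℝ) * I) = z0 →
  (∀ μ ∈ Metric.ball (((2 * Real.pi * p / q : ℝ) : ℂ) * I) η, Pt n k (ψ μ) (χ μ) (exp μ) ∧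
    ‖ψ μ‖ ≤ 16 ∧ deriv ψ μ ≠ 0) →
  ∀ c ∈ A, ∃ μ : ℂ, ‖μ - (2 * Real.pi * p / q : ℝ) * I‖ ≤ C1 * k / q ∧ ψ μ = c

/-- LIMBY (from LIMBZ, KDI, OMG, DDO): the limbs are in the image of the extended disc, with a
bound relative to the hyperbolic component. -/
def T_LIMBY : Prop := ∀ κ : ℝ, 0 < κ → κ ≤ 1 → GODk 12 κ → NCUk 1 κ → ∃ C : ℝ, 0 < C ∧
  ∀ (n : ℕ) (C1 : ℝ), 2 ≤ n → 0 < C1 → OMXn n C1 →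
  ∀ (k p q : ℕ) (c0 w0 : ℂ) (Ψ X : ℂ → ℂ) (A : Set ℂ) (δ : ℝ), 1 ≤ k → Glob n k 12 κ c0 Ψ X →
  w0 ^ (n - 1) = exp (2 * Real.pi * I * p / q) → IsLimb n k p q (Ψ w0) (X w0) A → 0 < δ →
  FarN 12 δ (2 * Real.pi * p / q) → C * C1 * k < q * LL δ →
  ∀ c ∈ A, (∃ w ∈ DD n 12 κ, Ψ w = c ∧ ‖w - w0‖ * (((n - 1 : ℕ) : ℝ) * q) ≤ C * C1 * k) ∧
    ‖c - Ψ w0‖ * (q * LL δ) ≤ C * C1 * k * Metric.diam (Ψ '' Metric.ball 0 1)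

/-- FIM (from EXM, LIMBY, `FINX_.omx` of MEX/FINX.lean): the final theorem. -/
def T_FIM : Prop := ∃ κ C : ℝ, 0 < κ ∧ κ ≤ 1 ∧ 0 < C ∧ NCXk κ ∧ GODk 12 κ ∧ NCUk 1 κ ∧
  ∀ n : ℕ, 2 ≤ n →
  (∀ (k : ℕ) (c z z' w w' : ℂ), 1 ≤ k → Pt n k c z w → Pt n k c z' w' → w ∈ UU 12 κ →
    w' ∈ UU 12 κ → ∃ j : ℕ, (F n c)^[j] z = z') ∧
  (∀ (k : ℕ) (c : ℂ), 1 ≤ k → Pt n k c 0 0 → ∃ Ψ X : ℂ → ℂ,
    Glob n k 12 κ c Ψ X ∧ InjOn Ψ (DD n 12 κ)) ∧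
  (∀ (k : ℕ) (c c' : ℂ) (Ψ X Ψ' X' : ℂ → ℂ) (w w' : ℂ), 1 ≤ k → Glob n k 12 κ c Ψ X →
    Glob n k 12 κ c' Ψ' X' → w ∈ DD n 12 κ → w' ∈ DD n 12 κ → Ψ w = Ψ' w' → c = c') ∧
  (∀ (k : ℕ) (c z w : ℂ), 1 ≤ k → Pt n k c z w → w ∈ UU 12 κ →
    ∃ c0 : ℂ, Pt n k c0 0 0 ∧ ∀ Ψ X : ℂ → ℂ, Glob n k 12 κ c0 Ψ X →
      ∃ v ∈ DD n 12 κ, Ψ v = c ∧ ∃ j : ℕ, (F n c)^[j] (X v) = z) ∧
  ∀ (k p q : ℕ) (c0 w0 : ℂ) (Ψ X : ℂ → ℂ) (A : Set ℂ) (δ : ℝ), 1 ≤ k → Glob n k 12 κ c0 Ψ X →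
    w0 ^ (n - 1) = exp (2 * Real.pi * I * p / q) → IsLimb n k p q (Ψ w0) (X w0) A → 0 < δ →
    FarN 12 δ (2 * Real.pi * p / q) → C * Real.log n * k < q * LL δ →
    ∀ c ∈ A, (∃ w ∈ DD n 12 κ, Ψ w = c ∧
        ‖w - w0‖ * (((n - 1 : ℕ) : ℝ) * q) ≤ C * Real.log n * k) ∧
      ‖c - Ψ w0‖ * (q * LL δ) ≤ C * Real.log n * k * Metric.diam (Ψ '' Metric.ball 0 1)

end Pool.Agent.MEY
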